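import Mathlib

/-!
A majority lemma.
-/

set_option autoImplicit false

namespace Pool.Agent.Lib.MP_baf44c_co.Q1

/-- `w` and `w'` agree outside `E` and differ everywhere on `E`; `B` bounds the number of unordered
pairs on which `w` is not constant plus the number of those on which `w'` is not constant (`hB` counts
ordered pairs). Let `C` be a largest class of `w` on the complement of `E` (`n₀` elements), `γ₀ ∈ C`,
`s = n₀ - |C|`. (1) The ordered pairs outside `E` on which `w` is not constant are at least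
`n₀ ^ 2 - n₀ |C| = n₀ s`, and the same for `w'`. (2) Ordered pairs between `C` and `S` (the complement
of `C` outside `E`) count `2 * 2 s (n₀ - s)`; for `ε ∈ E` and `γ ∉ E`, `w ε ≠ w γ` or `w' ε ≠ w' γ`, which
gives `2 |E| (n₀ - s) + 2 |E| s` more. -/
theorem maj {Ω α : Type} [Fintype Ω] [DecidableEq Ω] [DecidableEq α] (w w' : Ω → α)
    (E : Finset Ω) (hoff : ∀ γ, γ ∉ E → w γ = w' γ) (hon : ∀ ε ∈ E, w ε ≠ w' ε) {B n₀ : ℕ}
    (hn₀ : E.card + n₀ = Fintype.card Ω) (hpos : 0 < n₀)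
    (hB : (Finset.univ.filter (fun q : Ω × Ω => w q.1 ≠ w q.2)).card +
      (Finset.univ.filter (fun q : Ω × Ω => w' q.1 ≠ w' q.2)).card ≤ 2 * B) :
    ∃ γ₀, γ₀ ∉ E ∧ ∃ s : ℕ,
      (Finset.univ.filter (fun γ : Ω => γ ∉ E ∧ w γ ≠ w γ₀)).card = s ∧ s ≤ n₀ ∧
      n₀ * s ≤ B ∧ (2 * s + E.card) * (n₀ - s) + E.card * s ≤ B := by
  classical
  have hU : (Eᶜ : Finset Ω).card = n₀ := by
    have h1 := Finset.card_add_card_compl E
    omega
  have hne : (Eᶜ : Finset Ω).Nonempty := by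
    rw [← Finset.card_pos]; omega
  -- number of elements outside `E` in another class
  let d : Ω → ℕ := fun x => ((Eᶜ : Finset Ω).filter (fun y => w y ≠ w x)).card
  obtain ⟨γ₀, hγ₀, hmin⟩ := Finset.exists_min_image (Eᶜ : Finset Ω) d hne
  have hγ₀' : γ₀ ∉ E := by simpa using hγ₀
  have hdle : ∀ x, d x ≤ n₀ := fun x => by
    rw [← hU]; exact Finset.card_filter_le _ _
  -- rows
  have hrow : ∀ v : Ω → α, (Finset.univ.filter (fun q : Ω × Ω => v q.1 ≠ v q.2)).card =
      ∑ x : Ω, ((∑ y ∈ E, if v x ≠ v y then 1 else 0) +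
        (∑ y ∈ Eᶜ, if v x ≠ v y then 1 else 0)) := by
    intro v
    rw [Finset.card_filter, Fintype.sum_prod_type]
    refine Finset.sum_congr rfl fun x _ => ?_
    rw [Finset.sum_add_sum_compl]
  have hd1 : ∀ x, (∑ y ∈ Eᶜ, if w x ≠ w y then 1 else 0) = d x := by
    intro x
    rw [← Finset.card_filter]
    exact congrArg Finset.card (Finset.filter_congr fun y _ => by
      constructor <;> exact fun h h' => h h'.symm)
  have hd2 : ∀ x ∈ (Eᶜ : Finset Ω), (∑ y ∈ Eᶜ, if w' x ≠ w' y then 1 else 0) = d x := by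
    intro x hx
    rw [← hd1 x]
    refine Finset.sum_congr rfl fun y hy => ?_
    rw [hoff x (by simpa using hx), hoff y (by simpa using hy)]
  have hx1 : ∀ x ∈ (Eᶜ : Finset Ω), E.card + 2 * d x ≤
      ((∑ y ∈ E, if w x ≠ w y then 1 else 0) + (∑ y ∈ Eᶜ, if w x ≠ w y then 1 else 0)) +
      ((∑ y ∈ E, if w' x ≠ w' y then 1 else 0) + (∑ y ∈ Eᶜ, if w' x ≠ w' y then 1 else 0)) := by
    intro x hx
    rw [hd1 x, hd2 x hx]
    have hE : E.card ≤ (∑ y ∈ E, if w x ≠ w y then 1 else 0) +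
        (∑ y ∈ E, if w' x ≠ w' y then 1 else 0) := by
      rw [← Finset.sum_add_distrib, Finset.card_eq_sum_ones]
      refine Finset.sum_le_sum fun y hy => ?_
      have hxx := hoff x (by simpa using hx)
      have hyy := hon y hy
      by_cases h1 : w x = w y
      · have h2 : w' x ≠ w' y := by
          intro h2; apply hyy; rw [← h1, ← h2, hxx]
        simp [h2]
      · simp [h1]
    omega
  have hx2 : ∀ x ∈ E, n₀ ≤
      ((∑ y ∈ E, if w x ≠ w y then 1 else 0) + (∑ y ∈ Eᶜ, if w x ≠ w y then 1 else 0)) +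
      ((∑ y ∈ E, if w' x ≠ w' y then 1 else 0) + (∑ y ∈ Eᶜ, if w' x ≠ w' y then 1 else 0)) := by
    intro x hx
    have hE : (Eᶜ : Finset Ω).card ≤ (∑ y ∈ Eᶜ, if w x ≠ w y then 1 else 0) +
        (∑ y ∈ Eᶜ, if w' x ≠ w' y then 1 else 0) := by
      rw [← Finset.sum_add_distrib, Finset.card_eq_sum_ones]
      refine Finset.sum_le_sum fun y hy => ?_
      have hyy := hoff y (by simpa using hy)
      have hxx := hon x hx
      by_cases h1 : w x = w y
      · have h2 : w' x ≠ w' y := by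
          intro h2; apply hxx; rw [h1, h2, hyy]
        simp [h2]
      · simp [h1]
    omega
  -- total
  have htot : E.card * n₀ + ∑ x ∈ (Eᶜ : Finset Ω), (E.card + 2 * d x) ≤ 2 * B := by
    refine le_trans ?_ hB
    rw [hrow w, hrow w', ← Finset.sum_add_distrib, ← Finset.sum_add_sum_compl E]
    refine add_le_add ?_ (Finset.sum_le_sum hx1)
    calc E.card * n₀ = ∑ _x ∈ E, n₀ := by rw [Finset.sum_const, smul_eq_mul]
      _ ≤ _ := Finset.sum_le_sum hx2
  have htot' : E.card * n₀ + (E.card * n₀ + 2 * ∑ x ∈ (Eᶜ : Finset Ω), d x) ≤ 2 * B := by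
    have h1 : ∑ x ∈ (Eᶜ : Finset Ω), (E.card + 2 * d x) =
        E.card * n₀ + 2 * ∑ x ∈ (Eᶜ : Finset Ω), d x := by
      rw [Finset.sum_add_distrib, Finset.sum_const, hU, smul_eq_mul, ← Finset.mul_sum, mul_comm n₀]
    rw [h1] at htot
    exact htot
  -- (1)
  have hone : n₀ * d γ₀ ≤ ∑ x ∈ (Eᶜ : Finset Ω), d x := by
    calc n₀ * d γ₀ = ∑ _x ∈ (Eᶜ : Finset Ω), d γ₀ := by rw [Finset.sum_const, hU, smul_eq_mul]
      _ ≤ _ := Finset.sum_le_sum hmin
  -- (2)
  have hsplit : ((Eᶜ : Finset Ω).filter (fun y => w y = w γ₀)).card = n₀ - d γ₀ := by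
    have h1 := Finset.card_filter_add_card_filter_not (s := (Eᶜ : Finset Ω)) (fun y => w y = w γ₀)
    have h2 : ((Eᶜ : Finset Ω).filter (fun y => ¬ w y = w γ₀)).card = d γ₀ := rfl
    omega
  have htwo : 2 * (d γ₀ * (n₀ - d γ₀)) ≤ ∑ x ∈ (Eᶜ : Finset Ω), d x := by
    rw [← Finset.sum_filter_add_sum_filter_not (Eᶜ : Finset Ω) (fun y => w y = w γ₀)]
    have h1 : (n₀ - d γ₀) * d γ₀ ≤ ∑ x ∈ (Eᶜ : Finset Ω).filter (fun y => w y = w γ₀), d x := by
      calc (n₀ - d γ₀) * d γ₀ =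
          ∑ _x ∈ (Eᶜ : Finset Ω).filter (fun y => w y = w γ₀), d γ₀ := by
            rw [Finset.sum_const, hsplit, smul_eq_mul]
        _ ≤ _ := by
            refine Finset.sum_le_sum fun x hx => ?_
            exact hmin x (Finset.mem_filter.mp hx).1
    have h2 : d γ₀ * (n₀ - d γ₀) ≤
        ∑ x ∈ (Eᶜ : Finset Ω).filter (fun y => ¬ w y = w γ₀), d x := by
      calc d γ₀ * (n₀ - d γ₀) =
          ∑ _x ∈ (Eᶜ : Finset Ω).filter (fun y => ¬ w y = w γ₀), (n₀ - d γ₀) := by
            rw [Finset.sum_const, smul_eq_mul]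
        _ ≤ _ := by
            refine Finset.sum_le_sum fun x hx => ?_
            rw [← hsplit]
            refine Finset.card_le_card fun y hy => ?_
            rw [Finset.mem_filter] at hy ⊢
            refine ⟨hy.1, ?_⟩
            rw [hy.2]
            exact fun h => (Finset.mem_filter.mp hx).2 h.symm
    have h3 : (n₀ - d γ₀) * d γ₀ = d γ₀ * (n₀ - d γ₀) := mul_comm _ _
    omega
  refine ⟨γ₀, hγ₀', d γ₀, ?_, hdle γ₀, ?_, ?_⟩
  · refine congrArg Finset.card (Finset.ext fun y => ?_)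
    simp
  · omega
  · have h4 : (2 * d γ₀ + E.card) * (n₀ - d γ₀) + E.card * d γ₀ =
        2 * (d γ₀ * (n₀ - d γ₀)) + E.card * n₀ := by
      have h5 : E.card * n₀ = E.card * (n₀ - d γ₀) + E.card * d γ₀ := by
        rw [← mul_add, Nat.sub_add_cancel (hdle γ₀)]
      rw [h5]; ring
    rw [h4]
    omega

/-- Arithmetic: `s ≤ 21` from the first inequality (`p ≥ 61`), then `2 s (p - 4 - s) ≤ 16 p` fails for
`11 ≤ s ≤ 21`, and for `9 ≤ s` if `p ≥ 130`. -/
theorem arith_gen {p s : ℕ} (hp : 61 ≤ p) (hs : s ≤ p - 4) (h1 : (p - 4) * s ≤ 20 * p - 16)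
    (h2 : (2 * s + 4) * (p - 4 - s) + 4 * s ≤ 20 * p - 16) :
    s ≤ if p < 130 then 10 else 8 := by
  have hs21 : s ≤ 21 := by
    by_contra h
    push Not at h
    have : (p - 4) * 22 ≤ (p - 4) * s := Nat.mul_le_mul_left _ h
    omega
  by_contra hcon
  split_ifs at hcon with hp2
  · have : 11 ≤ s := by omega
    interval_cases s <;> omega
  · have : 9 ≤ s := by omega
    interval_cases s <;> omega

/-- Arithmetic: `s ≤ 20` from the first inequality (`p ≥ 61`), then `2 s (p - 3 - s) ≤ 18 p - 4` fails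
for `12 ≤ s ≤ 20`, and for `10 ≤ s` if `p ≥ 130`. -/
theorem arith_deg {p s : ℕ} (hp : 61 ≤ p) (hs : s ≤ p - 3) (heven : Even s)
    (h1 : (p - 3) * s ≤ 20 * p - 10)
    (h2 : (2 * s + 2) * (p - 3 - s) + 2 * s ≤ 20 * p - 10) :
    s ≤ if p < 130 then 10 else 8 := by
  have hs21 : s ≤ 21 := by
    by_contra h
    push Not at h
    have : (p - 3) * 22 ≤ (p - 3) * s := Nat.mul_le_mul_left _ h
    omega
  obtain ⟨r, rfl⟩ := heven
  by_contra hcon
  split_ifs at hcon with hp2
  · have : 6 ≤ r := by omega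
    have : r ≤ 10 := by omega
    interval_cases r <;> omega
  · have : 5 ≤ r := by omega
    have : r ≤ 10 := by omega
    interval_cases r <;> omega

/-- A symmetric set of classes without `0` modulo an odd number has an even number of elements. -/
theorem even_card {n : ℕ} [NeZero n] (hodd : Odd n) (S : Finset (ZMod n))
    (hsym : ∀ s ∈ S, -s ∈ S) (h0 : (0 : ZMod n) ∉ S) : Even S.card := by
  have h1 : (∑ _x ∈ S, (1 : ZMod 2)) = 0 := by
    refine Finset.sum_involution (fun x _ => -x) (fun _ _ => by decide) ?_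
      (fun x hx => hsym x hx) (fun x _ => neg_neg x)
    intro x hx _ hne
    have h2 : (2 : ZMod n) * x = 0 := by
      have h3 : x + x = 0 := by nth_rewrite 1 [← hne]; exact neg_add_cancel x
      rw [two_mul]; exact h3
    have hu : IsUnit (2 : ZMod n) := by
      have : IsUnit ((2 : ℕ) : ZMod n) := (ZMod.isUnit_iff_coprime 2 n).mpr
        (Nat.coprime_two_left.mpr hodd)
      exact_mod_cast this
    have hx0 : x = 0 := (hu.mul_right_eq_zero).mp h2
    exact h0 (hx0 ▸ hx)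
  rw [Finset.sum_const, nsmul_eq_mul, mul_one] at h1
  exact (ZMod.natCast_eq_zero_iff_even).mp h1

end Pool.Agent.Lib.MP_baf44c_co.Q1
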