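import Pool.Agent.Lib.MP_baf44c_co.Q1.CaSum
import Pool.Agent.Lib.MP_baf44c_co.Q1.CaMaj

/-!
The case of a prime dividing the order exactly once: number of classes.
-/

set_option autoImplicit false

namespace Pool.Agent.Lib.MP_baf44c_co.Q1

open Polynomial Pool.Agent.Lib.MP_baf44c_co.FB

private theorem CaCard_neg_ne {p : ℕ} [Fact p.Prime] (hp2 : p ≠ 2) {x : ZMod p} (hx : x ≠ 0) :
    x ≠ -x := by
  intro h
  have h2 : (2 : ZMod p) ≠ 0 := by
    intro h
    have h' : ((2 : ℕ) : ZMod p) = 0 := by exact_mod_cast h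
    rw [ZMod.natCast_eq_zero_iff] at h'
    exact hp2 ((Nat.prime_dvd_prime_iff_eq (Fact.out : p.Prime) Nat.prime_two).1 h')
  have h3 : 2 * x = 0 := by linear_combination h
  rcases mul_eq_zero.1 h3 with h4 | h4
  · exact h2 h4
  · exact hx h4

private theorem CaCard_off {p : ℕ} {τ σ : ℤ} {γ : ZMod p} {β : ℂ}
    (h : ¬ InE ((τ + σ : ℤ) : ZMod p) ((τ - σ : ℤ) : ZMod p) γ) : etaC p τ σ γ β = 0 := by
  unfold InE at h
  simp only [not_or] at h
  obtain ⟨h1, h2, h3, h4⟩ := h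
  have e2 : ((-(τ + σ) : ℤ) : ZMod p) = -((τ + σ : ℤ) : ZMod p) := by push_cast; ring
  have e4 : ((σ - τ : ℤ) : ZMod p) = -((τ - σ : ℤ) : ZMod p) := by push_cast; ring
  unfold etaC
  rw [e2, e4, if_neg (fun h => h1 h.symm), if_neg (fun h => h2 h.symm),
    if_neg (fun h => h3 h.symm), if_neg (fun h => h4 h.symm)]
  ring

private theorem CaCard_on {p : ℕ} [Fact p.Prime] (hp2 : p ≠ 2) {τ σ : ℤ}
    (hτ : ((2 * τ : ℤ) : ZMod p) ≠ 0) (hσ : ((2 * σ : ℤ) : ZMod p) ≠ 0) {γ : ZMod p} {β : ℂ}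
    (hβ : β ≠ 0) (hγ : γ ≠ 0)
    (h : InE ((τ + σ : ℤ) : ZMod p) ((τ - σ : ℤ) : ZMod p) γ) : etaC p τ σ γ β ≠ 0 := by
  have e2 : ((-(τ + σ) : ℤ) : ZMod p) = -((τ + σ : ℤ) : ZMod p) := by push_cast; ring
  have e4 : ((σ - τ : ℤ) : ZMod p) = -((τ - σ : ℤ) : ZMod p) := by push_cast; ring
  have eτ : ((2 * τ : ℤ) : ZMod p) = ((τ + σ : ℤ) : ZMod p) + ((τ - σ : ℤ) : ZMod p) := by
    push_cast; ring
  have eσ : ((2 * σ : ℤ) : ZMod p) = ((τ + σ : ℤ) : ZMod p) - ((τ - σ : ℤ) : ZMod p) := by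
    push_cast; ring
  unfold etaC
  rw [e2, e4]
  rw [eτ] at hτ
  rw [eσ] at hσ
  unfold InE at h
  generalize ((τ + σ : ℤ) : ZMod p) = u at *
  generalize ((τ - σ : ℤ) : ZMod p) = v at *
  have hneg := CaCard_neg_ne hp2 hγ
  rcases h with rfl | rfl | rfl | rfl
  · rw [if_pos rfl, if_neg (fun h => hneg h.symm), if_neg (fun h => hσ (by rw [h, sub_self])),
      if_neg (fun h => hτ (by rw [← h]; ring))]
    simpa using zpow_ne_zero _ hβ
  · rw [if_neg (fun h => hneg (by rw [neg_neg]; exact h.symm)), if_pos rfl, if_neg (fun h => hτ (by rw [h]; ring)),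
      if_neg (fun h => hσ (by rw [neg_inj.1 h]; ring))]
    simpa using zpow_ne_zero _ hβ
  · rw [if_neg (fun h => hσ (by rw [h]; ring)), if_neg (fun h => hτ (by rw [← h]; ring)),
      if_pos rfl, if_neg (fun h => hneg h.symm)]
    simpa using zpow_ne_zero _ hβ
  · rw [if_neg (fun h => hτ (by rw [h]; ring)), if_neg (fun h => hσ (by rw [neg_inj.1 h]; ring)),
      if_neg (fun h => hneg (by rw [neg_neg]; exact h.symm)), if_pos rfl]
    simpa using zpow_ne_zero _ hβ

private theorem CaCard_symm {p : ℕ} [NeZero p] {u v : ZMod p} {w : ZMod p → ℂ}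
    (hw : ∀ γ δ, w (-γ) - w (-δ) = star (w γ - w δ)) {γ₀ : ZMod p}
    (S : Finset (ZMod p)) (hS : ∀ γ, γ ∈ S ↔ ¬ InE u v γ ∧ w γ ≠ w γ₀)
    (hcard : 2 * S.card < (Finset.univ.filter (fun γ : ZMod p => ¬ InE u v γ)).card) :
    ∀ s ∈ S, -s ∈ S := by
  classical
  have hE : ∀ γ : ZMod p, ¬ InE u v γ → ¬ InE u v (-γ) := by
    intro γ h h'
    apply h
    unfold InE at h' ⊢
    rcases h' with h' | h' | h' | h'
    · right; left; rw [← h', neg_neg]
    · left; exact neg_inj.1 h'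
    · right; right; right; rw [← h', neg_neg]
    · right; right; left; exact neg_inj.1 h'
  set N := Finset.univ.filter (fun γ : ZMod p => ¬ InE u v γ) with hN
  have hSN : S ⊆ N := by
    intro γ h
    rw [hN, Finset.mem_filter]
    exact ⟨Finset.mem_univ _, ((hS γ).1 h).1⟩
  set C := N \ S with hC
  have hCcard : C.card = N.card - S.card := Finset.card_sdiff_of_subset hSN
  have hSle : S.card ≤ N.card := Finset.card_le_card hSN
  have hC' : (C.image (fun x => -x)).card = C.card :=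
    Finset.card_image_of_injective _ neg_injective
  have hnd : ¬ Disjoint C (C.image (fun x => -x)) := by
    intro hd
    have h1 := Finset.card_union_of_disjoint hd
    have h2 : C ∪ C.image (fun x => -x) ⊆ N := by
      intro γ h
      rcases Finset.mem_union.1 h with h | h
      · exact (Finset.mem_sdiff.1 h).1
      · obtain ⟨x, hx, rfl⟩ := Finset.mem_image.1 h
        have hx' := (Finset.mem_filter.1 (Finset.mem_sdiff.1 hx).1).2
        rw [hN, Finset.mem_filter]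
        exact ⟨Finset.mem_univ _, hE _ hx'⟩
    have h3 := Finset.card_le_card h2
    omega
  rw [Finset.not_disjoint_iff] at hnd
  obtain ⟨δ, hδ, hδ'⟩ := hnd
  obtain ⟨ε, hε, hεδ⟩ := Finset.mem_image.1 hδ'
  have hmem : ∀ x ∈ C, ¬ InE u v x ∧ w x = w γ₀ := by
    intro x hx
    obtain ⟨hx1, hx2⟩ := Finset.mem_sdiff.1 hx
    have hx3 := (Finset.mem_filter.1 hx1).2
    refine ⟨hx3, ?_⟩
    by_contra hne
    exact hx2 ((hS x).2 ⟨hx3, hne⟩)
  have hwδ := (hmem δ hδ).2
  have hwε := (hmem ε hε).2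
  intro s hs
  obtain ⟨hs1, hs2⟩ := (hS s).1 hs
  refine (hS (-s)).2 ⟨hE s hs1, ?_⟩
  intro heq
  apply hs2
  have h1 := hw s ε
  rw [hεδ, hwδ, heq, sub_self] at h1
  have h2 : w s - w ε = 0 := by
    have := congrArg star h1
    rw [star_star, star_zero] at this
    exact this.symm
  rw [hwε] at h2
  exact sub_eq_zero.1 h2

section

variable {p M : ℕ} (hp : p.Prime) [NeZero p] (hp2 : p ≠ 2) (hM : 0 < M) (hpM : ¬ p ∣ M) {τ σ : ℤ}
    (hτ : ((2 * τ : ℤ) : ZMod p) ≠ 0) (hσ : ((2 * σ : ℤ) : ZMod p) ≠ 0)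
    {G : ℂ → ℂ} (hG : IsCyc (p * M) G) {c : ZMod p → ℂ → ℂ} (hc : ∀ γ, IsCyc M (c γ))
    (hcG : ∀ j : ZMod p, j ≠ 0 → ∀ β ∈ primitiveRoots M ℂ,
      G (ZMod.stdAddChar j * β) = ∑ γ : ZMod p, ZMod.stdAddChar (j * γ) * c γ β)
    (hsq : ∀ μ ∈ primitiveRoots (p * M) ℂ,
        (eta τ σ μ + 2 * G μ) ^ 2 = D (μ ^ (2 * τ)) * D (μ ^ (2 * σ)))

include hp hp2 hM hpM hτ hσ hG hc hcG hsq

/-- If `u = τ + σ`, `v = τ - σ` are both `≠ 0` mod `p`: `maj` with `Ω = ZMod p`, `E = {±u, ±v}` (four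
classes, `etaC ≠ 0` there and `= 0` outside), `w = c · β₀`, `w' = c · β₀ + etaC · β₀`,
`B = 20 p - 16`, `ca_pairs_gen`, then `arith_gen`. Otherwise `Ω` is the set of nonzero classes, `E` its
two classes `±u` (or `±v`), `B = 20 p - 10`, `ca_pairs_deg`, and then `arith_deg`; here `s` is even by
`even_card` once the symmetry is known. Symmetry: by `ca_symm`, `c γ β₀ = c δ β₀` iff
`c (-γ) β₀ = c (-δ) β₀`; so `-C` is a class like `C = {γ | ¬ InE .. γ, c γ β₀ = c γ₀ β₀}`; as `C`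
contains more than half of the classes outside `E` (`s ≤ 21 < (p - 4) / 2`), `-C` meets `C`, so
`-C = C`. -/
theorem ca_card (h61 : 61 ≤ p) {β₀ : ℂ} (hβ₀ : β₀ ∈ primitiveRoots M ℂ) :
    ∃ γ₀ : ZMod p, ¬ InE ((τ + σ : ℤ) : ZMod p) ((τ - σ : ℤ) : ZMod p) γ₀ ∧
      ∃ S : Finset (ZMod p), S.card ≤ lm p ∧ (∀ s ∈ S, -s ∈ S) ∧
      ∀ γ, γ ∈ S ↔ ¬ InE ((τ + σ : ℤ) : ZMod p) ((τ - σ : ℤ) : ZMod p) γ ∧ c γ β₀ ≠ c γ₀ β₀ := by
  classical
  have : Fact p.Prime := ⟨hp⟩
  have hsymm : ∀ γ δ : ZMod p, c (-γ) β₀ - c (-δ) β₀ = star (c γ β₀ - c δ β₀) :=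
    fun γ δ => ca_symm hp hp2 hM hpM hτ hσ hG hc hcG hsq hβ₀ γ δ
  have hβ0 : β₀ ≠ 0 := by
    have hβ' := (mem_primitiveRoots hM).1 hβ₀
    exact hβ'.ne_zero hM.ne'
  have hon := fun (γ : ZMod p) (h0 : γ ≠ 0) (h : InE ((τ + σ : ℤ) : ZMod p) ((τ - σ : ℤ) : ZMod p) γ) =>
    CaCard_on hp2 hτ hσ hβ0 h0 h
  have hoff := fun (γ : ZMod p) (h : ¬ InE ((τ + σ : ℤ) : ZMod p) ((τ - σ : ℤ) : ZMod p) γ) =>
    CaCard_off (β := β₀) h
  have eτ : ((2 * τ : ℤ) : ZMod p) = ((τ + σ : ℤ) : ZMod p) + ((τ - σ : ℤ) : ZMod p) := by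
    push_cast; ring
  have eσ : ((2 * σ : ℤ) : ZMod p) = ((τ + σ : ℤ) : ZMod p) - ((τ - σ : ℤ) : ZMod p) := by
    push_cast; ring
  have hgen := ca_pairs_gen hp hp2 hM hpM hτ hσ hG hc hcG hsq (β₀ := β₀)
  have hdeg := ca_pairs_deg hp hp2 hM hpM hτ hσ hG hc hcG hsq (β₀ := β₀)
  rw [eτ] at hτ
  rw [eσ] at hσ
  generalize ((τ + σ : ℤ) : ZMod p) = u at *
  generalize ((τ - σ : ℤ) : ZMod p) = v at *
  by_cases h0 : u = 0 ∨ v = 0
  · have hB := hdeg h0 hβ₀
    -- the nonzero one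
    obtain ⟨x, hx0, hxE⟩ : ∃ x : ZMod p, x ≠ 0 ∧ ∀ γ : ZMod p, InE u v γ ↔ γ = 0 ∨ γ = x ∨ γ = -x := by
      rcases h0 with rfl | rfl
      · refine ⟨v, fun h => hτ (by rw [h, add_zero]), fun γ => ?_⟩
        unfold InE
        rw [neg_zero]
        exact ⟨fun h => h.elim Or.inl id, Or.inr⟩
      · refine ⟨u, fun h => hτ (by rw [h, add_zero]), fun γ => ?_⟩
        unfold InE
        rw [neg_zero]
        constructor
        · rintro (h | h | h | h)
          exacts [Or.inr (Or.inl h), Or.inr (Or.inr h), Or.inl h, Or.inl h]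
        · rintro (h | h | h)
          exacts [Or.inr (Or.inr (Or.inl h)), Or.inl h, Or.inr (Or.inl h)]
    have hxx := CaCard_neg_ne hp2 hx0
    set E : Finset {γ : ZMod p // γ ≠ 0} := {⟨x, hx0⟩, ⟨-x, neg_ne_zero.2 hx0⟩} with hE
    have hEcard : E.card = 2 := by
      rw [hE]
      refine Finset.card_pair ?_
      intro h
      exact hxx (Subtype.mk.inj h)
    have hEmem : ∀ γ : {γ : ZMod p // γ ≠ 0}, γ ∈ E ↔ InE u v γ.1 := by
      intro γ
      rw [hE, Finset.mem_insert, Finset.mem_singleton, hxE, Subtype.ext_iff, Subtype.ext_iff]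
      exact ⟨Or.inr, fun h => h.resolve_left γ.2⟩
    have hΩ : Fintype.card {γ : ZMod p // γ ≠ 0} = p - 1 := by
      rw [Fintype.card_subtype_compl, ZMod.card, Fintype.card_subtype_eq]
    obtain ⟨γ₀, hγ₀, s, hs, hsle, h1, h2⟩ := maj (Ω := {γ : ZMod p // γ ≠ 0}) (α := ℂ)
      (fun γ => c γ.1 β₀) (fun γ => c γ.1 β₀ + etaC p τ σ γ.1 β₀) E
      (fun γ hγ => by
        rw [hEmem] at hγ
        simp only [hoff γ.1 hγ, add_zero])
      (fun γ hγ => by
        rw [hEmem] at hγ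
        intro h
        exact hon γ.1 γ.2 hγ (by simpa using h.symm))
      (B := 20 * p - 10) (n₀ := p - 3) (by rw [hEcard, hΩ]; omega) (by omega) (by convert hB)
    set S : Finset (ZMod p) := Finset.univ.filter
      (fun γ => ¬ InE u v γ ∧ c γ β₀ ≠ c γ₀.1 β₀) with hSdef
    have hS : ∀ γ, γ ∈ S ↔ ¬ InE u v γ ∧ c γ β₀ ≠ c γ₀.1 β₀ := by
      intro γ
      rw [hSdef, Finset.mem_filter]
      simp
    have hScard : S.card = s := by
      rw [← hs]
      symm
      refine Finset.card_bij (fun γ _ => γ.1) ?_ ?_ ?_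
      · intro γ hγ
        rw [Finset.mem_filter, hEmem] at hγ
        exact (hS γ.1).2 hγ.2
      · intro a _ b _ hab
        exact Subtype.ext hab
      · intro γ hγ
        have h := (hS γ).1 hγ
        have hγ0 : γ ≠ 0 := by
          rintro rfl
          exact h.1 ((hxE 0).2 (Or.inl rfl))
        refine ⟨⟨γ, hγ0⟩, ?_, rfl⟩
        rw [Finset.mem_filter, hEmem]
        exact ⟨Finset.mem_univ _, h⟩
    have hNcard : (Finset.univ.filter (fun γ : ZMod p => ¬ InE u v γ)).card = p - 3 := by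
      have h3 : Finset.univ.filter (fun γ : ZMod p => ¬ InE u v γ) =
          Finset.univ \ ({0, x, -x} : Finset (ZMod p)) := by
        ext γ
        simp only [Finset.mem_filter, Finset.mem_univ, true_and, Finset.mem_sdiff,
          Finset.mem_insert, Finset.mem_singleton, hxE]
      rw [h3, Finset.card_sdiff_of_subset (Finset.subset_univ _), Finset.card_univ, ZMod.card]
      congr 1
      rw [Finset.card_insert_of_notMem, Finset.card_pair hxx]
      simp only [Finset.mem_insert, Finset.mem_singleton, not_or]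
      exact ⟨fun h => hx0 h.symm, fun h => hx0 (by rw [← neg_eq_zero]; exact h.symm)⟩
    have hs20 : s ≤ 20 := by
      by_contra hlt
      have h3 : (p - 3) * 21 ≤ (p - 3) * s := Nat.mul_le_mul_left _ (by omega)
      omega
    have hSsym := CaCard_symm hsymm S hS (by rw [hNcard, hScard]; omega)
    have hodd : Odd p := hp.odd_of_ne_two hp2
    have h0S : (0 : ZMod p) ∉ S := by
      intro h
      exact ((hS 0).1 h).1 ((hxE 0).2 (Or.inl rfl))
    have heven := even_card hodd S hSsym h0S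
    rw [hScard] at heven
    rw [hEcard] at h2
    refine ⟨γ₀.1, fun h => hγ₀ ((hEmem γ₀).2 h), S, ?_, hSsym, hS⟩
    rw [hScard]
    exact arith_deg h61 hsle heven h1 h2
  · have hu0 : u ≠ 0 := fun h => h0 (Or.inl h)
    have hv0 : v ≠ 0 := fun h => h0 (Or.inr h)
    have hB := hgen hu0 hv0 hβ₀
    have huu := CaCard_neg_ne hp2 hu0
    have hvv := CaCard_neg_ne hp2 hv0
    set E : Finset (ZMod p) := {u, -u, v, -v} with hE
    have hEcard : E.card = 4 := by
      rw [hE, Finset.card_insert_of_notMem, Finset.card_insert_of_notMem, Finset.card_pair hvv]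
      · simp only [Finset.mem_insert, Finset.mem_singleton, not_or]
        exact ⟨fun h => hτ (by rw [← h]; ring), fun h => hσ (by rw [neg_inj.1 h]; ring)⟩
      · simp only [Finset.mem_insert, Finset.mem_singleton, not_or]
        exact ⟨huu, fun h => hσ (by rw [h]; ring), fun h => hτ (by rw [h]; ring)⟩
    have hEmem : ∀ γ : ZMod p, γ ∈ E ↔ InE u v γ := by
      intro γ
      rw [hE]
      simp only [Finset.mem_insert, Finset.mem_singleton]
      rfl
    have hE0 : ∀ γ : ZMod p, InE u v γ → γ ≠ 0 := by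
      intro γ h
      rcases h with rfl | rfl | rfl | rfl
      · exact hu0
      · exact neg_ne_zero.2 hu0
      · exact hv0
      · exact neg_ne_zero.2 hv0
    obtain ⟨γ₀, hγ₀, s, hs, hsle, h1, h2⟩ := maj (Ω := ZMod p) (α := ℂ)
      (fun γ => c γ β₀) (fun γ => c γ β₀ + etaC p τ σ γ β₀) E
      (fun γ hγ => by
        rw [hEmem] at hγ
        simp only [hoff γ hγ, add_zero])
      (fun γ hγ => by
        rw [hEmem] at hγ
        intro h
        exact hon γ (hE0 γ hγ) hγ (by simpa using h.symm))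
      (B := 20 * p - 16) (n₀ := p - 4) (by rw [hEcard, ZMod.card]; omega) (by omega)
      (by convert hB)
    set S : Finset (ZMod p) := Finset.univ.filter
      (fun γ => ¬ InE u v γ ∧ c γ β₀ ≠ c γ₀ β₀) with hSdef
    have hS : ∀ γ, γ ∈ S ↔ ¬ InE u v γ ∧ c γ β₀ ≠ c γ₀ β₀ := by
      intro γ
      rw [hSdef, Finset.mem_filter]
      simp
    have hScard : S.card = s := by
      rw [← hs]
      congr 1
      ext γ
      rw [hS, Finset.mem_filter, hEmem]
      simp
    have hNcard : (Finset.univ.filter (fun γ : ZMod p => ¬ InE u v γ)).card = p - 4 := by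
      have h3 : Finset.univ.filter (fun γ : ZMod p => ¬ InE u v γ) = Finset.univ \ E := by
        ext γ
        rw [Finset.mem_sdiff, Finset.mem_filter, hEmem]
      rw [h3, Finset.card_sdiff_of_subset (Finset.subset_univ _), Finset.card_univ, ZMod.card,
        hEcard]
    have hs21 : s ≤ 21 := by
      by_contra hlt
      have h3 : (p - 4) * 22 ≤ (p - 4) * s := Nat.mul_le_mul_left _ (by omega)
      omega
    have hSsym := CaCard_symm hsymm S hS (by rw [hNcard, hScard]; omega)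
    rw [hEcard] at h2
    refine ⟨γ₀, fun h => hγ₀ ((hEmem γ₀).2 h), S, ?_, hSsym, hS⟩
    rw [hScard]
    exact arith_gen h61 hsle h1 h2

end

end Pool.Agent.Lib.MP_baf44c_co.Q1
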