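import Pool.Agent.Lib.MP_baf44c_co.Q1.Defs
import Pool.Agent.Lib.MP_baf44c_co.FB.Root
import Pool.Agent.Lib.MP_baf44c_co.FB.Dirichlet

/-!
Lifting of the graded identity with at most three pairs of classes.
-/

set_option autoImplicit false

namespace Pool.Agent.Lib.MP_baf44c_co.Q1

open Polynomial Pool.Agent.Lib.MP_baf44c_co.FB

private theorem sg_sum (x r : ℂ) (m : ℤ) :
    6 + x * r ^ m + x⁻¹ * r ^ (-m) = ∑ a ∈ sg, dd a * (x ^ a * r ^ (a * m)) := by
  simp [sg, dd]
  ring

/-- Compare the proof of `FB.lift`. Let `φ i = (q * i).valMinAbs`; for `i` in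
`S = {0, ±u, ±v, ±s}`, `|φ i| < n / 4`. With `m = φ u + φ v`, `l = φ u - φ v` the nine integers
`p.1 * m + p.2 * l` are `0, ±(φ u + φ v), ±(φ u - φ v), ±2 φ u, ±2 φ v`, of absolute value
`< n / 2`, and `p.1 * m + p.2 * l ≡ q (p.1 (u + v) + p.2 (u - v))`. So comparing coefficients of `r ^ j`
(sum `hid` over the `γ` with `q γ = j`) for all `r ≠ 0`
`(∑ i ∈ S, a i * r ^ φ i) ^ 2 = (6 + x r^m + x⁻¹ r^(-m)) (6 + y r^l + y⁻¹ r^(-l))`, and
`root_argument` applies, `m ≠ 0` as `q * (u + v) ≠ 0`. -/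
theorem lift3 {n : ℕ} [NeZero n] (a : ZMod n → ℂ) (u v s q : ZMod n) (x y : ℂ) (hx : ‖x‖ = 1)
    (hy : ‖y‖ = 1)
    (hS : ∀ i, a i ≠ 0 → i = 0 ∨ i = u ∨ i = -u ∨ i = v ∨ i = -v ∨ i = s ∨ i = -s)
    (hq0 : q * (u + v) ≠ 0) (hqu : 4 * |(q * u).valMinAbs| < n)
    (hqv : 4 * |(q * v).valMinAbs| < n) (hqs : 4 * |(q * s).valMinAbs| < n)
    (hid : ∀ γ : ZMod n, ∑ i, a i * a (γ - i) =
      ∑ p ∈ (sg ×ˢ sg).filter (fun p => (p.1 : ZMod n) * (u + v) + (p.2 : ZMod n) * (u - v) = γ),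
        dd p.1 * dd p.2 * (x ^ p.1 * y ^ p.2)) :
    y = x ∨ y = x⁻¹ := by
  have hn : (0 : ℤ) < n := by exact_mod_cast Nat.pos_of_ne_zero (NeZero.ne n)
  obtain ⟨φ, hφ⟩ : ∃ φ : ZMod n → ℤ, ∀ i, φ i = (q * i).valMinAbs := ⟨_, fun _ => rfl⟩
  have hcast : ∀ i, ((φ i : ℤ) : ZMod n) = q * i := fun i => by
    rw [hφ]
    exact ZMod.coe_valMinAbs _
  have heq : ∀ (i : ZMod n) (e : ℤ), (e : ZMod n) = q * i → 2 * |e| < n → φ i = e := fun i e h1 h2 => by
    rw [hφ]
    exact valMinAbs_eq _ _ h1 h2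
  have hneg : ∀ i, 4 * |φ i| < n → 4 * |φ (-i)| < n := by
    intro i hi
    have h1 : φ (-i) = -φ i := by
      apply heq
      · push_cast
        rw [hcast]
        ring
      · rw [abs_neg]
        have := abs_nonneg (φ i)
        omega
    rw [h1, abs_neg]
    exact hi
  rw [← hφ] at hqu hqv hqs
  have hsm : ∀ i, a i ≠ 0 → 4 * |φ i| < n := by
    intro i hi
    rcases hS i hi with h1 | h1 | h1 | h1 | h1 | h1 | h1 <;> subst h1
    · have h2 : φ 0 = 0 := heq 0 0 (by simp) (by simpa using hn)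
      rw [h2]
      simpa using hn
    · exact hqu
    · exact hneg _ hqu
    · exact hqv
    · exact hneg _ hqv
    · exact hqs
    · exact hneg _ hqs
  have hadd : ∀ i j, 4 * |φ i| < n → 4 * |φ j| < n → φ (i + j) = φ i + φ j := by
    intro i j hi hj
    apply heq
    · push_cast
      rw [hcast, hcast]
      ring
    · have := abs_add_le (φ i) (φ j)
      omega
  have hsgm : ∀ p ∈ sg ×ˢ sg, φ ((p.1 : ZMod n) * (u + v) + (p.2 : ZMod n) * (u - v)) =
      p.1 * (φ u + φ v) + p.2 * (φ u - φ v) := by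
    intro p hp
    rw [Finset.mem_product] at hp
    obtain ⟨p1, p2⟩ := p
    obtain ⟨h1, h2⟩ := hp
    simp only [sg, Finset.mem_insert, Finset.mem_singleton] at h1 h2
    apply heq
    · push_cast
      rw [hcast, hcast]
      ring
    · have hu1 := abs_lt.1 (show |4 * φ u| < n by rw [abs_mul]; exact hqu)
      have hv1 := abs_lt.1 (show |4 * φ v| < n by rw [abs_mul]; exact hqv)
      have h3 : |2 * (p1 * (φ u + φ v) + p2 * (φ u - φ v))| < n := by
        rw [abs_lt]
        rcases h1 with rfl | rfl | rfl <;> rcases h2 with rfl | rfl | rfl <;>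
          constructor <;> linarith [hu1.1, hu1.2, hv1.1, hv1.2]
      rw [abs_mul] at h3
      exact h3
  refine root_argument Finset.univ a φ x y hx hy (φ u + φ v) (φ u - φ v) ?_ ?_
  · intro h0
    apply hq0
    rw [mul_add, ← hcast u, ← hcast v, ← Int.cast_add, h0]
    simp
  · intro r hr
    have e1 : (∑ i, a i * r ^ φ i) ^ 2 = ∑ i, ∑ j, a i * a j * r ^ φ (i + j) := by
      rw [sq, Finset.sum_mul_sum]
      refine Finset.sum_congr rfl fun i _ => Finset.sum_congr rfl fun j _ => ?_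
      by_cases hi : a i = 0
      · simp [hi]
      by_cases hj : a j = 0
      · simp [hj]
      rw [hadd i j (hsm i hi) (hsm j hj), zpow_add₀ hr]
      ring
    have e2 : ∀ i, ∑ j, a i * a j * r ^ φ (i + j) = ∑ γ, a i * a (γ - i) * r ^ φ γ := by
      intro i
      refine Fintype.sum_equiv (Equiv.addLeft i) _ _ fun j => ?_
      simp
    have e3 : ∑ i, ∑ j, a i * a j * r ^ φ (i + j) = ∑ γ, (∑ i, a i * a (γ - i)) * r ^ φ γ := by
      simp_rw [e2]
      rw [Finset.sum_comm]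
      refine Finset.sum_congr rfl fun γ _ => ?_
      rw [Finset.sum_mul]
    have e4 : ∑ γ, (∑ i, a i * a (γ - i)) * r ^ φ γ =
        ∑ p ∈ sg ×ˢ sg, dd p.1 * dd p.2 * (x ^ p.1 * y ^ p.2) *
          r ^ (p.1 * (φ u + φ v) + p.2 * (φ u - φ v)) := by
      rw [← Finset.sum_fiberwise (sg ×ˢ sg)
        (fun p => (p.1 : ZMod n) * (u + v) + (p.2 : ZMod n) * (u - v))]
      refine Finset.sum_congr rfl fun γ _ => ?_
      rw [hid γ, Finset.sum_mul]
      refine Finset.sum_congr rfl fun p hp => ?_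
      rw [Finset.mem_filter] at hp
      rw [← hsgm p hp.1, hp.2]
    rw [e1, e3, e4, sg_sum, sg_sum, Finset.sum_mul_sum, Finset.sum_product]
    refine Finset.sum_congr rfl fun c _ => Finset.sum_congr rfl fun d _ => ?_
    rw [zpow_add₀ hr]
    ring

/-- Pigeonhole: the `65` multipliers `0, …, 64` and the `4 ^ 3` boxes for
`(q u, q v, q s) / n mod 1`; two in the same box differ by `q`, `0 < |q| ≤ 64 < addOrderOf d`.
Compare the proof of `FB.exists_mul`. -/
theorem rect3_of_order {n : ℕ} [NeZero n] {d : ZMod n} (hd : 64 < addOrderOf d) : Rect3 n d := by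
  intro u v s _
  classical
  have h4 : 4 ^ ({u, v, s} : Finset (ZMod n)).card < addOrderOf d :=
    lt_of_le_of_lt (Nat.pow_le_pow_right (by norm_num) Finset.card_le_three) (by norm_num; exact hd)
  obtain ⟨q, hq0, hq⟩ := exists_mul {u, v, s} d h4
  exact ⟨q, hq0, hq u (by simp), hq v (by simp), hq s (by simp)⟩

/-- `r mod 61` is in `(-61/4, 61/4)` -/
private def ok61 (r : ℕ) : Bool := (r % 61).ble 15 || (46).ble (r % 61)

private theorem check61 : ((List.range 61).all fun a => (List.range 61).all fun s =>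
    (List.range 61).any fun q => (1).ble q && (ok61 (q * a) && (ok61 (q * (62 - a)) &&
      ok61 (q * s)))) = true := by
  decide +kernel

private theorem c62 : ((62 : ℕ) : ZMod 61) = 1 := by decide

private theorem small61 {r : ℕ} (h : ok61 r = true) : 4 * |((r : ZMod 61)).valMinAbs| < 61 := by
  have hr : ((r : ℕ) : ZMod 61) = ((r % 61 : ℕ) : ZMod 61) := by
    rw [ZMod.natCast_mod]
  have hlt : r % 61 < 61 := Nat.mod_lt _ (by norm_num)
  unfold ok61 at h
  rw [Bool.or_eq_true, Nat.ble_eq, Nat.ble_eq] at h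
  rw [hr]
  rcases h with h | h
  · have h1 : (((r % 61 : ℕ) : ZMod 61)).valMinAbs = ((r % 61 : ℕ) : ℤ) := by
      apply valMinAbs_eq
      · push_cast
        rfl
      · rw [Nat.abs_cast]
        omega
    rw [h1, Nat.abs_cast]
    omega
  · have h1 : (((r % 61 : ℕ) : ZMod 61)).valMinAbs = ((r % 61 : ℕ) : ℤ) - 61 := by
      apply valMinAbs_eq
      · have e0 : ((61 : ℤ) : ZMod 61) = 0 := by decide
        rw [Int.cast_sub, e0, sub_zero, Int.cast_natCast]
      · rw [abs_of_nonpos (by omega)]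
        omega
    rw [h1, abs_of_nonpos (by omega)]
    omega

/-- Multiplying by `d⁻¹` one may assume `d = 1`; then a finite check over `u, s` (`v = 1 - u`),
by `decide +kernel` on a statement about natural numbers. -/
theorem rect3_61 {d : ZMod 61} (hd : d ≠ 0) : Rect3 61 d := by
  intro u v s huv
  have : Fact (Nat.Prime 61) := ⟨by norm_num⟩
  have h1 := check61
  rw [List.all_eq_true] at h1
  have h2 := h1 (u * d⁻¹).val (List.mem_range.2 (ZMod.val_lt _))
  rw [List.all_eq_true] at h2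
  have h3 := h2 (s * d⁻¹).val (List.mem_range.2 (ZMod.val_lt _))
  rw [List.any_eq_true] at h3
  obtain ⟨q, hq, h4⟩ := h3
  rw [List.mem_range] at hq
  rw [Bool.and_eq_true, Bool.and_eq_true, Bool.and_eq_true, Nat.ble_eq] at h4
  obtain ⟨hq1, hu, hv, hs⟩ := h4
  have hu' := small61 hu
  have hv' := small61 hv
  have hs' := small61 hs
  have hle : (u * d⁻¹).val ≤ 62 := by
    have := ZMod.val_lt (u * d⁻¹)
    omega
  rw [Nat.cast_mul, ZMod.natCast_zmod_val] at hu' hs'
  rw [Nat.cast_mul, Nat.cast_sub hle, ZMod.natCast_zmod_val] at hv'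
  refine ⟨(q : ZMod 61) * d⁻¹, ?_, ?_, ?_, ?_⟩
  · rw [mul_assoc, inv_mul_cancel₀ hd, mul_one]
    intro h0
    rw [ZMod.natCast_eq_zero_iff] at h0
    exact absurd (Nat.le_of_dvd (by omega) h0) (by omega)
  · have : (q : ZMod 61) * d⁻¹ * u = q * (u * d⁻¹) := by ring
    rw [this]
    exact_mod_cast hu'
  · have : (q : ZMod 61) * d⁻¹ * v = q * (((62 : ℕ) : ZMod 61) - u * d⁻¹) := by
      have e1 : v = d - u := by rw [← huv]; ring
      have e2 : ((62 : ℕ) : ZMod 61) = d * d⁻¹ := by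
        rw [mul_inv_cancel₀ hd]
        exact c62
      rw [e1, e2]
      ring
    rw [this]
    exact_mod_cast hv'
  · have : (q : ZMod 61) * d⁻¹ * s = q * (s * d⁻¹) := by ring
    rw [this]
    exact_mod_cast hs'

end Pool.Agent.Lib.MP_baf44c_co.Q1
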