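import Pool.Agent.Lib.MP_baf44c_co.Q1.CaHalf
import Pool.Agent.Lib.MP_baf44c_co.Q1.CaCard
import Pool.Agent.Lib.MP_baf44c_co.Q1.Lift3
import Pool.Agent.Lib.MP_baf44c_co.FB.Coeff

/-!
The case of a prime dividing the order exactly once: contradiction.
-/

set_option autoImplicit false

namespace Pool.Agent.Lib.MP_baf44c_co.Q1

open Polynomial Pool.Agent.Lib.MP_baf44c_co.FB

private theorem cac_norm_char {p : ℕ} [NeZero p] (j : ZMod p) :
    ‖(ZMod.stdAddChar j : ℂ)‖ = 1 := by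
  exact AddChar.norm_apply _ _

private theorem cac_char_zpow {p : ℕ} [NeZero p] (j : ZMod p) (k : ℤ) :
    (ZMod.stdAddChar j : ℂ) ^ k = ZMod.stdAddChar (j * (k : ZMod p)) := by
  rw [← AddChar.map_zsmul_eq_zpow]
  congr 1
  rw [zsmul_eq_mul, mul_comm]

private theorem cac_sum_char_zero {p : ℕ} [NeZero p] {j : ZMod p} (hj : j ≠ 0) :
    ∑ γ : ZMod p, (ZMod.stdAddChar (j * γ) : ℂ) = 0 := by
  have h := AddChar.sum_mulShift (R := ZMod p) (R' := ℂ) j (ZMod.isPrimitive_stdAddChar p)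
  rw [if_neg hj, Nat.cast_zero] at h
  rw [← h]
  exact Finset.sum_congr rfl fun γ _ => by rw [mul_comm]

/-- Convolution: the square of a character sum. -/
private theorem cac_sq_sum_char {p : ℕ} [NeZero p] (V : ZMod p → ℂ) (j : ZMod p) :
    (∑ γ : ZMod p, (ZMod.stdAddChar (j * γ) : ℂ) * V γ) ^ 2 =
      ∑ γ : ZMod p, (ZMod.stdAddChar (j * γ) : ℂ) * ∑ i, V i * V (γ - i) := by
  rw [sq, Finset.sum_mul_sum]
  have h1 : ∀ γ : ZMod p, (ZMod.stdAddChar (j * γ) : ℂ) * ∑ i, V i * V (γ - i) =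
      ∑ i, (ZMod.stdAddChar (j * i) : ℂ) * V i *
        ((ZMod.stdAddChar (j * (γ - i)) : ℂ) * V (γ - i)) := by
    intro γ
    rw [Finset.mul_sum]
    refine Finset.sum_congr rfl fun i _ => ?_
    have : (ZMod.stdAddChar (j * γ) : ℂ) =
        ZMod.stdAddChar (j * i) * ZMod.stdAddChar (j * (γ - i)) := by
      rw [← AddChar.map_add_eq_mul]
      congr 1
      ring
    rw [this]
    ring
  simp_rw [h1]
  conv_rhs => rw [Finset.sum_comm]
  refine Finset.sum_congr rfl fun i _ => ?_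
  exact (Equiv.sum_comp (Equiv.subRight i)
    (fun γ => (ZMod.stdAddChar (j * i) : ℂ) * V i * ((ZMod.stdAddChar (j * γ) : ℂ) * V γ))).symm

/-- Last step, compare `FB.cassels_last`. The support of `V` is contained in
`{0, ±u, ±v, ±s}`, `u = τ + σ`, `v = τ - σ`. `(∑ χ(j γ) V γ)² = D D'` for `j ≠ 0` gives
`∑ i, V i V (γ - i) = E γ + const` (`const_of_fourier`, `DD_char`), and both sides vanish outside at
most `28 + 9 < 61` classes, so the constant is `0`. Then `lift3` for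
`a γ = χ(j₀ γ) V γ`, with `q` from `Rect3 p (2 τ)` for `u, v, s`. -/
theorem ca_last {p : ℕ} (hp : p.Prime) [NeZero p] (h61 : 61 ≤ p) {τ σ : ℤ}
    (hτ : ((2 * τ : ℤ) : ZMod p) ≠ 0) (hrect : Rect3 p ((2 * τ : ℤ) : ZMod p)) {β : ℂ}
    (hβ : ‖β‖ = 1) {j₀ : ZMod p} (hj₀ : j₀ ≠ 0) (V : ZMod p → ℂ) (s : ZMod p)
    (hsq : ∀ j : ZMod p, j ≠ 0 → (∑ γ : ZMod p, ZMod.stdAddChar (j * γ) * V γ) ^ 2 =
        D ((ZMod.stdAddChar j * β) ^ (2 * τ)) * D ((ZMod.stdAddChar j * β) ^ (2 * σ)))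
    (hV : ∀ γ, V γ ≠ 0 → InE ((τ + σ : ℤ) : ZMod p) ((τ - σ : ℤ) : ZMod p) γ ∨ γ = 0 ∨ γ = s ∨
      γ = -s) :
    (ZMod.stdAddChar j₀ * β) ^ (2 * σ) = (ZMod.stdAddChar j₀ * β) ^ (2 * τ) ∨
    (ZMod.stdAddChar j₀ * β) ^ (2 * σ) = ((ZMod.stdAddChar j₀ * β) ^ (2 * τ))⁻¹ := by
  classical
  have hpc : Fintype.card (ZMod p) = p := ZMod.card p
  have hβ0 : β ≠ 0 := by
    intro h
    rw [h, norm_zero] at hβ
    exact zero_ne_one hβ
  obtain ⟨u, hu⟩ : ∃ u : ZMod p, u = ((τ + σ : ℤ) : ZMod p) := ⟨_, rfl⟩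
  obtain ⟨v, hv⟩ : ∃ v : ZMod p, v = ((τ - σ : ℤ) : ZMod p) := ⟨_, rfl⟩
  rw [← hu, ← hv] at hV
  have huv : u + v = ((2 * τ : ℤ) : ZMod p) := by
    rw [hu, hv]
    push_cast
    ring
  have huv' : u - v = 2 * (σ : ZMod p) := by
    rw [hu, hv]
    push_cast
    ring
  have huv2 : u + v = 2 * (τ : ZMod p) := by
    rw [hu, hv]
    push_cast
    ring
  -- the support of `V`
  set B : Finset (ZMod p) := {0, u, -u, v, -v, s, -s} with hB
  have hBcard : B.card ≤ 7 := by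
    rw [hB]
    refine le_trans (Finset.card_insert_le _ _) ?_
    refine Nat.succ_le_succ ?_
    refine le_trans (Finset.card_insert_le _ _) ?_
    refine Nat.succ_le_succ ?_
    refine le_trans (Finset.card_insert_le _ _) ?_
    refine Nat.succ_le_succ ?_
    exact Finset.card_le_four
  have hmemB : ∀ γ, V γ ≠ 0 → γ ∈ B := by
    intro γ hγ
    simp only [hB, Finset.mem_insert, Finset.mem_singleton]
    rcases hV γ hγ with (h | h | h | h) | h | h | h <;> simp [h]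
  have hV0 : ∀ γ, γ ∉ B → V γ = 0 := by
    intro γ hγ
    by_contra h
    exact hγ (hmemB γ h)
  -- a small set has a point outside
  have hout : ∀ A : Finset (ZMod p), A.card ≤ 60 → ∃ δ, δ ∉ A := by
    intro A hA
    by_contra hcon
    push Not at hcon
    have : A = Finset.univ := Finset.eq_univ_of_forall hcon
    rw [this, Finset.card_univ, hpc] at hA
    omega
  -- the graded identity
  set E : ZMod p → ℂ := fun γ =>
    ∑ q ∈ (sg ×ˢ sg).filter (fun q => (q.1 : ZMod p) * (u + v) + (q.2 : ZMod p) * (u - v) = γ),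
      dd q.1 * dd q.2 * β ^ (q.1 * (2 * τ) + q.2 * (2 * σ)) with hE
  have hconv : ∀ γ, ∑ i, V i * V (γ - i) = E γ := by
    have hF : ∀ j : ZMod p, j ≠ 0 →
        ∑ γ : ZMod p, ZMod.stdAddChar (j * γ) * ((∑ i, V i * V (γ - i)) - E γ) = 0 := by
      intro j hj
      simp_rw [mul_sub]
      rw [Finset.sum_sub_distrib, ← cac_sq_sum_char, hsq j hj, DD_char hβ0, sub_eq_zero]
      have h3 : ∀ γ : ZMod p, (ZMod.stdAddChar (j * γ) : ℂ) * E γ =
          ∑ q ∈ (sg ×ˢ sg).filter (fun q => (q.1 : ZMod p) * (u + v) +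
            (q.2 : ZMod p) * (u - v) = γ),
            dd q.1 * dd q.2 * (ZMod.stdAddChar (j * ((q.1 : ZMod p) * (2 * (τ : ZMod p)) +
              (q.2 : ZMod p) * (2 * (σ : ZMod p)))) * β ^ (q.1 * (2 * τ) + q.2 * (2 * σ))) := by
        intro γ
        rw [hE, Finset.mul_sum]
        refine Finset.sum_congr rfl fun q hq => ?_
        have hq2 := (Finset.mem_filter.1 hq).2
        rw [huv2, huv'] at hq2
        rw [hq2]
        ring
      simp_rw [h3]
      exact (Finset.sum_fiberwise (sg ×ˢ sg) (fun q : ℤ × ℤ =>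
        (q.1 : ZMod p) * (u + v) + (q.2 : ZMod p) * (u - v)) _).symm
    obtain ⟨δ, hδ⟩ := hout ((B ×ˢ B).image (fun x => x.1 + x.2) ∪
      (sg ×ˢ sg).image (fun q : ℤ × ℤ => (q.1 : ZMod p) * (u + v) +
        (q.2 : ZMod p) * (u - v))) (by
      refine le_trans (Finset.card_union_le _ _) ?_
      have h1 := Finset.card_image_le (s := B ×ˢ B) (f := fun x => x.1 + x.2)
      have h2 := Finset.card_image_le (s := sg ×ˢ sg)
        (f := fun q : ℤ × ℤ => (q.1 : ZMod p) * (u + v) + (q.2 : ZMod p) * (u - v))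
      rw [Finset.card_product] at h1 h2
      have h3 : sg.card = 3 := by decide
      rw [h3] at h2
      have h4 : B.card * B.card ≤ 7 * 7 := Nat.mul_le_mul hBcard hBcard
      omega)
    rw [Finset.mem_union, not_or] at hδ
    have h1 : ∑ i, V i * V (δ - i) = 0 := by
      refine Finset.sum_eq_zero fun i _ => ?_
      by_cases hi : i ∈ B
      · by_cases hi' : δ - i ∈ B
        · exfalso
          apply hδ.1
          rw [Finset.mem_image]
          exact ⟨(i, δ - i), Finset.mem_product.2 ⟨hi, hi'⟩, by simp⟩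
        · rw [hV0 _ hi', mul_zero]
      · rw [hV0 _ hi, zero_mul]
    have h2 : E δ = 0 := by
      refine Finset.sum_eq_zero fun q hq => ?_
      exfalso
      apply hδ.2
      rw [Finset.mem_image]
      exact ⟨q, (Finset.mem_filter.1 hq).1, (Finset.mem_filter.1 hq).2⟩
    intro γ
    have h := const_of_fourier (fun γ => (∑ i, V i * V (γ - i)) - E γ) hF γ δ
    simp only [h1, h2, sub_zero] at h
    exact sub_eq_zero.1 h
  have hχ0 : ∀ j : ZMod p, (ZMod.stdAddChar j : ℂ) ≠ 0 := by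
    intro j h
    have := cac_norm_char j
    rw [h, norm_zero] at this
    exact zero_ne_one this
  have hζ : ‖(ZMod.stdAddChar j₀ : ℂ) * β‖ = 1 := by
    rw [norm_mul, cac_norm_char, hβ, one_mul]
  obtain ⟨q, hq0, hqu, hqv, hqs⟩ := hrect u v s huv
  refine lift3 (fun γ => ZMod.stdAddChar (j₀ * γ) * V γ) u v s q _ _
    (by rw [norm_zpow, hζ, one_zpow]) (by rw [norm_zpow, hζ, one_zpow]) ?_ (by rw [huv]; exact hq0)
    hqu hqv hqs ?_
  · intro γ hγ
    have hVγ : V γ ≠ 0 := by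
      intro h
      apply hγ
      change (ZMod.stdAddChar (j₀ * γ) : ℂ) * V γ = 0
      rw [h, mul_zero]
    rcases hV γ hVγ with (h | h | h | h) | h | h | h
    · exact Or.inr (Or.inl h)
    · exact Or.inr (Or.inr (Or.inl h))
    · exact Or.inr (Or.inr (Or.inr (Or.inl h)))
    · exact Or.inr (Or.inr (Or.inr (Or.inr (Or.inl h))))
    · exact Or.inl h
    · exact Or.inr (Or.inr (Or.inr (Or.inr (Or.inr (Or.inl h)))))
    · exact Or.inr (Or.inr (Or.inr (Or.inr (Or.inr (Or.inr h)))))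
  · intro γ
    have h1 : ∑ i, (ZMod.stdAddChar (j₀ * i) * V i) * (ZMod.stdAddChar (j₀ * (γ - i)) * V (γ - i)) =
        (ZMod.stdAddChar (j₀ * γ) : ℂ) * ∑ i, V i * V (γ - i) := by
      rw [Finset.mul_sum]
      refine Finset.sum_congr rfl fun i _ => ?_
      have : (ZMod.stdAddChar (j₀ * γ) : ℂ) =
          ZMod.stdAddChar (j₀ * i) * ZMod.stdAddChar (j₀ * (γ - i)) := by
        rw [← AddChar.map_add_eq_mul]
        congr 1
        ring
      rw [this]
      ring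
    rw [h1, hconv γ, hE, Finset.mul_sum]
    refine Finset.sum_congr rfl fun q hq => ?_
    have hq2 := (Finset.mem_filter.1 hq).2
    rw [← zpow_mul, ← zpow_mul, ← zpow_add₀ (mul_ne_zero (hχ0 _) hβ0), mul_zpow, cac_char_zpow]
    have h5 : ((2 * τ * q.1 + 2 * σ * q.2 : ℤ) : ZMod p) = γ := by
      rw [← hq2, huv2, huv']
      push_cast
      ring
    rw [h5]
    have h6 : 2 * τ * q.1 + 2 * σ * q.2 = q.1 * (2 * τ) + q.2 * (2 * σ) := by ring
    rw [h6]
    ring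

/-- Compare `FB.cassels_main`. `c` from `exists_coeff`, `ζ = χ(j₀) β₀` from `exists_mul_eq`,
`γ₀, S` from `ca_card`, `ca_const` with the hypothesis `hrig`, `ev_eta_ne`, `ca_half`, `ca_two`: so
`S` has at most two elements; it is symmetric, so it is contained in `{0, s, -s}` for some `s`. Apply
`ca_last` to `V γ = etaC γ β₀ + 2 c γ β₀ - 2 c γ₀ β₀`. `Rect3` from `rect3_of_order` (`p > 64`) or
`rect3_61`. -/
theorem ca_contra {p M : ℕ} (hp : p.Prime) [NeZero p] (h61 : 61 ≤ p) (hM : 0 < M)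
    (hpM : ¬ p ∣ M) {τ σ : ℤ} (hτ : ((2 * τ : ℤ) : ZMod p) ≠ 0)
    (hσ : ((2 * σ : ℤ) : ZMod p) ≠ 0) {G : ℂ → ℂ} (hG : IsCyc (p * M) G)
    (hsq : ∀ μ ∈ primitiveRoots (p * M) ℂ,
        (eta τ σ μ + 2 * G μ) ^ 2 = D (μ ^ (2 * τ)) * D (μ ^ (2 * σ)))
    (hrig : Rigid p ((τ + σ : ℤ) : ZMod p) ((τ - σ : ℤ) : ZMod p) (lm p)) {ζ : ℂ}
    (hζ : ζ ∈ primitiveRoots (p * M) ℂ) (h2τ : ∀ k : ℕ, (ζ ^ (2 * τ)) ^ (2 ^ k) ≠ 1)
    (h2σ : ∀ k : ℕ, (ζ ^ (2 * σ)) ^ (2 ^ k) ≠ 1)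
    (h1 : ζ ^ (2 * σ) ≠ ζ ^ (2 * τ)) (h2 : ζ ^ (2 * σ) ≠ (ζ ^ (2 * τ))⁻¹) : False := by
  classical
  have hfact : Fact p.Prime := ⟨hp⟩
  have hp2 : p ≠ 2 := by omega
  have hpos : 0 < p * M := Nat.mul_pos hp.pos hM
  obtain ⟨c, hc, hcG⟩ := exists_coeff hp hM hpM hG
  obtain ⟨j₀, hj₀, β₀, hβ₀, hζeq⟩ := exists_mul_eq hp hM hpM hζ
  obtain ⟨γ₀, hγ₀, S, hScard, hSsym, hS'⟩ :=
    ca_card hp hp2 hM hpM hτ hσ hG hc hcG hsq h61 hβ₀
  have hlm : lm p ≤ 10 := by
    unfold lm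
    split_ifs <;> norm_num
  have hS10 : S.card ≤ 10 := hScard.trans hlm
  have hhalf : ∀ i ∈ S, IsIntegral ℤ ((c i β₀ - c γ₀ β₀) / 2) := by
    intro i hi
    refine ca_half hp hp2 hM hpM hτ hσ hG hc hcG hsq hβ₀ ?_ ?_ ((hS' i).1 hi).1 hγ₀
    · intro K _ _ φ
      exact ca_const hp hp2 hM hpM hτ hσ hG hc hcG hsq h61 hβ₀ γ₀ S hScard hSsym hS' hrig φ
    · intro K _ _ φ j hj
      exact ev_eta_ne φ hpos hζ (mul_mem_prim' hp hM hpM hj hβ₀) h2τ h2σ
  have hS2 : S.card ≤ 2 :=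
    ca_two hp hp2 hM hpM hτ hσ hG hc hcG hsq h61 hβ₀ γ₀ S hS10 hS' hhalf
  -- `S ⊆ {0, s, -s}`
  obtain ⟨s, hs⟩ : ∃ s : ZMod p, ∀ γ ∈ S, γ = 0 ∨ γ = s ∨ γ = -s := by
    by_cases h0 : ∃ s ∈ S, s ≠ 0
    · obtain ⟨s, hsS, hs0⟩ := h0
      refine ⟨s, fun γ hγ => ?_⟩
      by_contra hcon
      push Not at hcon
      obtain ⟨-, hγs, hγs'⟩ := hcon
      have hne : s ≠ -s := by
        intro h
        apply hs0
        have h2 : (2 : ZMod p) * s = 0 := by
          rw [two_mul]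
          nth_rewrite 1 [h]
          exact neg_add_cancel s
        rcases mul_eq_zero.1 h2 with h2 | h2
        · exfalso
          have h' : ((2 : ℕ) : ZMod p) = 0 := by exact_mod_cast h2
          rw [ZMod.natCast_eq_zero_iff] at h'
          have := Nat.le_of_dvd (by norm_num) h'
          omega
        · exact h2
      have hsub : ({s, -s, γ} : Finset (ZMod p)) ⊆ S := by
        intro x hx
        simp only [Finset.mem_insert, Finset.mem_singleton] at hx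
        rcases hx with rfl | rfl | rfl
        · exact hsS
        · exact hSsym s hsS
        · exact hγ
      have hcard : ({s, -s, γ} : Finset (ZMod p)).card = 3 :=
        Finset.card_eq_three.2 ⟨s, -s, γ, hne, fun h => hγs h.symm, fun h => hγs' h.symm, rfl⟩
      have := Finset.card_le_card hsub
      omega
    · push Not at h0
      exact ⟨0, fun γ hγ => Or.inl (h0 γ hγ)⟩
  have hrect : Rect3 p ((2 * τ : ℤ) : ZMod p) := by
    by_cases h64 : 64 < p
    · refine rect3_of_order ?_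
      rw [addOrderOf_eq_prime (p := p) (by simp) hτ]
      exact h64
    · have hp61 : p = 61 := by
        have h62 : p ≠ 62 := by
          rintro rfl
          norm_num at hp
        have h63 : p ≠ 63 := by
          rintro rfl
          norm_num at hp
        have h64' : p ≠ 64 := by
          rintro rfl
          norm_num at hp
        omega
      subst hp61
      exact rect3_61 hτ
  have hβnorm : ‖β₀‖ = 1 := by
    have hβ' := (mem_primitiveRoots hM).1 hβ₀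
    exact Complex.norm_eq_one_of_pow_eq_one hβ'.pow_eq_one hM.ne'
  have hlast := ca_last hp h61 (τ := τ) (σ := σ) hτ hrect hβnorm hj₀
    (fun γ => etaC p τ σ γ β₀ + 2 * c γ β₀ - 2 * c γ₀ β₀) s ?_ ?_
  · rw [← hζeq] at hlast
    rcases hlast with h | h
    · exact h1 h
    · exact h2 h
  · intro j hj
    rw [← hsq _ (mul_mem_prim' hp hM hpM hj hβ₀), eta_eq, hcG j hj β₀ hβ₀, Finset.mul_sum,
      ← Finset.sum_add_distrib]
    congr 1
    have : ∑ γ : ZMod p, (ZMod.stdAddChar (j * γ) : ℂ) * (2 * c γ₀ β₀) = 0 := by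
      rw [← Finset.sum_mul, cac_sum_char_zero hj, zero_mul]
    have h' : ∑ γ : ZMod p, (ZMod.stdAddChar (j * γ) : ℂ) *
        (etaC p τ σ γ β₀ + 2 * c γ β₀ - 2 * c γ₀ β₀) =
        ∑ γ : ZMod p, (ZMod.stdAddChar (j * γ) : ℂ) * (etaC p τ σ γ β₀ + 2 * c γ β₀) -
        ∑ γ : ZMod p, (ZMod.stdAddChar (j * γ) : ℂ) * (2 * c γ₀ β₀) := by
      rw [← Finset.sum_sub_distrib]
      exact Finset.sum_congr rfl fun γ _ => by ring
    rw [h', this, sub_zero]
    exact Finset.sum_congr rfl fun γ _ => by ring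
  · intro γ hγ
    by_cases hE : InE ((τ + σ : ℤ) : ZMod p) ((τ - σ : ℤ) : ZMod p) γ
    · exact Or.inl hE
    · refine Or.inr (hs γ ((hS' γ).2 ⟨hE, ?_⟩))
      intro heq
      apply hγ
      change etaC p τ σ γ β₀ + 2 * c γ β₀ - 2 * c γ₀ β₀ = 0
      rw [etaC_zero τ σ γ β₀ hE, heq]
      ring

end Pool.Agent.Lib.MP_baf44c_co.Q1
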