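import Pool.Agent.Lib.MP_baf44c_co.Q1.Defs

/-!
Elementary operations on `Rigid`.
-/

set_option autoImplicit false

namespace Pool.Agent.Lib.MP_baf44c_co.Q1

/-- `Rigid` is invariant under multiplication of `u, v` by a unit: `g'(i) = g (c⁻¹ i)`. -/
theorem rigid_smul {p : ℕ} [Fact p.Prime] {u v c : ZMod p} {lim : ℕ} (hc : c ≠ 0)
    (h : Rigid p u v lim) : Rigid p (c * u) (c * v) lim := by
  intro K _ _ g η S hcard hsym hnot hg hη hu hv hid
  have hE : ∀ i, InE (c * u) (c * v) (c * i) ↔ InE u v i := by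
    intro i
    unfold InE
    rw [← mul_neg, ← mul_neg, mul_right_inj' hc, mul_right_inj' hc, mul_right_inj' hc,
      mul_right_inj' hc]
  have hcc : ∀ i, c * (c⁻¹ * i) = i := fun i => by
    rw [← mul_assoc, mul_inv_cancel₀ hc, one_mul]
  have hS' : ∀ i, i ∈ S.image (fun s => c⁻¹ * s) ↔ c * i ∈ S := by
    intro i
    rw [Finset.mem_image]
    constructor
    · rintro ⟨s, hs, rfl⟩
      rw [hcc]; exact hs
    · intro hi
      refine ⟨c * i, hi, ?_⟩
      rw [← mul_assoc, inv_mul_cancel₀ hc, one_mul]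
  have hsum : ∀ F : ZMod p → K, ∑ i, F (c * i) = ∑ i, F i := fun F =>
    Equiv.sum_comp (Equiv.mulLeft₀ c hc) F
  have key := h K (fun i => g (c * i)) (fun i => η (c * i)) (S.image (fun s => c⁻¹ * s))
    (le_trans Finset.card_image_le hcard)
    (fun s hs => by rw [hS', mul_neg]; exact hsym _ ((hS' s).1 hs))
    (fun s hs h' => hnot _ ((hS' s).1 hs) ((hE s).2 h'))
    (fun i hi => by
      rcases hg (c * i) hi with h1 | h1
      · exact Or.inl ((hS' i).2 h1)
      · exact Or.inr ((hE i).1 h1))
    (fun i hi => (hE i).1 (hη (c * i) hi))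
    (fun hu0 => by
      have := hu (mul_ne_zero hc hu0)
      refine ⟨this.1, ?_⟩
      show η (c * -u) ≠ 0
      rw [mul_neg]; exact this.2)
    (fun hv0 => by
      have := hv (mul_ne_zero hc hv0)
      refine ⟨this.1, ?_⟩
      show η (c * -v) ≠ 0
      rw [mul_neg]; exact this.2)
    (fun γ => by
      have e1 := hsum (fun j => g j * g (c * γ - j))
      have e2 := hsum (fun j => g j * η (c * γ - j))
      simp only [← mul_sub] at e1 e2
      show ∑ i, g (c * i) * g (c * (γ - i)) = ∑ i, g (c * i) * η (c * (γ - i))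
      rw [e1, e2]
      exact hid (c * γ))
  rcases key with h0 | h0
  · left
    intro i
    have := h0 (c⁻¹ * i)
    simp only [hcc] at this
    exact this
  · right
    intro i
    have := h0 (c⁻¹ * i)
    simp only [hcc] at this
    exact this

/-- `Rigid` is symmetric in `u, v`. -/
theorem rigid_symm {p : ℕ} [Fact p.Prime] {u v : ZMod p} {lim : ℕ} (h : Rigid p u v lim) :
    Rigid p v u lim := by
  intro K _ _ g η S hcard hsym hnot hg hη hu hv hid
  have hE : ∀ i, InE u v i ↔ InE v u i := by
    intro i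
    unfold InE
    tauto
  exact h K g η S hcard hsym (fun s hs h' => hnot s hs ((hE s).1 h'))
    (fun i hi => (hg i hi).imp id (hE i).2) (fun i hi => (hE i).2 (hη i hi)) hv hu hid

theorem rigid_mono {p : ℕ} [Fact p.Prime] {u v : ZMod p} {lim lim' : ℕ} (hl : lim' ≤ lim)
    (h : Rigid p u v lim) : Rigid p u v lim' := by
  intro K _ _ g η S hcard
  exact h K g η S (hcard.trans hl)

end Pool.Agent.Lib.MP_baf44c_co.Q1
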