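import Pool.Agent.Lib.MP_baf44c_co.Q1.TwoPart
import Pool.Agent.Lib.MP_baf44c_co.Q1.CaContra
import Pool.Agent.Lib.MP_baf44c_co.Q1.RigidOps

/-!
Primes dividing the order exactly once.
-/

set_option autoImplicit false

namespace Pool.Agent.Lib.MP_baf44c_co.Q1

open Polynomial Pool.Agent.Lib.MP_baf44c_co.FB

/-- `a`, `z` from `two_part`, `ζ, G` from `setup`, `2 ^ a * N = p * M` with `p ∤ M`; `rigid_smul` by
`2 ^ (a - 1)`, and `ca_contra`. -/
theorem bound_prime {N h : ℕ} {x : ℂ} (H : Pr N h x) {p : ℕ} [Fact p.Prime] (h61 : 61 ≤ p)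
    (hpN : p ∣ N) (hpN2 : ¬ p ^ 2 ∣ N)
    (hrig : Rigid p (1 + (h : ZMod p)) (1 - (h : ZMod p)) (lm p)) : False := by
  have hp : p.Prime := Fact.out
  have hN : 0 < N := by
    rcases Nat.eq_zero_or_pos N with h0 | h0
    · have := H.htot
      rw [h0] at this
      simp at this
    · exact h0
  obtain ⟨a, ha, z, hz, hz2⟩ := two_part H
  obtain ⟨ζ, hζ, e1, e2, G, hG, hsq⟩ := setup hN ha H.hx hz hz2
  obtain ⟨N', hN'⟩ := hpN
  have hN'0 : 0 < N' := by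
    rcases Nat.eq_zero_or_pos N' with h0 | h0
    · rw [h0, mul_zero] at hN'
      omega
    · exact h0
  have hM0 : 2 ^ a * N = p * (2 ^ a * N') := by
    rw [hN']
    ring
  have hM : 0 < 2 ^ a * N' := by positivity
  have hp2 : ¬ p ∣ 2 := fun hd => by
    have := Nat.le_of_dvd (by norm_num) hd
    omega
  have hpp : ∀ k : ℕ, ¬ p ∣ 2 ^ k := fun k hd => hp2 (hp.dvd_of_dvd_pow hd)
  have hpM : ¬ p ∣ 2 ^ a * N' := by
    intro hd
    rcases (hp.dvd_mul).1 hd with h1 | h1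
    · exact hpp a h1
    · apply hpN2
      obtain ⟨c, hc⟩ := h1
      refine ⟨c, ?_⟩
      rw [hN', hc]
      ring
  have hph : ¬ p ∣ h := by
    intro hd
    have h1 : p ∣ Nat.gcd h N := Nat.dvd_gcd hd ⟨N', hN'⟩
    rw [Nat.Coprime.gcd_eq_one H.hh] at h1
    have := Nat.le_of_dvd one_pos h1
    omega
  have h2ne : ∀ k : ℕ, (2 : ZMod p) ^ k ≠ 0 := by
    intro k h0
    have h1 : ((2 ^ k : ℕ) : ZMod p) = 0 := by
      push_cast
      exact h0
    rw [ZMod.natCast_eq_zero_iff] at h1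
    exact hpp k h1
  have hhne : (h : ZMod p) ≠ 0 := by
    intro h0
    rw [ZMod.natCast_eq_zero_iff] at h0
    exact hph h0
  have h2 : (2 : ZMod p) ≠ 0 := by
    have := h2ne 1
    rwa [pow_one] at this
  rw [hM0] at hζ hG hsq
  have hxp : ∀ k : ℕ, x ^ k = 1 → p ∣ k := fun k hk =>
    (Dvd.intro _ hN'.symm).trans ((H.hx.pow_eq_one_iff_dvd k).1 hk)
  refine ca_contra hp h61 hM hpM (τ := 2 ^ (a - 1)) (σ := 2 ^ (a - 1) * h) ?_ ?_ hG hsq ?_ hζ
    ?_ ?_ ?_ ?_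
  · push_cast
    exact mul_ne_zero h2 (h2ne _)
  · push_cast
    exact mul_ne_zero h2 (mul_ne_zero (h2ne _) hhne)
  · have h3 := rigid_smul (h2ne (a - 1)) hrig
    have e3 : (((2 : ℤ) ^ (a - 1) + 2 ^ (a - 1) * (h : ℤ) : ℤ) : ZMod p) =
        2 ^ (a - 1) * (1 + (h : ZMod p)) := by
      push_cast
      ring
    have e4 : (((2 : ℤ) ^ (a - 1) - 2 ^ (a - 1) * (h : ℤ) : ℤ) : ZMod p) =
        2 ^ (a - 1) * (1 - (h : ZMod p)) := by
      push_cast
      ring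
    rw [e3, e4]
    exact h3
  · intro k hk
    rw [e1] at hk
    exact hpp k (hxp _ hk)
  · intro k hk
    rw [e2, ← pow_mul] at hk
    rcases (hp.dvd_mul).1 (hxp _ hk) with h5 | h5
    · exact hph h5
    · exact hpp k h5
  · rw [e1, e2]
    exact H.h1
  · rw [e1, e2]
    exact H.h2

end Pool.Agent.Lib.MP_baf44c_co.Q1
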