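import Pool.Agent.Lib.MP_baf44c_co.Q1.ExHalf
import Pool.Agent.Lib.MP_baf44c_co.Q1.Lift3
import Pool.Agent.Lib.MP_baf44c_co.FB.Graded

/-!
Contradiction in the graded case when the alternative `G = 0` or `G + η = 0` modulo the places over
`2` is constant.
-/

set_option autoImplicit false

namespace Pool.Agent.Lib.MP_baf44c_co.Q1

open Polynomial Pool.Agent.Lib.MP_baf44c_co.FB

private lemma exc_exists_std {n : ℕ} [NeZero n] {ω : ℂ} (h : ω ^ n = 1) :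
    ∃ j : ZMod n, ω = ZMod.stdAddChar j := by
  have h0 := Complex.isPrimitiveRoot_exp n (NeZero.ne n)
  obtain ⟨i, -, hi⟩ := h0.eq_pow_of_pow_eq_one h
  refine ⟨((i : ℤ) : ZMod n), ?_⟩
  rw [ZMod.stdAddChar_coe, ← hi, ← Complex.exp_nat_mul]
  congr 1
  push_cast
  ring

/-- there is at most one element of order two -/
private lemma exc_two {n : ℕ} [NeZero n] {a b : ZMod n} (ha : -a = a) (hb : -b = b) (ha0 : a ≠ 0)
    (hb0 : b ≠ 0) : a = b := by
  rw [ZMod.neg_eq_self_iff] at ha hb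
  have h1 := ha.resolve_left ha0
  have h2 := hb.resolve_left hb0
  exact ZMod.val_injective n (by omega)

/-- `ev_eta_ne` for `μ = ζ * ω` (a primitive root by `mul_mem_prim`: `ω = stdAddChar j`), `ex_half`,
`ex_two`: at most two classes `i` outside `±u, ±v` (`u = τ + σ`, `v = τ - σ`) have
`pr n i G ζ ≠ 0`; by `ex_symm` there is `s` such that they are among `0, s, -s`. The `q` of `Rect3` for
`u, v, s` (`u + v = 2 τ`), `graded_id` (`u - v = 2 σ`) and `lift3` for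
`a i = pr n i (η + 2 G) ζ` give `ζ ^ (2 σ) = (ζ ^ (2 τ)) ^ (±1)`. -/
theorem ex_contra {N n N' : ℕ} [NeZero n] (hN0 : 0 < N) (hN : N = n * N')
    (hp : ∀ q : ℕ, q.Prime → q ∣ n → q ∣ N') {τ σ : ℤ} {G : ℂ → ℂ} (hG : IsCyc N G)
    (hsq : ∀ μ ∈ primitiveRoots N ℂ,
        (eta τ σ μ + 2 * G μ) ^ 2 = D (μ ^ (2 * τ)) * D (μ ^ (2 * σ)))
    {ζ : ℂ} (hζ : ζ ∈ primitiveRoots N ℂ) (hE : EConst ζ n τ σ G)
    (h2τ : ∀ k : ℕ, (ζ ^ (2 * τ)) ^ (2 ^ k) ≠ 1) (h2σ : ∀ k : ℕ, (ζ ^ (2 * σ)) ^ (2 ^ k) ≠ 1)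
    (hrect : Rect3 n ((2 * τ : ℤ) : ZMod n)) (hτ : ((2 * τ : ℤ) : ZMod n) ≠ 0)
    (hσ : ((2 * σ : ℤ) : ZMod n) ≠ 0) (h4 : ((4 * τ : ℤ) : ZMod n) ≠ 0)
    (h1 : ζ ^ (2 * σ) ≠ ζ ^ (2 * τ)) (h2 : ζ ^ (2 * σ) ≠ (ζ ^ (2 * τ))⁻¹) : False := by
  classical
  have hne : ∀ (K : Type) [Field K] [CharP K 2] (φ : integralClosure ℤ ℂ →+* K) (ω : ℂ),
      ω ^ n = 1 → ev φ (eta τ σ (ζ * ω)) ≠ 0 := by
    intro K _ _ φ ω hω
    obtain ⟨j, rfl⟩ := exc_exists_std hω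
    exact ev_eta_ne φ hN0 hζ (mul_mem_prim hN0 hN hp hζ j) h2τ h2σ
  have hhalf : ∀ i : ZMod n, ¬ InE ((τ + σ : ℤ) : ZMod n) ((τ - σ : ℤ) : ZMod n) i →
      IsIntegral ℤ (pr n i G ζ / 2) := fun i hi =>
    ex_half hN0 hN hp hG hsq hζ hE hne hi
  have hcard := ex_two hN0 hN hp hG hsq hζ hhalf hτ hσ h4
  obtain ⟨u, hu⟩ : ∃ u : ZMod n, u = ((τ + σ : ℤ) : ZMod n) := ⟨_, rfl⟩
  obtain ⟨v, hv⟩ : ∃ v : ZMod n, v = ((τ - σ : ℤ) : ZMod n) := ⟨_, rfl⟩
  have huv : u + v = ((2 * τ : ℤ) : ZMod n) := by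
    rw [hu, hv]
    push_cast
    ring
  have huv' : u - v = 2 * (σ : ZMod n) := by
    rw [hu, hv]
    push_cast
    ring
  have huv2 : u + v = 2 * (τ : ZMod n) := by
    rw [hu, hv]
    push_cast
    ring
  obtain ⟨S, hS⟩ : ∃ S : Finset (ZMod n), S = Finset.univ.filter (fun i : ZMod n =>
      pr n i G ζ ≠ 0 ∧ ¬ InE ((τ + σ : ℤ) : ZMod n) ((τ - σ : ℤ) : ZMod n) i) := ⟨_, rfl⟩
  rw [← hS] at hcard
  have hmem : ∀ i, i ∈ S ↔ pr n i G ζ ≠ 0 ∧ ¬ InE u v i := by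
    intro i
    rw [hS, hu, hv]
    simp
  have hSsym : ∀ i ∈ S, -i ∈ S := by
    intro i hi
    rw [hmem] at hi ⊢
    refine ⟨ex_symm hN0 hN hp hG hsq hζ hi.1, ?_⟩
    intro h
    apply hi.2
    unfold InE at h ⊢
    rcases h with h | h | h | h
    · exact Or.inr (Or.inl (by rw [← h, neg_neg]))
    · exact Or.inl (neg_injective h)
    · exact Or.inr (Or.inr (Or.inr (by rw [← h, neg_neg])))
    · exact Or.inr (Or.inr (Or.inl (neg_injective h)))
  obtain ⟨s, hs⟩ : ∃ s : ZMod n, ∀ γ ∈ S, γ = 0 ∨ γ = s ∨ γ = -s := by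
    by_cases h0 : ∃ s ∈ S, s ≠ 0
    · obtain ⟨s, hsS, hs0⟩ := h0
      refine ⟨s, fun γ hγ => ?_⟩
      by_contra hcon
      push Not at hcon
      obtain ⟨hγ0, hγs, hγs'⟩ := hcon
      have h3 : ∀ a b c : ZMod n, a ∈ S → b ∈ S → c ∈ S → a ≠ b → a ≠ c → b ≠ c → False := by
        intro a b c ha hb hc hab hac hbc
        have hsub : ({a, b, c} : Finset (ZMod n)) ⊆ S := by
          intro x hx
          simp only [Finset.mem_insert, Finset.mem_singleton] at hx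
          rcases hx with rfl | rfl | rfl
          · exact ha
          · exact hb
          · exact hc
        have h5 : ({a, b, c} : Finset (ZMod n)).card = 3 :=
          Finset.card_eq_three.2 ⟨a, b, c, hab, hac, hbc, rfl⟩
        have := Finset.card_le_card hsub
        omega
      by_cases hss : -s = s
      · by_cases hγγ : -γ = γ
        · exact hγs (exc_two hγγ hss hγ0 hs0)
        · refine h3 s γ (-γ) hsS hγ (hSsym γ hγ) (fun h => hγs h.symm) ?_ (fun h => hγγ h.symm)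
          intro h
          apply hγs
          rw [← neg_neg γ, ← h, hss]
      · exact h3 s (-s) γ hsS (hSsym s hsS) hγ (fun h => hss h.symm) (fun h => hγs h.symm)
          (fun h => hγs' h.symm)
    · push Not at h0
      exact ⟨0, fun γ hγ => Or.inl (h0 γ hγ)⟩
  have hnorm : ‖ζ‖ = 1 := ((mem_primitiveRoots hN0).1 hζ).norm'_eq_one hN0.ne'
  have hx : ‖ζ ^ (2 * τ)‖ = 1 := by rw [norm_zpow, hnorm, one_zpow]
  have hy : ‖ζ ^ (2 * σ)‖ = 1 := by rw [norm_zpow, hnorm, one_zpow]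
  obtain ⟨q, hq0, hqu, hqv, hqs⟩ := hrect u v s huv
  have hlast := lift3 (fun i => pr n i (fun ν => eta τ σ ν + 2 * G ν) ζ) u v s q _ _ hx hy ?_
    (by rw [huv]; exact hq0) hqu hqv hqs ?_
  · rcases hlast with h | h
    · exact h1 h
    · exact h2 h
  · intro i hi
    change pr n i (fun ν => eta τ σ ν + 2 * G ν) ζ ≠ 0 at hi
    by_cases hEi : InE u v i
    · rcases hEi with h | h | h | h
      · exact Or.inr (Or.inl h)
      · exact Or.inr (Or.inr (Or.inl h))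
      · exact Or.inr (Or.inr (Or.inr (Or.inl h)))
      · exact Or.inr (Or.inr (Or.inr (Or.inr (Or.inl h))))
    · have hG0 : pr n i G ζ ≠ 0 := by
        intro h
        apply hi
        rw [pr_add i (eta τ σ) (fun ν => 2 * G ν), pr_const_mul i 2 G, h, mul_zero, add_zero]
        apply pr_eta_zero
        rw [← hu, ← hv]
        exact hEi
      rcases hs i ((hmem i).2 ⟨hG0, hEi⟩) with h | h | h
      · exact Or.inl h
      · exact Or.inr (Or.inr (Or.inr (Or.inr (Or.inr (Or.inl h)))))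
      · exact Or.inr (Or.inr (Or.inr (Or.inr (Or.inr (Or.inr h)))))
  · intro γ
    rw [huv2, huv']
    exact graded_id hN0 hN hp hG hsq hζ γ

end Pool.Agent.Lib.MP_baf44c_co.Q1
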