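import Pool.Agent.Lib.MP_baf44c_co.Q1.WCore

/-!
The equation `g * g = g * η` in the group algebra of `ZMod n` for `n > 1000` odd and supports of at
most `6` pairs of opposite classes: conclusion.
-/

set_option autoImplicit false

namespace Pool.Agent.Lib.MP_baf44c_co.Q1

open Polynomial Pool.Agent.Lib.MP_baf44c_co.FB

/-- Take `k, s, e` from `exists_reps`, `R` as in `w_core`; its elements satisfy `∑ |r j| ≤ 4` and
map to `0`, so `norm_rel` and `exists_D` apply. If the span is everything, then for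
`v = e a + e b`, `D • v ∈ closure R`, which maps to `D * (a + b) = 0`, so `n ∣ D ≤ 1000`, a
contradiction. So `D ≤ 316`; conclude with `w_core`. -/
theorem wlemma {n : ℕ} [NeZero n] (hodd : Odd n) (hn : 1000 < n) (T : Finset (ZMod n))
    (hT : (T.erase 0).card ≤ 12) (hsym : ∀ t ∈ T, -t ∈ T) {a b : ZMod n} (ha : a ∈ T) (hb : b ∈ T)
    (hab : addOrderOf (a + b) = n) :
    ∃ D : ℕ, 0 < D ∧ D ≤ 316 ∧ ∀ (K : Type) [Field K] (g η : ZMod n → K),
      (∀ i, g i ≠ 0 → i ∈ T) → (∀ i, η i ≠ 0 → i ∈ T) →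
      (∀ γ, ∑ i, g i * g (γ - i) = ∑ i, g i * η (γ - i)) →
      (∀ w : ZMod n, ∑ i ∈ Finset.univ.filter (fun i => (D : ZMod n) * i = w), g i = 0) ∨
      (∀ w : ZMod n, ∑ i ∈ Finset.univ.filter (fun i => (D : ZMod n) * i = w), g i =
        ∑ i ∈ Finset.univ.filter (fun i => (D : ZMod n) * i = w), η i) := by
  obtain ⟨k, s, e, hk, hs, he, -, hsum⟩ := exists_reps hodd T hT hsym
  have hev0 : ∑ j, (((0 : Fin k → ℤ) j : ℤ) : ZMod n) * s j = 0 := by simp
  have hevadd : ∀ v w : Fin k → ℤ, ∑ j, (((v + w) j : ℤ) : ZMod n) * s j =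
      ∑ j, ((v j : ℤ) : ZMod n) * s j + ∑ j, ((w j : ℤ) : ZMod n) * s j := by
    intro v w
    rw [← Finset.sum_add_distrib]
    refine Finset.sum_congr rfl fun j _ => ?_
    rw [Pi.add_apply]
    push_cast
    ring
  let ev : (Fin k → ℤ) →+ ZMod n :=
    { toFun := fun v => ∑ j, ((v j : ℤ) : ZMod n) * s j
      map_zero' := hev0
      map_add' := hevadd }
  have hev : ∀ v, ev v = ∑ j, ((v j : ℤ) : ZMod n) * s j := fun v => rfl
  have heT : ∀ t ∈ T, ev (e t) = t := fun t ht => by rw [hev, he t ht]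
  have evR : ∀ r ∈ {r | ∃ a ∈ T, ∃ b ∈ T, ∃ c ∈ T, ∃ d ∈ T, a + b = c + d ∧
      r = e a + e b - e c - e d}, ev r = 0 := by
    rintro r ⟨a, ha, b, hb, c, hc, d, hd, h, rfl⟩
    rw [map_sub, map_sub, map_add, heT a ha, heT b hb, heT c hc, heT d hd, h]
    ring
  have sumR : ∀ r ∈ {r | ∃ a ∈ T, ∃ b ∈ T, ∃ c ∈ T, ∃ d ∈ T, a + b = c + d ∧
      r = e a + e b - e c - e d}, ∑ j, |r j| ≤ 4 := by
    rintro r ⟨a, ha, b, hb, c, hc, d, hd, h, rfl⟩
    have h1 : ∑ j, |(e a + e b - e c - e d) j| ≤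
        ∑ j, (|e a j| + |e b j| + |e c j| + |e d j|) := by
      refine Finset.sum_le_sum fun j _ => ?_
      rw [Pi.sub_apply, Pi.sub_apply, Pi.add_apply]
      refine (abs_sub _ _).trans (add_le_add_left ((abs_sub _ _).trans
        (add_le_add_left (abs_add_le _ _) _)) _)
    rw [Finset.sum_add_distrib, Finset.sum_add_distrib, Finset.sum_add_distrib] at h1
    have := hsum a
    have := hsum b
    have := hsum c
    have := hsum d
    linarith
  obtain ⟨D, hD0, hD, hD2⟩ := exists_D hk {r | ∃ a ∈ T, ∃ b ∈ T, ∃ c ∈ T, ∃ d ∈ T, a + b = c + d ∧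
      r = e a + e b - e c - e d} (fun r hr => norm_rel hodd s hs r (sumR r hr)
        (by rw [← hev]; exact evR r hr))
  have h316 : D ≤ 316 := by
    rcases hD2 with h | ⟨h1000, htop⟩
    · exact h
    · exfalso
      have h1 := hD (e a + e b) (by rw [htop]; trivial)
      have h2 : ev ((D : ℤ) • (e a + e b)) = 0 := by
        have h3 : AddSubgroup.closure {r | ∃ a ∈ T, ∃ b ∈ T, ∃ c ∈ T, ∃ d ∈ T, a + b = c + d ∧
            r = e a + e b - e c - e d} ≤ ev.ker :=
          (AddSubgroup.closure_le _).2 fun r hr => evR r hr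
        exact h3 h1
      rw [map_zsmul, map_add, heT a ha, heT b hb, natCast_zsmul] at h2
      have h4 : n ∣ D := by
        rw [← hab]
        exact addOrderOf_dvd_of_nsmul_eq_zero h2
      have := Nat.le_of_dvd hD0 h4
      omega
  exact ⟨D, hD0, h316, fun K _ g η hg hη hid => w_core T s e he D hD g η hg hη hid⟩

end Pool.Agent.Lib.MP_baf44c_co.Q1
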