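import Pool.Agent.Lib.MP_baf44c_co.Q1.ExCard
import Pool.Agent.Lib.MP_baf44c_co.Q1.Wlemma

/-!
Directions in which the alternative `G = 0` or `G + η = 0` modulo the places over `2` is constant.
-/

set_option autoImplicit false

namespace Pool.Agent.Lib.MP_baf44c_co.Q1

open Polynomial Pool.Agent.Lib.MP_baf44c_co.FB

private theorem exdir_root {n D' : ℕ} [NeZero n] (hD : 0 < D') {ω : ℂ}
    (hω : ω ^ (n / n.gcd D') = 1) : ∃ ω' : ℂ, ω' ^ n = 1 ∧ ω' ^ D' = ω := by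
  have hg : 0 < n.gcd D' := Nat.gcd_pos_of_pos_right _ hD
  obtain ⟨ρ, hρ⟩ := IsAlgClosed.exists_pow_nat_eq ω hg
  have hn : n.gcd D' * (n / n.gcd D') = n := Nat.mul_div_cancel' (Nat.gcd_dvd_left n D')
  have hρn : ρ ^ n = 1 := by
    rw [← hn, pow_mul, hρ, hω]
  have hρ0 : ρ ≠ 0 := by
    rintro rfl
    rw [zero_pow (NeZero.ne n)] at hρn
    exact zero_ne_one hρn
  refine ⟨ρ ^ (Nat.gcdB n D'), ?_, ?_⟩
  · rw [← zpow_natCast, ← zpow_mul, mul_comm, zpow_mul, zpow_natCast, hρn, one_zpow]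
  · have h1 : ((n.gcd D' : ℕ) : ℤ) = n * Nat.gcdA n D' + D' * Nat.gcdB n D' := Nat.gcd_eq_gcd_ab n D'
    have h2 : ρ ^ ((n.gcd D' : ℕ) : ℤ) = ω := by rw [zpow_natCast, hρ]
    rw [h1, zpow_add₀ hρ0, zpow_mul ρ n, zpow_natCast, hρn, one_zpow, one_mul] at h2
    rw [← zpow_natCast, ← zpow_mul, mul_comm]
    exact h2

private theorem exdir_prim {N b : ℕ} (hN0 : 0 < N) (hb : 2 * 2 ^ b ∣ N) {ζ ω : ℂ}
    (hζ : ζ ∈ primitiveRoots N ℂ) (hω : ω ^ (2 ^ b) = 1) : ζ * ω ∈ primitiveRoots N ℂ := by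
  rw [mem_primitiveRoots hN0] at hζ ⊢
  rw [IsPrimitiveRoot.iff_orderOf]
  apply orderOf_eq_of_pow_and_pow_div_prime hN0
  · obtain ⟨M, hM⟩ := hb
    have h1 : ω ^ N = 1 := by
      rw [hM, show 2 * 2 ^ b * M = 2 ^ b * (2 * M) by ring, pow_mul, hω, one_pow]
    rw [mul_pow, hζ.pow_eq_one, h1, one_mul]
  · intro q hq hqN
    have h2 : 2 ^ b ∣ N / q := by
      rcases eq_or_ne q 2 with rfl | hq2
      · obtain ⟨M, hM⟩ := hb
        refine ⟨M, ?_⟩
        rw [hM, mul_assoc, Nat.mul_div_cancel_left _ (by norm_num)]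
      · have hcop : Nat.Coprime (2 ^ b) q :=
          Nat.Coprime.pow_left _ ((Nat.coprime_primes Nat.prime_two hq).2 (Ne.symm hq2))
        obtain ⟨M, hM⟩ := hqN
        have h3 : 2 ^ b ∣ q * M := by
          rw [← hM]
          exact (Dvd.intro_left 2 rfl).trans hb
        rw [hM, Nat.mul_div_cancel_left _ hq.pos]
        exact hcop.dvd_of_dvd_mul_left h3
    have h1 : ω ^ (N / q) = 1 := by
      obtain ⟨c, hc⟩ := h2
      rw [hc, pow_mul, hω, one_pow]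
    rw [mul_pow, h1, mul_one]
    have hlt : N / q < N := Nat.div_lt_self hN0 hq.one_lt
    have hpos : 0 < N / q := Nat.div_pos (Nat.le_of_dvd hN0 hqN) hq.pos
    exact hζ.pow_ne_one_of_pos_of_lt hpos.ne' hlt

private theorem exdir_ev_one {K : Type} [Field K] [CharP K 2] (φ : integralClosure ℤ ℂ →+* K)
    {b : ℕ} {ω : ℂ} (hω : ω ^ (2 ^ b) = 1) : ev φ ω = 1 := by
  have hpos : 0 < 2 ^ b := by positivity
  have h1 := ev_pow φ (isIntegral_of_pow hpos hω) (2 ^ b)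
  rw [hω, ev_one] at h1
  have : Fact (Nat.Prime 2) := ⟨Nat.prime_two⟩
  have h2 : (ev φ ω - 1) ^ (2 ^ b) = 0 := by
    rw [sub_pow_char_pow, ← h1, one_pow, sub_self]
  exact sub_eq_zero.1 (pow_eq_zero_iff hpos.ne' |>.1 h2)

section

variable {N n N' : ℕ} [NeZero n] (hN0 : 0 < N) (hN : N = n * N')
    (hp : ∀ q : ℕ, q.Prime → q ∣ n → q ∣ N') {τ σ : ℤ} {G : ℂ → ℂ} (hG : IsCyc N G)
    (hsq : ∀ μ ∈ primitiveRoots N ℂ,
        (eta τ σ μ + 2 * G μ) ^ 2 = D (μ ^ (2 * τ)) * D (μ ^ (2 * σ)))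

include hN0 hN hp hG hsq

/-- Apply `wlemma` to the set `T` of the classes `±(τ + σ)`, `±(τ - σ)` and the `i` with
`pr n i G ζ ≠ 0` (at most `4 + 8` by `ex_card`; symmetric by `ex_symm`), `a = τ + σ`, `b = τ - σ`,
`a + b = 2 τ`. For a place `φ` take `g i = ev φ (pr n i G ζ)`, `η i = ev φ (pr n i (eta τ σ) ζ)`,
`ex_id`, and conclude with `ev_G_of_group`, `ev_G_eta_of_group`. If `ω ^ (n / gcd n D) = 1` then
`ω = ω' ^ D` with `ω' ^ n = 1`. -/
theorem econst_odd (hodd : Odd n) (hn : 1000 < n)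
    (hτ : addOrderOf ((2 * τ : ℤ) : ZMod n) = n) (hσ : ((2 * σ : ℤ) : ZMod n) ≠ 0) {ζ : ℂ}
    (hζ : ζ ∈ primitiveRoots N ℂ) :
    ∃ D' : ℕ, 0 < D' ∧ D' ≤ 316 ∧ EConst ζ (n / n.gcd D') τ σ G := by
  classical
  have hτ0 : ((2 * τ : ℤ) : ZMod n) ≠ 0 := by
    intro h
    rw [h, addOrderOf_zero] at hτ
    omega
  have hcard := ex_card hN0 hN hp hG hsq hodd hτ0 hσ hζ
  set u : ZMod n := ((τ + σ : ℤ) : ZMod n) with hu
  set v : ZMod n := ((τ - σ : ℤ) : ZMod n) with hv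
  set S : Finset (ZMod n) := Finset.univ.filter
    (fun i : ZMod n => pr n i G ζ ≠ 0 ∧ ¬ InE u v i) with hS
  have hEneg : ∀ i : ZMod n, InE u v i → InE u v (-i) := by
    intro i hi
    rcases hi with rfl | rfl | rfl | rfl
    · exact Or.inr (Or.inl rfl)
    · exact Or.inl (neg_neg _)
    · exact Or.inr (Or.inr (Or.inr rfl))
    · exact Or.inr (Or.inr (Or.inl (neg_neg _)))
  have hEneg' : ∀ i : ZMod n, InE u v (-i) → InE u v i := by
    intro i hi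
    have := hEneg (-i) hi
    rwa [neg_neg] at this
  have hmemE : ∀ i : ZMod n, i ∈ ({u, -u, v, -v} : Finset (ZMod n)) ↔ InE u v i := by
    intro i
    simp only [Finset.mem_insert, Finset.mem_singleton]
    exact Iff.rfl
  have hmemS : ∀ i : ZMod n, i ∈ S ↔ (pr n i G ζ ≠ 0 ∧ ¬ InE u v i) := by
    intro i
    rw [hS]
    simp
  have hT : ((({u, -u, v, -v} : Finset (ZMod n)) ∪ S).erase 0).card ≤ 12 := by
    calc ((({u, -u, v, -v} : Finset (ZMod n)) ∪ S).erase 0).card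
        ≤ (({u, -u, v, -v} : Finset (ZMod n)) ∪ S).card := Finset.card_erase_le
      _ ≤ ({u, -u, v, -v} : Finset (ZMod n)).card + S.card := Finset.card_union_le _ _
      _ ≤ 4 + 8 := Nat.add_le_add Finset.card_le_four hcard
  have hsym : ∀ t ∈ ({u, -u, v, -v} : Finset (ZMod n)) ∪ S,
      -t ∈ ({u, -u, v, -v} : Finset (ZMod n)) ∪ S := by
    intro t ht
    rw [Finset.mem_union] at ht ⊢
    rcases ht with ht | ht
    · left
      rw [hmemE] at ht ⊢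
      exact hEneg t ht
    · right
      rw [hmemS] at ht ⊢
      exact ⟨ex_symm hN0 hN hp hG hsq hζ ht.1, fun h => ht.2 (hEneg' t h)⟩
  have huT : u ∈ ({u, -u, v, -v} : Finset (ZMod n)) ∪ S :=
    Finset.mem_union_left _ ((hmemE u).2 (Or.inl rfl))
  have hvT : v ∈ ({u, -u, v, -v} : Finset (ZMod n)) ∪ S :=
    Finset.mem_union_left _ ((hmemE v).2 (Or.inr (Or.inr (Or.inl rfl))))
  have huv : addOrderOf (u + v) = n := by
    have : u + v = ((2 * τ : ℤ) : ZMod n) := by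
      rw [hu, hv]
      push_cast
      ring
    rw [this, hτ]
  obtain ⟨D', hD0, hD, h⟩ := wlemma hodd hn (({u, -u, v, -v} : Finset (ZMod n)) ∪ S) hT hsym
    huT hvT huv
  refine ⟨D', hD0, hD, ?_⟩
  intro K _ _ φ
  have hgT : ∀ i, ev φ (pr n i G ζ) ≠ 0 → i ∈ ({u, -u, v, -v} : Finset (ZMod n)) ∪ S := by
    intro i hi
    have hi0 : pr n i G ζ ≠ 0 := by
      intro h0
      rw [h0, ev_zero] at hi
      exact hi rfl
    rw [Finset.mem_union]
    by_cases hE : InE u v i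
    · exact Or.inl ((hmemE i).2 hE)
    · exact Or.inr ((hmemS i).2 ⟨hi0, hE⟩)
  have hηT : ∀ i, ev φ (pr n i (eta τ σ) ζ) ≠ 0 →
      i ∈ ({u, -u, v, -v} : Finset (ZMod n)) ∪ S := by
    intro i hi
    rw [Finset.mem_union]
    left
    rw [hmemE]
    by_contra hE
    exact hi (by rw [pr_eta_zero τ σ i ζ hE, ev_zero])
  have hconv : ∀ γ : ZMod n, ∑ i, ev φ (pr n i G ζ) * ev φ (pr n (γ - i) G ζ) =
      ∑ i, ev φ (pr n i G ζ) * ev φ (pr n (γ - i) (eta τ σ) ζ) :=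
    fun γ => ex_id hN0 hN hp hG hsq φ hζ γ
  rcases h K (fun i => ev φ (pr n i G ζ)) (fun i => ev φ (pr n i (eta τ σ) ζ)) hgT hηT hconv with
    h1 | h1
  · left
    intro ω hω
    obtain ⟨ω', hω', rfl⟩ := exdir_root hD0 hω
    exact ev_G_of_group hN0 hN hp hG hsq φ hζ D' h1 hω'
  · right
    intro ω hω
    obtain ⟨ω', hω', rfl⟩ := exdir_root hD0 hω
    exact ev_G_eta_of_group hN0 hN hp hG hsq φ hζ D' h1 hω'

/-- Apply the hypothesis `hrig` with `S` the set of `i` with `pr n i G ζ ≠ 0` which are not among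
`±(τ + σ)`, `±(τ - σ)` (`ex_card`, `ex_symm`), `ev_pr_eta`, `ex_id`; conclude with
`ev_G_of_group`, `ev_G_eta_of_group` for `D' = 1`. -/
theorem econst_rigid (hodd : Odd n) (hτ : ((2 * τ : ℤ) : ZMod n) ≠ 0)
    (hσ : ((2 * σ : ℤ) : ZMod n) ≠ 0)
    (hrig : Rigid n ((τ + σ : ℤ) : ZMod n) ((τ - σ : ℤ) : ZMod n) 8) {ζ : ℂ}
    (hζ : ζ ∈ primitiveRoots N ℂ) : EConst ζ n τ σ G := by
  classical
  have hcard := ex_card hN0 hN hp hG hsq hodd hτ hσ hζ
  intro K _ _ φ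
  have heta := ev_pr_eta hN0 hN hp hG hsq hodd hτ hσ φ hζ
  have hEneg : ∀ i : ZMod n, InE ((τ + σ : ℤ) : ZMod n) ((τ - σ : ℤ) : ZMod n) (-i) →
      InE ((τ + σ : ℤ) : ZMod n) ((τ - σ : ℤ) : ZMod n) i := by
    intro i hi
    rcases hi with h | h | h | h
    · exact Or.inr (Or.inl (neg_eq_iff_eq_neg.1 h))
    · exact Or.inl (neg_inj.1 h)
    · exact Or.inr (Or.inr (Or.inr (neg_eq_iff_eq_neg.1 h)))
    · exact Or.inr (Or.inr (Or.inl (neg_inj.1 h)))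
  have hmain := hrig K (fun i => ev φ (pr n i G ζ)) (fun i => ev φ (pr n i (eta τ σ) ζ))
    (Finset.univ.filter (fun i : ZMod n => pr n i G ζ ≠ 0 ∧
      ¬ InE ((τ + σ : ℤ) : ZMod n) ((τ - σ : ℤ) : ZMod n) i)) hcard
    (by
      intro s hs
      rw [Finset.mem_filter] at hs ⊢
      exact ⟨Finset.mem_univ _, ex_symm hN0 hN hp hG hsq hζ hs.2.1,
        fun h => hs.2.2 (hEneg s h)⟩)
    (by
      intro s hs
      rw [Finset.mem_filter] at hs
      exact hs.2.2)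
    (by
      intro i hi
      have hi0 : pr n i G ζ ≠ 0 := by
        intro h0
        simp only [h0, ev_zero] at hi
        exact hi rfl
      by_cases hE : InE ((τ + σ : ℤ) : ZMod n) ((τ - σ : ℤ) : ZMod n) i
      · exact Or.inr hE
      · left
        rw [Finset.mem_filter]
        exact ⟨Finset.mem_univ _, hi0, hE⟩)
    (by
      intro i hi
      by_contra hE
      exact hi (by
        show ev φ (pr n i (eta τ σ) ζ) = 0
        rw [pr_eta_zero τ σ i ζ hE, ev_zero]))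
    heta.1 heta.2 (fun γ => ex_id hN0 hN hp hG hsq φ hζ γ)
  rcases hmain with h1 | h1
  · left
    intro ω hω
    have h2 := ev_G_of_group hN0 hN hp hG hsq φ hζ 1
      (fun w => Finset.sum_eq_zero fun i _ => h1 i) hω
    rwa [pow_one] at h2
  · right
    intro ω hω
    have h2 := ev_G_eta_of_group hN0 hN hp hG hsq φ hζ 1
      (fun w => Finset.sum_congr rfl fun i _ => h1 i) hω
    rwa [pow_one] at h2

end

/-- For `ω ^ (2 ^ b) = 1`, `ev φ ω = 1` in characteristic `2`, and `ev φ (G (ζ * ω))` is a polynomial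
in `ev φ (ζ * ω) = ev φ ζ` (`ev_isCyc`; `ζ * ω` is a primitive root, since `2 * 2 ^ b ∣ N`). By
`mul_id`, `ev φ (G ζ) = 0` or `ev φ (G ζ + η ζ) = 0`. -/
theorem econst_two {N b : ℕ} (hN0 : 0 < N) (hb : 2 * 2 ^ b ∣ N) {τ σ : ℤ} {G : ℂ → ℂ}
    (hG : IsCyc N G)
    (hsq : ∀ μ ∈ primitiveRoots N ℂ,
        (eta τ σ μ + 2 * G μ) ^ 2 = D (μ ^ (2 * τ)) * D (μ ^ (2 * σ))) {ζ : ℂ}
    (hζ : ζ ∈ primitiveRoots N ℂ) : EConst ζ (2 ^ b) τ σ G := by
  intro K _ _ φ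
  have hGi : ∀ μ ∈ primitiveRoots N ℂ, IsIntegral ℤ (G μ) :=
    fun μ hμ => isIntegral_isCyc hN0 hG hμ
  have hηi : ∀ μ ∈ primitiveRoots N ℂ, IsIntegral ℤ (eta τ σ μ) :=
    fun μ hμ => isIntegral_eta hN0 hμ τ σ
  have hprim : ∀ ω : ℂ, ω ^ (2 ^ b) = 1 → ζ * ω ∈ primitiveRoots N ℂ :=
    fun ω hω => exdir_prim hN0 hb hζ hω
  have hpos : 0 < 2 ^ b := by positivity
  have hζi : IsIntegral ℤ ζ :=
    isIntegral_of_pow hN0 ((mem_primitiveRoots hN0).1 hζ).pow_eq_one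
  have hev : ∀ ω : ℂ, ω ^ (2 ^ b) = 1 → ev φ (ζ * ω) = ev φ ζ := by
    intro ω hω
    rw [ev_mul φ hζi (isIntegral_of_pow hpos hω), exdir_ev_one φ hω, mul_one]
  obtain ⟨f, hf⟩ := ev_isCyc φ hN0 hG
  have hGη : IsCyc N (fun μ => G μ + eta τ σ μ) := hG.add (isCyc_eta hN0 τ σ)
  obtain ⟨f', hf'⟩ := ev_isCyc φ hN0 hGη
  have hprod : ev φ (G ζ) * ev φ (G ζ + eta τ σ ζ) = 0 := by
    rw [← ev_mul φ (hGi ζ hζ) ((hGi ζ hζ).add (hηi ζ hζ)), mul_id hN0 hζ (hsq ζ hζ)]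
    have hz : ∀ k : ℤ, IsIntegral ℤ (ζ ^ k) := fun k =>
      isIntegral_zpow hN0 ((mem_primitiveRoots hN0).1 hζ).pow_eq_one k
    have h4 : IsIntegral ℤ (4 : ℂ) := by
      have := isIntegral_algebraMap (R := ℤ) (A := ℂ) (x := 4)
      simpa using this
    have h2 : IsIntegral ℤ (2 : ℂ) := by
      have := isIntegral_algebraMap (R := ℤ) (A := ℂ) (x := 2)
      simpa using this
    have h20 : ev φ 2 = 0 := by
      have := ev_int φ 2
      push_cast at this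
      rw [this]
      exact CharTwo.two_eq_zero
    rw [ev_mul φ h2 ((((((hz _).add (hz _)).add (hz _)).add (hz _)).add h4)), h20, zero_mul]
  rcases mul_eq_zero.1 hprod with h | h
  · left
    intro ω hω
    rw [hf _ (hprim ω hω), hev ω hω, ← hf ζ hζ, h]
  · right
    intro ω hω
    have h1 := hf' _ (hprim ω hω)
    rw [hev ω hω, ← hf' ζ hζ] at h1
    exact h1.trans h

end Pool.Agent.Lib.MP_baf44c_co.Q1
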