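import Pool.Agent.Lib.MP_baf44c_co.Q1.TwoPart
import Pool.Agent.Lib.MP_baf44c_co.Q1.ExDir
import Pool.Agent.Lib.MP_baf44c_co.Q1.ExContra
import Pool.Agent.Lib.MP_baf44c_co.Q1.RigidOps

/-!
Bounds for the exponents in the factorization of the order.
-/

set_option autoImplicit false

namespace Pool.Agent.Lib.MP_baf44c_co.Q1

open Polynomial Pool.Agent.Lib.MP_baf44c_co.FB

private theorem pos_of_pr {N h : ℕ} {x : ℂ} (H : Pr N h x) : 0 < N := by
  rcases Nat.eq_zero_or_pos N with h0 | h0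
  · have := H.htot
    rw [h0] at this
    simp at this
  · exact h0

private theorem x_pow_ne {N h : ℕ} {x : ℂ} (H : Pr N h x) (htwo : ∀ j : ℕ, N ≠ 2 ^ j) (k : ℕ) :
    x ^ (2 ^ k) ≠ 1 := by
  intro h1
  have hd := (H.hx.pow_eq_one_iff_dvd _).1 h1
  obtain ⟨j, -, hj⟩ := (Nat.dvd_prime_pow Nat.prime_two).1 hd
  exact htwo j hj

private theorem xh_pow_ne {N h : ℕ} {x : ℂ} (H : Pr N h x) (htwo : ∀ j : ℕ, N ≠ 2 ^ j) (k : ℕ) :
    (x ^ h) ^ (2 ^ k) ≠ 1 := by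
  intro h1
  rw [← pow_mul] at h1
  have hd := (H.hx.pow_eq_one_iff_dvd _).1 h1
  have hd2 : N ∣ 2 ^ k := (Nat.Coprime.dvd_mul_left H.hh.symm).1 hd
  obtain ⟨j, -, hj⟩ := (Nat.dvd_prime_pow Nat.prime_two).1 hd2
  exact htwo j hj

/-- Order of a natural number coprime to the modulus. -/
private theorem ord_coprime {c m : ℕ} (hc : 0 < c) (h : c.Coprime m) :
    addOrderOf ((m : ℕ) : ZMod c) = c := by
  rcases Nat.eq_zero_or_pos m with h0 | h0
  · subst h0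
    have : c = 1 := by simpa using h
    subst this
    simp
  · rw [ZMod.addOrderOf_coe m hc.ne', h.gcd_eq_one, Nat.div_one]

private theorem cast_ne_zero_of_coprime {c m : ℕ} (hc : 1 < c) (h : c.Coprime m) :
    ((m : ℕ) : ZMod c) ≠ 0 := by
  intro h0
  rw [ZMod.natCast_eq_zero_iff] at h0
  have h1 : c ∣ 1 := by
    have := Nat.dvd_gcd (dvd_refl c) h0
    rwa [h.gcd_eq_one] at this
  have := Nat.le_of_dvd one_pos h1
  omega

private theorem e2t (a c : ℕ) (ha : 1 ≤ a) : ((2 * (2 ^ (a - 1) : ℤ) : ℤ) : ZMod c) =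
    ((2 ^ a : ℕ) : ZMod c) := by
  have : (2 * (2 ^ (a - 1) : ℤ) : ℤ) = ((2 ^ a : ℕ) : ℤ) := by
    push_cast
    rw [← pow_succ']; congr 1; omega
  rw [this, Int.cast_natCast]

private theorem e4t (a c : ℕ) (ha : 1 ≤ a) : ((4 * (2 ^ (a - 1) : ℤ) : ℤ) : ZMod c) =
    ((2 ^ (a + 1) : ℕ) : ZMod c) := by
  have : (4 * (2 ^ (a - 1) : ℤ) : ℤ) = ((2 ^ (a + 1) : ℕ) : ℤ) := by
    push_cast
    have : a + 1 = (a - 1) + 2 := by omega
    rw [this, pow_add]; ring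
  rw [this, Int.cast_natCast]

private theorem e2s (a c h : ℕ) (ha : 1 ≤ a) :
    ((2 * (2 ^ (a - 1) * (h : ℤ) : ℤ) : ℤ) : ZMod c) = ((2 ^ a * h : ℕ) : ZMod c) := by
  have : (2 * (2 ^ (a - 1) * (h : ℤ) : ℤ) : ℤ) = ((2 ^ a * h : ℕ) : ℤ) := by
    push_cast
    rw [← mul_assoc, ← pow_succ']; congr 2; omega
  rw [this, Int.cast_natCast]

private theorem two_facts {c a h : ℕ} (hc1 : 1 < c) (hodd : Odd c) (hch : h.Coprime c)
    (ha : 1 ≤ a) :
    addOrderOf ((2 * (2 ^ (a - 1) : ℤ) : ℤ) : ZMod c) = c ∧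
    ((2 * (2 ^ (a - 1) : ℤ) : ℤ) : ZMod c) ≠ 0 ∧
    ((2 * (2 ^ (a - 1) * (h : ℤ) : ℤ) : ℤ) : ZMod c) ≠ 0 ∧
    ((4 * (2 ^ (a - 1) : ℤ) : ℤ) : ZMod c) ≠ 0 := by
  have h2 : c.Coprime 2 := (Nat.coprime_two_right.2 hodd)
  refine ⟨?_, ?_, ?_, ?_⟩
  · rw [e2t a c ha]
    exact ord_coprime (by omega) (Nat.Coprime.pow_right a h2)
  · rw [e2t a c ha]
    exact cast_ne_zero_of_coprime hc1 (Nat.Coprime.pow_right a h2)
  · rw [e2s a c h ha]
    exact cast_ne_zero_of_coprime hc1 (Nat.Coprime.mul_right (Nat.Coprime.pow_right a h2) hch.symm)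
  · rw [e4t a c ha]
    exact cast_ne_zero_of_coprime hc1 (Nat.Coprime.pow_right _ h2)


/-- (In all three theorems: `x` and `x ^ h` have order `N`, not a power of two, so
`(ζ ^ (2 τ)) ^ (2 ^ k) = x ^ (2 ^ k) ≠ 1`, and the same for `x ^ h`.) Let `N = 2 ^ k m`, `m` odd, `k ≥ 8`; `a` and `z` from `two_part`, `ζ, G` from `setup`,
`τ = 2 ^ (a - 1)`, `σ = 2 ^ (a - 1) h`, `h` odd. Apply `ex_contra` with `n = 2 ^ (a + k - 1)`,
`N' = 2 m`: `econst_two`; `2 τ = 2 ^ a` has order `2 ^ (k - 1) ≥ 128` in `ZMod n`, so `Rect3`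
(`rect3_of_order`), and `2 σ = 2 ^ a h ≠ 0`, `4 τ ≠ 0`. -/
theorem bound_two {N h : ℕ} {x : ℂ} (H : Pr N h x) (htwo : ∀ j : ℕ, N ≠ 2 ^ j) :
    N.factorization 2 ≤ 7 := by
  by_contra hk
  push Not at hk
  have hN0 : 0 < N := pos_of_pr H
  obtain ⟨a, ha, z, hz, hz2⟩ := two_part H
  obtain ⟨ζ, hζ, hζx, hζh, G, hG, hsq⟩ := setup hN0 ha H.hx hz hz2
  obtain ⟨k, hkdef⟩ : ∃ k, k = N.factorization 2 := ⟨_, rfl⟩
  rw [← hkdef] at hk
  have hfac : 2 ^ k * (N / 2 ^ k) = N := by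
    rw [hkdef]; exact Nat.ordProj_mul_ordCompl_eq_self N 2
  obtain ⟨m, hm⟩ : ∃ m, m = N / 2 ^ k := ⟨_, rfl⟩
  rw [← hm] at hfac
  have hpow : 2 ^ (a + k - 1) * 2 = 2 ^ (a + k) := by
    rw [← pow_succ]; congr 1; omega
  have hL : 2 ^ a * N = 2 ^ (a + k - 1) * (2 * m) := by
    rw [← mul_assoc, hpow, pow_add, mul_assoc, hfac]
  have hh2 : ¬ 2 ∣ h := by
    intro h2
    have h2N : 2 ∣ N := by
      rw [← hfac]
      exact Dvd.dvd.mul_right (dvd_pow_self 2 (by omega)) m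
    have := Nat.dvd_gcd h2 h2N
    rw [H.hh.gcd_eq_one] at this
    omega
  have : NeZero (2 ^ (a + k - 1)) := ⟨by positivity⟩
  have e2τ : ((2 * (2 ^ (a - 1) : ℤ) : ℤ) : ZMod (2 ^ (a + k - 1))) =
      ((2 ^ a : ℕ) : ZMod (2 ^ (a + k - 1))) := by
    have : (2 * (2 ^ (a - 1) : ℤ) : ℤ) = ((2 ^ a : ℕ) : ℤ) := by
      push_cast
      rw [← pow_succ']; congr 1; omega
    rw [this, Int.cast_natCast]
  have e4τ : ((4 * (2 ^ (a - 1) : ℤ) : ℤ) : ZMod (2 ^ (a + k - 1))) =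
      ((2 ^ (a + 1) : ℕ) : ZMod (2 ^ (a + k - 1))) := by
    have : (4 * (2 ^ (a - 1) : ℤ) : ℤ) = ((2 ^ (a + 1) : ℕ) : ℤ) := by
      push_cast
      have : a + 1 = (a - 1) + 2 := by omega
      rw [this, pow_add]; ring
    rw [this, Int.cast_natCast]
  have e2σ : ((2 * (2 ^ (a - 1) * (h : ℤ) : ℤ) : ℤ) : ZMod (2 ^ (a + k - 1))) =
      ((2 ^ a * h : ℕ) : ZMod (2 ^ (a + k - 1))) := by
    have : (2 * (2 ^ (a - 1) * (h : ℤ) : ℤ) : ℤ) = ((2 ^ a * h : ℕ) : ℤ) := by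
      push_cast
      rw [← mul_assoc, ← pow_succ']; congr 2; omega
    rw [this, Int.cast_natCast]
  have hord : 64 < addOrderOf ((2 * (2 ^ (a - 1) : ℤ) : ℤ) : ZMod (2 ^ (a + k - 1))) := by
    rw [e2τ, ZMod.addOrderOf_coe _ (by positivity)]
    have hg : Nat.gcd (2 ^ (a + k - 1)) (2 ^ a) = 2 ^ a :=
      Nat.gcd_eq_right (pow_dvd_pow 2 (by omega))
    rw [hg, Nat.pow_div (by omega) (by norm_num)]
    have : 2 ^ 7 ≤ 2 ^ (a + k - 1 - a) := Nat.pow_le_pow_right (by norm_num) (by omega)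
    omega
  have hτ : ((2 * (2 ^ (a - 1) : ℤ) : ℤ) : ZMod (2 ^ (a + k - 1))) ≠ 0 := by
    intro h0
    rw [h0, addOrderOf_zero] at hord
    omega
  have hσ : ((2 * (2 ^ (a - 1) * (h : ℤ) : ℤ) : ℤ) : ZMod (2 ^ (a + k - 1))) ≠ 0 := by
    rw [e2σ]
    intro h0
    rw [ZMod.natCast_eq_zero_iff] at h0
    have e : a + k - 1 = a + (k - 1) := by omega
    rw [e, pow_add] at h0
    have h1 := Nat.dvd_of_mul_dvd_mul_left (by positivity) h0
    exact hh2 (dvd_trans (dvd_pow_self 2 (by omega)) h1)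
  have h4 : ((4 * (2 ^ (a - 1) : ℤ) : ℤ) : ZMod (2 ^ (a + k - 1))) ≠ 0 := by
    rw [e4τ]
    intro h0
    rw [ZMod.natCast_eq_zero_iff] at h0
    have := (Nat.pow_dvd_pow_iff_le_right (by norm_num)).1 h0
    omega
  have hE : EConst ζ (2 ^ (a + k - 1)) (2 ^ (a - 1)) (2 ^ (a - 1) * h) G := by
    refine econst_two (N := 2 ^ a * N) (by positivity) ?_ hG hsq hζ
    rw [hL]
    exact ⟨m, by ring⟩
  refine ex_contra (N := 2 ^ a * N) (n := 2 ^ (a + k - 1)) (N' := 2 * m) (by positivity) hL ?_ hG hsq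
    hζ hE ?_ ?_ (rect3_of_order hord) hτ hσ h4 ?_ ?_
  · intro q hq hqn
    have := hq.dvd_of_dvd_pow hqn
    rw [(Nat.prime_dvd_prime_iff_eq hq Nat.prime_two).1 this]
    exact dvd_mul_right 2 m
  · intro j; rw [hζx]; exact x_pow_ne H htwo j
  · intro j; rw [hζh]; exact xh_pow_ne H htwo j
  · rw [hζx, hζh]; exact H.h1
  · rw [hζx, hζh]; exact H.h2

/-- Let `n ∣ N` be odd such that every prime divisor of `n` divides `N / n`, and suppose
`n > 20224 = 64 * 316`. `a`, `z` from `two_part`, `ζ, G` from `setup`, `τ = 2 ^ (a - 1)`,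
`σ = 2 ^ (a - 1) h`; `2 τ` and `2 σ` are units of `ZMod n`. `econst_odd` gives `D' ≤ 316`; let
`c = n / gcd n D' > 64`. Apply `ex_contra` with `c` in the place of `n` and
`N' = 2 ^ a N / c`: `2 τ` is a unit in `ZMod c`, of order `c > 64`. -/
theorem bound_odd {N h : ℕ} {x : ℂ} (H : Pr N h x) (htwo : ∀ j : ℕ, N ≠ 2 ^ j) {n : ℕ}
    (hn : n ∣ N) (hodd : Odd n) (hrad : ∀ q : ℕ, q.Prime → q ∣ n → q ∣ N / n) : n ≤ 20224 := by
  by_contra hbig
  push Not at hbig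
  have hN0 : 0 < N := pos_of_pr H
  obtain ⟨a, ha, z, hz, hz2⟩ := two_part H
  obtain ⟨ζ, hζ, hζx, hζh, G, hG, hsq⟩ := setup hN0 ha H.hx hz hz2
  have : NeZero n := ⟨by omega⟩
  have hNn : n * (N / n) = N := Nat.mul_div_cancel' hn
  have hL : 2 ^ a * N = n * (2 ^ a * (N / n)) := by
    rw [mul_left_comm, hNn]
  have hhn : h.Coprime n := Nat.Coprime.coprime_dvd_right hn H.hh
  obtain ⟨hord, hτ, hσ, h4⟩ := two_facts (a := a) (h := h) (c := n) (by omega) hodd hhn ha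
  obtain ⟨D', hD0, hD, hE⟩ := econst_odd (N := 2 ^ a * N) (n := n) (N' := 2 ^ a * (N / n))
    (by positivity) hL (fun q hq hqn => Dvd.dvd.mul_left (hrad q hq hqn) _) hG hsq hodd (by omega)
    hord hσ hζ
  have hgpos : 0 < n.gcd D' := Nat.gcd_pos_of_pos_left _ (by omega)
  have hgle : n.gcd D' ≤ 316 := (Nat.le_of_dvd hD0 (Nat.gcd_dvd_right _ _)).trans hD
  obtain ⟨g, hg⟩ : ∃ g, g = n.gcd D' := ⟨_, rfl⟩
  obtain ⟨c, hc⟩ : ∃ c, c = n / n.gcd D' := ⟨_, rfl⟩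
  rw [← hc] at hE
  have hcg : c * g = n := by
    rw [hc, hg]
    exact Nat.div_mul_cancel (Nat.gcd_dvd_left _ _)
  rw [← hg] at hgpos hgle
  have hc64 : 64 < c := by
    by_contra hle
    push Not at hle
    have : c * g ≤ 64 * 316 := Nat.mul_le_mul hle hgle
    omega
  have : NeZero c := ⟨by omega⟩
  have hcn : c ∣ n := ⟨g, hcg.symm⟩
  have hcodd : Odd c := (Nat.odd_mul.1 (by rw [hcg]; exact hodd)).1
  have hhc : h.Coprime c := Nat.Coprime.coprime_dvd_right hcn hhn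
  obtain ⟨hord', hτ', hσ', h4'⟩ := two_facts (a := a) (h := h) (c := c) (by omega) hcodd hhc ha
  have hL' : 2 ^ a * N = c * (g * (2 ^ a * (N / n))) := by
    rw [hL, ← mul_assoc c, hcg]
  refine ex_contra (N := 2 ^ a * N) (n := c) (N' := g * (2 ^ a * (N / n))) (by positivity) hL' ?_ hG
    hsq hζ hE ?_ ?_ (rect3_of_order (by rw [hord']; exact hc64)) hτ' hσ' h4' ?_ ?_
  · intro q hq hqc
    exact Dvd.dvd.mul_left (Dvd.dvd.mul_left (hrad q hq (hqc.trans hcn)) _) _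
  · intro j; rw [hζx]; exact x_pow_ne H htwo j
  · intro j; rw [hζh]; exact xh_pow_ne H htwo j
  · rw [hζx, hζh]; exact H.h1
  · rw [hζx, hζh]; exact H.h2

/-- `a`, `z` from `two_part`, `ζ, G` from `setup`; `econst_rigid` with `n = p` (`rigid_smul` by
`2 ^ (a - 1)`, `rigid_mono`: `8 ≤ lm p`), then `ex_contra` with `n = p`; `Rect3` from
`rect3_of_order` (`p > 64`) or `rect3_61`. -/
theorem bound_prime_sq {N h : ℕ} {x : ℂ} (H : Pr N h x) {p : ℕ} [Fact p.Prime] (h61 : 61 ≤ p)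
    (hpN : p ^ 2 ∣ N) (hrig : Rigid p (1 + (h : ZMod p)) (1 - (h : ZMod p)) (lm p)) : False := by
  have hN0 : 0 < N := pos_of_pr H
  have hp : p.Prime := Fact.out
  have hpN' : p ∣ N := (dvd_pow_self p (by norm_num)).trans hpN
  have htwo : ∀ j : ℕ, N ≠ 2 ^ j := by
    intro j hj
    rw [hj] at hpN'
    have := (Nat.prime_dvd_prime_iff_eq hp Nat.prime_two).1 (hp.dvd_of_dvd_pow hpN')
    omega
  obtain ⟨a, ha, z, hz, hz2⟩ := two_part H
  obtain ⟨ζ, hζ, hζx, hζh, G, hG, hsq⟩ := setup hN0 ha H.hx hz hz2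
  have hNp : p * (N / p) = N := Nat.mul_div_cancel' hpN'
  have hpp : p ∣ N / p := by
    obtain ⟨t, ht⟩ := hpN
    refine ⟨t, ?_⟩
    rw [ht, pow_two, mul_assoc, Nat.mul_div_cancel_left _ hp.pos]
  have hL : 2 ^ a * N = p * (2 ^ a * (N / p)) := by
    rw [mul_left_comm, hNp]
  have hodd : Odd p := hp.odd_of_ne_two (by omega)
  have hhp : h.Coprime p := Nat.Coprime.coprime_dvd_right hpN' H.hh
  obtain ⟨hord, hτ, hσ, h4⟩ := two_facts (a := a) (h := h) (c := p) (by omega) hodd hhp ha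
  have hrad : ∀ q : ℕ, q.Prime → q ∣ p → q ∣ 2 ^ a * (N / p) := by
    intro q hq hqp
    rw [(Nat.prime_dvd_prime_iff_eq hq hp).1 hqp]
    exact Dvd.dvd.mul_left hpp _
  have hc : ((2 : ZMod p) ^ (a - 1)) ≠ 0 := by
    apply pow_ne_zero
    intro h2
    have h2' : ((2 : ℕ) : ZMod p) = 0 := by exact_mod_cast h2
    rw [ZMod.natCast_eq_zero_iff] at h2'
    have := Nat.le_of_dvd (by norm_num) h2'
    omega
  have hlm : 8 ≤ lm p := by
    unfold lm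
    split_ifs <;> norm_num
  have hrig' : Rigid p ((2 ^ (a - 1) + 2 ^ (a - 1) * (h : ℤ) : ℤ) : ZMod p)
      ((2 ^ (a - 1) - 2 ^ (a - 1) * (h : ℤ) : ℤ) : ZMod p) 8 := by
    have h0 := rigid_mono hlm (rigid_smul hc hrig)
    have e1 : ((2 ^ (a - 1) + 2 ^ (a - 1) * (h : ℤ) : ℤ) : ZMod p) =
        (2 : ZMod p) ^ (a - 1) * (1 + (h : ZMod p)) := by
      push_cast; ring
    have e2 : ((2 ^ (a - 1) - 2 ^ (a - 1) * (h : ℤ) : ℤ) : ZMod p) =
        (2 : ZMod p) ^ (a - 1) * (1 - (h : ZMod p)) := by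
      push_cast; ring
    rw [e1, e2]
    exact h0
  have hE : EConst ζ p (2 ^ (a - 1)) (2 ^ (a - 1) * h) G :=
    econst_rigid (N := 2 ^ a * N) (n := p) (N' := 2 ^ a * (N / p)) (by positivity) hL hrad hG hsq
      hodd hτ hσ hrig' hζ
  have hrect : Rect3 p ((2 * (2 ^ (a - 1) : ℤ) : ℤ) : ZMod p) := by
    rcases Nat.lt_or_ge 64 p with h64 | h64
    · exact rect3_of_order (by rw [hord]; exact h64)
    · have hp61 : p = 61 := by
        interval_cases p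
        · rfl
        · exact absurd hp (by norm_num)
        · exact absurd hp (by norm_num)
        · exact absurd hp (by norm_num)
      subst hp61
      exact rect3_61 hτ
  refine ex_contra (N := 2 ^ a * N) (n := p) (N' := 2 ^ a * (N / p)) (by positivity) hL hrad hG
    hsq hζ hE ?_ ?_ hrect hτ hσ h4 ?_ ?_
  · intro j; rw [hζx]; exact x_pow_ne H htwo j
  · intro j; rw [hζh]; exact xh_pow_ne H htwo j
  · rw [hζx, hζh]; exact H.h1
  · rw [hζx, hζh]; exact H.h2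

end Pool.Agent.Lib.MP_baf44c_co.Q1
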