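import Pool.Agent.Lib.MP_baf44c_co.Q1.CaId

/-!
The case of a prime dividing the order exactly once: coefficients divisible by two.
-/

set_option autoImplicit false

namespace Pool.Agent.Lib.MP_baf44c_co.Q1

open Polynomial Pool.Agent.Lib.MP_baf44c_co.FB

private theorem CaHalf_char_int {p : ℕ} [NeZero p] (j : ZMod p) :
    IsIntegral ℤ (ZMod.stdAddChar j : ℂ) := by
  refine isIntegral_of_pow (Nat.pos_of_ne_zero (NeZero.ne p)) ?_
  rw [← AddChar.map_nsmul_eq_pow]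
  simp

private theorem CaHalf_two : IsIntegral ℤ (2 : ℂ) := by
  have := isIntegral_algebraMap (R := ℤ) (A := ℂ) (x := 2)
  simpa using this

private theorem CaHalf_inv {p : ℕ} [NeZero p] (a : ZMod p → ℂ) (γ δ : ZMod p) :
    (p : ℂ) * (a γ - a δ) = ∑ j ∈ Finset.univ.filter (fun j : ZMod p => j ≠ 0),
      (ZMod.stdAddChar (-(j * γ)) - ZMod.stdAddChar (-(j * δ))) *
        ∑ x : ZMod p, ZMod.stdAddChar (j * x) * a x := by
  classical
  have key : ∀ γ : ZMod p, ∑ j : ZMod p, (ZMod.stdAddChar (-(j * γ)) : ℂ) *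
      ∑ x : ZMod p, ZMod.stdAddChar (j * x) * a x = (p : ℂ) * a γ := by
    intro γ
    simp_rw [Finset.mul_sum]
    rw [Finset.sum_comm]
    have h1 : ∀ x : ZMod p, ∑ j : ZMod p, (ZMod.stdAddChar (-(j * γ)) : ℂ) *
        (ZMod.stdAddChar (j * x) * a x) = (if x - γ = 0 then (p : ℂ) else 0) * a x := by
      intro x
      have h := AddChar.sum_mulShift (R := ZMod p) (R' := ℂ) (x - γ)
        (ZMod.isPrimitive_stdAddChar p)
      rw [ZMod.card] at h
      push_cast at h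
      rw [← h, Finset.sum_mul]
      refine Finset.sum_congr rfl fun j _ => ?_
      rw [← mul_assoc, ← AddChar.map_add_eq_mul]
      congr 3
      ring
    rw [Finset.sum_congr rfl fun x _ => h1 x]
    simp only [sub_eq_zero, ite_mul, zero_mul]
    rw [Finset.sum_ite_eq' Finset.univ γ]
    simp
  rw [mul_sub, ← key γ, ← key δ, ← Finset.sum_sub_distrib,
    ← Finset.sum_filter_add_sum_filter_not Finset.univ (fun j : ZMod p => j ≠ 0)]
  have h0 : (Finset.univ.filter fun j : ZMod p => ¬ j ≠ 0) = {0} := by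
    ext j; simp
  rw [h0, Finset.sum_singleton]
  simp only [zero_mul, neg_zero, sub_self, add_zero]
  exact Finset.sum_congr rfl fun j _ => by ring

/-- The common core of the two cases. -/
private theorem CaHalf_core {p : ℕ} [NeZero p] (hodd : Odd p) (F F' w : ZMod p → ℂ)
    (hF' : ∀ j, j ≠ 0 → IsIntegral ℤ (F' j)) (hw : ∀ j, j ≠ 0 → IsIntegral ℤ (w j))
    (hFF : ∀ j, j ≠ 0 → F j * F' j = 2 * w j) (a : ZMod p → ℂ)
    (ha : ∀ j, j ≠ 0 → ∑ x : ZMod p, ZMod.stdAddChar (j * x) * a x = F j) (i γ : ZMod p)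
    (hd : IsIntegral ℤ (a i - a γ)) {K : Type} [Field K] (φ : integralClosure ℤ ℂ →+* K)
    (hne : ∀ j, j ≠ 0 → ev φ (F' j) ≠ 0) :
    ∃ s : ℂ, IsIntegral ℤ s ∧ ev φ s ≠ 0 ∧ IsIntegral ℤ (s * ((a i - a γ) / 2)) := by
  classical
  set T := Finset.univ.filter (fun j : ZMod p => j ≠ 0) with hT
  have hTm : ∀ j, j ∈ T → j ≠ 0 := fun j hj => (Finset.mem_filter.1 hj).2
  have hs : IsIntegral ℤ (∏ j ∈ T, F' j) := IsIntegral.prod _ fun j hj => hF' j (hTm j hj)
  refine ⟨∏ j ∈ T, F' j, hs, ?_, ?_⟩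
  · rw [ev_prod φ _ (fun j hj => hF' j (hTm j hj))]
    exact Finset.prod_ne_zero_iff.2 fun j hj => hne j (hTm j hj)
  · set s := ∏ j ∈ T, F' j with hsdef
    obtain ⟨k, hk⟩ := hodd
    have h1 := CaHalf_inv a i γ
    set t : ℂ := ∑ j ∈ T, (ZMod.stdAddChar (-(j * i)) - ZMod.stdAddChar (-(j * γ))) *
      (w j * ∏ j' ∈ T.erase j, F' j') with ht
    have hti : IsIntegral ℤ t := by
      refine IsIntegral.sum _ fun j hj => ?_
      refine ((CaHalf_char_int _).sub (CaHalf_char_int _)).mul ((hw j (hTm j hj)).mul ?_)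
      exact IsIntegral.prod _ fun j' hj' => hF' j' (hTm j' (Finset.mem_of_mem_erase hj'))
    have h2 : s * ((p : ℂ) * (a i - a γ)) = 2 * t := by
      rw [h1, Finset.mul_sum, ht, Finset.mul_sum]
      refine Finset.sum_congr rfl fun j hj => ?_
      rw [ha j (hTm j hj), hsdef, ← Finset.mul_prod_erase T F' hj]
      have := hFF j (hTm j hj)
      linear_combination ((ZMod.stdAddChar (-(j * i)) - ZMod.stdAddChar (-(j * γ))) *
        ∏ j' ∈ T.erase j, F' j') * this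
    have h3 : s * ((a i - a γ) / 2) = t - (k : ℂ) * (s * (a i - a γ)) := by
      have hp' : (p : ℂ) = 2 * k + 1 := by rw [hk]; push_cast; ring
      rw [hp'] at h2
      linear_combination (1 / 2) * h2
    rw [h3]
    have hki : IsIntegral ℤ (k : ℂ) := by
      have := isIntegral_algebraMap (R := ℤ) (A := ℂ) (x := (k : ℤ))
      simpa using this
    exact hti.sub (hki.mul (hs.mul hd))

/-- If a place over `2` always yields a multiplier, then `d / 2` is an algebraic integer. -/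
private theorem CaHalf_ideal {d : ℂ} (hd : IsIntegral ℤ d)
    (h : ∀ (K : Type) [Field K] [CharP K 2] (φ : integralClosure ℤ ℂ →+* K),
      ∃ s : ℂ, IsIntegral ℤ s ∧ ev φ s ≠ 0 ∧ IsIntegral ℤ (s * (d / 2))) :
    IsIntegral ℤ (d / 2) := by
  classical
  let J : Ideal (integralClosure ℤ ℂ) :=
    { carrier := {s | IsIntegral ℤ ((s : ℂ) * (d / 2))}
      add_mem' := by
        intro a b ha hb
        simp only [Set.mem_ofPred_eq] at ha hb ⊢
        have : ((a + b : integralClosure ℤ ℂ) : ℂ) * (d / 2) = (a : ℂ) * (d / 2) + b * (d / 2) := by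
          push_cast; ring
        rw [this]
        exact ha.add hb
      zero_mem' := by
        simp only [Set.mem_ofPred_eq]
        have : ((0 : integralClosure ℤ ℂ) : ℂ) * (d / 2) = 0 := by simp
        rw [this]
        exact isIntegral_zero
      smul_mem' := by
        intro c x hx
        simp only [Set.mem_ofPred_eq] at hx ⊢
        have : ((c • x : integralClosure ℤ ℂ) : ℂ) * (d / 2) = (c : ℂ) * ((x : ℂ) * (d / 2)) := by
          rw [smul_eq_mul]; push_cast; ring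
        rw [this]
        exact c.2.mul hx }
  by_cases hJ : J = ⊤
  · have h1 : (1 : integralClosure ℤ ℂ) ∈ J := by rw [hJ]; exact Submodule.mem_top
    have h2 : IsIntegral ℤ (((1 : integralClosure ℤ ℂ) : ℂ) * (d / 2)) := h1
    simpa using h2
  · exfalso
    obtain ⟨m, hm, hJm⟩ := Ideal.exists_le_maximal J hJ
    have h2 : (2 : integralClosure ℤ ℂ) ∈ m := by
      apply hJm
      show IsIntegral ℤ (((2 : integralClosure ℤ ℂ) : ℂ) * (d / 2))
      have : ((2 : integralClosure ℤ ℂ) : ℂ) * (d / 2) = d := by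
        have h3 : ((2 : integralClosure ℤ ℂ) : ℂ) = 2 := rfl
        rw [h3]; ring
      rw [this]
      exact hd
    let _ : Field (integralClosure ℤ ℂ ⧸ m) := Ideal.Quotient.field m
    have h20 : (2 : integralClosure ℤ ℂ ⧸ m) = 0 := by
      have := Ideal.Quotient.eq_zero_iff_mem.2 h2
      rw [← this]
      rfl
    have : CharP (integralClosure ℤ ℂ ⧸ m) 2 := by
      refine (CharP.charP_iff_prime_eq_zero Nat.prime_two).2 ?_
      exact_mod_cast h20
    obtain ⟨s, hs, hs1, hs2⟩ := h (integralClosure ℤ ℂ ⧸ m) (Ideal.Quotient.mk m)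
    apply hs1
    rw [ev_of _ hs]
    refine Ideal.Quotient.eq_zero_iff_mem.2 (hJm ?_)
    exact hs2

private theorem CaHalf_sum_char_zero {p : ℕ} [NeZero p] {j : ZMod p} (hj : j ≠ 0) :
    ∑ γ : ZMod p, (ZMod.stdAddChar (j * γ) : ℂ) = 0 := by
  have h := AddChar.sum_mulShift (R := ZMod p) (R' := ℂ) j (ZMod.isPrimitive_stdAddChar p)
  rw [if_neg hj, Nat.cast_zero] at h
  rw [← h]
  exact Finset.sum_congr rfl fun γ _ => by rw [mul_comm]

private theorem CaHalf_mem_cyc {M : ℕ} (hM : 0 < M) {β : ℂ} (hβ : β ∈ primitiveRoots M ℂ)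
    {F : ℂ → ℂ} (hF : IsCyc M F) : F β ∈ cyc M := by
  obtain ⟨f, hf⟩ := hF
  rw [hf β hβ]
  have : NeZero M := ⟨hM.ne'⟩
  have he := Complex.isPrimitiveRoot_exp M hM.ne'
  obtain ⟨i, -, hi⟩ := he.eq_pow_of_pow_eq_one ((mem_primitiveRoots hM).1 hβ).pow_eq_one
  have hβm : β ∈ cyc M := by
    rw [← hi]
    exact pow_mem (IntermediateField.mem_adjoin_simple_self ℚ _) i
  rw [aeval_eq_sum_range]
  exact sum_mem fun k _ => zsmul_mem (pow_mem hβm k) _

section

variable {p M : ℕ} (hp : p.Prime) [NeZero p] (hp2 : p ≠ 2) (hM : 0 < M) (hpM : ¬ p ∣ M) {τ σ : ℤ}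
    (hτ : ((2 * τ : ℤ) : ZMod p) ≠ 0) (hσ : ((2 * σ : ℤ) : ZMod p) ≠ 0)
    {G : ℂ → ℂ} (hG : IsCyc (p * M) G) {c : ZMod p → ℂ → ℂ} (hc : ∀ γ, IsCyc M (c γ))
    (hcG : ∀ j : ZMod p, j ≠ 0 → ∀ β ∈ primitiveRoots M ℂ,
      G (ZMod.stdAddChar j * β) = ∑ γ : ZMod p, ZMod.stdAddChar (j * γ) * c γ β)
    (hsq : ∀ μ ∈ primitiveRoots (p * M) ℂ,
        (eta τ σ μ + 2 * G μ) ^ 2 = D (μ ^ (2 * τ)) * D (μ ^ (2 * σ)))

include hp hp2 hM hpM hτ hσ hG hc hcG hsq

/-- Let `A` be the ring of algebraic integers, `f = G + η`,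
`J = {s ∈ A | s (c i β - c γ₀ β) / 2 ∈ A}`, an ideal containing `2`. Suppose it is proper, contained
in the maximal ideal `m`, `K = A / m` (characteristic `2`), `φ` the quotient map. If
`ev φ (G (χ(j) β)) = 0` for all `j ≠ 0`, then `ev φ (f (χ(j) β)) = ev φ (η) ≠ 0` for these `j`; let
`s = ∏_{j ≠ 0} f (χ(j) β)`, `ev φ s ≠ 0`. By `mul_id`, `s G (χ(j) β) ∈ 2 A` for all `j ≠ 0`, so by `ca_inv`
`p s (c i β - c γ₀ β) ∈ 2 A`, and `p` is odd, so `s ∈ J ⊆ m`, a contradiction. In the other case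
exchange `G` and `f`: `f (χ(j) β) = ∑ χ(j γ) (c γ β + etaC γ β)`, and `etaC` vanishes at `i` and `γ₀`. -/
theorem ca_half {β : ℂ} (hβ : β ∈ primitiveRoots M ℂ)
    (hconst : ∀ (K : Type) [Field K] [CharP K 2] (φ : integralClosure ℤ ℂ →+* K),
      (∀ j : ZMod p, j ≠ 0 → ev φ (G (ZMod.stdAddChar j * β)) = 0) ∨
      (∀ j : ZMod p, j ≠ 0 →
        ev φ (G (ZMod.stdAddChar j * β) + eta τ σ (ZMod.stdAddChar j * β)) = 0))
    (hne : ∀ (K : Type) [Field K] [CharP K 2] (φ : integralClosure ℤ ℂ →+* K) (j : ZMod p),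
      j ≠ 0 → ev φ (eta τ σ (ZMod.stdAddChar j * β)) ≠ 0) {i γ₀ : ZMod p}
    (hi : ¬ InE ((τ + σ : ℤ) : ZMod p) ((τ - σ : ℤ) : ZMod p) i)
    (hγ₀ : ¬ InE ((τ + σ : ℤ) : ZMod p) ((τ - σ : ℤ) : ZMod p) γ₀) :
    IsIntegral ℤ ((c i β - c γ₀ β) / 2) := by
  have hpos : 0 < p * M := Nat.mul_pos hp.pos hM
  have hodd : Odd p := hp.odd_of_ne_two hp2
  have hd : IsIntegral ℤ (c i β - c γ₀ β) :=
    (isIntegral_isCyc hM (hc i) hβ).sub (isIntegral_isCyc hM (hc γ₀) hβ)
  have hμ : ∀ j : ZMod p, j ≠ 0 → (ZMod.stdAddChar j : ℂ) * β ∈ primitiveRoots (p * M) ℂ :=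
    fun j hj => mul_mem_prim' hp hM hpM hj hβ
  have hGi : ∀ j : ZMod p, j ≠ 0 → IsIntegral ℤ (G (ZMod.stdAddChar j * β)) :=
    fun j hj => isIntegral_isCyc hpos hG (hμ j hj)
  have hηi : ∀ j : ZMod p, j ≠ 0 → IsIntegral ℤ (eta τ σ (ZMod.stdAddChar j * β)) :=
    fun j hj => isIntegral_eta hpos (hμ j hj) τ σ
  have h4i : IsIntegral ℤ (4 : ℂ) := by
    have := isIntegral_algebraMap (R := ℤ) (A := ℂ) (x := 4)
    simpa using this
  have hwi : ∀ j : ZMod p, j ≠ 0 → IsIntegral ℤ ((ZMod.stdAddChar j * β) ^ (2 * τ) +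
      (ZMod.stdAddChar j * β) ^ (-(2 * τ)) + (ZMod.stdAddChar j * β) ^ (2 * σ) +
      (ZMod.stdAddChar j * β) ^ (-(2 * σ)) + 4) := by
    intro j hj
    have hz := fun k : ℤ =>
      isIntegral_zpow hpos ((mem_primitiveRoots hpos).1 (hμ j hj)).pow_eq_one k
    exact ((((hz _).add (hz _)).add (hz _)).add (hz _)).add h4i
  have hmul : ∀ j : ZMod p, j ≠ 0 → G (ZMod.stdAddChar j * β) *
      (G (ZMod.stdAddChar j * β) + eta τ σ (ZMod.stdAddChar j * β)) =
      2 * ((ZMod.stdAddChar j * β) ^ (2 * τ) +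
      (ZMod.stdAddChar j * β) ^ (-(2 * τ)) + (ZMod.stdAddChar j * β) ^ (2 * σ) +
      (ZMod.stdAddChar j * β) ^ (-(2 * σ)) + 4) :=
    fun j hj => mul_id hpos (hμ j hj) (hsq _ (hμ j hj))
  refine CaHalf_ideal hd ?_
  intro K _ _ φ
  rcases hconst K φ with h | h
  · refine CaHalf_core hodd (fun j => G (ZMod.stdAddChar j * β))
      (fun j => G (ZMod.stdAddChar j * β) + eta τ σ (ZMod.stdAddChar j * β)) _
      (fun j hj => (hGi j hj).add (hηi j hj)) hwi hmul (fun x => c x β)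
      (fun j hj => (hcG j hj β hβ).symm) i γ₀ hd φ ?_
    intro j hj
    rw [ev_add φ (hGi j hj) (hηi j hj), h j hj, zero_add]
    exact hne K φ j hj
  · have hz := etaC_zero τ σ i β hi
    have hz0 := etaC_zero τ σ γ₀ β hγ₀
    have hdd : (c i β + etaC p τ σ i β) - (c γ₀ β + etaC p τ σ γ₀ β) = c i β - c γ₀ β := by
      rw [hz, hz0]; ring
    have := CaHalf_core hodd
      (fun j => G (ZMod.stdAddChar j * β) + eta τ σ (ZMod.stdAddChar j * β))
      (fun j => G (ZMod.stdAddChar j * β)) _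
      (fun j hj => hGi j hj) hwi
      (fun j hj => by rw [mul_comm]; exact hmul j hj)
      (fun x => c x β + etaC p τ σ x β)
      (fun j hj => by
        rw [hcG j hj β hβ, eta_eq, ← Finset.sum_add_distrib]
        exact Finset.sum_congr rfl fun x _ => by ring) i γ₀
      (by rw [hdd]; exact hd) φ
      (by
        intro j hj h0
        have h1 := h j hj
        rw [ev_add φ (hGi j hj) (hηi j hj), h0, zero_add] at h1
        exact hne K φ j hj h1)
    rw [hdd] at this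
    exact this

/-- Let `V γ = etaC γ + 2 c γ`. For each `β`, by `cassels` and `ca_DD_le` (and `real_of_sq`, `eta_eq`)
`1/2 ∑_{γ, δ} ‖V γ β - V δ β‖² = ∑_{j ≠ 0} D D' ≤ 38 p`. For `γ ∈ S` and `δ ∉ S ∪ {±u, ±v}` (at least
`p - 4 - s` classes), `V γ β - V δ β = 2 (c γ β - c δ β)`, at `β₀` equal to `2 (c γ β₀ - c γ₀ β₀) =
4 w` with an algebraic integer `w ≠ 0` of `cyc M`; as in `ex_two` (`exists_isCyc`,
`IsCyc.eq_zero`, `IsCyc.sum_sq_ge`) the sum over `β` of the squares of the norms is at least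
`16 φ M`. So `16 s (p - 4 - s) ≤ 38 p`, which is false for `3 ≤ s ≤ 10`. -/
theorem ca_two (h61 : 61 ≤ p) {β₀ : ℂ} (hβ₀ : β₀ ∈ primitiveRoots M ℂ) (γ₀ : ZMod p)
    (S : Finset (ZMod p)) (hS : S.card ≤ 10)
    (hS' : ∀ γ, γ ∈ S ↔ ¬ InE ((τ + σ : ℤ) : ZMod p) ((τ - σ : ℤ) : ZMod p) γ ∧ c γ β₀ ≠ c γ₀ β₀)
    (hhalf : ∀ i ∈ S, IsIntegral ℤ ((c i β₀ - c γ₀ β₀) / 2)) : S.card ≤ 2 := by
  classical
  by_contra hcon
  push Not at hcon
  set E : Finset (ZMod p) := {((τ + σ : ℤ) : ZMod p), -((τ + σ : ℤ) : ZMod p),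
    ((τ - σ : ℤ) : ZMod p), -((τ - σ : ℤ) : ZMod p)} with hE
  have hEm : ∀ x, x ∈ E ↔ InE ((τ + σ : ℤ) : ZMod p) ((τ - σ : ℤ) : ZMod p) x := by
    intro x
    rw [hE]
    simp only [Finset.mem_insert, Finset.mem_singleton]
    rfl
  have hEc : E.card ≤ 4 := Finset.card_le_four
  set Q : Finset (ZMod p) := Finset.univ \ (S ∪ E) with hQ
  have hQc : p ≤ Q.card + S.card + 4 := by
    have h1 : Q.card = p - (S ∪ E).card := by
      rw [hQ, Finset.card_sdiff_of_subset (Finset.subset_univ _), Finset.card_univ, ZMod.card]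
    have h2 := Finset.card_union_le S E
    omega
  set V : ZMod p → ℂ → ℂ := fun γ β => etaC p τ σ γ β + 2 * c γ β with hV
  have hbeta : ∀ β ∈ primitiveRoots M ℂ, ∑ γ : ZMod p, ∑ δ : ZMod p, ‖V γ β - V δ β‖ ^ 2 ≤
      76 * p := by
    intro β hβ
    have hβn : ‖β‖ = 1 := ((mem_primitiveRoots hM).1 hβ).norm'_eq_one hM.ne'
    have h := cassels (p := p) (fun γ => V γ β)
    have hle := ca_DD_le hp hp2 hβn hτ hσ
    have heq : ∑ j ∈ Finset.univ.filter (fun j : ZMod p => j ≠ 0),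
        ‖∑ γ : ZMod p, ZMod.stdAddChar (j * γ) * V γ β‖ ^ 2 =
        (∑ j ∈ Finset.univ.filter (fun j : ZMod p => j ≠ 0),
        D ((ZMod.stdAddChar j * β) ^ (2 * τ)) * D ((ZMod.stdAddChar j * β) ^ (2 * σ))).re := by
      rw [Complex.re_sum]
      refine Finset.sum_congr rfl fun j hj => ?_
      have hj' : j ≠ 0 := (Finset.mem_filter.1 hj).2
      have hμ : ‖(ZMod.stdAddChar j : ℂ) * β‖ = 1 := by
        rw [norm_mul, AddChar.norm_apply, hβn, one_mul]
      have h2 := (real_of_sq hμ (hsq _ (mul_mem_prim' hp hM hpM hj' hβ))).2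
      rw [← h2, Complex.ofReal_re]
      congr 2
      rw [eta_eq, hcG j hj' β hβ, Finset.mul_sum, ← Finset.sum_add_distrib]
      exact Finset.sum_congr rfl fun γ _ => by simp only [hV]; ring
    rw [heq] at h
    linarith
  have htot : ∑ β ∈ primitiveRoots M ℂ, ∑ γ : ZMod p, ∑ δ : ZMod p, ‖V γ β - V δ β‖ ^ 2 ≤
      (M.totient : ℝ) * (76 * p) := by
    refine le_trans (Finset.sum_le_sum hbeta) ?_
    rw [Finset.sum_const, nsmul_eq_mul, Complex.card_primitiveRoots]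
  -- lower bound for one pair
  have hlow : ∀ γ ∈ S, ∀ δ ∈ Q, (16 : ℝ) * M.totient ≤
      ∑ β ∈ primitiveRoots M ℂ, ‖V γ β - V δ β‖ ^ 2 := by
    intro γ hγ δ hδ
    have hγ' := (hS' γ).1 hγ
    have hδ' : δ ∉ S ∧ ¬ InE ((τ + σ : ℤ) : ZMod p) ((τ - σ : ℤ) : ZMod p) δ := by
      rw [hQ, Finset.mem_sdiff, Finset.mem_union, not_or, hEm] at hδ
      exact hδ.2
    have hδ0 : c δ β₀ = c γ₀ β₀ := by
      by_contra hne
      exact hδ'.1 ((hS' δ).2 ⟨hδ'.2, hne⟩)
    have hint : IsIntegral ℤ ((c γ β₀ - c δ β₀) / 2) := by rw [hδ0]; exact hhalf γ hγ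
    have hmem : (c γ β₀ - c δ β₀) / 2 ∈ cyc M := by
      refine div_mem (sub_mem (CaHalf_mem_cyc hM hβ₀ (hc γ)) (CaHalf_mem_cyc hM hβ₀ (hc δ))) ?_
      exact ofNat_mem _ 2
    obtain ⟨W, hW, hW0⟩ := exists_isCyc hM hβ₀ hmem hint
    have hWne : W β₀ ≠ 0 := by
      rw [hW0]
      intro h0
      have h1 : c γ β₀ - c δ β₀ = 0 := by
        have := div_eq_zero_iff.1 h0
        rcases this with h | h
        · exact h
        · norm_num at h
      rw [hδ0] at h1
      exact hγ'.2 (sub_eq_zero.1 h1)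
    have hcyc : IsCyc M (fun μ => (c γ μ - c δ μ) - (W μ + W μ)) :=
      ((hc γ).sub (hc δ)).sub (hW.add hW)
    have hzero := hcyc.eq_zero hβ₀ (by rw [hW0]; ring)
    have hge := IsCyc.sum_sq_ge hM hW hβ₀ hWne
    have h3 : ∑ β ∈ primitiveRoots M ℂ, ‖V γ β - V δ β‖ ^ 2 =
        16 * ∑ β ∈ primitiveRoots M ℂ, ‖W β‖ ^ 2 := by
      rw [Finset.mul_sum]
      refine Finset.sum_congr rfl fun β hβ => ?_
      have h4 := hzero β hβ
      have h5 : V γ β - V δ β = 4 * W β := by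
        simp only [hV]
        rw [etaC_zero τ σ γ β hγ'.1, etaC_zero τ σ δ β hδ'.2]
        linear_combination 2 * h4
      rw [h5, norm_mul, mul_pow]
      norm_num
    rw [h3]
    linarith
  -- sum over pairs
  have hdisj : Disjoint (S ×ˢ Q) (Q ×ˢ S) := by
    rw [Finset.disjoint_left]
    intro q h1 h2
    have h3 := (Finset.mem_product.1 h1).1
    have h4 := (Finset.mem_product.1 h2).1
    rw [hQ, Finset.mem_sdiff, Finset.mem_union, not_or] at h4
    exact h4.2.1 h3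
  have hsum : (2 * (S.card * Q.card) : ℝ) * (16 * M.totient) ≤ (M.totient : ℝ) * (76 * p) := by
    refine le_trans ?_ htot
    have h1 : ∑ β ∈ primitiveRoots M ℂ, ∑ γ : ZMod p, ∑ δ : ZMod p, ‖V γ β - V δ β‖ ^ 2 =
        ∑ q ∈ (Finset.univ : Finset (ZMod p)) ×ˢ (Finset.univ : Finset (ZMod p)),
          ∑ β ∈ primitiveRoots M ℂ, ‖V q.1 β - V q.2 β‖ ^ 2 := by
      rw [Finset.sum_comm]
      rw [Finset.sum_product]
      refine Finset.sum_congr rfl fun γ _ => ?_
      rw [Finset.sum_comm]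
    rw [h1]
    have h2 : (2 * (S.card * Q.card) : ℝ) * (16 * M.totient) =
        ∑ q ∈ (S ×ˢ Q) ∪ (Q ×ˢ S), (16 : ℝ) * M.totient := by
      rw [Finset.sum_const, nsmul_eq_mul, Finset.card_union_of_disjoint hdisj,
        Finset.card_product, Finset.card_product]
      push_cast
      ring
    rw [h2]
    refine le_trans (Finset.sum_le_sum (g := fun q =>
      ∑ β ∈ primitiveRoots M ℂ, ‖V q.1 β - V q.2 β‖ ^ 2) ?_) ?_
    · intro q hq
      rcases Finset.mem_union.1 hq with h | h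
      · have := Finset.mem_product.1 h
        exact hlow _ this.1 _ this.2
      · have := Finset.mem_product.1 h
        have h5 := hlow _ this.2 _ this.1
        refine h5.trans (le_of_eq ?_)
        exact Finset.sum_congr rfl fun β _ => by rw [norm_sub_rev]
    · refine Finset.sum_le_sum_of_subset_of_nonneg ?_ fun q _ _ => ?_
      · intro q _
        simp
      · exact Finset.sum_nonneg fun β _ => by positivity
  have hφ : (0 : ℝ) < M.totient := by exact_mod_cast Nat.totient_pos.2 hM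
  have hfin : ((32 * (S.card * Q.card) : ℕ) : ℝ) ≤ ((76 * p : ℕ) : ℝ) := by
    push_cast
    by_contra hlt
    push Not at hlt
    have := mul_lt_mul_of_pos_left hlt hφ
    nlinarith
  have hfin' : 32 * (S.card * Q.card) ≤ 76 * p := by exact_mod_cast hfin
  generalize S.card = s at *
  generalize Q.card = q at *
  have hs : 3 ≤ s := hcon
  interval_cases s <;> omega

end

end Pool.Agent.Lib.MP_baf44c_co.Q1
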