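import Pool.Agent.Lib.MP_baf44c_co.Q1.CaSum

/-!
The case of a prime dividing the order exactly once: the equation modulo two.
-/

set_option autoImplicit false

namespace Pool.Agent.Lib.MP_baf44c_co.Q1

open Polynomial Pool.Agent.Lib.MP_baf44c_co.FB

private theorem CaId_sum_char_zero {p : ℕ} [NeZero p] {j : ZMod p} (hj : j ≠ 0) :
    ∑ γ : ZMod p, (ZMod.stdAddChar (j * γ) : ℂ) = 0 := by
  have h := AddChar.sum_mulShift (R := ZMod p) (R' := ℂ) j (ZMod.isPrimitive_stdAddChar p)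
  rw [if_neg hj, Nat.cast_zero] at h
  rw [← h]
  exact Finset.sum_congr rfl fun γ _ => by rw [mul_comm]

private theorem CaId_char_pow {p : ℕ} [NeZero p] (j : ZMod p) :
    (ZMod.stdAddChar j : ℂ) ^ p = 1 := by
  rw [← AddChar.map_nsmul_eq_pow]
  simp

private theorem CaId_char_int {p : ℕ} [NeZero p] (j : ZMod p) :
    IsIntegral ℤ (ZMod.stdAddChar j : ℂ) :=
  isIntegral_of_pow (Nat.pos_of_ne_zero (NeZero.ne p)) (CaId_char_pow j)

private theorem CaId_zpow {p : ℕ} [NeZero p] (j : ZMod p) (β : ℂ) (m : ℤ) :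
    (ZMod.stdAddChar j * β) ^ m = ZMod.stdAddChar (j * (m : ZMod p)) * β ^ m := by
  rw [mul_zpow, ← AddChar.map_zsmul_eq_zpow, zsmul_eq_mul, mul_comm (m : ZMod p) j]

private theorem CaId_ite {p : ℕ} [NeZero p] (j : ZMod p) (β : ℂ) (m : ℤ) :
    ∑ γ : ZMod p, ZMod.stdAddChar (j * γ) * (if (m : ZMod p) = γ then β ^ m else 0) =
      (ZMod.stdAddChar j * β) ^ m := by
  rw [CaId_zpow]
  simp only [mul_ite, mul_zero]
  rw [Finset.sum_ite_eq Finset.univ (m : ZMod p)]
  simp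

private theorem CaId_conv {p : ℕ} [NeZero p] (a b : ZMod p → ℂ) (j : ZMod p) :
    (∑ γ : ZMod p, ZMod.stdAddChar (j * γ) * a γ) * (∑ γ : ZMod p, ZMod.stdAddChar (j * γ) * b γ) =
      ∑ γ : ZMod p, ZMod.stdAddChar (j * γ) * ∑ i, a i * b (γ - i) := by
  rw [Finset.sum_mul_sum]
  simp_rw [Finset.mul_sum]
  conv_rhs => rw [Finset.sum_comm]
  refine Finset.sum_congr rfl fun i _ => ?_
  rw [← Equiv.sum_comp (Equiv.addLeft i)
    (fun γ => (ZMod.stdAddChar (j * γ) : ℂ) * (a i * b (γ - i)))]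
  refine Finset.sum_congr rfl fun k _ => ?_
  simp only [Equiv.coe_addLeft, add_sub_cancel_left]
  rw [mul_add, AddChar.map_add_eq_mul]
  ring

/-- `etaC` at the classes `±u`, `±v`, `u = τ + σ`, `v = τ - σ`. -/
theorem etaC_zero {p : ℕ} (τ σ : ℤ) (γ : ZMod p) (β : ℂ)
    (hγ : ¬ InE ((τ + σ : ℤ) : ZMod p) ((τ - σ : ℤ) : ZMod p) γ) : etaC p τ σ γ β = 0 := by
  unfold InE at hγ
  push Not at hγ
  obtain ⟨h1, h2, h3, h4⟩ := hγ
  have h2' : ((-(τ + σ) : ℤ) : ZMod p) ≠ γ := by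
    intro h; apply h2; rw [← h]; push_cast; ring
  have h4' : ((σ - τ : ℤ) : ZMod p) ≠ γ := by
    intro h; apply h4; rw [← h]; push_cast; ring
  unfold etaC
  rw [if_neg (fun h => h1 h.symm), if_neg h2', if_neg (fun h => h3 h.symm), if_neg h4']
  ring

theorem isIntegral_etaC {p M : ℕ} (hM : 0 < M) {β : ℂ} (hβ : β ∈ primitiveRoots M ℂ) (τ σ : ℤ)
    (γ : ZMod p) : IsIntegral ℤ (etaC p τ σ γ β) := by
  have hi := fun k : ℤ => isIntegral_zpow hM ((mem_primitiveRoots hM).1 hβ).pow_eq_one k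
  have key : ∀ (P : Prop) [Decidable P] (k : ℤ), IsIntegral ℤ (if P then β ^ k else 0) := by
    intro P _ k
    split_ifs
    · exact hi k
    · exact isIntegral_zero
  unfold etaC
  exact (((key _ _).add (key _ _)).sub (key _ _)).sub (key _ _)

theorem ev_etaC_ne {p M : ℕ} (hp : p.Prime) (hp2 : p ≠ 2) (hM : 0 < M) {β : ℂ}
    (hβ : β ∈ primitiveRoots M ℂ) {τ σ : ℤ} (hτ : ((2 * τ : ℤ) : ZMod p) ≠ 0)
    (hσ : ((2 * σ : ℤ) : ZMod p) ≠ 0) {K : Type} [Field K] (φ : integralClosure ℤ ℂ →+* K) :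
    (((τ + σ : ℤ) : ZMod p) ≠ 0 → ev φ (etaC p τ σ ((τ + σ : ℤ) : ZMod p) β) ≠ 0 ∧
      ev φ (etaC p τ σ (-((τ + σ : ℤ) : ZMod p)) β) ≠ 0) ∧
    (((τ - σ : ℤ) : ZMod p) ≠ 0 → ev φ (etaC p τ σ ((τ - σ : ℤ) : ZMod p) β) ≠ 0 ∧
      ev φ (etaC p τ σ (-((τ - σ : ℤ) : ZMod p)) β) ≠ 0) := by
  have : Fact p.Prime := ⟨hp⟩
  have hpow := ((mem_primitiveRoots hM).1 hβ).pow_eq_one
  have hne : ∀ k : ℤ, ev φ (β ^ k) ≠ 0 := by
    intro k
    refine ev_ne_zero φ hM (?_ : (β ^ k) ^ M = 1)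
    rw [← zpow_natCast, ← zpow_mul, mul_comm, zpow_mul, zpow_natCast, hpow, one_zpow]
  have hne' : ∀ k : ℤ, ev φ (-β ^ k) ≠ 0 := by
    intro k
    rw [ev_neg φ (isIntegral_zpow hM hpow k)]
    exact neg_ne_zero.2 (hne k)
  have h2 : (2 : ZMod p) ≠ 0 := by
    intro h
    have h' : ((2 : ℕ) : ZMod p) = 0 := by exact_mod_cast h
    rw [ZMod.natCast_eq_zero_iff] at h'
    exact hp2 ((Nat.prime_dvd_prime_iff_eq hp Nat.prime_two).1 h')
  have hself : ∀ x : ZMod p, x ≠ 0 → -x ≠ x := by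
    intro x hx h
    have h3 : 2 * x = 0 := by linear_combination -h
    rcases mul_eq_zero.1 h3 with h4 | h4
    · exact h2 h4
    · exact hx h4
  push_cast at hτ hσ
  refine ⟨fun hu => ⟨?_, ?_⟩, fun hv => ⟨?_, ?_⟩⟩
  · have e1 : ((-(τ + σ) : ℤ) : ZMod p) ≠ ((τ + σ : ℤ) : ZMod p) := by
      have := hself _ hu
      push_cast at this ⊢
      exact this
    have e2 : ((τ - σ : ℤ) : ZMod p) ≠ ((τ + σ : ℤ) : ZMod p) := by
      intro h; apply hσ; push_cast at h; linear_combination -h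
    have e3 : ((σ - τ : ℤ) : ZMod p) ≠ ((τ + σ : ℤ) : ZMod p) := by
      intro h; apply hτ; push_cast at h; linear_combination -h
    have : etaC p τ σ ((τ + σ : ℤ) : ZMod p) β = β ^ (τ + σ) := by
      unfold etaC
      rw [if_pos rfl, if_neg e1, if_neg e2, if_neg e3]
      ring
    rw [this]; exact hne _
  · have e1 : ((τ + σ : ℤ) : ZMod p) ≠ -((τ + σ : ℤ) : ZMod p) := fun h => hself _ hu h.symm
    have e0 : ((-(τ + σ) : ℤ) : ZMod p) = -((τ + σ : ℤ) : ZMod p) := by push_cast; ring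
    have e2 : ((τ - σ : ℤ) : ZMod p) ≠ -((τ + σ : ℤ) : ZMod p) := by
      intro h; apply hτ; push_cast at h; linear_combination h
    have e3 : ((σ - τ : ℤ) : ZMod p) ≠ -((τ + σ : ℤ) : ZMod p) := by
      intro h; apply hσ; push_cast at h; linear_combination h
    have : etaC p τ σ (-((τ + σ : ℤ) : ZMod p)) β = β ^ (-(τ + σ)) := by
      unfold etaC
      rw [if_neg e1, if_pos e0, if_neg e2, if_neg e3]
      ring
    rw [this]; exact hne _
  · have e1 : ((τ + σ : ℤ) : ZMod p) ≠ ((τ - σ : ℤ) : ZMod p) := by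
      intro h; apply hσ; push_cast at h; linear_combination h
    have e2 : ((-(τ + σ) : ℤ) : ZMod p) ≠ ((τ - σ : ℤ) : ZMod p) := by
      intro h; apply hτ; push_cast at h; linear_combination -h
    have e3 : ((σ - τ : ℤ) : ZMod p) ≠ ((τ - σ : ℤ) : ZMod p) := by
      intro h
      apply hself _ hv
      have h5 : -((τ - σ : ℤ) : ZMod p) = ((σ - τ : ℤ) : ZMod p) := by push_cast; ring
      rw [h5, h]
    have : etaC p τ σ ((τ - σ : ℤ) : ZMod p) β = -β ^ (τ - σ) := by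
      unfold etaC
      rw [if_neg e1, if_neg e2, if_pos rfl, if_neg e3]
      ring
    rw [this]; exact hne' _
  · have e1 : ((τ + σ : ℤ) : ZMod p) ≠ -((τ - σ : ℤ) : ZMod p) := by
      intro h; apply hτ; push_cast at h; linear_combination h
    have e2 : ((-(τ + σ) : ℤ) : ZMod p) ≠ -((τ - σ : ℤ) : ZMod p) := by
      intro h; apply hσ; push_cast at h; linear_combination -h
    have e3 : ((τ - σ : ℤ) : ZMod p) ≠ -((τ - σ : ℤ) : ZMod p) := fun h => hself _ hv h.symm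
    have e0 : ((σ - τ : ℤ) : ZMod p) = -((τ - σ : ℤ) : ZMod p) := by push_cast; ring
    have : etaC p τ σ (-((τ - σ : ℤ) : ZMod p)) β = -β ^ (σ - τ) := by
      unfold etaC
      rw [if_neg e1, if_neg e2, if_neg e3, if_pos e0]
      ring
    rw [this]; exact hne' _

private theorem CaId_free {p : ℕ} [NeZero p] (h61 : 61 ≤ p) (u v : ZMod p) (S : Finset (ZMod p))
    (hS : S.card ≤ 10) : ∃ δ : ZMod p, (∀ s ∈ S, 2 * s ≠ δ) ∧
      (∀ s ∈ S, ∀ e, InE u v e → s + e ≠ δ) ∧ (∀ e e', InE u v e → InE u v e' → e + e' ≠ δ) := by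
  classical
  set E : Finset (ZMod p) := {u, -u, v, -v} with hE
  set B : Finset (ZMod p) := S.image (fun s => 2 * s) ∪ ((S ×ˢ E).image (fun q => q.1 + q.2) ∪
    {0, 2 * u, -(2 * u), 2 * v, -(2 * v), u + v, u - v, v - u, -u - v}) with hB
  have hcard : B.card < Fintype.card (ZMod p) := by
    rw [ZMod.card]
    have h1 : (S.image (fun s => 2 * s)).card ≤ 10 := Finset.card_image_le.trans hS
    have h2 : ((S ×ˢ E).image (fun q => q.1 + q.2)).card ≤ 40 := by
      refine Finset.card_image_le.trans ?_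
      rw [Finset.card_product]
      have h3 : E.card ≤ 4 := Finset.card_le_four
      calc S.card * E.card ≤ 10 * 4 := Nat.mul_le_mul hS h3
        _ = 40 := by norm_num
    have h4 : ({0, 2 * u, -(2 * u), 2 * v, -(2 * v), u + v, u - v, v - u, -u - v} :
        Finset (ZMod p)).card ≤ 9 := by
      refine (Finset.card_insert_le _ _).trans ?_
      refine Nat.succ_le_succ ?_
      refine (Finset.card_insert_le _ _).trans ?_
      refine Nat.succ_le_succ ?_
      refine (Finset.card_insert_le _ _).trans ?_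
      refine Nat.succ_le_succ Finset.card_le_six
    have h5 : B.card ≤ 10 + (40 + 9) := by
      refine (Finset.card_union_le _ _).trans (Nat.add_le_add h1 ?_)
      exact (Finset.card_union_le _ _).trans (Nat.add_le_add h2 h4)
    omega
  obtain ⟨δ, hδ⟩ : ∃ δ, δ ∉ B := by
    by_contra hcon
    push Not at hcon
    have : B = Finset.univ := Finset.eq_univ_iff_forall.2 hcon
    rw [this, Finset.card_univ] at hcard
    exact lt_irrefl _ hcard
  refine ⟨δ, ?_, ?_, ?_⟩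
  · intro s hs h
    apply hδ
    rw [hB, Finset.mem_union]
    left
    exact Finset.mem_image.2 ⟨s, hs, h⟩
  · intro s hs e he h
    apply hδ
    rw [hB, Finset.mem_union, Finset.mem_union]
    right; left
    refine Finset.mem_image.2 ⟨(s, e), Finset.mem_product.2 ⟨hs, ?_⟩, h⟩
    rw [hE]
    simp only [Finset.mem_insert, Finset.mem_singleton]
    exact he
  · intro e e' he he' h
    apply hδ
    rw [hB, Finset.mem_union, Finset.mem_union]
    right; right
    simp only [Finset.mem_insert, Finset.mem_singleton]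
    subst h
    rcases he with rfl | rfl | rfl | rfl <;> rcases he' with rfl | rfl | rfl | rfl
    · right; left; ring
    · left; ring
    · right; right; right; right; right; left; ring
    · right; right; right; right; right; right; left; ring
    · left; ring
    · right; right; left; ring
    · right; right; right; right; right; right; right; left; ring
    · right; right; right; right; right; right; right; right; ring
    · right; right; right; right; right; left; ring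
    · right; right; right; right; right; right; right; left; ring
    · right; right; right; left; ring
    · left; ring
    · right; right; right; right; right; right; left; ring
    · right; right; right; right; right; right; right; right; ring
    · left; ring
    · right; right; right; right; left; ring

section

variable {p M : ℕ} (hp : p.Prime) [NeZero p] (hp2 : p ≠ 2) (hM : 0 < M) (hpM : ¬ p ∣ M) {τ σ : ℤ}
    (hτ : ((2 * τ : ℤ) : ZMod p) ≠ 0) (hσ : ((2 * σ : ℤ) : ZMod p) ≠ 0)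
    {G : ℂ → ℂ} (hG : IsCyc (p * M) G) {c : ZMod p → ℂ → ℂ} (hc : ∀ γ, IsCyc M (c γ))
    (hcG : ∀ j : ZMod p, j ≠ 0 → ∀ β ∈ primitiveRoots M ℂ,
      G (ZMod.stdAddChar j * β) = ∑ γ : ZMod p, ZMod.stdAddChar (j * γ) * c γ β)
    (hsq : ∀ μ ∈ primitiveRoots (p * M) ℂ,
        (eta τ σ μ + 2 * G μ) ^ 2 = D (μ ^ (2 * τ)) * D (μ ^ (2 * σ)))

include hp hp2 hM hpM hτ hσ hG hc hcG hsq

/-- Let `c' i = c i β - c γ₀ β` and `w μ = x + x⁻¹ + y + y⁻¹ + 4`, `w (χ(j) β) = ∑ γ, χ(j γ) r γ` with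
algebraic integers `r γ`. `∑ γ, χ(j γ) c' γ = G (χ(j) β)` for `j ≠ 0`. By `mul_id`,
`W γ = ∑ i, c' i * (c' (γ - i) + etaC (γ - i)) - 2 r γ` satisfies `∑ γ, χ(j γ) W γ = 0` for `j ≠ 0`, so
`W` is constant (`const_of_fourier`). Apply `ev φ` (characteristic `2`): with `g i = ev φ (c' i)`,
`η i = ev φ (etaC i)`, `ev φ (W γ) = ∑ i, g i * g (γ - i) + ∑ i, g i * η (γ - i)` is the same for all
`γ`. In the first sum the terms `i` and `γ - i` cancel, except for `2 i = γ`. So it vanishes if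
`γ ∉ 2 S ∪ (S + E) ∪ (E + E)`, `E = {±u, ±v}`; these are at most `|S| + 4 |S| + 10 ≤ 60 < p`
classes. -/
theorem ca_id (h61 : 61 ≤ p) {β : ℂ} (hβ : β ∈ primitiveRoots M ℂ) (γ₀ : ZMod p)
    (S : Finset (ZMod p)) (hS : S.card ≤ 10)
    (hS' : ∀ γ, γ ∈ S ↔ ¬ InE ((τ + σ : ℤ) : ZMod p) ((τ - σ : ℤ) : ZMod p) γ ∧ c γ β ≠ c γ₀ β)
    {K : Type} [Field K] [CharP K 2] (φ : integralClosure ℤ ℂ →+* K) (γ : ZMod p) :
    ∑ i, ev φ (c i β - c γ₀ β) * ev φ (c (γ - i) β - c γ₀ β) =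
      ∑ i, ev φ (c i β - c γ₀ β) * ev φ (etaC p τ σ (γ - i) β) := by
  classical
  have hci : ∀ i, IsIntegral ℤ (c i β - c γ₀ β) := fun i =>
    (isIntegral_isCyc hM (hc i) hβ).sub (isIntegral_isCyc hM (hc γ₀) hβ)
  have hei : ∀ i, IsIntegral ℤ (etaC p τ σ i β) := isIntegral_etaC hM hβ τ σ
  have hzi := fun k : ℤ => isIntegral_zpow hM ((mem_primitiveRoots hM).1 hβ).pow_eq_one k
  have h4i : IsIntegral ℤ (4 : ℂ) := by
    have := isIntegral_algebraMap (R := ℤ) (A := ℂ) (x := 4)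
    simpa using this
  have h2i : IsIntegral ℤ (2 : ℂ) := by
    have := isIntegral_algebraMap (R := ℤ) (A := ℂ) (x := 2)
    simpa using this
  -- the vector of the right hand side
  set r : ZMod p → ℂ := fun γ =>
    (if ((2 * τ : ℤ) : ZMod p) = γ then β ^ (2 * τ) else 0) +
    (if ((-(2 * τ) : ℤ) : ZMod p) = γ then β ^ (-(2 * τ)) else 0) +
    (if ((2 * σ : ℤ) : ZMod p) = γ then β ^ (2 * σ) else 0) +
    (if ((-(2 * σ) : ℤ) : ZMod p) = γ then β ^ (-(2 * σ)) else 0) +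
    4 * (if ((0 : ℤ) : ZMod p) = γ then β ^ (0 : ℤ) else 0) with hr
  have hri : ∀ γ, IsIntegral ℤ (r γ) := by
    intro γ
    have key : ∀ (P : Prop) [Decidable P] (k : ℤ), IsIntegral ℤ (if P then β ^ k else 0) := by
      intro P _ k
      split_ifs
      · exact hzi k
      · exact isIntegral_zero
    exact ((((key _ _).add (key _ _)).add (key _ _)).add (key _ _)).add (h4i.mul (key _ _))
  have hrs : ∀ j : ZMod p, ∑ γ : ZMod p, ZMod.stdAddChar (j * γ) * r γ =
      (ZMod.stdAddChar j * β) ^ (2 * τ) + (ZMod.stdAddChar j * β) ^ (-(2 * τ)) +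
      (ZMod.stdAddChar j * β) ^ (2 * σ) + (ZMod.stdAddChar j * β) ^ (-(2 * σ)) + 4 := by
    intro j
    rw [← CaId_ite j β (2 * τ), ← CaId_ite j β (-(2 * τ)), ← CaId_ite j β (2 * σ),
      ← CaId_ite j β (-(2 * σ))]
    have h0 : (4 : ℂ) = 4 * ∑ γ : ZMod p, ZMod.stdAddChar (j * γ) *
        (if ((0 : ℤ) : ZMod p) = γ then β ^ (0 : ℤ) else 0) := by
      rw [CaId_ite, zpow_zero, mul_one]
    conv_rhs => rw [h0]
    rw [Finset.mul_sum, ← Finset.sum_add_distrib, ← Finset.sum_add_distrib,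
      ← Finset.sum_add_distrib, ← Finset.sum_add_distrib]
    refine Finset.sum_congr rfl fun γ _ => ?_
    rw [hr]
    ring
  -- the constant vector
  set W : ZMod p → ℂ := fun γ =>
    ∑ i, (c i β - c γ₀ β) * ((c (γ - i) β - c γ₀ β) + etaC p τ σ (γ - i) β) - 2 * r γ with hW
  have hGc : ∀ j : ZMod p, j ≠ 0 → G (ZMod.stdAddChar j * β) =
      ∑ γ : ZMod p, ZMod.stdAddChar (j * γ) * (c γ β - c γ₀ β) := by
    intro j hj
    simp_rw [mul_sub]
    rw [Finset.sum_sub_distrib, ← Finset.sum_mul, CaId_sum_char_zero hj, zero_mul, sub_zero,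
      hcG j hj β hβ]
  have hW0 : ∀ j : ZMod p, j ≠ 0 → ∑ γ : ZMod p, ZMod.stdAddChar (j * γ) * W γ = 0 := by
    intro j hj
    have hμ := mul_mem_prim' hp hM hpM hj hβ
    have h1 := mul_id (Nat.mul_pos hp.pos hM) hμ (hsq _ hμ)
    rw [← hrs j, hGc j hj, eta_eq, ← Finset.sum_add_distrib] at h1
    have h2 : ∑ γ : ZMod p, (ZMod.stdAddChar (j * γ) * (c γ β - c γ₀ β) +
        ZMod.stdAddChar (j * γ) * etaC p τ σ γ β) =
        ∑ γ : ZMod p, ZMod.stdAddChar (j * γ) * ((c γ β - c γ₀ β) + etaC p τ σ γ β) :=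
      Finset.sum_congr rfl fun γ _ => by ring
    rw [h2, CaId_conv] at h1
    simp only [hW]
    simp_rw [mul_sub]
    rw [Finset.sum_sub_distrib]
    rw [h1, Finset.mul_sum, ← Finset.sum_sub_distrib]
    refine Finset.sum_eq_zero fun γ _ => ?_
    ring
  have hWc : ∀ γ δ, W γ = W δ := const_of_fourier W hW0
  -- reduction
  set g : ZMod p → K := fun i => ev φ (c i β - c γ₀ β) with hg
  set η : ZMod p → K := fun i => ev φ (etaC p τ σ i β) with hη
  have h20 : (2 : K) = 0 := CharTwo.two_eq_zero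
  have hevW : ∀ γ, ev φ (W γ) = ∑ i, g i * g (γ - i) + ∑ i, g i * η (γ - i) := by
    intro γ
    have hi1 : ∀ i ∈ (Finset.univ : Finset (ZMod p)),
        IsIntegral ℤ ((c i β - c γ₀ β) * ((c (γ - i) β - c γ₀ β) + etaC p τ σ (γ - i) β)) :=
      fun i _ => (hci i).mul ((hci _).add (hei _))
    simp only [hW]
    rw [ev_sub φ (IsIntegral.sum _ hi1) (h2i.mul (hri γ)), ev_sum φ _ hi1, ev_mul φ h2i (hri γ)]
    have h3 : ev φ 2 = 0 := by
      have h := ev_int φ 2
      push_cast at h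
      rw [h, h20]
    rw [h3, zero_mul, sub_zero, ← Finset.sum_add_distrib]
    refine Finset.sum_congr rfl fun i _ => ?_
    rw [ev_mul φ (hci i) ((hci _).add (hei _)), ev_add φ (hci _) (hei _)]
    simp only [hg, hη]
    ring
  have hgs : ∀ i, g i ≠ 0 → i ∈ S ∨ InE ((τ + σ : ℤ) : ZMod p) ((τ - σ : ℤ) : ZMod p) i := by
    intro i hi
    by_cases hE : InE ((τ + σ : ℤ) : ZMod p) ((τ - σ : ℤ) : ZMod p) i
    · exact Or.inr hE
    · left
      rw [hS']
      refine ⟨hE, fun h => hi ?_⟩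
      simp only [hg]
      rw [h, sub_self, ev_zero]
  have hηs : ∀ i, η i ≠ 0 → InE ((τ + σ : ℤ) : ZMod p) ((τ - σ : ℤ) : ZMod p) i := by
    intro i hi
    by_contra hE
    apply hi
    simp only [hη]
    rw [etaC_zero τ σ i β hE, ev_zero]
  obtain ⟨δ, hδ1, hδ2, hδ3⟩ := CaId_free h61 ((τ + σ : ℤ) : ZMod p) ((τ - σ : ℤ) : ZMod p) S hS
  have hδ : ev φ (W δ) = 0 := by
    rw [hevW δ]
    have h1 : ∑ i, g i * g (δ - i) = 0 := by
      refine Finset.sum_involution (fun i _ => δ - i) ?_ ?_ ?_ ?_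
      · intro i _
        simp only [sub_sub_cancel]
        rw [mul_comm (g (δ - i)) (g i), ← two_mul, h20, zero_mul]
      · intro i _ hi h
        have hgi : g i ≠ 0 := left_ne_zero_of_mul hi
        have h2i' : i + i = δ := by rw [← eq_sub_iff_add_eq]; exact h.symm
        rcases hgs i hgi with hs | hs
        · exact hδ1 i hs (by rw [two_mul]; exact h2i')
        · exact hδ3 i i hs hs h2i'
      · intro i _; exact Finset.mem_univ _
      · intro i _; simp
    have h2 : ∑ i, g i * η (δ - i) = 0 := by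
      refine Finset.sum_eq_zero fun i _ => ?_
      by_contra hi
      have hgi : g i ≠ 0 := left_ne_zero_of_mul hi
      have hηi : η (δ - i) ≠ 0 := right_ne_zero_of_mul hi
      rcases hgs i hgi with hs | hs
      · exact hδ2 i hs _ (hηs _ hηi) (by ring)
      · exact hδ3 i _ hs (hηs _ hηi) (by ring)
    rw [h1, h2, add_zero]
  have hfin : ∑ i, g i * g (γ - i) + ∑ i, g i * η (γ - i) = 0 := by
    rw [← hevW γ, hWc γ δ, hδ]
  have h3 : ∑ i, g i * g (γ - i) = -∑ i, g i * η (γ - i) := eq_neg_of_add_eq_zero_left hfin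
  have h4 : ∀ x : K, -x = x := fun x => by
    have : x + x = 0 := by rw [← two_mul, h20, zero_mul]
    exact neg_eq_of_add_eq_zero_left this
  rw [h4] at h3
  exact h3

/-- `Rigid` with `g i = ev φ (c i β - c γ₀ β)`, `η i = ev φ (etaC p τ σ i β)`, `ca_id`, `etaC_zero`,
`ev_etaC_ne`. In the first case `ev φ (G (χ(j) β)) = ∑ ev φ (χ(j γ)) g γ = 0`, in the second
`ev φ (G + η) = ∑ ev φ (χ(j γ)) (g γ + η γ) = 0` (`eta_eq`; characteristic `2`). -/
theorem ca_const (h61 : 61 ≤ p) {β : ℂ} (hβ : β ∈ primitiveRoots M ℂ) (γ₀ : ZMod p)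
    (S : Finset (ZMod p)) (hS : S.card ≤ lm p) (hsym : ∀ s ∈ S, -s ∈ S)
    (hS' : ∀ γ, γ ∈ S ↔ ¬ InE ((τ + σ : ℤ) : ZMod p) ((τ - σ : ℤ) : ZMod p) γ ∧ c γ β ≠ c γ₀ β)
    (hrig : Rigid p ((τ + σ : ℤ) : ZMod p) ((τ - σ : ℤ) : ZMod p) (lm p))
    {K : Type} [Field K] [CharP K 2] (φ : integralClosure ℤ ℂ →+* K) :
    (∀ j : ZMod p, j ≠ 0 → ev φ (G (ZMod.stdAddChar j * β)) = 0) ∨
    (∀ j : ZMod p, j ≠ 0 →
      ev φ (G (ZMod.stdAddChar j * β) + eta τ σ (ZMod.stdAddChar j * β)) = 0) := by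
  classical
  have hci : ∀ i, IsIntegral ℤ (c i β - c γ₀ β) := fun i =>
    (isIntegral_isCyc hM (hc i) hβ).sub (isIntegral_isCyc hM (hc γ₀) hβ)
  have hei : ∀ i, IsIntegral ℤ (etaC p τ σ i β) := isIntegral_etaC hM hβ τ σ
  have h20 : (2 : K) = 0 := CharTwo.two_eq_zero
  have hlm : lm p ≤ 10 := by
    unfold lm
    split_ifs <;> norm_num
  have hGc : ∀ j : ZMod p, j ≠ 0 → G (ZMod.stdAddChar j * β) =
      ∑ γ : ZMod p, ZMod.stdAddChar (j * γ) * (c γ β - c γ₀ β) := by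
    intro j hj
    simp_rw [mul_sub]
    rw [Finset.sum_sub_distrib, ← Finset.sum_mul, CaId_sum_char_zero hj, zero_mul, sub_zero,
      hcG j hj β hβ]
  have hne := ev_etaC_ne hp hp2 hM hβ hτ hσ φ
  have hgs : ∀ i, ev φ (c i β - c γ₀ β) ≠ 0 →
      i ∈ S ∨ InE ((τ + σ : ℤ) : ZMod p) ((τ - σ : ℤ) : ZMod p) i := by
    intro i hi
    by_cases hE : InE ((τ + σ : ℤ) : ZMod p) ((τ - σ : ℤ) : ZMod p) i
    · exact Or.inr hE
    · left
      rw [hS']
      refine ⟨hE, fun h => hi ?_⟩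
      rw [h, sub_self, ev_zero]
  have hηs : ∀ i, ev φ (etaC p τ σ i β) ≠ 0 →
      InE ((τ + σ : ℤ) : ZMod p) ((τ - σ : ℤ) : ZMod p) i := by
    intro i hi
    by_contra hE
    apply hi
    rw [etaC_zero τ σ i β hE, ev_zero]
  rcases hrig K (fun i => ev φ (c i β - c γ₀ β)) (fun i => ev φ (etaC p τ σ i β)) S hS hsym
    (fun s hs => ((hS' s).1 hs).1) hgs hηs hne.1 hne.2
    (fun γ => ca_id hp hp2 hM hpM hτ hσ hG hc hcG hsq h61 hβ γ₀ S (hS.trans hlm) hS' φ γ) with h | h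
  · left
    intro j hj
    rw [hGc j hj, ev_sum φ _ (fun i _ => (CaId_char_int _).mul (hci i))]
    refine Finset.sum_eq_zero fun i _ => ?_
    rw [ev_mul φ (CaId_char_int _) (hci i), h i, mul_zero]
  · right
    intro j hj
    rw [hGc j hj, eta_eq, ← Finset.sum_add_distrib,
      ev_sum φ _ (fun i _ => ((CaId_char_int _).mul (hci i)).add ((CaId_char_int _).mul (hei i)))]
    refine Finset.sum_eq_zero fun i _ => ?_
    rw [ev_add φ ((CaId_char_int _).mul (hci i)) ((CaId_char_int _).mul (hei i)),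
      ev_mul φ (CaId_char_int _) (hci i), ev_mul φ (CaId_char_int _) (hei i), h i, ← two_mul, h20,
      zero_mul]

end

end Pool.Agent.Lib.MP_baf44c_co.Q1
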