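import Pool.Agent.Lib.MP_baf44c_co.Q1.EvRoot
import Pool.Agent.Lib.MP_baf44c_co.FB.CharSum
import Pool.Agent.Lib.MP_baf44c_co.FB.Cassels
import Pool.Agent.Lib.MP_baf44c_co.FB.Norm

/-!
The case of a prime dividing the order exactly once: sums over the classes mod `p`.
-/

set_option autoImplicit false

namespace Pool.Agent.Lib.MP_baf44c_co.Q1

open Polynomial Pool.Agent.Lib.MP_baf44c_co.FB

private theorem ca_weight {p : ℕ} [NeZero p] (hp : p.Prime) (hp2 : p ≠ 2) {u v : ZMod p}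
    (hu : u ≠ 0) (hv : v ≠ 0) :
    ∑ q ∈ (sg ×ˢ sg).filter (fun q => (q.1 : ZMod p) * u + (q.2 : ZMod p) * v = 0),
      ‖dd q.1 * dd q.2‖ ≤ 38 := by
  have : Fact p.Prime := ⟨hp⟩
  rw [Finset.sum_filter, Finset.sum_product]
  have hsum : ∀ f : ℤ → ℝ, ∑ a ∈ sg, f a = f (-1) + f 0 + f 1 := by
    intro f
    simp [sg]
    ring
  have d0 : dd 0 = 6 := by simp [dd]
  have d1 : dd 1 = 1 := by simp [dd]
  have dm : dd (-1) = 1 := by simp [dd]
  simp only [hsum, d0, d1, dm]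
  have e1 : ¬ (((-1 : ℤ) : ZMod p) * u + ((0 : ℤ) : ZMod p) * v = 0) := by simpa using hu
  have e2 : ¬ (((1 : ℤ) : ZMod p) * u + ((0 : ℤ) : ZMod p) * v = 0) := by simpa using hu
  have e3 : ¬ (((0 : ℤ) : ZMod p) * u + ((-1 : ℤ) : ZMod p) * v = 0) := by simpa using hv
  have e4 : ¬ (((0 : ℤ) : ZMod p) * u + ((1 : ℤ) : ZMod p) * v = 0) := by simpa using hv
  have e5 : ((0 : ℤ) : ZMod p) * u + ((0 : ℤ) : ZMod p) * v = 0 := by simp
  rw [if_neg e1, if_neg e2, if_neg e3, if_neg e4, if_pos e5]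
  have e6 : ‖(6 : ℂ) * 6‖ = 36 := by norm_num
  rw [e6]
  have h2 : (2 : ZMod p) ≠ 0 := by
    intro h
    have h3 : ((2 : ℕ) : ZMod p) = 0 := by exact_mod_cast h
    rw [ZMod.natCast_eq_zero_iff] at h3
    exact hp2 ((Nat.prime_dvd_prime_iff_eq hp Nat.prime_two).1 h3)
  by_cases hpp : u + v = 0
  · have hpm : ¬ (u - v = 0) := by
      intro h
      have h3 : 2 * u = 0 := by linear_combination hpp + h
      exact (mul_ne_zero h2 hu) h3
    have e7 : ¬ (((-1 : ℤ) : ZMod p) * u + ((1 : ℤ) : ZMod p) * v = 0) := by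
      intro h
      apply hpm
      push_cast at h
      linear_combination -h
    have e8 : ¬ (((1 : ℤ) : ZMod p) * u + ((-1 : ℤ) : ZMod p) * v = 0) := by
      intro h
      apply hpm
      push_cast at h
      linear_combination h
    rw [if_neg e7, if_neg e8]
    have h1 : ∀ (P : Prop) [Decidable P], (if P then ‖(1 : ℂ) * 1‖ else 0) ≤ 1 := by
      intro P _
      split_ifs <;> simp
    have hmm := h1 (((-1 : ℤ) : ZMod p) * u + ((-1 : ℤ) : ZMod p) * v = 0)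
    have hpp := h1 (((1 : ℤ) : ZMod p) * u + ((1 : ℤ) : ZMod p) * v = 0)
    linarith
  · have e7 : ¬ (((-1 : ℤ) : ZMod p) * u + ((-1 : ℤ) : ZMod p) * v = 0) := by
      intro h
      apply hpp
      push_cast at h
      linear_combination -h
    have e8 : ¬ (((1 : ℤ) : ZMod p) * u + ((1 : ℤ) : ZMod p) * v = 0) := by
      intro h
      apply hpp
      push_cast at h
      linear_combination h
    rw [if_neg e7, if_neg e8]
    have h1 : ∀ (P : Prop) [Decidable P], (if P then ‖(1 : ℂ) * 1‖ else 0) ≤ 1 := by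
      intro P _
      split_ifs <;> simp
    have hmm := h1 (((-1 : ℤ) : ZMod p) * u + ((1 : ℤ) : ZMod p) * v = 0)
    have hpp := h1 (((1 : ℤ) : ZMod p) * u + ((-1 : ℤ) : ZMod p) * v = 0)
    linarith

/-- `X (μ) Y (μ) = μ^(2u) + μ^(-2u) + μ^(2v) + μ^(-2v)` with `u = τ + σ`, `v = τ - σ`, and for a class
`c ≠ 0`, `∑_{j ≠ 0} χ(j c) = -1`. If `u, v ≠ 0` mod `p`:
`∑_{j ≠ 0} D D' = 36 (p - 1) - (6 X + 6 Y + X Y) (β) ≤ 36 p`; if one of `u, v` is `0` (not both, as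
`2 τ ≠ 0`) one of the terms `ν^(2v) + ν^(-2v) ≤ 2` occurs `p - 1` times. -/
theorem ca_DD_le {p : ℕ} [NeZero p] (hp : p.Prime) (hp2 : p ≠ 2) {β : ℂ} (hβ : ‖β‖ = 1) {τ σ : ℤ}
    (hτ : ((2 * τ : ℤ) : ZMod p) ≠ 0) (hσ : ((2 * σ : ℤ) : ZMod p) ≠ 0) :
    (∑ j ∈ Finset.univ.filter (fun j : ZMod p => j ≠ 0),
      D ((ZMod.stdAddChar j * β) ^ (2 * τ)) * D ((ZMod.stdAddChar j * β) ^ (2 * σ))).re ≤
      38 * p := by
  have hτ' : 2 * (τ : ZMod p) ≠ 0 := by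
    intro h
    apply hτ
    push_cast
    exact h
  have hσ' : 2 * (σ : ZMod p) ≠ 0 := by
    intro h
    apply hσ
    push_cast
    exact h
  have hβ0 : β ≠ 0 := by
    intro h
    rw [h, norm_zero] at hβ
    exact zero_ne_one hβ
  set F : ZMod p → ℂ := fun j =>
    D ((ZMod.stdAddChar j * β) ^ (2 * τ)) * D ((ZMod.stdAddChar j * β) ^ (2 * σ)) with hF
  have hsplit : ∑ j ∈ Finset.univ.filter (fun j : ZMod p => j ≠ 0), F j =
      (∑ j : ZMod p, F j) - F 0 := by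
    rw [Finset.filter_ne', Finset.sum_erase_eq_sub (Finset.mem_univ _)]
  have hF0 : 0 ≤ (F 0).re := by
    obtain ⟨r, hr, -, h1⟩ := D_real (x := β ^ (2 * τ)) (by rw [norm_zpow, hβ, one_zpow])
    obtain ⟨s, hs, -, h2⟩ := D_real (x := β ^ (2 * σ)) (by rw [norm_zpow, hβ, one_zpow])
    have h3 : F 0 = ((r * s : ℝ) : ℂ) := by
      simp only [hF]
      rw [AddChar.map_zero_eq_one, one_mul, h1, h2]
      push_cast
      rfl
    rw [h3, Complex.ofReal_re]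
    positivity
  have htot : ‖∑ j : ZMod p, F j‖ ≤ 38 * p := by
    have h1 : ∑ j : ZMod p, F j = ∑ q ∈ sg ×ˢ sg, dd q.1 * dd q.2 *
        ((if ((q.1 : ZMod p) * (2 * (τ : ZMod p)) + (q.2 : ZMod p) * (2 * (σ : ZMod p))) = 0
          then (p : ℂ) else 0) * β ^ (q.1 * (2 * τ) + q.2 * (2 * σ))) := by
      simp only [hF]
      rw [Finset.sum_congr rfl fun j _ => DD_char hβ0 τ σ j, Finset.sum_comm]
      refine Finset.sum_congr rfl fun q _ => ?_
      rw [← Finset.mul_sum, ← Finset.sum_mul, AddChar.sum_mulShift _ (ZMod.isPrimitive_stdAddChar p),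
        ZMod.card]
      split_ifs <;> simp
    rw [h1]
    refine (norm_sum_le _ _).trans ?_
    have h2 : ∀ q ∈ sg ×ˢ sg, ‖dd q.1 * dd q.2 *
        ((if ((q.1 : ZMod p) * (2 * (τ : ZMod p)) + (q.2 : ZMod p) * (2 * (σ : ZMod p))) = 0
          then (p : ℂ) else 0) * β ^ (q.1 * (2 * τ) + q.2 * (2 * σ)))‖ =
        if ((q.1 : ZMod p) * (2 * (τ : ZMod p)) + (q.2 : ZMod p) * (2 * (σ : ZMod p))) = 0
          then ‖dd q.1 * dd q.2‖ * p else 0 := by
      intro q _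
      split_ifs
      · rw [norm_mul, norm_mul (p : ℂ), norm_zpow, hβ, one_zpow, mul_one, Complex.norm_natCast]
      · rw [zero_mul, mul_zero, norm_zero]
    rw [Finset.sum_congr rfl h2, ← Finset.sum_filter, ← Finset.sum_mul]
    exact mul_le_mul_of_nonneg_right (ca_weight hp hp2 hτ' hσ') (Nat.cast_nonneg _)
  rw [hsplit, Complex.sub_re]
  have := (Complex.re_le_norm (∑ j : ZMod p, F j)).trans htot
  linarith

/-- The sum over all `j` of a power of `χ(j) β`. -/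
private theorem ca_pow_sum {p : ℕ} [NeZero p] (β : ℂ) (e : ℤ) :
    ∑ j : ZMod p, (ZMod.stdAddChar j * β) ^ e = if (e : ZMod p) = 0 then (p : ℂ) * β ^ e else 0 := by
  have h1 : ∀ j : ZMod p, (ZMod.stdAddChar j * β) ^ e =
      ZMod.stdAddChar (j * (e : ZMod p)) * β ^ e := by
    intro j
    rw [mul_zpow, ← AddChar.map_zsmul_eq_zpow, zsmul_eq_mul, mul_comm (e : ZMod p) j]
  simp only [h1]
  rw [← Finset.sum_mul, AddChar.sum_mulShift _ (ZMod.isPrimitive_stdAddChar p), ZMod.card]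
  split_ifs <;> simp

/-- The right hand side of `norm_sum`. -/
private noncomputable def caW (τ σ : ℤ) (μ : ℂ) : ℂ :=
  (μ ^ (2 * τ) + μ ^ (-(2 * τ)) + 2) * (μ ^ (2 * σ) + μ ^ (-(2 * σ)) + 2) + 16

private theorem caW_eq {τ σ : ℤ} {μ : ℂ} (hμ : μ ≠ 0) :
    caW τ σ μ = (μ ^ (2 * (τ + σ)) + μ ^ (-(2 * (τ + σ)))) +
      (μ ^ (2 * (τ - σ)) + μ ^ (-(2 * (τ - σ)))) +
      2 * (μ ^ (2 * τ) + μ ^ (-(2 * τ))) + 2 * (μ ^ (2 * σ) + μ ^ (-(2 * σ))) + 20 := by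
  have a1 : μ ^ (2 * (τ + σ)) = μ ^ (2 * τ) * μ ^ (2 * σ) := by
    rw [← zpow_add₀ hμ]; congr 1; ring
  have a2 : μ ^ (-(2 * (τ + σ))) = μ ^ (-(2 * τ)) * μ ^ (-(2 * σ)) := by
    rw [← zpow_add₀ hμ]; congr 1; ring
  have a3 : μ ^ (2 * (τ - σ)) = μ ^ (2 * τ) * μ ^ (-(2 * σ)) := by
    rw [← zpow_add₀ hμ]; congr 1; ring
  have a4 : μ ^ (-(2 * (τ - σ))) = μ ^ (-(2 * τ)) * μ ^ (2 * σ) := by
    rw [← zpow_add₀ hμ]; congr 1; ring
  rw [a1, a2, a3, a4]
  unfold caW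
  ring

private theorem caW_real {β : ℂ} (hβ : ‖β‖ = 1) (τ σ : ℤ) : 16 ≤ (caW τ σ β).re := by
  obtain ⟨r, hr, -, h1⟩ := D_real (x := β ^ (2 * τ)) (by rw [norm_zpow, hβ, one_zpow])
  obtain ⟨s, hs, -, h2⟩ := D_real (x := β ^ (2 * σ)) (by rw [norm_zpow, hβ, one_zpow])
  unfold D at h1 h2
  rw [← zpow_neg] at h1 h2
  have h3 : caW τ σ β = (((r - 4) * (s - 4) + 16 : ℝ) : ℂ) := by
    unfold caW
    have e1 : β ^ (2 * τ) + β ^ (-(2 * τ)) = (r : ℂ) - 6 := by linear_combination h1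
    have e2 : β ^ (2 * σ) + β ^ (-(2 * σ)) = (s : ℂ) - 6 := by linear_combination h2
    rw [e1, e2]
    push_cast
    ring
  rw [h3, Complex.ofReal_re]
  nlinarith

private theorem ca_two {p : ℕ} (hp : p.Prime) (hp2 : p ≠ 2) : (2 : ZMod p) ≠ 0 := by
  intro h
  have h3 : ((2 : ℕ) : ZMod p) = 0 := by exact_mod_cast h
  rw [ZMod.natCast_eq_zero_iff] at h3
  exact hp2 ((Nat.prime_dvd_prime_iff_eq hp Nat.prime_two).1 h3)

private theorem ca_two_mul {p : ℕ} (hp : p.Prime) (hp2 : p ≠ 2) (e : ℤ) :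
    ((2 * e : ℤ) : ZMod p) = 0 ↔ (e : ZMod p) = 0 := by
  have : Fact p.Prime := ⟨hp⟩
  push_cast
  constructor
  · intro h
    rcases mul_eq_zero.1 h with h | h
    · exact absurd h (ca_two hp hp2)
    · exact h
  · intro h
    rw [h, mul_zero]

/-- Sum of the right hand side of `norm_sum` over all `j`. -/
private theorem caW_sum {p : ℕ} [NeZero p] (hp : p.Prime) (hp2 : p ≠ 2) {β : ℂ} (hβ : β ≠ 0)
    {τ σ : ℤ} (hτ : ((2 * τ : ℤ) : ZMod p) ≠ 0) (hσ : ((2 * σ : ℤ) : ZMod p) ≠ 0) :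
    ∑ j : ZMod p, caW τ σ (ZMod.stdAddChar j * β) =
      (p : ℂ) * (20 +
        (if ((τ + σ : ℤ) : ZMod p) = 0 then β ^ (2 * (τ + σ)) + β ^ (-(2 * (τ + σ))) else 0) +
        (if ((τ - σ : ℤ) : ZMod p) = 0 then β ^ (2 * (τ - σ)) + β ^ (-(2 * (τ - σ))) else 0)) := by
  have hχ : ∀ j : ZMod p, (ZMod.stdAddChar j : ℂ) * β ≠ 0 := by
    intro j
    refine mul_ne_zero ?_ hβ
    intro h
    have h1 : ‖(ZMod.stdAddChar j : ℂ)‖ = 1 := AddChar.norm_apply _ _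
    rw [h, norm_zero] at h1
    exact zero_ne_one h1
  rw [Finset.sum_congr rfl fun j _ => caW_eq (τ := τ) (σ := σ) (hχ j)]
  simp only [Finset.sum_add_distrib, ← Finset.mul_sum, ca_pow_sum]
  have hneg : ∀ e : ℤ, ((-e : ℤ) : ZMod p) = 0 ↔ (e : ZMod p) = 0 := by
    intro e
    push_cast
    exact neg_eq_zero
  simp only [hneg]
  simp only [ca_two_mul hp hp2]
  rw [Ne, ca_two_mul hp hp2] at hτ hσ
  simp only [if_neg hτ, if_neg hσ]
  rw [Finset.sum_const, Finset.card_univ, ZMod.card, nsmul_eq_mul]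
  split_ifs <;> ring

private theorem isCyc_etaC {p M : ℕ} (hM : 0 < M) (τ σ : ℤ) (γ : ZMod p) :
    IsCyc M (etaC p τ σ γ) := by
  have h : ∀ (P : Prop) [Decidable P] (e : ℤ),
      IsCyc M (fun β : ℂ => if P then β ^ e else 0) := by
    intro P _ e
    by_cases hP : P
    · simp only [if_pos hP]
      exact isCyc_zpow hM e
    · simp only [if_neg hP]
      exact (isCyc_int M 0).congr (fun μ _ => by simp)
  unfold etaC
  exact (((h _ _).add (h _ _)).sub (h _ _)).sub (h _ _)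

private theorem ca_inv_aux {p M : ℕ} [NeZero p] {G : ℂ → ℂ} {c : ZMod p → ℂ → ℂ}
    (hcG : ∀ j : ZMod p, j ≠ 0 → ∀ β ∈ primitiveRoots M ℂ,
      G (ZMod.stdAddChar j * β) = ∑ γ : ZMod p, ZMod.stdAddChar (j * γ) * c γ β)
    {β : ℂ} (hβ : β ∈ primitiveRoots M ℂ) (γ δ : ZMod p) :
    (p : ℂ) * (c γ β - c δ β) = ∑ j ∈ Finset.univ.filter (fun j : ZMod p => j ≠ 0),
      (ZMod.stdAddChar (-(j * γ)) - ZMod.stdAddChar (-(j * δ))) * G (ZMod.stdAddChar j * β) := by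
  have h1 : ∑ j ∈ Finset.univ.filter (fun j : ZMod p => j ≠ 0),
      (ZMod.stdAddChar (-(j * γ)) - ZMod.stdAddChar (-(j * δ))) * G (ZMod.stdAddChar j * β) =
      ∑ j : ZMod p, (ZMod.stdAddChar (-(j * γ)) - ZMod.stdAddChar (-(j * δ))) *
        ∑ ε : ZMod p, ZMod.stdAddChar (j * ε) * c ε β := by
    rw [Finset.sum_congr rfl fun j hj => by rw [hcG j (Finset.mem_filter.1 hj).2 β hβ]]
    refine Finset.sum_subset (Finset.filter_subset _ _) fun j _ hj => ?_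
    have hj0 : j = 0 := by
      by_contra h
      exact hj (Finset.mem_filter.2 ⟨Finset.mem_univ _, h⟩)
    rw [hj0]
    simp
  have h2 : ∀ γ : ZMod p, ∑ j : ZMod p, ZMod.stdAddChar (-(j * γ)) *
      ∑ ε : ZMod p, ZMod.stdAddChar (j * ε) * c ε β = (p : ℂ) * c γ β := by
    intro γ
    have h3 : ∀ j : ZMod p, ZMod.stdAddChar (-(j * γ)) *
        ∑ ε : ZMod p, ZMod.stdAddChar (j * ε) * c ε β =
        ∑ ε : ZMod p, c ε β * (ZMod.stdAddChar (j * (ε - γ)) : ℂ) := by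
      intro j
      rw [Finset.mul_sum]
      refine Finset.sum_congr rfl fun ε _ => ?_
      rw [mul_sub, sub_eq_add_neg, AddChar.map_add_eq_mul]
      ring
    rw [Finset.sum_congr rfl fun j _ => h3 j, Finset.sum_comm]
    have h4 : ∀ ε : ZMod p, ∑ j : ZMod p, c ε β * (ZMod.stdAddChar (j * (ε - γ)) : ℂ) =
        if ε = γ then (p : ℂ) * c γ β else 0 := by
      intro ε
      rw [← Finset.mul_sum, AddChar.sum_mulShift _ (ZMod.isPrimitive_stdAddChar p)]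
      by_cases h : ε = γ
      · subst h
        simp [ZMod.card, mul_comm]
      · simp [h, sub_eq_zero]
    rw [Finset.sum_congr rfl fun ε _ => h4 ε]
    simp
  rw [h1]
  simp only [sub_mul, Finset.sum_sub_distrib, h2]
  ring

private theorem ca_norm_e {β : ℂ} (hβ : ‖β‖ = 1) (w : ℤ) :
    ‖β ^ w + β ^ (-w)‖ ^ 2 = (β ^ (2 * w) + β ^ (-(2 * w))).re + 2 := by
  have hβ0 : β ≠ 0 := by
    intro h
    rw [h, norm_zero] at hβ
    exact zero_ne_one hβ
  have hconj : (starRingEnd ℂ) β = β⁻¹ := by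
    rw [Complex.inv_def, Complex.normSq_eq_norm_sq, hβ]
    simp
  have hstar : (starRingEnd ℂ) (β ^ w + β ^ (-w)) = β ^ w + β ^ (-w) := by
    rw [map_add, map_zpow₀, map_zpow₀, hconj, inv_zpow, inv_zpow, zpow_neg, inv_inv, add_comm]
  have h : ((‖β ^ w + β ^ (-w)‖ ^ 2 : ℝ) : ℂ) = β ^ (2 * w) + β ^ (-(2 * w)) + 2 := by
    rw [Complex.ofReal_pow, ← Complex.mul_conj', hstar]
    have e1 : β ^ (2 * w) = β ^ w * β ^ w := by rw [← zpow_add₀ hβ0]; congr 1; ring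
    have e2 : β ^ (-(2 * w)) = β ^ (-w) * β ^ (-w) := by rw [← zpow_add₀ hβ0]; congr 1; ring
    have e3 : β ^ w * β ^ (-w) = 1 := by rw [← zpow_add₀ hβ0]; simp
    rw [e1, e2]
    linear_combination 2 * e3
  have h2 := congrArg Complex.re h
  rw [Complex.ofReal_re, Complex.add_re] at h2
  rw [h2]
  simp

private theorem ca_X_le {β : ℂ} (hβ : ‖β‖ = 1) (w : ℤ) :
    (β ^ (2 * w) + β ^ (-(2 * w))).re ≤ 2 := by
  refine (Complex.re_le_norm _).trans ((norm_add_le _ _).trans ?_)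
  rw [norm_zpow, norm_zpow, hβ, one_zpow, one_zpow]
  norm_num

private theorem ca_par (a b : ℂ) : ‖b‖ ^ 2 / 2 ≤ ‖a‖ ^ 2 + ‖a + b‖ ^ 2 := by
  have h1 : ‖b‖ ≤ ‖a + b‖ + ‖a‖ := by
    have : b = (a + b) - a := by ring
    calc ‖b‖ = ‖(a + b) - a‖ := by rw [← this]
      _ ≤ ‖a + b‖ + ‖a‖ := norm_sub_le _ _
  nlinarith [norm_nonneg a, norm_nonneg b, norm_nonneg (a + b), sq_nonneg (‖a + b‖ - ‖a‖)]

private theorem ca_sub_card {p : ℕ} [NeZero p] (P : ZMod p → ZMod p → Prop)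
    [∀ a b, Decidable (P a b)] :
    (Finset.univ.filter (fun q : {γ : ZMod p // γ ≠ 0} × {γ : ZMod p // γ ≠ 0} =>
      P q.1 q.2)).card ≤
    (((Finset.univ.erase (0 : ZMod p)) ×ˢ (Finset.univ.erase (0 : ZMod p))).filter
      (fun q => P q.1 q.2)).card := by
  apply Finset.card_le_card_of_injOn (fun q => (q.1.1, q.2.1))
  · intro q hq
    have hq' := (Finset.mem_filter.1 hq).2
    refine Finset.mem_coe.2 (Finset.mem_filter.2 ⟨Finset.mem_product.2 ⟨?_, ?_⟩, hq'⟩)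
    · exact Finset.mem_erase.2 ⟨q.1.2, Finset.mem_univ _⟩
    · exact Finset.mem_erase.2 ⟨q.2.2, Finset.mem_univ _⟩
  · intro a _ b _ h
    have h1 : a.1.1 = b.1.1 := congrArg Prod.fst h
    have h2 : a.2.1 = b.2.1 := congrArg Prod.snd h
    exact Prod.ext (Subtype.ext h1) (Subtype.ext h2)

/-- Two vectors of cyclotomic functions: counting pairs. -/
private theorem ca_count {p M : ℕ} [NeZero p] (hM : 0 < M) {c f : ZMod p → ℂ → ℂ}
    (hc : ∀ γ, IsCyc M (c γ)) (hf : ∀ γ, IsCyc M (f γ)) {β₀ : ℂ} (hβ₀ : β₀ ∈ primitiveRoots M ℂ)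
    (S : Finset (ZMod p × ZMod p)) {B : ℝ}
    (hB : ∀ β ∈ primitiveRoots M ℂ, ∑ q ∈ S,
      (‖c q.1 β - c q.2 β‖ ^ 2 + ‖f q.1 β - f q.2 β‖ ^ 2) ≤ B) :
    ((S.filter (fun q => c q.1 β₀ ≠ c q.2 β₀)).card : ℝ) +
      (S.filter (fun q => f q.1 β₀ ≠ f q.2 β₀)).card ≤ B := by
  have key : ∀ g : ZMod p → ℂ → ℂ, (∀ γ, IsCyc M (g γ)) →
      ((S.filter (fun q => g q.1 β₀ ≠ g q.2 β₀)).card : ℝ) * M.totient ≤
        ∑ q ∈ S, ∑ β ∈ primitiveRoots M ℂ, ‖g q.1 β - g q.2 β‖ ^ 2 := by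
    intro g hg
    have h1 : ((S.filter (fun q => g q.1 β₀ ≠ g q.2 β₀)).card : ℝ) * M.totient =
        ∑ q ∈ S.filter (fun q => g q.1 β₀ ≠ g q.2 β₀), (M.totient : ℝ) := by
      rw [Finset.sum_const, nsmul_eq_mul]
    rw [h1]
    refine le_trans (Finset.sum_le_sum (g := fun q => ∑ β ∈ primitiveRoots M ℂ,
      ‖g q.1 β - g q.2 β‖ ^ 2) fun q hq => ?_) ?_
    · have hne := (Finset.mem_filter.1 hq).2
      exact IsCyc.sum_sq_ge hM ((hg q.1).sub (hg q.2)) hβ₀ (sub_ne_zero.2 hne)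
    · exact Finset.sum_le_sum_of_subset_of_nonneg (Finset.filter_subset _ _)
        fun q _ _ => Finset.sum_nonneg fun β _ => by positivity
  have h1 := key c hc
  have h2 := key f hf
  have h3 : ∑ q ∈ S, ∑ β ∈ primitiveRoots M ℂ, ‖c q.1 β - c q.2 β‖ ^ 2 +
      ∑ q ∈ S, ∑ β ∈ primitiveRoots M ℂ, ‖f q.1 β - f q.2 β‖ ^ 2 =
      ∑ β ∈ primitiveRoots M ℂ, ∑ q ∈ S,
        (‖c q.1 β - c q.2 β‖ ^ 2 + ‖f q.1 β - f q.2 β‖ ^ 2) := by
    rw [← Finset.sum_add_distrib, Finset.sum_comm]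
    refine Finset.sum_congr rfl fun q _ => ?_
    rw [← Finset.sum_add_distrib]
  have h4 : ∑ β ∈ primitiveRoots M ℂ, ∑ q ∈ S,
        (‖c q.1 β - c q.2 β‖ ^ 2 + ‖f q.1 β - f q.2 β‖ ^ 2) ≤ (M.totient : ℝ) * B := by
    refine le_trans (Finset.sum_le_sum hB) ?_
    rw [Finset.sum_const, nsmul_eq_mul, Complex.card_primitiveRoots]
  have hφ : (0 : ℝ) < M.totient := by exact_mod_cast Nat.totient_pos.2 hM
  nlinarith

section

variable {p M : ℕ} (hp : p.Prime) [NeZero p] (hp2 : p ≠ 2) (hM : 0 < M) (hpM : ¬ p ∣ M) {τ σ : ℤ}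
    (hτ : ((2 * τ : ℤ) : ZMod p) ≠ 0) (hσ : ((2 * σ : ℤ) : ZMod p) ≠ 0)
    {G : ℂ → ℂ} (hG : IsCyc (p * M) G) {c : ZMod p → ℂ → ℂ} (hc : ∀ γ, IsCyc M (c γ))
    (hcG : ∀ j : ZMod p, j ≠ 0 → ∀ β ∈ primitiveRoots M ℂ,
      G (ZMod.stdAddChar j * β) = ∑ γ : ZMod p, ZMod.stdAddChar (j * γ) * c γ β)
    (hsq : ∀ μ ∈ primitiveRoots (p * M) ℂ,
        (eta τ σ μ + 2 * G μ) ^ 2 = D (μ ^ (2 * τ)) * D (μ ^ (2 * σ)))

include hp hp2 hM hpM hτ hσ hG hc hcG hsq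

private theorem ca_total {β : ℂ} (hβ : β ∈ primitiveRoots M ℂ) :
    (1 / 2) * ∑ γ : ZMod p, ∑ δ : ZMod p, (‖c γ β - c δ β‖ ^ 2 +
      ‖(c γ β + etaC p τ σ γ β) - (c δ β + etaC p τ σ δ β)‖ ^ 2) ≤
      ((p : ℂ) * (20 +
        (if ((τ + σ : ℤ) : ZMod p) = 0 then β ^ (2 * (τ + σ)) + β ^ (-(2 * (τ + σ))) else 0) +
        (if ((τ - σ : ℤ) : ZMod p) = 0 then β ^ (2 * (τ - σ)) + β ^ (-(2 * (τ - σ))) else 0))).re
        - 16 := by
  have hβnorm : ‖β‖ = 1 := by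
    have hβ' := (mem_primitiveRoots hM).1 hβ
    exact Complex.norm_eq_one_of_pow_eq_one hβ'.pow_eq_one hM.ne'
  have hβ0 : β ≠ 0 := by
    intro h
    rw [h, norm_zero] at hβnorm
    exact zero_ne_one hβnorm
  have h1 := cassels (p := p) (fun γ => c γ β)
  have h2 := cassels (p := p) (fun γ => c γ β + etaC p τ σ γ β)
  have hL : (1 / 2 : ℝ) * ∑ γ : ZMod p, ∑ δ : ZMod p, (‖c γ β - c δ β‖ ^ 2 +
      ‖(c γ β + etaC p τ σ γ β) - (c δ β + etaC p τ σ δ β)‖ ^ 2) =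
      (1 / 2 : ℝ) * ∑ γ : ZMod p, ∑ δ : ZMod p, ‖c γ β - c δ β‖ ^ 2 +
      (1 / 2 : ℝ) * ∑ γ : ZMod p, ∑ δ : ZMod p,
        ‖(c γ β + etaC p τ σ γ β) - (c δ β + etaC p τ σ δ β)‖ ^ 2 := by
    rw [← mul_add, ← Finset.sum_add_distrib]
    simp only [Finset.sum_add_distrib]
  rw [hL]
  have h1' : (1 / 2 : ℝ) * ∑ γ : ZMod p, ∑ δ : ZMod p, ‖c γ β - c δ β‖ ^ 2 =
      ∑ j ∈ Finset.univ.filter (fun j : ZMod p => j ≠ 0), ‖G (ZMod.stdAddChar j * β)‖ ^ 2 := by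
    rw [← h1]
    refine Finset.sum_congr rfl fun j hj => ?_
    rw [hcG j (Finset.mem_filter.1 hj).2 β hβ]
  have h2' : (1 / 2 : ℝ) * ∑ γ : ZMod p, ∑ δ : ZMod p,
      ‖(c γ β + etaC p τ σ γ β) - (c δ β + etaC p τ σ δ β)‖ ^ 2 =
      ∑ j ∈ Finset.univ.filter (fun j : ZMod p => j ≠ 0),
        ‖G (ZMod.stdAddChar j * β) + eta τ σ (ZMod.stdAddChar j * β)‖ ^ 2 := by
    rw [← h2]
    refine Finset.sum_congr rfl fun j hj => ?_
    rw [hcG j (Finset.mem_filter.1 hj).2 β hβ, eta_eq, ← Finset.sum_add_distrib]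
    congr 2
    refine Finset.sum_congr rfl fun γ _ => ?_
    ring
  rw [h1', h2', ← Finset.sum_add_distrib]
  have h3 : ∑ j ∈ Finset.univ.filter (fun j : ZMod p => j ≠ 0),
      (‖G (ZMod.stdAddChar j * β)‖ ^ 2 +
        ‖G (ZMod.stdAddChar j * β) + eta τ σ (ZMod.stdAddChar j * β)‖ ^ 2) =
      (∑ j ∈ Finset.univ.filter (fun j : ZMod p => j ≠ 0),
        caW τ σ (ZMod.stdAddChar j * β)).re := by
    rw [Complex.re_sum]
    refine Finset.sum_congr rfl fun j hj => ?_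
    have hj' : j ≠ 0 := (Finset.mem_filter.1 hj).2
    have hμ := mul_mem_prim' hp hM hpM hj' hβ
    have h4 := norm_sum (Nat.mul_pos hp.pos hM) hμ (hsq _ hμ)
    have h5 := congrArg Complex.re h4
    rw [Complex.ofReal_re] at h5
    exact h5
  rw [h3, Finset.filter_ne', Finset.sum_erase_eq_sub (Finset.mem_univ _),
    caW_sum hp hp2 hβ0 hτ hσ, Complex.sub_re]
  have h6 := caW_real hβnorm τ σ
  rw [AddChar.map_zero_eq_one, one_mul]
  linarith

/-- For each `β`, with `g = c · β`, `e = etaC · β`, `f = g + e`, by `cassels` and `norm_sum`: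
`1/2 ∑_{γ, δ} (‖g γ - g δ‖² + ‖f γ - f δ‖²) = ∑_{j ≠ 0} (20 + X Y + 2 X + 2 Y) (χ(j) β)`, which for
`u, v ≠ 0` is `20 (p - 1) + 4 - (X + 2) (Y + 2) (β) ≤ 20 (p - 1) + 4`. Sum over the primitive `β`: if
`c γ β₀ ≠ c δ β₀` then `∑_β ‖c γ β - c δ β‖² ≥ φ M` (`IsCyc.sum_sq_ge`), and the same for `f`
(`etaC γ` is cyclotomic of level `M`). -/
theorem ca_pairs_gen (hu : ((τ + σ : ℤ) : ZMod p) ≠ 0) (hv : ((τ - σ : ℤ) : ZMod p) ≠ 0) {β₀ : ℂ}
    (hβ₀ : β₀ ∈ primitiveRoots M ℂ) :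
    (Finset.univ.filter (fun q : ZMod p × ZMod p => c q.1 β₀ ≠ c q.2 β₀)).card +
      (Finset.univ.filter (fun q : ZMod p × ZMod p =>
        c q.1 β₀ + etaC p τ σ q.1 β₀ ≠ c q.2 β₀ + etaC p τ σ q.2 β₀)).card ≤
      2 * (20 * p - 16) := by
  have hcnt := ca_count hM hc (f := fun γ β => c γ β + etaC p τ σ γ β)
    (fun γ => (hc γ).add (isCyc_etaC hM τ σ γ)) hβ₀ Finset.univ (B := 2 * (20 * p - 16)) (by
      intro β hβ
      have h1 := ca_total hp hp2 hM hpM hτ hσ hG hc hcG hsq hβ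
      rw [if_neg hu, if_neg hv] at h1
      have h2 : ((p : ℂ) * (20 + 0 + 0)).re = 20 * p := by
        have : ((p : ℂ) * (20 + 0 + 0)) = ((20 * p : ℝ) : ℂ) := by
          push_cast
          ring
        rw [this, Complex.ofReal_re]
      rw [h2] at h1
      rw [← Finset.univ_product_univ, Finset.sum_product]
      linarith)
  have h3 : 16 ≤ 20 * p := by
    have := hp.two_le
    omega
  rw [← Nat.cast_le (α := ℝ)]
  push_cast [Nat.cast_sub h3]
  exact hcnt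

/-- Suppose one of `u, v` is `0` mod `p`, say `v = 0` (then `u ≠ 0`); `X₀ = β^(2v) + β^(-2v)`
(`v = τ - σ`). Now `∑_{j ≠ 0} (20 + X Y + 2 X + 2 Y) = 20 (p - 1) + 4 - (X + 2) (Y + 2) + p X₀`. Only
the pairs of classes different from `0` are counted by `#`; a pair `{0, γ}` with `γ ≠ 0, ±u`
contributes `‖g 0 - g γ‖² + ‖f 0 - f γ‖² ≥ ‖e 0‖² / 2 = (2 + X₀) / 2` (`e γ = 0`). With `m ≤ 2` the mean
of `X₀` over the primitive `β`: `# / 2 + (p - 3) (1 + m / 2) ≤ 20 p - 16 + p m`, so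
`# / 2 ≤ 19 p - 13 + m (p + 3) / 2 ≤ 20 p - 10`. -/
theorem ca_pairs_deg (h0 : ((τ + σ : ℤ) : ZMod p) = 0 ∨ ((τ - σ : ℤ) : ZMod p) = 0) {β₀ : ℂ}
    (hβ₀ : β₀ ∈ primitiveRoots M ℂ) :
    (Finset.univ.filter (fun q : {γ : ZMod p // γ ≠ 0} × {γ : ZMod p // γ ≠ 0} =>
      c q.1 β₀ ≠ c q.2 β₀)).card +
      (Finset.univ.filter (fun q : {γ : ZMod p // γ ≠ 0} × {γ : ZMod p // γ ≠ 0} =>
        c q.1 β₀ + etaC p τ σ q.1 β₀ ≠ c q.2 β₀ + etaC p τ σ q.2 β₀)).card ≤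
      2 * (20 * p - 10) := by
  -- the exponent `w` congruent to `0`, and the class `s` of the other one
  obtain ⟨w, s, hX, he0, heγ⟩ : ∃ (w : ℤ) (s : ZMod p),
      (∀ β : ℂ, ((p : ℂ) * (20 +
        (if ((τ + σ : ℤ) : ZMod p) = 0 then β ^ (2 * (τ + σ)) + β ^ (-(2 * (τ + σ))) else 0) +
        (if ((τ - σ : ℤ) : ZMod p) = 0 then β ^ (2 * (τ - σ)) + β ^ (-(2 * (τ - σ))) else 0))).re
        = 20 * p + p * (β ^ (2 * w) + β ^ (-(2 * w))).re) ∧
      (∀ β : ℂ, ‖etaC p τ σ 0 β‖ = ‖β ^ w + β ^ (-w)‖) ∧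
      (∀ (γ : ZMod p) (β : ℂ), γ ≠ 0 → γ ≠ s → γ ≠ -s → etaC p τ σ γ β = 0) := by
    have hre : ∀ z : ℂ, ((p : ℂ) * (20 + z)).re = 20 * p + p * z.re := by
      intro z
      rw [← Complex.ofReal_natCast, Complex.re_ofReal_mul, Complex.add_re]
      norm_num
      ring
    rw [Ne, ca_two_mul hp hp2] at hτ
    have hnot : ¬ (((τ + σ : ℤ) : ZMod p) = 0 ∧ ((τ - σ : ℤ) : ZMod p) = 0) := by
      rintro ⟨h1, h2⟩
      have : Fact p.Prime := ⟨hp⟩
      push_cast at h1 h2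
      have h3 : (2 : ZMod p) * τ = 0 := by linear_combination h1 + h2
      rcases mul_eq_zero.1 h3 with h | h
      · exact ca_two hp hp2 h
      · exact hτ h
    rcases h0 with h0 | h0
    · have h1 : ((τ - σ : ℤ) : ZMod p) ≠ 0 := fun h => hnot ⟨h0, h⟩
      have h0' : ((-(τ + σ) : ℤ) : ZMod p) = 0 := by
        rw [Int.cast_neg, h0, neg_zero]
      have h1' : ((σ - τ : ℤ) : ZMod p) ≠ 0 := by
        intro h
        apply h1
        have : ((τ - σ : ℤ) : ZMod p) = -((σ - τ : ℤ) : ZMod p) := by push_cast; ring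
        rw [this, h, neg_zero]
      refine ⟨τ + σ, ((τ - σ : ℤ) : ZMod p), ?_, ?_, ?_⟩
      · intro β
        rw [if_pos h0, if_neg h1, add_zero, hre]
      · intro β
        unfold etaC
        rw [if_pos h0, if_pos h0', if_neg h1, if_neg h1', sub_zero, sub_zero]
      · intro γ β hγ0 hγ1 hγ2
        unfold etaC
        have e1 : ¬ (((τ + σ : ℤ) : ZMod p) = γ) := by
          rw [h0]; exact fun h => hγ0 h.symm
        have e2 : ¬ (((-(τ + σ) : ℤ) : ZMod p) = γ) := by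
          rw [h0']; exact fun h => hγ0 h.symm
        have e3 : ¬ (((τ - σ : ℤ) : ZMod p) = γ) := fun h => hγ1 h.symm
        have e4 : ¬ (((σ - τ : ℤ) : ZMod p) = γ) := by
          intro h
          apply hγ2
          rw [← h]
          push_cast
          ring
        rw [if_neg e1, if_neg e2, if_neg e3, if_neg e4]
        ring
    · have h1 : ((τ + σ : ℤ) : ZMod p) ≠ 0 := fun h => hnot ⟨h, h0⟩
      have h1' : ((-(τ + σ) : ℤ) : ZMod p) ≠ 0 := by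
        intro h
        apply h1
        rw [Int.cast_neg, neg_eq_zero] at h
        exact h
      have h0' : ((σ - τ : ℤ) : ZMod p) = 0 := by
        have : ((σ - τ : ℤ) : ZMod p) = -((τ - σ : ℤ) : ZMod p) := by push_cast; ring
        rw [this, h0, neg_zero]
      refine ⟨τ - σ, ((τ + σ : ℤ) : ZMod p), ?_, ?_, ?_⟩
      · intro β
        rw [if_neg h1, if_pos h0, add_zero, hre]
      · intro β
        unfold etaC
        rw [if_neg h1, if_neg h1', if_pos h0, if_pos h0']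
        have e : (0 : ℂ) + 0 - β ^ (τ - σ) - β ^ (σ - τ) = -(β ^ (τ - σ) + β ^ (-(τ - σ))) := by
          rw [neg_sub]
          ring
        rw [e, norm_neg]
      · intro γ β hγ0 hγ1 hγ2
        unfold etaC
        have e1 : ¬ (((τ + σ : ℤ) : ZMod p) = γ) := fun h => hγ1 h.symm
        have e2 : ¬ (((-(τ + σ) : ℤ) : ZMod p) = γ) := by
          intro h
          apply hγ2
          rw [← h, Int.cast_neg]
        have e3 : ¬ (((τ - σ : ℤ) : ZMod p) = γ) := by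
          rw [h0]; exact fun h => hγ0 h.symm
        have e4 : ¬ (((σ - τ : ℤ) : ZMod p) = γ) := by
          rw [h0']; exact fun h => hγ0 h.symm
        rw [if_neg e1, if_neg e2, if_neg e3, if_neg e4]
        ring
  set E : Finset (ZMod p) := Finset.univ.erase 0 with hE
  have hcnt := ca_count hM hc (f := fun γ β => c γ β + etaC p τ σ γ β)
    (fun γ => (hc γ).add (isCyc_etaC hM τ σ γ)) hβ₀ (E ×ˢ E) (B := 2 * (20 * p - 10)) (by
      intro β hβ
      have hβnorm : ‖β‖ = 1 := by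
        have hβ' := (mem_primitiveRoots hM).1 hβ
        exact Complex.norm_eq_one_of_pow_eq_one hβ'.pow_eq_one hM.ne'
      have h1 := ca_total hp hp2 hM hpM hτ hσ hG hc hcG hsq hβ
      rw [hX] at h1
      have hX2 := ca_X_le hβnorm w
      have hXe := ca_norm_e hβnorm w
      have hX0 : 0 ≤ (β ^ (2 * w) + β ^ (-(2 * w))).re + 2 := by
        rw [← hXe]
        positivity
      set X := (β ^ (2 * w) + β ^ (-(2 * w))).re with hXdef
      set t : ZMod p → ZMod p → ℝ := fun γ δ => ‖c γ β - c δ β‖ ^ 2 +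
        ‖(c γ β + etaC p τ σ γ β) - (c δ β + etaC p τ σ δ β)‖ ^ 2 with ht
      have ht0 : ∀ γ δ, 0 ≤ t γ δ := by
        intro γ δ
        simp only [ht]
        positivity
      have hsplit : ∑ γ : ZMod p, ∑ δ : ZMod p, t γ δ =
          (t 0 0 + ∑ δ ∈ E, t 0 δ) + (∑ γ ∈ E, t γ 0 + ∑ γ ∈ E, ∑ δ ∈ E, t γ δ) := by
        rw [← Finset.add_sum_erase Finset.univ (fun γ => ∑ δ : ZMod p, t γ δ)
          (Finset.mem_univ (0 : ZMod p)),
          ← Finset.add_sum_erase Finset.univ (fun δ => t 0 δ) (Finset.mem_univ (0 : ZMod p)),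
          ← Finset.sum_add_distrib]
        congr 1
        refine Finset.sum_congr rfl fun γ _ => ?_
        rw [← Finset.add_sum_erase Finset.univ (fun δ => t γ δ) (Finset.mem_univ (0 : ZMod p))]
      -- the classes different from `0`, `s`, `-s`
      set T : Finset (ZMod p) := Finset.univ \ {0, s, -s} with hT
      have hTE : T ⊆ E := by
        intro γ hγ
        rw [hT, Finset.mem_sdiff] at hγ
        refine Finset.mem_erase.2 ⟨?_, Finset.mem_univ _⟩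
        intro h
        exact hγ.2 (by simp [h])
      have hTcard : (p : ℝ) - 3 ≤ T.card := by
        have h5 : ({0, s, -s} : Finset (ZMod p)).card ≤ 3 := Finset.card_le_three
        have h6 : (Finset.univ : Finset (ZMod p)).card - ({0, s, -s} : Finset (ZMod p)).card ≤
            T.card := Finset.le_card_sdiff _ _
        rw [Finset.card_univ, ZMod.card] at h6
        have h7 : p ≤ T.card + 3 := by omega
        have h8 : (p : ℝ) ≤ (T.card : ℝ) + 3 := by exact_mod_cast h7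
        linarith
      have hlow1 : ∀ γ ∈ T, (X + 2) / 2 ≤ t 0 γ := by
        intro γ hγ
        rw [hT, Finset.mem_sdiff] at hγ
        have h5 : γ ≠ 0 ∧ γ ≠ s ∧ γ ≠ -s := by
          refine ⟨?_, ?_, ?_⟩ <;> intro h <;> exact hγ.2 (by simp [h])
        have h6 := ca_par (c 0 β - c γ β) (etaC p τ σ 0 β)
        rw [he0, hXe] at h6
        simp only [ht]
        rw [heγ γ β h5.1 h5.2.1 h5.2.2]
        have h7 : c 0 β + etaC p τ σ 0 β - (c γ β + 0) = c 0 β - c γ β + etaC p τ σ 0 β := by ring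
        rw [h7]
        exact h6
      have hsymm : ∀ γ δ, t γ δ = t δ γ := by
        intro γ δ
        simp only [ht]
        rw [norm_sub_rev (c γ β) (c δ β), norm_sub_rev (c γ β + etaC p τ σ γ β)]
      have hlow : (p - 3 : ℝ) * ((X + 2) / 2) ≤ ∑ δ ∈ E, t 0 δ := by
        calc (p - 3 : ℝ) * ((X + 2) / 2) ≤ T.card * ((X + 2) / 2) := by
              apply mul_le_mul_of_nonneg_right hTcard
              linarith
          _ = ∑ _δ ∈ T, (X + 2) / 2 := by rw [Finset.sum_const, nsmul_eq_mul]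
          _ ≤ ∑ δ ∈ T, t 0 δ := Finset.sum_le_sum hlow1
          _ ≤ ∑ δ ∈ E, t 0 δ :=
              Finset.sum_le_sum_of_subset_of_nonneg hTE fun δ _ _ => ht0 0 δ
      have hlow' : (p - 3 : ℝ) * ((X + 2) / 2) ≤ ∑ γ ∈ E, t γ 0 := by
        rw [Finset.sum_congr rfl fun γ _ => hsymm γ 0]
        exact hlow
      rw [hsplit] at h1
      rw [Finset.sum_product]
      have h00 := ht0 0 0
      have hpX : (p : ℝ) * X ≤ p * 2 := mul_le_mul_of_nonneg_left hX2 (Nat.cast_nonneg _)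
      nlinarith)
  have h3 : 10 ≤ 20 * p := by
    have := hp.two_le
    omega
  have hA := ca_sub_card (p := p) (fun a b => c a β₀ ≠ c b β₀)
  have hB := ca_sub_card (p := p)
    (fun a b => c a β₀ + etaC p τ σ a β₀ ≠ c b β₀ + etaC p τ σ b β₀)
  refine (Nat.add_le_add hA hB).trans ?_
  rw [← Nat.cast_le (α := ℝ)]
  push_cast [Nat.cast_sub h3]
  exact hcnt

/-- `p (c γ β - c δ β) = ∑_{j ≠ 0} (χ(-j γ) - χ(-j δ)) G (χ(j) β)`, and `G` is real (`star_G`). -/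
theorem ca_symm {β : ℂ} (hβ : β ∈ primitiveRoots M ℂ) (γ δ : ZMod p) :
    c (-γ) β - c (-δ) β = star (c γ β - c δ β) := by
  have hp0 : (p : ℂ) ≠ 0 := by exact_mod_cast hp.ne_zero
  apply mul_left_cancel₀ hp0
  have h1 := ca_inv_aux hcG hβ (-γ) (-δ)
  have h2 := congrArg star (ca_inv_aux hcG hβ γ δ)
  rw [h1]
  rw [star_mul', star_sum] at h2
  have h3 : star (p : ℂ) = p := by
    rw [star_natCast]
  rw [h3] at h2
  rw [h2]
  refine Finset.sum_congr rfl fun j hj => ?_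
  have hj' : j ≠ 0 := (Finset.mem_filter.1 hj).2
  have hμ := mul_mem_prim' hp hM hpM hj' hβ
  rw [star_mul', star_G (Nat.mul_pos hp.pos hM) hμ (hsq _ hμ), star_sub]
  have h4 : ∀ a : ZMod p, star (ZMod.stdAddChar (-(j * a)) : ℂ) = ZMod.stdAddChar (-(j * (-a))) := by
    intro a
    have h5 := AddChar.map_neg_eq_conj (ZMod.stdAddChar (N := p)) (-(j * a))
    rw [neg_neg] at h5
    rw [mul_neg, neg_neg]
    exact h5.symm
  rw [h4, h4]

/-- Fourier inversion: `p (c γ β - c δ β) = ∑_{j ≠ 0} (χ(-j γ) - χ(-j δ)) G (χ(j) β)` (the terms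
`j = 0` cancel). -/
theorem ca_inv {β : ℂ} (hβ : β ∈ primitiveRoots M ℂ) (γ δ : ZMod p) :
    (p : ℂ) * (c γ β - c δ β) = ∑ j ∈ Finset.univ.filter (fun j : ZMod p => j ≠ 0),
      (ZMod.stdAddChar (-(j * γ)) - ZMod.stdAddChar (-(j * δ))) * G (ZMod.stdAddChar j * β) :=
  ca_inv_aux hcG hβ γ δ

end

end Pool.Agent.Lib.MP_baf44c_co.Q1
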