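import Pool.Agent.Lib.MP_baf44c_co.FB.Defs

/-!
Definitions for the order theorem for pairs `D x * D y = z ^ 2`.
-/

set_option autoImplicit false

namespace Pool.Agent.Lib.MP_baf44c_co.Q1

open Polynomial Pool.Agent.Lib.MP_baf44c_co.FB

open Classical in
/-- Value at `z` of a ring homomorphism defined on the algebraic integers (`0` if `z` is not an
algebraic integer). -/
noncomputable def ev {K : Type} [Field K] (φ : integralClosure ℤ ℂ →+* K) (z : ℂ) : K :=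
  if h : IsIntegral ℤ z then φ ⟨z, h⟩ else 0

/-- `D x * D y` is a square in some cyclotomic field. -/
def SqPair (x y : ℂ) : Prop := ∃ K : ℕ, 0 < K ∧ ∃ z ∈ cyc K, z ^ 2 = D x * D y

/-- `i` is one of `±u, ±v`. -/
def InE {n : ℕ} (u v i : ZMod n) : Prop := i = u ∨ i = -u ∨ i = v ∨ i = -v

instance {n : ℕ} (u v i : ZMod n) : Decidable (InE u v i) := by
  unfold InE
  infer_instance

/-- For every place over `2`, the function `G` vanishes at all `ζ ω`, `ω ^ c = 1`, or `G + η`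
does. -/
def EConst (ζ : ℂ) (c : ℕ) (τ σ : ℤ) (G : ℂ → ℂ) : Prop :=
  ∀ (K : Type) [Field K] [CharP K 2] (φ : integralClosure ℤ ℂ →+* K),
    (∀ ω : ℂ, ω ^ c = 1 → ev φ (G (ζ * ω)) = 0) ∨
    (∀ ω : ℂ, ω ^ c = 1 → ev φ (G (ζ * ω) + eta τ σ (ζ * ω)) = 0)

/-- Three classes `u, v, s` with `u + v = d` can be brought into `(-n/4, n/4)` by a multiplier `q`
with `q d ≠ 0`. -/
def Rect3 (n : ℕ) (d : ZMod n) : Prop :=
  ∀ u v s : ZMod n, u + v = d → ∃ q : ZMod n, q * d ≠ 0 ∧ 4 * |(q * u).valMinAbs| < n ∧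
    4 * |(q * v).valMinAbs| < n ∧ 4 * |(q * s).valMinAbs| < n

/-- The equation `g * g = g * η` in the group algebra of `ZMod p` in characteristic `2`, with `η`
supported on `±u, ±v` and `g` supported on these and at most `lim` other classes, only has the
solutions `g = 0` and `g = η`. -/
def Rigid (p : ℕ) [NeZero p] (u v : ZMod p) (lim : ℕ) : Prop :=
  ∀ (K : Type) [Field K] [CharP K 2] (g η : ZMod p → K) (S : Finset (ZMod p)),
    S.card ≤ lim → (∀ s ∈ S, -s ∈ S) → (∀ s ∈ S, ¬ InE u v s) →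
    (∀ i, g i ≠ 0 → i ∈ S ∨ InE u v i) → (∀ i, η i ≠ 0 → InE u v i) →
    (u ≠ 0 → η u ≠ 0 ∧ η (-u) ≠ 0) → (v ≠ 0 → η v ≠ 0 ∧ η (-v) ≠ 0) →
    (∀ γ, ∑ i, g i * g (γ - i) = ∑ i, g i * η (γ - i)) →
    (∀ i, g i = 0) ∨ ∀ i, g i = η i

/-- Number of extra classes that the size estimates allow. -/
def lm (p : ℕ) : ℕ := if p < 130 then 10 else 8

/-- Rigidity for `u : v = 1 + b' : 1 - b'` where `b'` is a suitable power of `b`, for all `b` with
`b ^ 2 = ±1` or `b ^ ℓ = 1` for an odd prime `ℓ`. -/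
def RigAll (p : ℕ) [Fact p.Prime] : Prop :=
  ∀ b : ZMod p, (b ^ 2 = 1 ∨ b ^ 2 = -1 ∨ ∃ ℓ : ℕ, ℓ.Prime ∧ ℓ ≠ 2 ∧ b ^ ℓ = 1) →
    ∃ j : ℕ, (b ≠ 1 → b ≠ -1 → b ^ j ≠ 1 ∧ b ^ j ≠ -1) ∧ (b = 1 ∨ b = -1 → j = 1) ∧
      Rigid p (1 + b ^ j) (1 - b ^ j) (lm p)

/-- The special primes of `N`: `2` for powers of `2`, and the primes `q ∣ N` such that the prime to
`q` part of `N` is the rank of `q` in the sequence `P`. -/
def Spec (P : ℕ → ℕ) (N q : ℕ) : Prop :=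
  (q = 2 ∧ ∃ j, N = 2 ^ j) ∨ (q ≠ 2 ∧ q ∣ N ∧ ∀ n, q ∣ P n ↔ N / q ^ N.factorization q ∣ n)

/-- Pell numbers. -/
def pell : ℕ → ℕ
  | 0 => 0
  | 1 => 1
  | n + 2 => 2 * pell (n + 1) + pell n

/-- The product of `P (N / d)` over the squarefree divisors `d` of `N`; up to squares this is the
primitive part of `P N`. -/
def PA (N : ℕ) : ℕ := ∏ d ∈ N.divisors.filter Squarefree, pell (N / d)

end Pool.Agent.Lib.MP_baf44c_co.Q1
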