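import Pool.Agent.Lib.MP_baf44c_co.FB.Split
import Pool.Agent.Lib.MP_baf44c_co.Q1.Defs

/-!
Splitting a relation according to quadratic extensions.
-/

set_option autoImplicit false

namespace Pool.Agent.Lib.MP_baf44c_co.Q1

open Polynomial Pool.Agent.Lib.MP_baf44c_co.FB

/-- Compare `FB.split` (`FB/Split.lean`), whose setting is used: `K` a common multiple of the denominators,
`K₀ = cyc (2 K)`, `L` a finite Galois extension containing all `dC r`, `χ_r` the sign character of `dC r`. Applying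
`g` to the relation and taking logarithms of absolute values gives `∑ r ∈ J, χ_r g * (e r * log (gam r)) = 0` for
all `g`; by linear independence of characters (`linearIndependent_monoidHom`) for every character `χ` the sum
over the `r` with `χ_r = χ` vanishes. Take `C = {r ∈ J | χ_r = χ_{r₀}}`; if `χ_r = χ_{r₀}` then `dC r₀ * dC r` is fixed by the
Galois group, so it lies in `cyc (2 K)` and its square is `D (xr r₀) * D (xr r)`. -/
theorem split_class (J : Finset ℚ) (hJ : ∀ r ∈ J, 0 < r ∧ r < 1 / 2) (e : ℚ → ℤ)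
    (he : ∏ r ∈ J, gam r ^ e r = 1) {r₀ : ℚ} (hr₀ : r₀ ∈ J) :
    ∃ C ⊆ J, r₀ ∈ C ∧ (∀ r ∈ C, SqPair (xr r₀) (xr r)) ∧ ∏ r ∈ C, gam r ^ e r = 1 := by
  obtain ⟨K, hK, hden⟩ : ∃ K : ℕ, 0 < K ∧ ∀ r ∈ J, r.den ∣ K :=
    ⟨∏ r ∈ J, r.den, Finset.prod_pos fun r _ => r.den_pos, fun r hr => Finset.dvd_prod_of_mem _ hr⟩
  classical
  obtain ⟨L, hfd, hgal, hL⟩ := exists_ext (cyc (2 * K)) (J.image dC) (by
    intro z hz
    obtain ⟨r, hr, rfl⟩ := Finset.mem_image.1 hz
    rw [dC_sq]
    exact D_mem hK (hden r hr))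
  have hdL : ∀ r : J, dC r ∈ L := fun r => hL _ (Finset.mem_image_of_mem _ r.2)
  have hd0 : ∀ r : ℚ, dC r ≠ 0 := by
    intro r
    unfold dC
    have : 0 < 2 * Real.sqrt (1 + Real.cos (Real.pi * r) ^ 2) := by positivity
    exact_mod_cast this.ne'
  -- elements of `L`
  let dL : J → L := fun r => ⟨dC r, hdL r⟩
  let sL : J → L := fun r => algebraMap (cyc (2 * K)) L ⟨sC r, sC_mem hK (hden r r.2)⟩
  let gL : J → L := fun r => (sL r + dL r) / 2
  have hgL : ∀ r : J, ((gL r : L) : ℂ) = ((gam r : ℝ) : ℂ) := by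
    intro r
    rw [gam_eq]
    rfl
  have hdsq : ∀ r : J, ((dL r : L) : ℂ) ^ 2 ∈ cyc (2 * K) := by
    intro r
    change dC r ^ 2 ∈ _
    rw [dC_sq]
    exact D_mem hK (hden r r.2)
  let χ : J → ((L ≃ₐ[cyc (2 * K)] L) →* ℝ) := fun r => chi (dL r) (hdsq r) (hd0 r)
  -- norms
  have hnorm : ∀ (r : J) (g : L ≃ₐ[cyc (2 * K)] L),
      Real.log ‖((g (gL r) : L) : ℂ)‖ = χ r g * Real.log (gam r) := by
    intro r g
    have h1 : ((g (gL r) : L) : ℂ) = (sC r + ((sgn (dL r) g : ℝ) : ℂ) * dC r) / 2 := by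
      have h2 : g (gL r) = (sL r + g (dL r)) / 2 := by
        simp only [gL, map_div₀, map_add, sL, g.commutes, map_ofNat]
      rw [h2]
      have h3 := sgn_spec (hdsq r) g
      push_cast
      rw [h3]
      rfl
    rw [h1]
    change _ = sgn (dL r) g * _
    rcases sgn_or (dL r) g with h | h
    · rw [h]
      have h4 : (sC r + ((1 : ℝ) : ℂ) * dC r) / 2 = ((gam r : ℝ) : ℂ) := by
        rw [gam_eq]; push_cast; ring
      rw [h4, Complex.norm_real, Real.norm_eq_abs, abs_of_pos (gam_pos _), one_mul]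
    · rw [h]
      have h4 : (sC r + ((-1 : ℝ) : ℂ) * dC r) / 2 = -(((gam r : ℝ) : ℂ))⁻¹ := by
        rw [← gam_conj]; push_cast; ring
      rw [h4, norm_neg, norm_inv, Complex.norm_real, Real.norm_eq_abs, abs_of_pos (gam_pos _),
        Real.log_inv]
      ring
  -- the relation in `L`
  have hrelL : ∏ r : J, gL r ^ e r = 1 := by
    apply Subtype.ext
    have h1 : ((∏ r : J, gL r ^ e r : L) : ℂ) = ∏ r : J, ((gL r : L) : ℂ) ^ e r := by
      push_cast
      rfl
    rw [h1]
    simp_rw [hgL]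
    have h2 : ∏ r : J, ((gam r : ℝ) : ℂ) ^ e r = ((∏ r ∈ J, gam r ^ e r : ℝ) : ℂ) := by
      rw [← Finset.prod_coe_sort J (fun r => gam r ^ e r)]
      push_cast
      rfl
    rw [h2, he]
    simp
  have hlog : ∀ g : L ≃ₐ[cyc (2 * K)] L, ∑ r : J, (e r * Real.log (gam r)) * χ r g = 0 := by
    intro g
    have h1 : ∏ r : J, g (gL r) ^ e r = 1 := by
      have := congrArg g hrelL
      rw [map_prod, map_one] at this
      simpa only [map_zpow₀] using this
    have h2 : ∏ r : J, ((g (gL r) : L) : ℂ) ^ e r = 1 := by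
      have := congrArg (fun z : L => (z : ℂ)) h1
      push_cast at this
      exact this
    have h3 : ∏ r : J, ‖((g (gL r) : L) : ℂ)‖ ^ e r = 1 := by
      have := congrArg norm h2
      rw [norm_prod, norm_one] at this
      simpa only [norm_zpow] using this
    have hne : ∀ r : J, ‖((g (gL r) : L) : ℂ)‖ ≠ 0 := by
      intro r h
      have h4 := norm_eq_zero.1 h
      have h5 : g (gL r) = 0 := by
        apply Subtype.ext
        simpa using h4
      have h6 : gL r = 0 := by simpa using h5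
      have h7 := hgL r
      rw [h6] at h7
      have h8 : gam r = 0 := by
        have : ((gam r : ℝ) : ℂ) = 0 := by rw [← h7]; rfl
        exact_mod_cast this
      exact (gam_pos r).ne' h8
    have h4 := congrArg Real.log h3
    rw [Real.log_one, Real.log_prod (fun r _ => zpow_ne_zero _ (hne r))] at h4
    rw [← h4]
    refine Finset.sum_congr rfl fun r _ => ?_
    rw [Real.log_zpow, hnorm]
    ring
  -- Dedekind
  let c : ((L ≃ₐ[cyc (2 * K)] L) →* ℝ) → ℝ := fun ψ =>
    ∑ r ∈ Finset.univ.filter (fun r : J => χ r = ψ), (e r * Real.log (gam r))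
  have hded := linearIndependent_iff'.1
    (linearIndependent_monoidHom (L ≃ₐ[cyc (2 * K)] L) ℝ) (Finset.univ.image χ) c (by
      funext g
      rw [Finset.sum_apply]
      have h1 : ∀ ψ : ((L ≃ₐ[cyc (2 * K)] L) →* ℝ), (c ψ • (ψ : _ → ℝ)) g =
          ∑ r ∈ Finset.univ.filter (fun r : J => χ r = ψ), (e r * Real.log (gam r)) * χ r g := by
        intro ψ
        simp only [c, Pi.smul_apply, smul_eq_mul, Finset.sum_mul]
        refine Finset.sum_congr rfl fun r hr => ?_
        rw [(Finset.mem_filter.1 hr).2]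
      rw [Finset.sum_congr rfl (fun ψ _ => h1 ψ)]
      rw [Finset.sum_fiberwise_of_maps_to (fun r _ => Finset.mem_image_of_mem χ (Finset.mem_univ r))]
      simpa using hlog g)
  have h0 := hded (χ ⟨r₀, hr₀⟩) (Finset.mem_image_of_mem χ (Finset.mem_univ _))
  refine ⟨(Finset.univ.filter (fun r : J => χ r = χ ⟨r₀, hr₀⟩)).map
    ⟨Subtype.val, Subtype.val_injective⟩, ?_, ?_, ?_, ?_⟩
  · intro r hr
    obtain ⟨s, -, rfl⟩ := Finset.mem_map.1 hr
    exact s.2
  · exact Finset.mem_map.2 ⟨⟨r₀, hr₀⟩, by simp, rfl⟩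
  · intro r' hr'
    obtain ⟨r, hr, rfl⟩ := Finset.mem_map.1 hr'
    have hχ : χ r = χ ⟨r₀, hr₀⟩ := (Finset.mem_filter.1 hr).2
    change SqPair (xr r₀) (xr r)
    refine ⟨2 * K, by positivity, dC r₀ * dC r, ?_, ?_⟩
    · have hfix : ∀ g : L ≃ₐ[cyc (2 * K)] L, g (dL ⟨r₀, hr₀⟩ * dL r) = dL ⟨r₀, hr₀⟩ * dL r := by
        intro g
        apply Subtype.ext
        rw [map_mul]
        have h1 := sgn_spec (hdsq r) g
        have h2 := sgn_spec (hdsq ⟨r₀, hr₀⟩) g
        have h3 : sgn (dL r) g = sgn (dL ⟨r₀, hr₀⟩) g := DFunLike.congr_fun hχ g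
        push_cast
        rw [h1, h2, h3]
        rcases sgn_or (dL ⟨r₀, hr₀⟩) g with h | h
        · rw [h]; simp
        · rw [h]; push_cast; ring
      obtain ⟨k, hk⟩ := (IsGalois.mem_range_algebraMap_iff_fixed (F := cyc (2 * K)) (E := L) _).2 hfix
      have h4 := congrArg (fun z : L => (z : ℂ)) hk
      have h5 : (k : ℂ) = dC r₀ * dC r := h4
      rw [← h5]
      exact k.2
    · rw [mul_pow, dC_sq, dC_sq]
  · rw [Finset.prod_map]
    change ∏ r ∈ Finset.univ.filter (fun r : J => χ r = χ ⟨r₀, hr₀⟩), gam (r : ℚ) ^ e r = 1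
    have hpos : 0 < ∏ r ∈ Finset.univ.filter (fun r : J => χ r = χ ⟨r₀, hr₀⟩), gam (r : ℚ) ^ e r :=
      Finset.prod_pos fun r _ => zpow_pos (gam_pos _) _
    apply Real.log_injOn_pos (Set.mem_Ioi.2 hpos) (Set.mem_Ioi.2 one_pos)
    rw [Real.log_one, Real.log_prod (fun r _ => (zpow_pos (gam_pos _) _).ne'), ← h0]
    simp only [c]
    refine Finset.sum_congr rfl fun r _ => ?_
    rw [Real.log_zpow]

/-- `cos` is strictly decreasing on `[0, π]` and `t + √(1 + t ^ 2)` is strictly increasing. -/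
theorem gam_lt {r s : ℚ} (hr : 0 < r) (hrs : r < s) (hs : s < 1 / 2) : gam s < gam r := by
  have hr' : (0 : ℝ) < (r : ℝ) := by exact_mod_cast hr
  have hrs' : (r : ℝ) < (s : ℝ) := by exact_mod_cast hrs
  have hs' : (s : ℝ) < 1 / 2 := by
    have : (s : ℝ) < ((1 / 2 : ℚ) : ℝ) := by exact_mod_cast hs
    simpa using this
  have hpi := Real.pi_pos
  have h1 : Real.cos (Real.pi * s) < Real.cos (Real.pi * r) := by
    apply Real.cos_lt_cos_of_nonneg_of_le_pi
    · positivity
    · nlinarith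
    · exact mul_lt_mul_of_pos_left hrs' hpi
  have h0 : 0 < Real.cos (Real.pi * s) := by
    apply Real.cos_pos_of_mem_Ioo
    constructor
    · have : 0 < Real.pi * (s : ℝ) := mul_pos hpi (hr'.trans hrs')
      linarith
    · have := mul_lt_mul_of_pos_left hs' hpi
      linarith
  have h2 : Real.sqrt (1 + Real.cos (Real.pi * s) ^ 2) ≤
      Real.sqrt (1 + Real.cos (Real.pi * r) ^ 2) := by
    apply Real.sqrt_le_sqrt
    nlinarith
  unfold gam
  linarith

/-- One factor is not `1` (`one_lt_gam`); for two factors with the same sign the same argument, with different signs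
`gam_lt`. -/
theorem three_le_card {C : Finset ℚ} (hC : ∀ r ∈ C, 0 < r ∧ r < 1 / 2) {e : ℚ → ℤ}
    (he : ∀ r ∈ C, e r = 1 ∨ e r = -1) (hne : C.Nonempty) (h : ∏ r ∈ C, gam r ^ e r = 1) :
    3 ≤ C.card := by
  have hne1 : ∀ r ∈ C, ∀ s ∈ C, r ≠ s → gam r ≠ gam s := by
    intro r hr s hs hrs
    rcases lt_or_gt_of_ne hrs with h1 | h1
    · exact (gam_lt (hC r hr).1 h1 (hC s hs).2).ne'
    · exact (gam_lt (hC s hs).1 h1 (hC r hr).2).ne
  by_contra hcon
  have hcard : C.card = 1 ∨ C.card = 2 := by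
    have := hne.card_pos
    omega
  rcases hcard with h1 | h2
  · obtain ⟨r, rfl⟩ := Finset.card_eq_one.1 h1
    rw [Finset.prod_singleton] at h
    have hg := one_lt_gam (hC r (by simp)).1 (hC r (by simp)).2
    rcases he r (by simp) with h3 | h3
    · rw [h3, zpow_one] at h
      linarith
    · rw [h3, zpow_neg_one, inv_eq_one] at h
      linarith
  · obtain ⟨r, s, hrs, rfl⟩ := Finset.card_eq_two.1 h2
    rw [Finset.prod_pair hrs] at h
    have hr : r ∈ ({r, s} : Finset ℚ) := by simp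
    have hs : s ∈ ({r, s} : Finset ℚ) := by simp
    have hg1 := one_lt_gam (hC r hr).1 (hC r hr).2
    have hg2 := one_lt_gam (hC s hs).1 (hC s hs).2
    have hn := hne1 r hr s hs hrs
    rcases he r hr with h3 | h3 <;> rcases he s hs with h4 | h4 <;> rw [h3, h4] at h
    · rw [zpow_one, zpow_one] at h
      nlinarith
    · rw [zpow_one, zpow_neg_one, mul_inv_eq_one₀ (by linarith)] at h
      exact hn h
    · rw [zpow_one, zpow_neg_one, inv_mul_eq_one₀ (by linarith)] at h
      exact hn h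
    · rw [zpow_neg_one, zpow_neg_one, ← mul_inv, inv_eq_one] at h
      nlinarith

end Pool.Agent.Lib.MP_baf44c_co.Q1
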