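import Pool.Agent.Lib.MP_baf44c_co.Q1.PP
import Pool.Agent.Lib.MP_baf44c_co.Q1.SplitClass

/-!
The denominators in a class with at least three members.
-/

set_option autoImplicit false

namespace Pool.Agent.Lib.MP_baf44c_co.Q1

open Polynomial Pool.Agent.Lib.MP_baf44c_co.FB

theorem prim_xr (r : ℚ) : IsPrimitiveRoot (xr r) r.den :=
  ⟨xr_pow dvd_rfl, fun _ hl => den_dvd hl⟩

/-- `order_mem` for `xr r`, `xr s` (`xr_ne`). -/
theorem den_same {r s : ℚ} (hr : 0 < r ∧ r < 1 / 2) (hs : 0 < s ∧ s < 1 / 2) (hrs : r ≠ s)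
    (h : SqPair (xr r) (xr s)) (hd : r.den = s.den) : r.den ∈ [5, 7, 8, 10, 12, 30] := by
  have h1 := xr_ne hs hr hrs.symm
  have h2 : IsPrimitiveRoot (xr s) r.den := by
    rw [hd]
    exact prim_xr s
  exact order_mem r.den_pos (prim_xr r) h2 h h1.1 h1.2

private theorem cd_three_le {r : ℚ} (hr : 0 < r ∧ r < 1 / 2) : 3 ≤ r.den := by
  have hd : (0 : ℚ) < r.den := by exact_mod_cast r.den_pos
  have h1 : (r.num : ℚ) = r * r.den := (Rat.mul_den_eq_num r).symm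
  have h2 : (0 : ℚ) < r.num := by
    rw [h1]
    exact mul_pos hr.1 hd
  have h3 : (2 : ℚ) * r.num < r.den := by
    rw [h1]
    nlinarith [hr.2]
  have h4 : 0 < r.num := by exact_mod_cast h2
  have h5 : 2 * r.num < r.den := by exact_mod_cast h3
  omega

/-- `exists_same` and `order_mem`. (`φ N > 2` for `N ∉ {1, 2, 3, 4, 6}`; the denominator of `r ∈ (0, 1/2)` is
`≥ 3`.) -/
theorem den_big {r s : ℚ} (hr : 0 < r ∧ r < 1 / 2) (hs : 0 < s ∧ s < 1 / 2)
    (h : SqPair (xr r) (xr s)) (hbig : r.den ∉ [3, 4, 6, 5, 7, 8, 10, 12, 30]) :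
    r.den ∣ s.den ∨ ∃ d, Odd d ∧ r.den = 2 * d ∧ d ∣ s.den := by
  by_contra hcon
  rw [not_or] at hcon
  have h3 := cd_three_le hr
  have ht : 2 < r.den.totient := by
    by_contra h2
    push Not at h2
    have h4 := small_totient r.den_pos (h2.trans (by norm_num))
    simp only [List.mem_cons, List.not_mem_nil, or_false] at h4 hbig
    have h5 : r.den ≠ 5 ∧ r.den ≠ 8 ∧ r.den ≠ 10 ∧ r.den ≠ 12 ∧ r.den ≠ 3 ∧ r.den ≠ 4 ∧
        r.den ≠ 6 := by omega
    omega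
  obtain ⟨g, hg, g1, g2, gs⟩ := exists_same ht s.den_pos (prim_xr r) (prim_xr s) h hcon.1 hcon.2
  have h4 := order_mem r.den_pos (prim_xr r) ((prim_xr r).pow_of_coprime g hg) gs g1 g2
  simp only [List.mem_cons, List.not_mem_nil, or_false] at h4 hbig
  omega

private theorem cd_pair {N M : ℕ} (hNM : N ≠ M) (h1 : N ∣ M ∨ ∃ d, Odd d ∧ N = 2 * d ∧ d ∣ M)
    (h2 : M ∣ N ∨ ∃ d, Odd d ∧ M = 2 * d ∧ d ∣ N) : (Odd N ∧ M = 2 * N) ∨ (Odd M ∧ N = 2 * M) := by
  rcases h1 with h1 | ⟨d, hd, rfl, h1⟩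
  · rcases h2 with h2 | ⟨e, he, rfl, h2⟩
    · exact absurd (Nat.dvd_antisymm h1 h2) hNM
    · left
      obtain ⟨k, rfl⟩ := h2
      have he0 : 0 < e := he.pos
      have h3 : k ∣ 2 := by
        rw [mul_comm 2 e] at h1
        exact Nat.dvd_of_mul_dvd_mul_left he0 h1
      rcases (Nat.dvd_prime Nat.prime_two).1 h3 with rfl | rfl
      · rw [mul_one]
        exact ⟨he, rfl⟩
      · exact absurd (mul_comm e 2) hNM
  · rcases h2 with h2 | ⟨e, he, rfl, h2⟩
    · right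
      obtain ⟨k, rfl⟩ := h1
      have hd0 : 0 < d := hd.pos
      have h3 : k ∣ 2 := by
        rw [mul_comm 2 d] at h2
        exact Nat.dvd_of_mul_dvd_mul_left hd0 h2
      rcases (Nat.dvd_prime Nat.prime_two).1 h3 with rfl | rfl
      · rw [mul_one]
        exact ⟨hd, rfl⟩
      · exact absurd (mul_comm 2 d) hNM
    · exfalso
      have h3 : d ∣ e := (Nat.Coprime.dvd_mul_left (Nat.coprime_two_right.2 hd)).1 h1
      have h4 : e ∣ d := (Nat.Coprime.dvd_mul_left (Nat.coprime_two_right.2 he)).1 h2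
      exact hNM (by rw [Nat.dvd_antisymm h3 h4])

private theorem cd_num {N M : ℕ} (h3 : 3 ≤ N) (h14 : N ≠ 14)
    (hbig : ¬ (N = 3 ∨ N = 4 ∨ N = 6 ∨ N = 5 ∨ N = 7 ∨ N = 8 ∨ N = 10 ∨ N = 12 ∨ N = 30))
    (hM : M = 3 ∨ M = 4 ∨ M = 6 ∨ M = 5 ∨ M = 7 ∨ M = 8 ∨ M = 10 ∨ M = 12)
    (h : N ∣ M ∨ ∃ d, Odd d ∧ N = 2 * d ∧ d ∣ M) : False := by
  have hM0 : 0 < M := by omega
  rcases h with h | ⟨d, ⟨k, hk⟩, h5, h⟩
  · have hle := Nat.le_of_dvd hM0 h
    have hlist : N = 9 ∨ N = 11 := by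
      clear h
      omega
    rcases hlist with h6 | h6 <;> rw [h6] at h <;>
      rcases hM with h7 | h7 | h7 | h7 | h7 | h7 | h7 | h7 <;> rw [h7] at h <;> revert h <;> decide
  · have hle := Nat.le_of_dvd hM0 h
    have hlist : d = 9 ∨ d = 11 := by
      clear h
      omega
    rcases hlist with h6 | h6 <;> rw [h6] at h <;>
      rcases hM with h7 | h7 | h7 | h7 | h7 | h7 | h7 | h7 <;> rw [h7] at h <;> revert h <;> decide

/-- Call a denominator big if it is not in `{3, 4, 6, 5, 7, 8, 10, 12, 30}`. Let `r ∈ C` have big denominator `N`. Two members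
of `C` with big denominators have denominators `d, 2 d` with `d` odd (`den_big` for both, `den_same`), so
three members cannot all have big denominators (compare any two). So some `s ∈ C` (different from `r`) has
denominator `N' ∈ {3, 4, 6, 5, 7, 8, 10, 12, 30}`, and `den_big` gives `N ∣ N'`, so `N = 15`, `N' = 30` (`30 ∣ K`), or
`N = 2 d`, `d ∣ N'`, `d` odd, so `N = 14`, `N' = 7` (`14 ∣ K`). -/
theorem class_den {C : Finset ℚ} (hC : ∀ r ∈ C, 0 < r ∧ r < 1 / 2)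
    (hs : ∀ r ∈ C, ∀ s ∈ C, SqPair (xr r) (xr s)) (h3 : 3 ≤ C.card) {K : ℕ}
    (hK : ∀ r ∈ C, r.den ∣ K) (h14 : ¬ 14 ∣ K) (h30 : ¬ 30 ∣ K) :
    ∀ r ∈ C, r.den ∈ [3, 4, 5, 6, 7, 8, 10, 12] := by
  -- a member whose denominator is not big
  obtain ⟨s, hsC, hsm⟩ : ∃ s ∈ C, s.den ∈ [3, 4, 6, 5, 7, 8, 10, 12, 30] := by
    by_contra hcon
    push Not at hcon
    obtain ⟨a, ha, b, hb, c, hc, hab, hac, hbc⟩ := Finset.two_lt_card.1 (Nat.lt_of_succ_le h3)
    have hne : ∀ u ∈ C, ∀ v ∈ C, u ≠ v → u.den ≠ v.den := by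
      intro u hu v hv huv hd
      have h4 := den_same (hC u hu) (hC v hv) huv (hs u hu v hv) hd
      have h5 := hcon u hu
      simp only [List.mem_cons, List.not_mem_nil, or_false] at h4 h5
      omega
    have hpair : ∀ u ∈ C, ∀ v ∈ C, u ≠ v →
        (Odd u.den ∧ v.den = 2 * u.den) ∨ (Odd v.den ∧ u.den = 2 * v.den) := by
      intro u hu v hv huv
      exact cd_pair (hne u hu v hv huv) (den_big (hC u hu) (hC v hv) (hs u hu v hv) (hcon u hu))
        (den_big (hC v hv) (hC u hu) (hs v hv u hu) (hcon v hv))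
    have p1 := hpair a ha b hb hab
    have p2 := hpair a ha c hc hac
    have p3 := hpair b hb c hc hbc
    have q1 := a.den_pos
    have q2 := b.den_pos
    have q3 := c.den_pos
    rcases p1 with ⟨⟨u, hu⟩, p1⟩ | ⟨⟨u, hu⟩, p1⟩ <;> rcases p2 with ⟨⟨v, hv⟩, p2⟩ | ⟨⟨v, hv⟩, p2⟩ <;>
      rcases p3 with ⟨⟨w, hw⟩, p3⟩ | ⟨⟨w, hw⟩, p3⟩ <;> omega
  intro r hr
  have hrK := hK r hr
  have hsK := hK s hsC
  by_cases hbig : r.den ∈ [3, 4, 6, 5, 7, 8, 10, 12, 30]
  · simp only [List.mem_cons, List.not_mem_nil, or_false] at hbig ⊢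
    have h30' : r.den ≠ 30 := by
      intro h
      rw [h] at hrK
      exact h30 hrK
    omega
  · exfalso
    have h3 := cd_three_le (hC r hr)
    have hs30 : s.den ≠ 30 := by
      intro h
      rw [h] at hsK
      exact h30 hsK
    have hr14 : r.den ≠ 14 := by
      intro h
      rw [h] at hrK
      exact h14 hrK
    clear hrK hsK
    have hsm' : s.den = 3 ∨ s.den = 4 ∨ s.den = 6 ∨ s.den = 5 ∨ s.den = 7 ∨ s.den = 8 ∨
        s.den = 10 ∨ s.den = 12 := by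
      simp only [List.mem_cons, List.not_mem_nil, or_false] at hsm
      clear h14 h30 h3
      omega
    have h4 := den_big (hC r hr) (hC s hsC) (hs r hr s hsC) hbig
    simp only [List.mem_cons, List.not_mem_nil, or_false] at hbig
    exact cd_num h3 hr14 hbig hsm' h4

end Pool.Agent.Lib.MP_baf44c_co.Q1
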