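import Pool.Agent.Lib.MP_baf44c_co.Q1.Defs

/-!
The equation `g * g = g * η` in the group algebra of `ZMod p` in characteristic two: counting with
the multipliers `± 2 ^ j`.
-/

set_option autoImplicit false

namespace Pool.Agent.Lib.MP_baf44c_co.Q1

section aux

variable {p : ℕ} [Fact p.Prime] {K : Type} [Field K]

/-- the element with coefficients `f i` at `c * i` -/
private noncomputable def el (c : ZMod p) (f : ZMod p → K) : AddMonoidAlgebra K (ZMod p) :=
  ∑ i, AddMonoidAlgebra.single (c * i) (f i)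

private theorem el_coeff (f : ZMod p → K) (y : ZMod p) : (el 1 f).coeff y = f y := by
  classical
  rw [el, AddMonoidAlgebra.coeff_sum, Finsupp.finsetSum_apply]
  simp only [AddMonoidAlgebra.coeff_single, Finsupp.single_apply, one_mul]
  rw [Finset.sum_ite_eq' Finset.univ y f]
  simp

private theorem mul_coeff (c : ZMod p) (f h : ZMod p → K) (x : ZMod p) :
    (el c f * el 1 h).coeff x = ∑ i, f i * h (x - c * i) := by
  rw [el, Finset.sum_mul, AddMonoidAlgebra.coeff_sum, Finsupp.finsetSum_apply]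
  refine Finset.sum_congr rfl fun i _ => ?_
  rw [AddMonoidAlgebra.coeff_single_mul_apply, el_coeff, neg_add_eq_sub]

private theorem el_pow [CharP K 2] (f : ZMod p → K) (j : ℕ) :
    (el 1 f) ^ (2 ^ j) = el ((2 : ZMod p) ^ j) (fun i => f i ^ (2 ^ j)) := by
  have : CharP (AddMonoidAlgebra K (ZMod p)) 2 :=
    charP_of_injective_algebraMap (algebraMap K (AddMonoidAlgebra K (ZMod p))).injective 2
  have : Fact (Nat.Prime 2) := ⟨Nat.prime_two⟩
  rw [el, el, sum_pow_char_pow 2 j]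
  refine Finset.sum_congr rfl fun i _ => ?_
  rw [AddMonoidAlgebra.single_pow, one_mul, nsmul_eq_mul]
  push_cast
  rfl

private theorem conv_id [CharP K 2] {g η : ZMod p → K}
    (hid : ∀ γ, ∑ i, g i * g (γ - i) = ∑ i, g i * η (γ - i)) (j : ℕ) (x : ZMod p) :
    ∑ i, g i ^ (2 ^ j) * η (x - (2 : ZMod p) ^ j * i) =
      ∑ i, η i ^ (2 ^ j) * g (x - (2 : ZMod p) ^ j * i) := by
  have h0 : el 1 g * el 1 g = el 1 g * el 1 η := by
    ext y
    rw [mul_coeff, mul_coeff]
    simpa only [one_mul] using hid y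
  have h1 : ∀ m : ℕ, 0 < m → el 1 g ^ m * el 1 η = el 1 η ^ m * el 1 g := by
    intro m hm
    induction m with
    | zero => omega
    | succ m ih =>
      rcases Nat.eq_zero_or_pos m with rfl | hm'
      · rw [zero_add, pow_one, pow_one, mul_comm]
      · calc el 1 g ^ (m + 1) * el 1 η = el 1 g * (el 1 g ^ m * el 1 η) := by ring
          _ = el 1 g * (el 1 η ^ m * el 1 g) := by rw [ih hm']
          _ = el 1 η ^ m * (el 1 g * el 1 g) := by ring
          _ = el 1 η ^ m * (el 1 g * el 1 η) := by rw [h0]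
          _ = _ := by ring
  have h2 := h1 (2 ^ j) (by positivity)
  rw [el_pow, el_pow] at h2
  have h3 := congrArg (fun a : AddMonoidAlgebra K (ZMod p) => a.coeff x) h2
  simpa only [mul_coeff] using h3

/-- what the coefficient at `t + c ε` gives -/
private theorem step [CharP K 2] (hp2 : p ≠ 2) {g η : ZMod p → K} {E T : Finset (ZMod p)}
    {t : ZMod p}
    (hη : ∀ i, η i ≠ 0 → i ∈ E) (hg : ∀ i, g i ≠ 0 → i ∈ T) (ht : g t ≠ 0) (htE : t ∉ E)
    (hid : ∀ γ, ∑ i, g i * g (γ - i) = ∑ i, g i * η (γ - i)) (j : ℕ) {e : ZMod p}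
    (he : η e ≠ 0) :
    (∃ s ∈ T, ∃ e' ∈ E, e' ≠ e ∧ s ≠ t ∧ t + 2 ^ j * e = s + 2 ^ j * e') ∨
      (∃ s ∈ T, ∃ e' ∈ E, s ≠ e ∧ t + 2 ^ j * e = 2 ^ j * s + e') := by
  have hc : (2 : ZMod p) ^ j ≠ 0 := by
    refine pow_ne_zero _ ?_
    intro h
    have h1 : ((2 : ℕ) : ZMod p) = 0 := by exact_mod_cast h
    rw [ZMod.natCast_eq_zero_iff] at h1
    have h2 := Nat.le_of_dvd (by norm_num) h1
    have h3 := (Fact.out : p.Prime).two_le
    omega
  have hid' := conv_id hid j (t + 2 ^ j * e)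
  by_cases hR : ∑ i, η i ^ (2 ^ j) * g (t + 2 ^ j * e - (2 : ZMod p) ^ j * i) = 0
  · left
    have h1 : η e ^ (2 ^ j) * g (t + 2 ^ j * e - (2 : ZMod p) ^ j * e) ≠ 0 := by
      rw [add_sub_cancel_right]
      exact mul_ne_zero (pow_ne_zero _ he) ht
    have h2 : ∃ e' : ZMod p, e' ≠ e ∧
        η e' ^ (2 ^ j) * g (t + 2 ^ j * e - (2 : ZMod p) ^ j * e') ≠ 0 := by
      by_contra hcon
      push Not at hcon
      rw [Finset.sum_eq_single e (fun b _ hb => hcon b hb) (fun h => absurd (Finset.mem_univ _) h)]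
        at hR
      exact h1 hR
    obtain ⟨e', he', h3⟩ := h2
    have h4 : η e' ≠ 0 := by
      intro h
      rw [h, zero_pow (by positivity), zero_mul] at h3
      exact h3 rfl
    refine ⟨_, hg _ (right_ne_zero_of_mul h3), e', hη _ h4, he', ?_, by ring⟩
    intro h5
    have h6 : (2 : ZMod p) ^ j * (e - e') = 0 := by linear_combination h5
    rcases mul_eq_zero.1 h6 with h7 | h7
    · exact hc h7
    · exact he' (sub_eq_zero.1 h7).symm
  · right
    rw [← hid'] at hR
    obtain ⟨s, -, hs⟩ := Finset.exists_ne_zero_of_sum_ne_zero hR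
    have h4 : g s ≠ 0 := by
      intro h
      rw [h, zero_pow (by positivity), zero_mul] at hs
      exact hs rfl
    refine ⟨s, hg _ h4, _, hη _ (right_ne_zero_of_mul hs), ?_, by ring⟩
    rintro rfl
    refine htE ?_
    have h5 := hη _ (right_ne_zero_of_mul hs)
    rwa [add_sub_cancel_right] at h5

end aux

/-- In `A = AddMonoidAlgebra K (ZMod p)` write `γ = ∑ g i [i]`, `h = ∑ η i [i]`. Then `γ² = γ h`, so
`γ^m h = γ h^m` for `m ≥ 1`, and for `m = 2^j` Frobenius gives `γ^m = ∑ (g i)^m [m i]`,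
`h^m = ∑ (η i)^m [m i]`. Fix `c = 2^j`, `j < J`, and `ε = u` or `ε = -u`. The coefficient of `γ h^m` at
`t + c ε` contains the term `g t (η ε)^m ≠ 0`. So either another term is not zero:
`t + c ε = s + c ε'` with `s ∈ T`, `ε' ∈ E`, `ε' ≠ ε` (so `s ≠ t`), or the coefficient is not zero, and
then, by the identity, `t + c ε = c s + ε'` with `s ∈ T`, `ε' ∈ E`; then `s ≠ ε` as `t ∉ E`.
For `ε = -u` multiply by `-1` and use the symmetry of `T` and `E`: with `c' = -c`, in both cases
`(1) c' (u - ε') = s - t` with `ε' ∈ E \ {u}`, `s ∈ T \ {t}`, or `(2) c' (s - u) = t - ε'` with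
`s ∈ T \ {u}`, `ε' ∈ E` (for `ε = u`, `c' = c`; for `ε = -u`: `t - c u = s + c ε'` becomes
`c' (u + ε') = s - t`, replace `ε'` by `-ε'`; `t - c u = c s + ε'` becomes
`c' (-s - u) = t - ε'`, replace `s` by `-s`). In each case `c'` is determined by the pair
(`u - ε' ≠ 0`, resp. `s - u ≠ 0`), and the `2 J` elements `c' = ± 2 ^ j`, `j < J`, are distinct. So
`2 J ≤ (|E| - 1) (|T| - 1) + (|T| - 1) |E|`. -/
theorem count_le {p : ℕ} [Fact p.Prime] (hp2 : p ≠ 2) {K : Type} [Field K] [CharP K 2]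
    (g η : ZMod p → K) (E T : Finset (ZMod p)) {u t : ZMod p} (hu : η u ≠ 0) (hu' : η (-u) ≠ 0)
    (hη : ∀ i, η i ≠ 0 → i ∈ E) (hg : ∀ i, g i ≠ 0 → i ∈ T) (hEs : ∀ e ∈ E, -e ∈ E)
    (hTs : ∀ s ∈ T, -s ∈ T) (hET : E ⊆ T) (ht : g t ≠ 0) (htE : t ∉ E)
    (hid : ∀ γ, ∑ i, g i * g (γ - i) = ∑ i, g i * η (γ - i)) (J : ℕ)
    (hJ : ∀ j, 0 < j → j < J → (2 : ZMod p) ^ j ≠ 1 ∧ (2 : ZMod p) ^ j ≠ -1) :
    2 * J ≤ (2 * E.card - 1) * (T.card - 1) := by
  classical
  have h2 : (2 : ZMod p) ≠ 0 := by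
    intro h
    have h1 : ((2 : ℕ) : ZMod p) = 0 := by exact_mod_cast h
    rw [ZMod.natCast_eq_zero_iff] at h1
    have h2 := Nat.le_of_dvd (by norm_num) h1
    have h3 := (Fact.out : p.Prime).two_le
    omega
  have huE : u ∈ E := hη u hu
  have huT : u ∈ T := hET huE
  have htT : t ∈ T := hg t ht
  let cc : Fin J × Bool → ZMod p := fun x => if x.2 then 2 ^ x.1.1 else - 2 ^ x.1.1
  let rel : ZMod p → (ZMod p × ZMod p) ⊕ (ZMod p × ZMod p) → Prop := fun c x =>
    Sum.elim (fun y => y.1 ∈ E.erase u ∧ y.2 ∈ T.erase t ∧ c * (u - y.1) = y.2 - t)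
      (fun y => y.1 ∈ T.erase u ∧ y.2 ∈ E ∧ c * (y.1 - u) = t - y.2) x
  have hex : ∀ x : Fin J × Bool, ∃ y, rel (cc x) y := by
    rintro ⟨j, b⟩
    cases b
    · rcases step hp2 hη hg ht htE hid j.1 hu' with ⟨s, hs, e', he', h3, h4, h5⟩ |
        ⟨s, hs, e', he', h3, h5⟩
      · refine ⟨Sum.inl (-e', s), Finset.mem_erase.2 ⟨?_, hEs _ he'⟩,
          Finset.mem_erase.2 ⟨h4, hs⟩, ?_⟩
        · intro h6
          exact h3 (by rw [← h6, neg_neg])
        · show (if (false : Bool) = true then (2 : ZMod p) ^ j.1 else - 2 ^ j.1) * (u - -e') = s - t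
          rw [if_neg (by decide)]
          linear_combination h5
      · refine ⟨Sum.inr (-s, e'), Finset.mem_erase.2 ⟨?_, hTs _ hs⟩, he', ?_⟩
        · intro h6
          exact h3 (by rw [← h6, neg_neg])
        · show (if (false : Bool) = true then (2 : ZMod p) ^ j.1 else - 2 ^ j.1) * (-s - u) = t - e'
          rw [if_neg (by decide)]
          linear_combination -h5
    · rcases step hp2 hη hg ht htE hid j.1 hu with ⟨s, hs, e', he', h3, h4, h5⟩ |
        ⟨s, hs, e', he', h3, h5⟩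
      · refine ⟨Sum.inl (e', s), Finset.mem_erase.2 ⟨h3, he'⟩, Finset.mem_erase.2 ⟨h4, hs⟩, ?_⟩
        show (if (true : Bool) = true then (2 : ZMod p) ^ j.1 else - 2 ^ j.1) * (u - e') = s - t
        rw [if_pos rfl]
        linear_combination h5
      · refine ⟨Sum.inr (s, e'), Finset.mem_erase.2 ⟨h3, hs⟩, he', ?_⟩
        show (if (true : Bool) = true then (2 : ZMod p) ^ j.1 else - 2 ^ j.1) * (s - u) = t - e'
        rw [if_pos rfl]
        linear_combination -h5
  choose F hF using hex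
  -- the multipliers are distinct
  have hpow : ∀ i j : ℕ, i < j → j < J → (2 : ZMod p) ^ i ≠ 2 ^ j ∧ (2 : ZMod p) ^ i ≠ - 2 ^ j := by
    intro i j hij hj
    obtain ⟨d, rfl⟩ := Nat.exists_eq_add_of_lt hij
    obtain ⟨h3, h4⟩ := hJ (d + 1) (by omega) (by omega)
    have h5 : (2 : ZMod p) ^ (i + d + 1) = 2 ^ i * 2 ^ (d + 1) := by rw [← pow_add, add_assoc]
    have h6 : (2 : ZMod p) ^ i ≠ 0 := pow_ne_zero _ h2
    refine ⟨fun h => h3 ?_, fun h => h4 ?_⟩
    · rw [h5] at h
      have h7 : (2 : ZMod p) ^ i * (2 ^ (d + 1) - 1) = 0 := by linear_combination -h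
      rcases mul_eq_zero.1 h7 with h8 | h8
      · exact absurd h8 h6
      · exact sub_eq_zero.1 h8
    · rw [h5] at h
      have h7 : (2 : ZMod p) ^ i * (2 ^ (d + 1) + 1) = 0 := by linear_combination h
      rcases mul_eq_zero.1 h7 with h8 | h8
      · exact absurd h8 h6
      · exact eq_neg_of_add_eq_zero_left h8
  have hself : ∀ i : ℕ, (2 : ZMod p) ^ i ≠ - 2 ^ i := by
    intro i h
    have h3 : (2 : ZMod p) * 2 ^ i = 0 := by linear_combination h
    rcases mul_eq_zero.1 h3 with h4 | h4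
    · exact h2 h4
    · exact pow_ne_zero _ h2 h4
  have hcc : Function.Injective cc := by
    rintro ⟨i, b⟩ ⟨j, b'⟩ h
    have hij : i = j := by
      by_contra hne
      have hne' : i.1 ≠ j.1 := fun h => hne (Fin.ext h)
      rcases Nat.lt_or_gt_of_ne hne' with hl | hl
      · obtain ⟨h3, h4⟩ := hpow _ _ hl j.2
        cases b <;> cases b' <;> simp only [cc] at h <;> simp at h
        · exact h3 h
        · exact h4 (by rw [← h, neg_neg])
        · exact h4 h
        · exact h3 h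
      · obtain ⟨h3, h4⟩ := hpow _ _ hl i.2
        cases b <;> cases b' <;> simp only [cc] at h <;> simp at h
        · exact h3 h.symm
        · exact h4 h.symm
        · exact h4 (by rw [h, neg_neg])
        · exact h3 h.symm
    subst hij
    cases b <;> cases b'
    · rfl
    · simp [cc] at h
      exact absurd h.symm (hself _)
    · simp [cc] at h
      exact absurd h (hself _)
    · rfl
  have hFinj : Function.Injective F := by
    intro x y hxy
    apply hcc
    have h3 := hF x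
    have h4 := hF y
    rw [← hxy] at h4
    rcases hz : F x with z | z
    · rw [hz] at h3 h4
      obtain ⟨h5, -, h6⟩ := h3
      obtain ⟨-, -, h7⟩ := h4
      have h8 : u - z.1 ≠ 0 := fun h => (Finset.mem_erase.1 h5).1 (sub_eq_zero.1 h).symm
      exact mul_right_cancel₀ h8 (h6.trans h7.symm)
    · rw [hz] at h3 h4
      obtain ⟨h5, -, h6⟩ := h3
      obtain ⟨-, -, h7⟩ := h4
      have h8 : z.1 - u ≠ 0 := fun h => (Finset.mem_erase.1 h5).1 (sub_eq_zero.1 h)
      exact mul_right_cancel₀ h8 (h6.trans h7.symm)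
  have hcard := Finset.card_le_card_of_injOn (s := (Finset.univ : Finset (Fin J × Bool)))
    (t := ((E.erase u) ×ˢ (T.erase t)).disjSum ((T.erase u) ×ˢ E)) F (by
      intro x _
      have h3 := hF x
      rcases hz : F x with z | z
      · rw [hz] at h3
        obtain ⟨h5, h6, -⟩ := h3
        exact Finset.mem_coe.2 (Finset.inl_mem_disjSum.2 (Finset.mem_product.2 ⟨h5, h6⟩))
      · rw [hz] at h3
        obtain ⟨h5, h6, -⟩ := h3
        exact Finset.mem_coe.2 (Finset.inr_mem_disjSum.2 (Finset.mem_product.2 ⟨h5, h6⟩)))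
    hFinj.injOn
  rw [Finset.card_disjSum, Finset.card_product, Finset.card_product, Finset.card_erase_of_mem huE,
    Finset.card_erase_of_mem htT, Finset.card_erase_of_mem huT, Finset.card_univ,
    Fintype.card_prod, Fintype.card_fin, Fintype.card_bool] at hcard
  have hE1 : 1 ≤ E.card := Finset.card_pos.2 ⟨u, huE⟩
  obtain ⟨a, ha⟩ := Nat.exists_eq_add_of_le hE1
  have hT1 : 1 ≤ T.card := Finset.card_pos.2 ⟨t, htT⟩
  obtain ⟨b, hb⟩ := Nat.exists_eq_add_of_le hT1
  rw [ha, hb] at hcard ⊢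
  have e1 : 1 + a - 1 = a := by omega
  have e2 : 1 + b - 1 = b := by omega
  have e3 : 2 * (1 + a) - 1 = 2 * a + 1 := by omega
  rw [e1, e2] at hcard
  rw [e2, e3]
  nlinarith

end Pool.Agent.Lib.MP_baf44c_co.Q1
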