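import Mathlib

/-!
A search for the symmetric sets `T ⊇ {±u, ±v}` of classes mod `p` closed under two rules, written
with primitive recursors and bit masks, for evaluation in the kernel.
-/

set_option autoImplicit false

namespace Pool.Agent.Lib.MP_baf44c_co.Q1.Dfs

/-- Bit `t` of the mask `A`. -/
noncomputable def mem (A t : Nat) : Bool := Nat.beq (Nat.land (Nat.shiftRight A t) 1) 1

/-- The list of `(k + e) % p`, `e ∈ l`. -/
noncomputable def opts (p k : Nat) (l : List Nat) : List Nat :=
  List.rec [] (fun e _ ih => Nat.mod (Nat.add k e) p :: ih) l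

/-- Some entry of `l` is in the mask `A`. -/
noncomputable def anyMem (A : Nat) (l : List Nat) : Bool :=
  List.rec false (fun t _ ih => Bool.rec ih true (mem A t)) l

/-- The rules for the class `i`, as lists of options: for `(e, l) ∈ EE` the options `(i + e) h` and
`i + e + e'`, `e' ∈ l`; and the options `2 i + e`, `e ∈ E`. -/
noncomputable def cons (p h i : Nat) (E : List Nat) (EE : List (Nat × List Nat)) :
    List (List Nat) :=
  List.rec [opts p (Nat.mul 2 i) E] (fun a _ ih =>
    (Nat.mod (Nat.mul (Nat.add i a.1) h) p :: opts p (Nat.add i a.1) a.2) :: ih) EE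

/-- Append. -/
noncomputable def app (l r : List (List Nat)) : List (List Nat) :=
  List.rec r (fun a _ ih => a :: ih) l

/-- Append. -/
noncomputable def app' (l r : List Nat) : List Nat := List.rec r (fun a _ ih => a :: ih) l

/-- All classes `q s`, `s ∈ l`, are in `(-p/4, p/4)`. -/
noncomputable def rect1 (p q : Nat) (l : List Nat) : Bool :=
  List.rec true (fun s _ ih => Bool.rec false ih
    (Bool.rec (Nat.ble (Nat.succ (Nat.mul 4 (Nat.sub p (Nat.mod (Nat.mul q s) p)))) p) true
     (Nat.ble (Nat.succ (Nat.mul 4 (Nat.mod (Nat.mul q s) p))) p))) l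

/-- Some multiplier `1, …, q` brings all `s ∈ l` into `(-p/4, p/4)`. -/
noncomputable def rect (p : Nat) (l : List Nat) (q : Nat) : Bool :=
  Nat.rec false (fun q ih => Bool.rec ih true (rect1 p (Nat.succ q) l)) q

/-- Mask of `t` and `p - t`. -/
noncomputable def bit2 (p t : Nat) : Nat := Nat.lor (Nat.shiftLeft 1 t) (Nat.shiftLeft 1 (Nat.sub p t))

/-- Branch over the options `o`; the last argument is the mask of the excluded classes. -/
noncomputable def branch (p h : Nat) (E : List Nat) (EE : List (Nat × List Nat))
    (f : Nat → Nat → List Nat → Nat → List (List Nat) → Bool) (A : Nat) (S : List Nat) (room : Nat)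
    (pend : List (List Nat)) (o : List Nat) : Nat → Bool :=
  List.rec (motive := fun _ => Nat → Bool) (fun _ => true)
    (fun t _ ih B => Bool.rec
       (Bool.rec
         (Bool.rec (ih B)
            (Bool.rec false (ih (Nat.lor B (bit2 p t)))
              (f (Nat.lor A (bit2 p t)) B (t :: S) (Nat.sub room 2) (app pend (cons p h t E EE))))
            (Nat.ble 2 room))
         (Bool.rec (ih B)
            (Bool.rec false (ih (Nat.lor B 1))
              (f (Nat.lor A 1) B (t :: S) (Nat.sub room 1) (app pend (cons p h t E EE))))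
            (Nat.ble 1 room))
         (Nat.beq t 0))
       (ih B) (mem B t)) o

/-- `[n, n - 1, …, 0]`. -/
noncomputable def down (n : Nat) : List Nat := Nat.rec [0] (fun n ih => (Nat.succ n) :: ih) n

/-- The search. `A`: classes of the set so far, `B`: excluded classes, `S`: representatives of the
added classes, `room`: number of classes which may still be added, `pend`: rules not yet
considered. -/
noncomputable def dfs (p h : Nat) (E : List Nat) (EE : List (Nat × List Nat)) (ER all : List Nat)
    (fuel : Nat) : Nat → Nat → List Nat → Nat → List (List Nat) → Bool :=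
  Nat.rec (motive := fun _ => Nat → Nat → List Nat → Nat → List (List Nat) → Bool)
    (fun _ _ _ _ _ => false)
    (fun _ ih A B S room pend => List.rec (motive := fun _ => Bool)
      (Bool.rec false (branch p h E EE ih A S room [] all (Nat.lor A B)) (rect p (app' ER S) 32))
      (fun o pend' _ => Bool.rec (branch p h E EE ih A S room pend' o B)
        (ih A B S room pend') (anyMem A o)) pend) fuel

/-- The search for `u, v ≠ 0`. -/
noncomputable def run4 (p u v lim : Nat) : Bool :=
  dfs p (Nat.div (Nat.succ p) 2) [u, v, Nat.sub p u, Nat.sub p v]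
    [(u, [u, v, Nat.sub p v]), (v, [v, u, Nat.sub p u]),
     (Nat.sub p u, [Nat.sub p u, v, Nat.sub p v]), (Nat.sub p v, [Nat.sub p v, u, Nat.sub p u])]
    [u, v] (down (Nat.div p 2)) 1000 (Nat.lor (bit2 p u) (bit2 p v)) 0 [] lim []

/-- The search for `v = 0`. -/
noncomputable def run3 (p u lim : Nat) : Bool :=
  dfs p (Nat.div (Nat.succ p) 2) [u, Nat.sub p u, 0]
    [(u, [u, 0]), (Nat.sub p u, [Nat.sub p u, 0])]
    [u, 0] (down (Nat.div p 2)) 1000 (Nat.lor (bit2 p u) 1) 0 [] lim []

end Pool.Agent.Lib.MP_baf44c_co.Q1.Dfs
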