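import Pool.Agent.Lib.MP_baf44c_co.Q1.Dfs

/-!
The functions of the search in terms of the usual list and bit operations.
-/

set_option autoImplicit false

namespace Pool.Agent.Lib.MP_baf44c_co.Q1.Dfs

theorem mem_eq (A t : ℕ) : mem A t = A.testBit t := by
  have h1 : Nat.land (Nat.shiftRight A t) 1 = (A >>> t) % 2 := Nat.and_one_is_mod _
  have h2 : A.testBit t = decide ((A >>> t) % 2 = 1) := by
    rw [Nat.testBit_eq_decide_div_mod_eq, Nat.shiftRight_eq_div_pow]
  rw [mem, h1, h2]
  rcases Nat.mod_two_eq_zero_or_one (A >>> t) with h | h <;> rw [h] <;> rfl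

theorem anyMem_eq (A : ℕ) (l : List ℕ) : anyMem A l = l.any (fun t => A.testBit t) := by
  induction l with
  | nil => rfl
  | cons a l ih =>
    have h1 : anyMem A (a :: l) = Bool.rec (anyMem A l) true (mem A a) := rfl
    rw [h1, ih, mem_eq, List.any_cons]
    cases A.testBit a <;> rfl

theorem opts_eq (p k : ℕ) (l : List ℕ) : opts p k l = l.map (fun e => (k + e) % p) := by
  induction l with
  | nil => rfl
  | cons a l ih =>
    have h1 : opts p k (a :: l) = Nat.mod (Nat.add k a) p :: opts p k l := rfl
    rw [h1, ih, List.map_cons]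
    rfl

theorem cons_eq (p h i : ℕ) (E : List ℕ) (EE : List (ℕ × List ℕ)) : cons p h i E EE =
    EE.map (fun a => ((i + a.1) * h % p) :: a.2.map (fun e => (i + a.1 + e) % p)) ++
      [E.map (fun e => (2 * i + e) % p)] := by
  induction EE with
  | nil =>
    have h1 : cons p h i E [] = [opts p (Nat.mul 2 i) E] := rfl
    rw [h1, opts_eq]
    rfl
  | cons a EE ih =>
    have h1 : cons p h i E (a :: EE) =
      (Nat.mod (Nat.mul (Nat.add i a.1) h) p :: opts p (Nat.add i a.1) a.2) :: cons p h i E EE := rfl
    rw [h1, ih, opts_eq, List.map_cons, List.cons_append]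
    rfl

theorem app_eq (l r : List (List ℕ)) : app l r = l ++ r := by
  induction l with
  | nil => rfl
  | cons a l ih =>
    have h1 : app (a :: l) r = a :: app l r := rfl
    rw [h1, ih, List.cons_append]

theorem app'_eq (l r : List ℕ) : app' l r = l ++ r := by
  induction l with
  | nil => rfl
  | cons a l ih =>
    have h1 : app' (a :: l) r = a :: app' l r := rfl
    rw [h1, ih, List.cons_append]

theorem testBit_bit2 {p t : ℕ} (i : ℕ) :
    (bit2 p t).testBit i = (decide (i = t) || decide (i = p - t)) := by
  have h1 : bit2 p t = (1 <<< t) ||| (1 <<< (p - t)) := rfl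
  have h2 : ∀ s : ℕ, (1 <<< s : ℕ).testBit i = decide (i = s) := by
    intro s
    rw [Nat.one_shiftLeft, Nat.testBit_two_pow]
    by_cases h : i = s
    · subst h; simp
    · have h' : ¬ s = i := fun h'' => h h''.symm
      simp [h, h']
  rw [h1, Nat.testBit_or, h2, h2]

theorem mem_down (n t : ℕ) : t ∈ down n ↔ t ≤ n := by
  induction n with
  | zero =>
    have h1 : down 0 = [0] := rfl
    rw [h1]
    simp
  | succ n ih =>
    have h1 : down (n + 1) = (n + 1) :: down n := rfl
    rw [h1, List.mem_cons, ih]
    omega

private theorem rect1_sound {p q : ℕ} {l : List ℕ} (h : rect1 p q l = true) :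
    ∀ s ∈ l, 4 * ((q * s) % p) < p ∨ 4 * (p - (q * s) % p) < p := by
  induction l with
  | nil => simp
  | cons a l ih =>
    have h1 : rect1 p q (a :: l) = Bool.rec false (rect1 p q l)
      (Bool.rec (Nat.ble (Nat.succ (Nat.mul 4 (Nat.sub p (Nat.mod (Nat.mul q a) p)))) p) true
       (Nat.ble (Nat.succ (Nat.mul 4 (Nat.mod (Nat.mul q a) p))) p)) := rfl
    rw [h1] at h
    have h2 : (Nat.ble (Nat.succ (Nat.mul 4 (Nat.mod (Nat.mul q a) p))) p = true ∨
        Nat.ble (Nat.succ (Nat.mul 4 (Nat.sub p (Nat.mod (Nat.mul q a) p)))) p = true) ∧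
        rect1 p q l = true := by
      cases hb : Nat.ble (Nat.succ (Nat.mul 4 (Nat.mod (Nat.mul q a) p))) p with
      | true =>
        rw [hb] at h
        exact ⟨Or.inl rfl, h⟩
      | false =>
        rw [hb] at h
        cases hb' : Nat.ble (Nat.succ (Nat.mul 4 (Nat.sub p (Nat.mod (Nat.mul q a) p)))) p with
        | true =>
          rw [hb'] at h
          exact ⟨Or.inr rfl, h⟩
        | false =>
          rw [hb'] at h
          exact absurd h (by simp)
    intro s hs
    rcases List.mem_cons.1 hs with rfl | hs
    · rcases h2.1 with h3 | h3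
      · exact Or.inl (Nat.le_of_ble_eq_true h3)
      · exact Or.inr (Nat.le_of_ble_eq_true h3)
    · exact ih h2.2 s hs

/-- `rect1 p q l` tests `4 x < p` or `4 (p - x) < p` for `x = q s % p`, that is
`4 |(q s).valMinAbs| < p`. -/
theorem rect_sound {p : ℕ} [NeZero p] {l : List ℕ} {q : ℕ} (h : rect p l q = true) :
    ∃ q' : ℕ, 0 < q' ∧ q' ≤ q ∧ ∀ s ∈ l, 4 * |((q' : ZMod p) * (s : ZMod p)).valMinAbs| < p := by
  induction q with
  | zero => exact absurd h (by simp [rect])
  | succ q ih =>
    have h1 : rect p l (q + 1) = Bool.rec (rect p l q) true (rect1 p (Nat.succ q) l) := rfl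
    rw [h1] at h
    cases hb : rect1 p (Nat.succ q) l with
    | false =>
      rw [hb] at h
      obtain ⟨q', a, b, c⟩ := ih h
      exact ⟨q', a, by omega, c⟩
    | true =>
      refine ⟨q + 1, by omega, le_rfl, fun s hs => ?_⟩
      have h2 := rect1_sound hb s hs
      have hp : 0 < p := Nat.pos_of_ne_zero (NeZero.ne p)
      have h3 : ((((q + 1 : ℕ) : ZMod p) * (s : ZMod p)).val) = ((q + 1) * s) % p := by
        rw [← Nat.cast_mul, ZMod.val_natCast]
      have h4 : ((q + 1) * s) % p < p := Nat.mod_lt _ hp
      rw [ZMod.valMinAbs_def_pos, h3]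
      have h5 : Nat.succ q * s = (q + 1) * s := rfl
      rw [h5] at h2
      generalize ((q + 1) * s) % p = x at h2 h4 ⊢
      split_ifs with h6
      · rw [abs_of_nonneg (by positivity)]
        omega
      · rw [abs_of_neg (by omega)]
        omega

/-- The defining equations of `branch`. -/
theorem branch_nil (p h : ℕ) (E : List ℕ) (EE : List (ℕ × List ℕ))
    (f : ℕ → ℕ → List ℕ → ℕ → List (List ℕ) → Bool) (A : ℕ) (S : List ℕ) (room : ℕ)
    (pend : List (List ℕ)) (B : ℕ) : branch p h E EE f A S room pend [] B = true := rfl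

private theorem and_rec (a b : Bool) : (Bool.rec false b a : Bool) = (a && b) := by
  cases a <;> rfl

theorem branch_cons (p h : ℕ) (E : List ℕ) (EE : List (ℕ × List ℕ))
    (f : ℕ → ℕ → List ℕ → ℕ → List (List ℕ) → Bool) (A : ℕ) (S : List ℕ) (room : ℕ)
    (pend : List (List ℕ)) (t : ℕ) (o : List ℕ) (B : ℕ) :
    branch p h E EE f A S room pend (t :: o) B =
      if B.testBit t then branch p h E EE f A S room pend o B else
      if t = 0 then
        if 1 ≤ room then
          f (A ||| 1) B (t :: S) (room - 1) (pend ++ cons p h t E EE) &&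
            branch p h E EE f A S room pend o (B ||| 1)
        else branch p h E EE f A S room pend o B
      else
        if 2 ≤ room then
          f (A ||| bit2 p t) B (t :: S) (room - 2) (pend ++ cons p h t E EE) &&
            branch p h E EE f A S room pend o (B ||| bit2 p t)
        else branch p h E EE f A S room pend o B := by
  have h1 : branch p h E EE f A S room pend (t :: o) B = Bool.rec
       (Bool.rec
         (Bool.rec (branch p h E EE f A S room pend o B)
            (Bool.rec false (branch p h E EE f A S room pend o (Nat.lor B (bit2 p t)))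
              (f (Nat.lor A (bit2 p t)) B (t :: S) (Nat.sub room 2) (app pend (cons p h t E EE))))
            (Nat.ble 2 room))
         (Bool.rec (branch p h E EE f A S room pend o B)
            (Bool.rec false (branch p h E EE f A S room pend o (Nat.lor B 1))
              (f (Nat.lor A 1) B (t :: S) (Nat.sub room 1) (app pend (cons p h t E EE))))
            (Nat.ble 1 room))
         (Nat.beq t 0))
       (branch p h E EE f A S room pend o B) (mem B t) := rfl
  rw [h1, mem_eq, and_rec, and_rec, app_eq]
  cases hB : B.testBit t with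
  | true => simp
  | false =>
    simp only [Bool.false_eq_true, if_false]
    by_cases ht : t = 0
    · subst ht
      have h2 : Nat.beq 0 0 = true := rfl
      rw [h2]
      simp only [if_true]
      by_cases hr : 1 ≤ room
      · have h3 : Nat.ble 1 room = true := Nat.ble_eq_true_of_le hr
        rw [h3, if_pos hr]
        rfl
      · have h3 : Nat.ble 1 room = false := by
          rw [← Bool.not_eq_true]
          exact fun h' => hr (Nat.le_of_ble_eq_true h')
        rw [h3, if_neg hr]
    · have h2 : Nat.beq t 0 = false := by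
        rw [← Bool.not_eq_true]
        exact fun h' => ht (Nat.eq_of_beq_eq_true h')
      rw [h2, if_neg ht]
      by_cases hr : 2 ≤ room
      · have h3 : Nat.ble 2 room = true := Nat.ble_eq_true_of_le hr
        rw [h3, if_pos hr]
        rfl
      · have h3 : Nat.ble 2 room = false := by
          rw [← Bool.not_eq_true]
          exact fun h' => hr (Nat.le_of_ble_eq_true h')
        rw [h3, if_neg hr]

/-- The defining equations of `dfs`. -/
theorem dfs_zero (p h : ℕ) (E : List ℕ) (EE : List (ℕ × List ℕ)) (ER all : List ℕ) (A B : ℕ)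
    (S : List ℕ) (room : ℕ) (pend : List (List ℕ)) :
    dfs p h E EE ER all 0 A B S room pend = false := rfl

theorem dfs_nil (p h : ℕ) (E : List ℕ) (EE : List (ℕ × List ℕ)) (ER all : List ℕ) (fuel A B : ℕ)
    (S : List ℕ) (room : ℕ) :
    dfs p h E EE ER all (fuel + 1) A B S room [] =
      (rect p (ER ++ S) 32 && branch p h E EE (dfs p h E EE ER all fuel) A S room [] all (A ||| B)) := by
  have h1 : dfs p h E EE ER all (fuel + 1) A B S room [] =
      Bool.rec false (branch p h E EE (dfs p h E EE ER all fuel) A S room [] all (Nat.lor A B))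
        (rect p (app' ER S) 32) := rfl
  rw [h1, and_rec, app'_eq]
  rfl

theorem dfs_cons (p h : ℕ) (E : List ℕ) (EE : List (ℕ × List ℕ)) (ER all : List ℕ) (fuel A B : ℕ)
    (S : List ℕ) (room : ℕ) (o : List ℕ) (pend : List (List ℕ)) :
    dfs p h E EE ER all (fuel + 1) A B S room (o :: pend) =
      if o.any (fun t => A.testBit t) then dfs p h E EE ER all fuel A B S room pend
      else branch p h E EE (dfs p h E EE ER all fuel) A S room pend o B := by
  have h1 : dfs p h E EE ER all (fuel + 1) A B S room (o :: pend) =
      Bool.rec (branch p h E EE (dfs p h E EE ER all fuel) A S room pend o B)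
        (dfs p h E EE ER all fuel A B S room pend) (anyMem A o) := rfl
  rw [h1, anyMem_eq]
  cases o.any (fun t => A.testBit t) <;> rfl

end Pool.Agent.Lib.MP_baf44c_co.Q1.Dfs
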