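import Pool.Agent.Lib.MP_baf44c_co.Q1.DfsBasic

/-!
Correctness of the search.
-/

set_option autoImplicit false

namespace Pool.Agent.Lib.MP_baf44c_co.Q1.Dfs

/-- The classes of the entries of `l` and their negatives. -/
def cls (p : ℕ) (l : List ℕ) : Finset (ZMod p) :=
  (l.map (fun s : ℕ => (s : ZMod p))).toFinset ∪ (l.map (fun s : ℕ => -(s : ZMod p))).toFinset

private theorem mem_cls {p : ℕ} {l : List ℕ} {x : ZMod p} :
    x ∈ cls p l ↔ (∃ s ∈ l, (s : ZMod p) = x) ∨ (∃ s ∈ l, -(s : ZMod p) = x) := by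
  simp [cls]

private theorem neg_mem_cls {p : ℕ} {l : List ℕ} {x : ZMod p} (h : x ∈ cls p l) :
    -x ∈ cls p l := by
  rw [mem_cls] at h ⊢
  rcases h with ⟨s, hs, rfl⟩ | ⟨s, hs, rfl⟩
  · exact Or.inr ⟨s, hs, rfl⟩
  · exact Or.inl ⟨s, hs, by rw [neg_neg]⟩

private theorem mem_cls_cons {p : ℕ} {l l' : List ℕ} {t : ℕ} {x : ZMod p} :
    x ∈ cls p (l ++ t :: l') ↔ x = (t : ZMod p) ∨ x = -(t : ZMod p) ∨ x ∈ cls p (l ++ l') := by
  rw [mem_cls, mem_cls]
  simp only [List.mem_append, List.mem_cons]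
  constructor
  · rintro (⟨s, hs, rfl⟩ | ⟨s, hs, rfl⟩)
    · rcases hs with hs | rfl | hs
      · exact Or.inr (Or.inr (Or.inl ⟨s, Or.inl hs, rfl⟩))
      · exact Or.inl rfl
      · exact Or.inr (Or.inr (Or.inl ⟨s, Or.inr hs, rfl⟩))
    · rcases hs with hs | rfl | hs
      · exact Or.inr (Or.inr (Or.inr ⟨s, Or.inl hs, rfl⟩))
      · exact Or.inr (Or.inl rfl)
      · exact Or.inr (Or.inr (Or.inr ⟨s, Or.inr hs, rfl⟩))
  · rintro (rfl | rfl | ⟨s, hs, rfl⟩ | ⟨s, hs, rfl⟩)
    · exact Or.inl ⟨t, Or.inr (Or.inl rfl), rfl⟩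
    · exact Or.inr ⟨t, Or.inr (Or.inl rfl), rfl⟩
    · exact Or.inl ⟨s, by tauto, rfl⟩
    · exact Or.inr ⟨s, by tauto, rfl⟩

private theorem cls_sub_append {p : ℕ} {l l' : List ℕ} : cls p l ⊆ cls p (l ++ l') := by
  intro x hx
  rw [mem_cls] at hx ⊢
  rcases hx with ⟨s, hs, rfl⟩ | ⟨s, hs, rfl⟩
  · exact Or.inl ⟨s, List.mem_append_left _ hs, rfl⟩
  · exact Or.inr ⟨s, List.mem_append_left _ hs, rfl⟩

private theorem cast_inj_lt {p i t : ℕ} (hi : i < p) (ht : t < p)
    (h : (i : ZMod p) = (t : ZMod p)) : i = t := by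
  have := (ZMod.natCast_eq_natCast_iff' i t p).1 h
  rwa [Nat.mod_eq_of_lt hi, Nat.mod_eq_of_lt ht] at this

private theorem cast_sub_self {p t : ℕ} (ht : t ≤ p) : ((p - t : ℕ) : ZMod p) = -(t : ZMod p) := by
  rw [Nat.cast_sub ht, ZMod.natCast_self, zero_sub]

private theorem cast_eq_neg {p i t : ℕ} (hi : i < p) (ht : t < p) (ht0 : 0 < t)
    (h : (i : ZMod p) = -(t : ZMod p)) : i = p - t := by
  rw [← cast_sub_self ht.le] at h
  exact cast_inj_lt hi (by omega) h

/-- The invariants of the search. -/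
private structure Inv (p h : ℕ) (E : List ℕ) (EE : List (ℕ × List ℕ)) (ER : List ℕ)
    (T : Finset (ZMod p)) (A B : ℕ) (S : List ℕ) (room : ℕ) (pend : List (List ℕ)) : Prop where
  hS : ∀ t ∈ S, t < p
  hA : ∀ i < p, A.testBit i = true ↔ (i : ZMod p) ∈ cls p (ER ++ S)
  hsub : cls p (ER ++ S) ⊆ T
  hB : ∀ i < p, B.testBit i = true → (i : ZMod p) ∈ T → (i : ZMod p) ∈ cls p (ER ++ S)
  hroom : T.card ≤ (cls p (ER ++ S)).card + room
  hpend : ∀ o ∈ pend, (∀ x ∈ o, x < p) ∧ ∃ x ∈ o, (x : ZMod p) ∈ T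

private theorem cons_lt {p h i : ℕ} (hp : 0 < p) {E : List ℕ} {EE : List (ℕ × List ℕ)} :
    ∀ o ∈ cons p h i E EE, ∀ x ∈ o, x < p := by
  intro o ho x hx
  rw [cons_eq, List.mem_append, List.mem_map, List.mem_singleton] at ho
  rcases ho with ⟨a, _, rfl⟩ | rfl
  · rw [List.mem_cons, List.mem_map] at hx
    rcases hx with rfl | ⟨e, _, rfl⟩
    · exact Nat.mod_lt _ hp
    · exact Nat.mod_lt _ hp
  · rw [List.mem_map] at hx
    obtain ⟨e, _, rfl⟩ := hx
    exact Nat.mod_lt _ hp

private theorem inv_zero {p : ℕ} [Fact p.Prime] {h : ℕ} {E : List ℕ}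
    {EE : List (ℕ × List ℕ)} {ER : List ℕ} {T : Finset (ZMod p)}
    (hT : ∀ i < p, (i : ZMod p) ∈ T → (i : ZMod p) ∉ cls p ER → ∀ o ∈ cons p h i E EE,
      ∃ x ∈ o, (x : ZMod p) ∈ T) {A B : ℕ} {S : List ℕ} {room : ℕ} {pend : List (List ℕ)}
    (I : Inv p h E EE ER T A B S room pend) (h1 : (0 : ZMod p) ∈ T)
    (h2 : (0 : ZMod p) ∉ cls p (ER ++ S)) (hr : 1 ≤ room) :
    Inv p h E EE ER T (A ||| 1) B (0 :: S) (room - 1) (pend ++ cons p h 0 E EE) := by
  have hp0 : 0 < p := (Fact.out : p.Prime).pos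
  have hm : ∀ x : ZMod p, x ∈ cls p (ER ++ 0 :: S) ↔ x = 0 ∨ x ∈ cls p (ER ++ S) := by
    intro x
    rw [mem_cls_cons, Nat.cast_zero, neg_zero]
    tauto
  have hcl : cls p (ER ++ 0 :: S) = insert 0 (cls p (ER ++ S)) := by
    ext x
    rw [hm, Finset.mem_insert]
  refine ⟨?_, ?_, ?_, ?_, ?_, ?_⟩
  · intro t ht
    rcases List.mem_cons.1 ht with rfl | ht
    · exact hp0
    · exact I.hS t ht
  · intro i hi
    rw [Nat.testBit_or, Bool.or_eq_true, I.hA i hi, hm, Nat.testBit_one_eq_true_iff_self_eq_zero]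
    constructor
    · rintro (h | rfl)
      · exact Or.inr h
      · exact Or.inl Nat.cast_zero
    · rintro (h | h)
      · right
        have : (i : ZMod p) = ((0 : ℕ) : ZMod p) := by rw [h, Nat.cast_zero]
        exact cast_inj_lt hi hp0 this
      · exact Or.inl h
  · intro x hx
    rcases (hm x).1 hx with rfl | hx
    · exact h1
    · exact I.hsub hx
  · intro i hi hb ht
    exact (hm _).2 (Or.inr (I.hB i hi hb ht))
  · rw [hcl, Finset.card_insert_of_notMem h2]
    have := I.hroom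
    omega
  · intro o ho
    rcases List.mem_append.1 ho with ho | ho
    · exact I.hpend o ho
    · refine ⟨cons_lt hp0 o ho, hT 0 hp0 ?_ ?_ o ho⟩
      · rw [Nat.cast_zero]; exact h1
      · rw [Nat.cast_zero]; exact fun hh => h2 (cls_sub_append hh)

private theorem ne_neg {p : ℕ} [Fact p.Prime] (hp2 : p ≠ 2) {t : ℕ} (ht0 : t ≠ 0) (ht : t < p) :
    (t : ZMod p) ≠ -(t : ZMod p) := by
  intro h
  have h0 : (2 : ZMod p) * (t : ZMod p) = 0 := by
    linear_combination h
  rcases mul_eq_zero.1 h0 with h2 | h2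
  · have h3 : ((2 : ℕ) : ZMod p) = 0 := by exact_mod_cast h2
    rw [ZMod.natCast_eq_zero_iff] at h3
    exact hp2 ((Nat.prime_dvd_prime_iff_eq (Fact.out : p.Prime) Nat.prime_two).1 h3)
  · rw [ZMod.natCast_eq_zero_iff] at h2
    exact absurd (Nat.le_of_dvd (Nat.pos_of_ne_zero ht0) h2) (by omega)

private theorem card_two {p : ℕ} [Fact p.Prime] (hp2 : p ≠ 2) {t : ℕ} (ht0 : t ≠ 0) (ht : t < p)
    {l l' : List ℕ} (h2 : (t : ZMod p) ∉ cls p (l ++ l')) :
    (cls p (l ++ t :: l')).card = (cls p (l ++ l')).card + 2 := by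
  have hcl : cls p (l ++ t :: l') = insert (t : ZMod p) (insert (-(t : ZMod p))
      (cls p (l ++ l'))) := by
    ext x
    rw [mem_cls_cons, Finset.mem_insert, Finset.mem_insert]
  rw [hcl, Finset.card_insert_of_notMem, Finset.card_insert_of_notMem]
  · intro h
    have := neg_mem_cls h
    rw [neg_neg] at this
    exact h2 this
  · rw [Finset.mem_insert, not_or]
    exact ⟨ne_neg hp2 ht0 ht, h2⟩

private theorem inv_succ {p : ℕ} [Fact p.Prime] (hp2 : p ≠ 2) {h : ℕ} {E : List ℕ}
    {EE : List (ℕ × List ℕ)} {ER : List ℕ} {T : Finset (ZMod p)}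
    (hsym : ∀ t ∈ T, -t ∈ T)
    (hT : ∀ i < p, (i : ZMod p) ∈ T → (i : ZMod p) ∉ cls p ER → ∀ o ∈ cons p h i E EE,
      ∃ x ∈ o, (x : ZMod p) ∈ T) {A B : ℕ} {S : List ℕ} {room : ℕ} {pend : List (List ℕ)}
    (I : Inv p h E EE ER T A B S room pend) {t : ℕ} (ht0 : t ≠ 0) (ht : t < p)
    (h1 : (t : ZMod p) ∈ T)
    (h2 : (t : ZMod p) ∉ cls p (ER ++ S)) (hr : 2 ≤ room) :
    Inv p h E EE ER T (A ||| bit2 p t) B (t :: S) (room - 2) (pend ++ cons p h t E EE) := by
  have hp0 : 0 < p := (Fact.out : p.Prime).pos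
  refine ⟨?_, ?_, ?_, ?_, ?_, ?_⟩
  · intro s hs
    rcases List.mem_cons.1 hs with rfl | hs
    · exact ht
    · exact I.hS s hs
  · intro i hi
    rw [Nat.testBit_or, Bool.or_eq_true, I.hA i hi, mem_cls_cons, testBit_bit2, Bool.or_eq_true,
      decide_eq_true_iff, decide_eq_true_iff]
    constructor
    · rintro (h | rfl | rfl)
      · exact Or.inr (Or.inr h)
      · exact Or.inl rfl
      · exact Or.inr (Or.inl (cast_sub_self ht.le))
    · rintro (h | h | h)
      · exact Or.inr (Or.inl (cast_inj_lt hi ht h))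
      · exact Or.inr (Or.inr (cast_eq_neg hi ht (Nat.pos_of_ne_zero ht0) h))
      · exact Or.inl h
  · intro x hx
    rcases mem_cls_cons.1 hx with rfl | rfl | hx
    · exact h1
    · exact hsym _ h1
    · exact I.hsub hx
  · intro i hi hb hiT
    exact mem_cls_cons.2 (Or.inr (Or.inr (I.hB i hi hb hiT)))
  · rw [card_two hp2 ht0 ht h2]
    have := I.hroom
    omega
  · intro o ho
    rcases List.mem_append.1 ho with ho | ho
    · exact I.hpend o ho
    · exact ⟨cons_lt hp0 o ho, hT t ht h1 (fun hh => h2 (cls_sub_append hh)) o ho⟩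

/-- Change of the mask `B`. -/
private theorem inv_B {p : ℕ} {h : ℕ} {E : List ℕ}
    {EE : List (ℕ × List ℕ)} {ER : List ℕ} {T : Finset (ZMod p)}
    {A B B' : ℕ} {S : List ℕ} {room : ℕ} {pend : List (List ℕ)}
    (I : Inv p h E EE ER T A B S room pend)
    (hB' : ∀ i < p, B'.testBit i = true → (i : ZMod p) ∈ T → (i : ZMod p) ∈ cls p (ER ++ S)) :
    Inv p h E EE ER T A B' S room pend :=
  ⟨I.hS, I.hA, I.hsub, hB', I.hroom, I.hpend⟩

private theorem branch_sound {p : ℕ} [Fact p.Prime] (hp2 : p ≠ 2) {h : ℕ} {E : List ℕ}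
    {EE : List (ℕ × List ℕ)} {ER all : List ℕ} (T : Finset (ZMod p))
    (hsym : ∀ t ∈ T, -t ∈ T)
    (hT : ∀ i < p, (i : ZMod p) ∈ T → (i : ZMod p) ∉ cls p ER → ∀ o ∈ cons p h i E EE,
      ∃ x ∈ o, (x : ZMod p) ∈ T) (fuel : ℕ) {C : Prop}
    (IH : ∀ (A B : ℕ) (S : List ℕ) (room : ℕ) (pend : List (List ℕ)),
      dfs p h E EE ER all fuel A B S room pend = true → Inv p h E EE ER T A B S room pend → C)
    (A : ℕ) (S : List ℕ) (room : ℕ) (pend : List (List ℕ)) (o : List ℕ) :
    ∀ B : ℕ, branch p h E EE (dfs p h E EE ER all fuel) A S room pend o B = true →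
      Inv p h E EE ER T A B S room pend → (∀ x ∈ o, x < p) →
      (∃ x ∈ o, (x : ZMod p) ∈ T ∧ (x : ZMod p) ∉ cls p (ER ++ S)) → C := by
  have hp0 : 0 < p := (Fact.out : p.Prime).pos
  induction o with
  | nil =>
    rintro B _ _ _ ⟨x, hx, _⟩
    exact absurd hx List.not_mem_nil
  | cons t o ih =>
    rintro B hbr I ho ⟨x, hx, hxT, hxc⟩
    have ht : t < p := ho t List.mem_cons_self
    have ho' : ∀ x ∈ o, x < p := fun x hx => ho x (List.mem_cons_of_mem _ hx)
    rw [branch_cons] at hbr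
    have hx' : x = t ∨ x ∈ o := List.mem_cons.1 hx
    split_ifs at hbr with hBt ht0 hr hr
    · -- `t` excluded
      rcases hx' with rfl | hx'
      · exact absurd (I.hB x ht hBt hxT) hxc
      · exact ih B hbr I ho' ⟨x, hx', hxT, hxc⟩
    · -- `t = 0`, room
      subst ht0
      rw [Bool.and_eq_true] at hbr
      by_cases hin : (0 : ZMod p) ∈ T ∧ (0 : ZMod p) ∉ cls p (ER ++ S)
      · exact IH _ _ _ _ _ hbr.1 (inv_zero hT I hin.1 hin.2 hr)
      · refine ih (B ||| 1) hbr.2 (inv_B I ?_) ho' ⟨x, ?_, hxT, hxc⟩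
        · intro i hi hb hiT
          rw [Nat.testBit_or, Bool.or_eq_true, Nat.testBit_one_eq_true_iff_self_eq_zero] at hb
          rcases hb with hb | rfl
          · exact I.hB i hi hb hiT
          · rw [Nat.cast_zero] at hiT ⊢
            by_contra hc
            exact hin ⟨hiT, hc⟩
        · rcases hx' with rfl | hx'
          · rw [Nat.cast_zero] at hxT hxc
            exact absurd ⟨hxT, hxc⟩ hin
          · exact hx'
    · -- `t = 0`, no room
      subst ht0
      rcases hx' with rfl | hx'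
      · exfalso
        rw [Nat.cast_zero] at hxT hxc
        have h1 : insert (0 : ZMod p) (cls p (ER ++ S)) ⊆ T := by
          intro y hy
          rcases Finset.mem_insert.1 hy with rfl | hy
          · exact hxT
          · exact I.hsub hy
        have h2 := Finset.card_le_card h1
        rw [Finset.card_insert_of_notMem hxc] at h2
        have := I.hroom
        omega
      · exact ih B hbr I ho' ⟨x, hx', hxT, hxc⟩
    · -- `t ≠ 0`, room
      rw [Bool.and_eq_true] at hbr
      by_cases hin : (t : ZMod p) ∈ T ∧ (t : ZMod p) ∉ cls p (ER ++ S)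
      · exact IH _ _ _ _ _ hbr.1 (inv_succ hp2 hsym hT I ht0 ht hin.1 hin.2 hr)
      · refine ih (B ||| bit2 p t) hbr.2 (inv_B I ?_) ho' ⟨x, ?_, hxT, hxc⟩
        · intro i hi hb hiT
          rw [Nat.testBit_or, Bool.or_eq_true, testBit_bit2, Bool.or_eq_true,
            decide_eq_true_iff, decide_eq_true_iff] at hb
          rcases hb with hb | rfl | rfl
          · exact I.hB i hi hb hiT
          · by_contra hc
            exact hin ⟨hiT, hc⟩
          · rw [cast_sub_self ht.le] at hiT ⊢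
            by_contra hc
            refine hin ⟨?_, fun hh => hc (neg_mem_cls hh)⟩
            have := hsym _ hiT
            rwa [neg_neg] at this
        · rcases hx' with rfl | hx'
          · exact absurd ⟨hxT, hxc⟩ hin
          · exact hx'
    · -- `t ≠ 0`, no room
      rcases hx' with rfl | hx'
      · exfalso
        have h1 : cls p (ER ++ x :: S) ⊆ T := by
          intro y hy
          rcases mem_cls_cons.1 hy with rfl | rfl | hy
          · exact hxT
          · exact hsym _ hxT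
          · exact I.hsub hy
        have h2 := Finset.card_le_card h1
        rw [card_two hp2 ht0 ht hxc] at h2
        have := I.hroom
        omega
      · exact ih B hbr I ho' ⟨x, hx', hxT, hxc⟩

private theorem dfs_sound_aux {p : ℕ} [Fact p.Prime] (hp2 : p ≠ 2) (hp : 32 < p) {h : ℕ}
    {E : List ℕ}
    {EE : List (ℕ × List ℕ)} {ER all : List ℕ} (hall : ∀ t ≤ p / 2, t ∈ all)
    (hall' : ∀ t ∈ all, t < p) (T : Finset (ZMod p))
    (hsym : ∀ t ∈ T, -t ∈ T)
    (hT : ∀ i < p, (i : ZMod p) ∈ T → (i : ZMod p) ∉ cls p ER → ∀ o ∈ cons p h i E EE,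
      ∃ x ∈ o, (x : ZMod p) ∈ T) (fuel : ℕ) :
    ∀ (A B : ℕ) (S : List ℕ) (room : ℕ) (pend : List (List ℕ)),
      dfs p h E EE ER all fuel A B S room pend = true →
      Inv p h E EE ER T A B S room pend →
      ∃ q : ZMod p, q ≠ 0 ∧ ∀ t ∈ T, 4 * |(q * t).valMinAbs| < p := by
  have hp0 : 0 < p := (Fact.out : p.Prime).pos
  induction fuel with
  | zero =>
    intro A B S room pend hd _
    rw [dfs_zero] at hd
    exact absurd hd (by decide)
  | succ fuel IH =>
    intro A B S room pend hd I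
    cases pend with
    | nil =>
      rw [dfs_nil, Bool.and_eq_true] at hd
      by_cases hc : T ⊆ cls p (ER ++ S)
      · obtain ⟨q, hq0, hq1, hq⟩ := rect_sound hd.1
        refine ⟨(q : ZMod p), ?_, ?_⟩
        · intro h0
          rw [ZMod.natCast_eq_zero_iff] at h0
          exact absurd (Nat.le_of_dvd hq0 h0) (by omega)
        · intro t ht
          rcases mem_cls.1 (hc ht) with ⟨s, hs, rfl⟩ | ⟨s, hs, rfl⟩
          · exact hq s hs
          · have := hq s hs
            rw [mul_neg, ← Int.natCast_natAbs, ZMod.natAbs_valMinAbs_neg, Int.natCast_natAbs]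
            exact this
      · obtain ⟨t, htT, htc⟩ := Finset.not_subset.1 hc
        refine branch_sound hp2 T hsym hT fuel IH A S room [] all (A ||| B) hd.2
          (inv_B I ?_) hall' ?_
        · intro i hi hb hiT
          rw [Nat.testBit_or, Bool.or_eq_true] at hb
          rcases hb with hb | hb
          · exact (I.hA i hi).1 hb
          · exact I.hB i hi hb hiT
        · by_cases hv : t.val ≤ p / 2
          · refine ⟨t.val, hall _ hv, ?_, ?_⟩
            · rw [ZMod.natCast_zmod_val]; exact htT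
            · rw [ZMod.natCast_zmod_val]; exact htc
          · have hvp := ZMod.val_lt t
            have e : ((p - t.val : ℕ) : ZMod p) = -t := by
              rw [cast_sub_self hvp.le, ZMod.natCast_zmod_val]
            refine ⟨p - t.val, hall _ (by omega), ?_, ?_⟩
            · rw [e]; exact hsym _ htT
            · rw [e]
              intro hh
              have := neg_mem_cls hh
              rw [neg_neg] at this
              exact htc this
    | cons o pend' =>
      rw [dfs_cons] at hd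
      have I' : Inv p h E EE ER T A B S room pend' :=
        ⟨I.hS, I.hA, I.hsub, I.hB, I.hroom, fun o ho => I.hpend o (List.mem_cons_of_mem _ ho)⟩
      split_ifs at hd with hany
      · exact IH _ _ _ _ _ hd I'
      · obtain ⟨ho, x, hx, hxT⟩ := I.hpend o List.mem_cons_self
        refine branch_sound hp2 T hsym hT fuel IH A S room pend' o B hd I' ho ⟨x, hx, hxT, ?_⟩
        intro hc
        apply hany
        rw [List.any_eq_true]
        exact ⟨x, hx, (I.hA x (ho x hx)).2 hc⟩

/-- Correctness of `dfs`, by induction on `fuel`, with an inner induction over the list of options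
for `branch` (invariant: some option lies in `T` and is not in the mask `A`; after a successful
branch for `t` we may assume `t ∉ T`, and then `p - t ∉ T` by symmetry, so the invariant for `B` is
kept). Room: if `t ∈ T` is not in `A` then `cls p (ER ++ t :: S)` is contained in `T` and has
`2` (`t ≠ 0`, `p` odd) or `1` (`t = 0`) more elements than `cls p (ER ++ S)`, so the test for `room`
succeeds. In the case `pend = []`: either `T = cls p (ER ++ S)` and `rect_sound` applies, or some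
`t ∈ T` is not in `cls p (ER ++ S)`, and one of `t.val`, `(-t).val` is in `all`. -/
theorem dfs_sound {p : ℕ} [Fact p.Prime] (hp2 : p ≠ 2) (hp : 32 < p) {h : ℕ} {E : List ℕ}
    {EE : List (ℕ × List ℕ)} {ER all : List ℕ} (hall : ∀ t ≤ p / 2, t ∈ all)
    (hall' : ∀ t ∈ all, t < p) (hER : ∀ t ∈ ER, t < p) (T : Finset (ZMod p))
    (hsym : ∀ t ∈ T, -t ∈ T)
    (hT : ∀ i < p, (i : ZMod p) ∈ T → (i : ZMod p) ∉ cls p ER → ∀ o ∈ cons p h i E EE,
      ∃ x ∈ o, (x : ZMod p) ∈ T) (fuel : ℕ) :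
    ∀ (A B : ℕ) (S : List ℕ) (room : ℕ) (pend : List (List ℕ)),
      dfs p h E EE ER all fuel A B S room pend = true → (∀ t ∈ S, t < p) →
      (∀ i < p, A.testBit i = true ↔ (i : ZMod p) ∈ cls p (ER ++ S)) → cls p (ER ++ S) ⊆ T →
      (∀ i < p, B.testBit i = true → (i : ZMod p) ∈ T → (i : ZMod p) ∈ cls p (ER ++ S)) →
      T.card ≤ (cls p (ER ++ S)).card + room →
      (∀ o ∈ pend, (∀ x ∈ o, x < p) ∧ ∃ x ∈ o, (x : ZMod p) ∈ T) →
      ∃ q : ZMod p, q ≠ 0 ∧ ∀ t ∈ T, 4 * |(q * t).valMinAbs| < p := by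
  intro A B S room pend hd hS hA hsub hB hroom hpend
  exact dfs_sound_aux hp2 hp hall hall' T hsym hT fuel A B S room pend hd
    ⟨hS, hA, hsub, hB, hroom, hpend⟩

end Pool.Agent.Lib.MP_baf44c_co.Q1.Dfs
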