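import Pool.Agent.Lib.MP_baf44c_co.Q1.Defs

/-!
The equation `g * g = g * η` in the group algebra of `ZMod n` when the supports can be brought into
`(-n/4, n/4)` by a multiplier.
-/

set_option autoImplicit false

namespace Pool.Agent.Lib.MP_baf44c_co.Q1

open Polynomial Pool.Agent.Lib.MP_baf44c_co.FB

/-- the Laurent polynomial `∑ i, g i T ^ (q i).valMinAbs` -/
private noncomputable def lp {n : ℕ} [NeZero n] {K : Type} [Field K] (q : ZMod n)
    (g : ZMod n → K) : AddMonoidAlgebra K ℤ :=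
  ∑ i, AddMonoidAlgebra.single ((q * i).valMinAbs) (g i)

private lemma lp_apply {n : ℕ} [NeZero n] {K : Type} [Field K] (q : ZMod n)
    (g : ZMod n → K) (w : ZMod n) :
    (lp q g).coeff w.valMinAbs = ∑ i ∈ Finset.univ.filter (fun i => q * i = w), g i := by
  classical
  unfold lp
  rw [Finset.sum_filter, AddMonoidAlgebra.coeff_sum, Finsupp.finsetSum_apply]
  refine Finset.sum_congr rfl fun i _ => ?_
  rw [AddMonoidAlgebra.coeff_single, Finsupp.single_apply]
  by_cases h : q * i = w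
  · rw [if_pos h, h, if_pos rfl]
  · rw [if_neg h, if_neg]
    intro h'
    exact h (ZMod.injective_valMinAbs h')

private lemma lp_mul {n : ℕ} [NeZero n] {K : Type} [Field K] (q : ZMod n)
    (g η : ZMod n → K) (T : Finset (ZMod n)) (hg : ∀ i, g i ≠ 0 → i ∈ T)
    (hη : ∀ i, η i ≠ 0 → i ∈ T) (hq : ∀ t ∈ T, 4 * |(q * t).valMinAbs| < n) :
    lp q g * lp q η = ∑ γ : ZMod n,
      AddMonoidAlgebra.single ((q * γ).valMinAbs) (∑ i, g i * η (γ - i)) := by
  classical
  unfold lp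
  rw [Finset.sum_mul_sum]
  have e : ∀ γ : ZMod n, (AddMonoidAlgebra.single ((q * γ).valMinAbs) (∑ i, g i * η (γ - i)) :
      AddMonoidAlgebra K ℤ) = ∑ i, AddMonoidAlgebra.single ((q * γ).valMinAbs) (g i * η (γ - i)) := by
    intro γ
    exact map_sum (AddMonoidAlgebra.singleAddHom ((q * γ).valMinAbs) :
      K →+ AddMonoidAlgebra K ℤ) _ _
  rw [Finset.sum_congr rfl fun γ _ => e γ]
  conv_rhs => rw [Finset.sum_comm]
  refine Finset.sum_congr rfl fun i _ => ?_
  refine Eq.trans ?_ (Equiv.sum_comp (Equiv.addLeft i) (fun γ : ZMod n =>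
    (AddMonoidAlgebra.single ((q * γ).valMinAbs) (g i * η (γ - i)) : AddMonoidAlgebra K ℤ)))
  refine Finset.sum_congr rfl fun j _ => ?_
  rw [AddMonoidAlgebra.single_mul_single, Equiv.coe_addLeft, add_sub_cancel_left]
  by_cases h1 : g i = 0
  · rw [h1, zero_mul]
    simp
  by_cases h2 : η j = 0
  · rw [h2, mul_zero]
    simp
  have hi := abs_lt.1 (show |4 * (q * i).valMinAbs| < n by
    rw [abs_mul]; exact hq i (hg i h1))
  have hj := abs_lt.1 (show |4 * (q * j).valMinAbs| < n by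
    rw [abs_mul]; exact hq j (hη j h2))
  congr 1
  symm
  rw [ZMod.valMinAbs_spec]
  refine ⟨?_, ?_, ?_⟩
  · rw [Int.cast_add, ZMod.coe_valMinAbs, ZMod.coe_valMinAbs]
    ring
  · linarith [hi.1, hj.1]
  · linarith [hi.2, hj.2]

/-- Let `φ i = (q * i).valMinAbs`, `Γ = ∑ i ∈ T, g i • T ^ φ i`, `H = ∑ i ∈ T, η i • T ^ φ i` in the
Laurent polynomials over `K` (a domain). For `i, j ∈ T` one has `|φ i + φ j| < n / 2` and
`φ i + φ j ≡ q (i + j)` mod `n`, so `φ i + φ j = (q * (i + j)).valMinAbs` depends on `i + j` only.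
Hence the coefficients of `Γ ^ 2 - Γ * H` are sums of the values `∑ g i g (γ - i) - ∑ g i η (γ - i)`,
so `Γ * (Γ - H) = 0`, so `Γ = 0` or `Γ = H`. The coefficient of `T ^ w.valMinAbs` of `Γ` is
`∑ (q i = w) g i`. -/
theorem rect_group {n : ℕ} [NeZero n] {K : Type} [Field K] (g η : ZMod n → K)
    (T : Finset (ZMod n)) (q : ZMod n) (hg : ∀ i, g i ≠ 0 → i ∈ T) (hη : ∀ i, η i ≠ 0 → i ∈ T)
    (hq : ∀ t ∈ T, 4 * |(q * t).valMinAbs| < n)
    (hid : ∀ γ, ∑ i, g i * g (γ - i) = ∑ i, g i * η (γ - i)) :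
    (∀ w, ∑ i ∈ Finset.univ.filter (fun i => q * i = w), g i = 0) ∨
    (∀ w, ∑ i ∈ Finset.univ.filter (fun i => q * i = w), g i =
      ∑ i ∈ Finset.univ.filter (fun i => q * i = w), η i) := by
  have h1 : lp q g * (lp q g - lp q η) = 0 := by
    rw [mul_sub, lp_mul q g g T hg hg hq, lp_mul q g η T hg hη hq, sub_eq_zero]
    exact Finset.sum_congr rfl fun γ _ => by rw [hid γ]
  rcases mul_eq_zero.1 h1 with h2 | h2
  · left
    intro w
    rw [← lp_apply, h2]
    rfl
  · right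
    intro w
    rw [← lp_apply, ← lp_apply, sub_eq_zero.1 h2]

/-- `rect_group` for a prime `p` and `q ≠ 0`: the filter is a singleton. -/
theorem rect_prime {p : ℕ} [Fact p.Prime] {K : Type} [Field K] (g η : ZMod p → K)
    (T : Finset (ZMod p)) (q : ZMod p) (hq0 : q ≠ 0) (hg : ∀ i, g i ≠ 0 → i ∈ T)
    (hη : ∀ i, η i ≠ 0 → i ∈ T) (hq : ∀ t ∈ T, 4 * |(q * t).valMinAbs| < p)
    (hid : ∀ γ, ∑ i, g i * g (γ - i) = ∑ i, g i * η (γ - i)) :
    (∀ i, g i = 0) ∨ ∀ i, g i = η i := by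
  have hf : ∀ i : ZMod p, Finset.univ.filter (fun j => q * j = q * i) = {i} := by
    intro i
    ext j
    simp [hq0]
  rcases rect_group g η T q hg hη hq hid with h | h
  · left
    intro i
    have := h (q * i)
    rwa [hf, Finset.sum_singleton] at this
  · right
    intro i
    have := h (q * i)
    rwa [hf, Finset.sum_singleton, Finset.sum_singleton] at this

end Pool.Agent.Lib.MP_baf44c_co.Q1
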