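import Pool.Agent.Lib.MP_baf44c_co.Q1.DfsRun
import Pool.Agent.Lib.MP_baf44c_co.Q1.Rect

/-!
Rigidity from a successful search.
-/

set_option autoImplicit false

namespace Pool.Agent.Lib.MP_baf44c_co.Q1

open Pool.Agent.Lib.MP_baf44c_co.Q1.Dfs

private theorem two_ne {p : ℕ} [Fact p.Prime] (hp2 : p ≠ 2) : (2 : ZMod p) ≠ 0 := by
  intro h
  have h2 : ((2 : ℕ) : ZMod p) = 0 := by exact_mod_cast h
  rw [ZMod.natCast_eq_zero_iff] at h2
  have hp := (Fact.out : p.Prime)
  rcases (Nat.dvd_prime Nat.prime_two).1 h2 with h3 | h3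
  · exact hp.one_lt.ne' h3
  · exact hp2 h3

/-- in characteristic `2` the coefficients of a square are squares -/
private theorem sq_coeff {p : ℕ} [Fact p.Prime] (hp2 : p ≠ 2) {K : Type} [Field K] [CharP K 2]
    (g : ZMod p → K) (t : ZMod p) : ∑ i, g i * g (2 * t - i) = g t ^ 2 := by
  have h2 := two_ne hp2
  rw [← Finset.add_sum_erase Finset.univ _ (Finset.mem_univ t)]
  have h0 : ∑ i ∈ Finset.univ.erase t, g i * g (2 * t - i) = 0 := by
    refine Finset.sum_involution (fun i _ => 2 * t - i) ?_ ?_ ?_ ?_
    · intro i _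
      have : 2 * t - (2 * t - i) = i := by ring
      rw [this, mul_comm (g (2 * t - i)) (g i)]
      exact CharTwo.add_self_eq_zero _
    · intro i hi _ h
      apply Finset.ne_of_mem_erase hi
      have h3 : 2 * (t - i) = 0 := by linear_combination h
      rcases mul_eq_zero.1 h3 with h4 | h4
      · exact absurd h4 h2
      · exact (sub_eq_zero.1 h4).symm
    · intro i hi
      refine Finset.mem_erase.2 ⟨?_, Finset.mem_univ _⟩
      intro h
      apply Finset.ne_of_mem_erase hi
      linear_combination -h
    · intro i _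
      ring
  rw [h0, add_zero, pow_two]
  congr 2
  ring

/-- The two rules: let `g * g = g * η` in characteristic `2`, `g t ≠ 0`. Rule 1: the coefficient of
`g * g` at `2 t` is `(g t) ^ 2 ≠ 0` (the terms `g i g j`, `i ≠ j`, cancel in pairs), so
`g (2 t - e) ≠ 0` for some `e` with `η e ≠ 0`. Rule 2: let `η e ≠ 0`. If `g (t + e - e') ≠ 0` for some
`e' ≠ e` with `η e' ≠ 0` we are done; otherwise the coefficient of `g * η` at `t + e` is
`g t η e ≠ 0`, so the coefficient `(g ((t + e) / 2)) ^ 2` of `g * g` there is not zero. -/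
theorem rules {p : ℕ} [Fact p.Prime] (hp2 : p ≠ 2) {K : Type} [Field K] [CharP K 2]
    (g η : ZMod p → K) (hid : ∀ γ, ∑ i, g i * g (γ - i) = ∑ i, g i * η (γ - i)) {t : ZMod p}
    (ht : g t ≠ 0) :
    (∃ e, η e ≠ 0 ∧ g (2 * t - e) ≠ 0) ∧
    ∀ e, η e ≠ 0 → g ((t + e) / 2) ≠ 0 ∨ ∃ e', η e' ≠ 0 ∧ e' ≠ e ∧ g (t + e - e') ≠ 0 := by
  have h2 := two_ne hp2
  constructor
  · have h1 : ∑ i, g i * η (2 * t - i) ≠ 0 := by
      rw [← hid, sq_coeff hp2]
      exact pow_ne_zero 2 ht
    obtain ⟨i, _, hi⟩ := Finset.exists_ne_zero_of_sum_ne_zero h1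
    refine ⟨2 * t - i, right_ne_zero_of_mul hi, ?_⟩
    have : 2 * t - (2 * t - i) = i := by ring
    rw [this]
    exact left_ne_zero_of_mul hi
  · intro e he
    by_cases hc : ∃ e', η e' ≠ 0 ∧ e' ≠ e ∧ g (t + e - e') ≠ 0
    · exact Or.inr hc
    · left
      have h1 : ∑ i, g i * η (t + e - i) = g t * η e := by
        rw [Finset.sum_eq_single t]
        · congr 2
          ring
        · intro i _ hi
          by_contra hne
          apply hc
          refine ⟨t + e - i, right_ne_zero_of_mul hne, ?_, ?_⟩
          · intro h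
            apply hi
            linear_combination -h
          · have : t + e - (t + e - i) = i := by ring
            rw [this]
            exact left_ne_zero_of_mul hne
        · intro h
          exact absurd (Finset.mem_univ t) h
      have h3 : g ((t + e) / 2) ^ 2 = g t * η e := by
        rw [← h1, ← hid, ← sq_coeff hp2]
        have : 2 * ((t + e) / 2) = t + e := by field_simp
        rw [this]
      intro h4
      rw [h4] at h3
      have : g t * η e ≠ 0 := mul_ne_zero ht he
      apply this
      rw [← h3]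
      ring

private theorem InE_neg {n : ℕ} {u v i : ZMod n} (h : InE u v i) : InE u v (-i) := by
  rcases h with h | h | h | h
  · right; left; rw [h]
  · left; rw [h]; ring
  · right; right; right; rw [h]
  · right; right; left; rw [h]; ring

/-- Let `T` be the set of all `i` with `InE u v i` or `g i ≠ 0` or `g (-i) ≠ 0`. It is contained in
`S ∪ {±u, ±v}`, symmetric, and closed under the two rules by `rules` (for `-t` change all signs).
So `run4_sound` and `rect_prime` apply. -/
theorem rigid_of_run4 {p : ℕ} [Fact p.Prime] (hp : 32 < p) {u v lim : ℕ} (hu : 0 < u)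
    (hup : u < p) (hv : 0 < v) (hvp : v < p) (huv : u ≠ v) (huv' : u + v ≠ p)
    (h : run4 p u v lim = true) : Rigid p (u : ZMod p) v lim := by
  intro K _ _ g η S hS hSs hSE hg hη hηu hηv hid
  classical
  have hp2 : p ≠ 2 := by omega
  have hcast : ∀ w : ℕ, 0 < w → w < p → (w : ZMod p) ≠ 0 := by
    intro w hw hwp h0
    rw [ZMod.natCast_eq_zero_iff] at h0
    exact absurd (Nat.le_of_dvd hw h0) (by omega)
  have hη' : ∀ e, InE (u : ZMod p) v e → η e ≠ 0 := by
    intro e he
    have h1 := hηu (hcast u hu hup)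
    have h2 := hηv (hcast v hv hvp)
    rcases he with he | he | he | he
    · rw [he]; exact h1.1
    · rw [he]; exact h1.2
    · rw [he]; exact h2.1
    · rw [he]; exact h2.2
  set T : Finset (ZMod p) :=
    Finset.univ.filter (fun i => InE (u : ZMod p) v i ∨ g i ≠ 0 ∨ g (-i) ≠ 0) with hT
  have memT : ∀ i, i ∈ T ↔ (InE (u : ZMod p) v i ∨ g i ≠ 0 ∨ g (-i) ≠ 0) := by
    intro i
    simp [hT]
  have hsym : ∀ t ∈ T, -t ∈ T := by
    intro t ht
    rw [memT] at ht ⊢
    rw [neg_neg]
    rcases ht with h1 | h1 | h1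
    · exact Or.inl (InE_neg h1)
    · exact Or.inr (Or.inr h1)
    · exact Or.inr (Or.inl h1)
  have hcard : T.card ≤ lim + 4 := by
    have hsub : T ⊆ S ∪ {(u : ZMod p), -(u : ZMod p), (v : ZMod p), -(v : ZMod p)} := by
      intro i hi
      rw [memT] at hi
      have key : i ∈ S ∨ InE (u : ZMod p) v i := by
        rcases hi with h1 | h1 | h1
        · exact Or.inr h1
        · exact hg i h1
        · rcases hg (-i) h1 with h2 | h2
          · left
            have := hSs _ h2
            rwa [neg_neg] at this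
          · right
            have := InE_neg h2
            rwa [neg_neg] at this
      rw [Finset.mem_union]
      rcases key with h1 | h1
      · exact Or.inl h1
      · right
        simp only [Finset.mem_insert, Finset.mem_singleton]
        exact h1
    refine (Finset.card_le_card hsub).trans ((Finset.card_union_le _ _).trans ?_)
    exact Nat.add_le_add hS Finset.card_le_four
  suffices hmain : ∃ q : ZMod p, q ≠ 0 ∧ ∀ t ∈ T, 4 * |(q * t).valMinAbs| < p by
    obtain ⟨q, hq0, hq⟩ := hmain
    exact rect_prime g η T q hq0 (fun i hi => (memT i).2 (Or.inr (Or.inl hi)))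
      (fun i hi => (memT i).2 (Or.inl (hη i hi))) hq hid
  refine run4_sound hp hu hup hv hvp huv huv' h T hsym
    (fun i hi => (memT i).2 (Or.inl hi)) hcard ?_ ?_
  · intro t ht hE
    rcases (memT t).1 ht with h1 | h1 | h1
    · exact absurd h1 hE
    · obtain ⟨e, he, hge⟩ := (rules hp2 g η hid h1).1
      refine ⟨-e, InE_neg (hη e he), (memT _).2 (Or.inr (Or.inl ?_))⟩
      rwa [← sub_eq_add_neg]
    · obtain ⟨e, he, hge⟩ := (rules hp2 g η hid h1).1
      refine ⟨e, hη e he, (memT _).2 (Or.inr (Or.inr ?_))⟩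
      have : -(2 * t + e) = 2 * -t - e := by ring
      rwa [this]
  · intro t ht hE e he
    rcases (memT t).1 ht with h1 | h1 | h1
    · exact absurd h1 hE
    · rcases (rules hp2 g η hid h1).2 e (hη' e he) with h3 | ⟨e', he', hne, h3⟩
      · exact Or.inl ((memT _).2 (Or.inr (Or.inl h3)))
      · right
        refine ⟨-e', InE_neg (hη e' he'), fun h4 => hne (neg_injective h4), (memT _).2 (Or.inr (Or.inl ?_))⟩
        rwa [← sub_eq_add_neg]
    · rcases (rules hp2 g η hid h1).2 (-e) (hη' _ (InE_neg he)) with h3 | ⟨e', he', hne, h3⟩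
      · left
        refine (memT _).2 (Or.inr (Or.inr ?_))
        have : -((t + e) / 2) = (-t + -e) / 2 := by ring
        rwa [this]
      · right
        refine ⟨e', hη e' he', hne, (memT _).2 (Or.inr (Or.inr ?_))⟩
        have : -(t + e + e') = -t + -e - e' := by ring
        rwa [this]

/-- The same with `run3_sound`; rule 2 is used only for `e = ±u`. -/
theorem rigid_of_run3 {p : ℕ} [Fact p.Prime] (hp : 32 < p) {u lim : ℕ} (hu : 0 < u)
    (hup : u < p) (h : run3 p u lim = true) : Rigid p (u : ZMod p) 0 lim := by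
  intro K _ _ g η S hS hSs hSE hg hη hηu hηv hid
  classical
  have hp2 : p ≠ 2 := by omega
  have hu0 : (u : ZMod p) ≠ 0 := by
    intro h0
    rw [ZMod.natCast_eq_zero_iff] at h0
    exact absurd (Nat.le_of_dvd hu h0) (by omega)
  have hη' : ∀ e, (e = (u : ZMod p) ∨ e = -u) → η e ≠ 0 := by
    intro e he
    have h1 := hηu hu0
    rcases he with he | he
    · rw [he]; exact h1.1
    · rw [he]; exact h1.2
  set T : Finset (ZMod p) :=
    Finset.univ.filter (fun i => InE (u : ZMod p) 0 i ∨ g i ≠ 0 ∨ g (-i) ≠ 0) with hT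
  have memT : ∀ i, i ∈ T ↔ (InE (u : ZMod p) 0 i ∨ g i ≠ 0 ∨ g (-i) ≠ 0) := by
    intro i
    simp [hT]
  have hsym : ∀ t ∈ T, -t ∈ T := by
    intro t ht
    rw [memT] at ht ⊢
    rw [neg_neg]
    rcases ht with h1 | h1 | h1
    · exact Or.inl (InE_neg h1)
    · exact Or.inr (Or.inr h1)
    · exact Or.inr (Or.inl h1)
  have hcard : T.card ≤ lim + 3 := by
    have hsub : T ⊆ S ∪ {(u : ZMod p), -(u : ZMod p), 0} := by
      intro i hi
      rw [memT] at hi
      have key : i ∈ S ∨ InE (u : ZMod p) 0 i := by
        rcases hi with h1 | h1 | h1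
        · exact Or.inr h1
        · exact hg i h1
        · rcases hg (-i) h1 with h2 | h2
          · left
            have := hSs _ h2
            rwa [neg_neg] at this
          · right
            have := InE_neg h2
            rwa [neg_neg] at this
      rw [Finset.mem_union]
      rcases key with h1 | h1
      · exact Or.inl h1
      · right
        simp only [Finset.mem_insert, Finset.mem_singleton]
        rcases h1 with h2 | h2 | h2 | h2
        · exact Or.inl h2
        · exact Or.inr (Or.inl h2)
        · exact Or.inr (Or.inr h2)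
        · exact Or.inr (Or.inr (by rw [h2, neg_zero]))
    refine (Finset.card_le_card hsub).trans ((Finset.card_union_le _ _).trans ?_)
    exact Nat.add_le_add hS Finset.card_le_three
  suffices hmain : ∃ q : ZMod p, q ≠ 0 ∧ ∀ t ∈ T, 4 * |(q * t).valMinAbs| < p by
    obtain ⟨q, hq0, hq⟩ := hmain
    exact rect_prime g η T q hq0 (fun i hi => (memT i).2 (Or.inr (Or.inl hi)))
      (fun i hi => (memT i).2 (Or.inl (hη i hi))) hq hid
  refine run3_sound hp hu hup h T hsym
    (fun i hi => (memT i).2 (Or.inl hi)) hcard ?_ ?_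
  · intro t ht hE
    rcases (memT t).1 ht with h1 | h1 | h1
    · exact absurd h1 hE
    · obtain ⟨e, he, hge⟩ := (rules hp2 g η hid h1).1
      refine ⟨-e, InE_neg (hη e he), (memT _).2 (Or.inr (Or.inl ?_))⟩
      rwa [← sub_eq_add_neg]
    · obtain ⟨e, he, hge⟩ := (rules hp2 g η hid h1).1
      refine ⟨e, hη e he, (memT _).2 (Or.inr (Or.inr ?_))⟩
      have : -(2 * t + e) = 2 * -t - e := by ring
      rwa [this]
  · intro t ht hE e he
    have he2 : -e = (u : ZMod p) ∨ -e = -u := by
      rcases he with he | he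
      · right; rw [he]
      · left; rw [he]; ring
    rcases (memT t).1 ht with h1 | h1 | h1
    · exact absurd h1 hE
    · rcases (rules hp2 g η hid h1).2 e (hη' e he) with h3 | ⟨e', he', hne, h3⟩
      · exact Or.inl ((memT _).2 (Or.inr (Or.inl h3)))
      · right
        refine ⟨-e', InE_neg (hη e' he'), fun h4 => hne (neg_injective h4), (memT _).2 (Or.inr (Or.inl ?_))⟩
        rwa [← sub_eq_add_neg]
    · rcases (rules hp2 g η hid h1).2 (-e) (hη' _ he2) with h3 | ⟨e', he', hne, h3⟩
      · left
        refine (memT _).2 (Or.inr (Or.inr ?_))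
        have : -((t + e) / 2) = (-t + -e) / 2 := by ring
        rwa [this]
      · right
        refine ⟨e', hη e' he', hne, (memT _).2 (Or.inr (Or.inr ?_))⟩
        have : -(t + e + e') = -t + -e - e' := by ring
        rwa [this]

end Pool.Agent.Lib.MP_baf44c_co.Q1
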