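import Pool.Agent.Lib.MP_baf44c_co.Q1.DfsMain
import Pool.Agent.Lib.MP_baf44c_co.Q1.Defs

/-!
The conclusion of a successful search.
-/

set_option autoImplicit false

namespace Pool.Agent.Lib.MP_baf44c_co.Q1

open Pool.Agent.Lib.MP_baf44c_co.Q1.Dfs

private theorem mem_cls' {p : ℕ} {l : List ℕ} {x : ZMod p} :
    x ∈ cls p l ↔ (∃ s ∈ l, (s : ZMod p) = x) ∨ (∃ s ∈ l, -(s : ZMod p) = x) := by
  simp [cls]

private theorem cast_sub' {p t : ℕ} (ht : t ≤ p) : ((p - t : ℕ) : ZMod p) = -(t : ZMod p) := by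
  rw [Nat.cast_sub ht, ZMod.natCast_self, zero_sub]

private theorem cast_inj' {p i t : ℕ} (hi : i < p) (ht : t < p)
    (h : (i : ZMod p) = (t : ZMod p)) : i = t := by
  have := (ZMod.natCast_eq_natCast_iff' i t p).1 h
  rwa [Nat.mod_eq_of_lt hi, Nat.mod_eq_of_lt ht] at this

private theorem cast_mod' {p : ℕ} (a : ℕ) : ((a % p : ℕ) : ZMod p) = (a : ZMod p) :=
  ZMod.natCast_mod a p

private theorem two_ne {p : ℕ} [Fact p.Prime] (hp : 32 < p) : (2 : ZMod p) ≠ 0 := by
  intro h
  have h3 : ((2 : ℕ) : ZMod p) = 0 := by exact_mod_cast h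
  rw [ZMod.natCast_eq_zero_iff] at h3
  exact absurd (Nat.le_of_dvd (by norm_num) h3) (by omega)

private theorem half {p : ℕ} [Fact p.Prime] (hp : 32 < p) (a : ℕ) :
    ((a * ((p + 1) / 2) % p : ℕ) : ZMod p) = (a : ZMod p) / 2 := by
  have hodd : p % 2 = 1 := by
    rcases (Fact.out : p.Prime).eq_two_or_odd with h | h
    · omega
    · exact h
  have h1 : 2 * ((p + 1) / 2) = p + 1 := by omega
  have h2 : (2 : ZMod p) * (((p + 1) / 2 : ℕ) : ZMod p) = 1 := by
    have : ((2 * ((p + 1) / 2) : ℕ) : ZMod p) = ((p + 1 : ℕ) : ZMod p) := by rw [h1]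
    push_cast at this
    rw [ZMod.natCast_self, zero_add] at this
    exact this
  rw [cast_mod', Nat.cast_mul, eq_div_iff (two_ne hp)]
  linear_combination (a : ZMod p) * h2

private theorem ne_neg' {p : ℕ} [Fact p.Prime] (hp : 32 < p) {t : ℕ} (ht0 : 0 < t) (ht : t < p) :
    (t : ZMod p) ≠ -(t : ZMod p) := by
  intro h
  have h0 : (2 : ZMod p) * (t : ZMod p) = 0 := by
    linear_combination h
  rcases mul_eq_zero.1 h0 with h2 | h2
  · exact two_ne hp h2
  · rw [ZMod.natCast_eq_zero_iff] at h2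
    exact absurd (Nat.le_of_dvd ht0 h2) (by omega)

/-- `dfs_sound` for the start values of `run4`. For `p > 64`, `q' ≤ 32 < p` is not zero in `ZMod p`.
Here `cls p [u, v] = {±u, ±v}` has four elements. -/
theorem run4_sound {p : ℕ} [Fact p.Prime] (hp : 32 < p) {u v lim : ℕ} (hu : 0 < u) (hup : u < p)
    (hv : 0 < v) (hvp : v < p) (huv : u ≠ v) (huv' : u + v ≠ p) (h : run4 p u v lim = true)
    (T : Finset (ZMod p)) (hsym : ∀ t ∈ T, -t ∈ T) (hE : ∀ i, InE (u : ZMod p) v i → i ∈ T)
    (hcard : T.card ≤ lim + 4)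
    (hC1 : ∀ t ∈ T, ¬ InE (u : ZMod p) v t → ∃ e, InE (u : ZMod p) v e ∧ 2 * t + e ∈ T)
    (hC2 : ∀ t ∈ T, ¬ InE (u : ZMod p) v t → ∀ e, InE (u : ZMod p) v e →
      (t + e) / 2 ∈ T ∨ ∃ e', InE (u : ZMod p) v e' ∧ e' ≠ -e ∧ t + e + e' ∈ T) :
    ∃ q : ZMod p, q ≠ 0 ∧ ∀ t ∈ T, 4 * |(q * t).valMinAbs| < p := by
  have hp0 : 0 < p := by omega
  have hcls : ∀ x : ZMod p, x ∈ cls p [u, v] ↔ InE (u : ZMod p) v x := by
    intro x
    rw [mem_cls']
    simp only [List.mem_cons, List.not_mem_nil, or_false, exists_eq_or_imp, exists_eq_left, InE]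
    constructor
    · rintro ((h | h) | (h | h)) <;> rw [← h] <;> simp
    · rintro (h | h | h | h) <;> rw [h] <;> simp
  have hcu : ((p - u : ℕ) : ZMod p) = -(u : ZMod p) := cast_sub' hup.le
  have hcv : ((p - v : ℕ) : ZMod p) = -(v : ZMod p) := cast_sub' hvp.le
  have hne1 : (u : ZMod p) ≠ -(u : ZMod p) := ne_neg' hp hu hup
  have hne2 : (v : ZMod p) ≠ -(v : ZMod p) := ne_neg' hp hv hvp
  have hne3 : (u : ZMod p) ≠ (v : ZMod p) := fun h => huv (cast_inj' hup hvp h)
  have hne4 : (u : ZMod p) ≠ -(v : ZMod p) := by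
    intro h
    rw [← hcv] at h
    have := cast_inj' hup (by omega) h
    omega
  have hcard4 : (cls p [u, v]).card = 4 := by
    have : cls p [u, v] = {(u : ZMod p), -(u : ZMod p), (v : ZMod p), -(v : ZMod p)} := by
      ext x
      rw [hcls]
      simp [InE]
    rw [this, Finset.card_insert_of_notMem, Finset.card_insert_of_notMem,
      Finset.card_insert_of_notMem, Finset.card_singleton]
    · simpa using hne2
    · simp only [Finset.mem_insert, Finset.mem_singleton, not_or]
      exact ⟨fun h => hne4 (by rw [← h, neg_neg]), fun h => hne3 (neg_injective h)⟩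
    · simp only [Finset.mem_insert, Finset.mem_singleton, not_or]
      exact ⟨hne1, hne3, hne4⟩
  refine dfs_sound (p := p) (by omega) hp (h := (p + 1) / 2) (E := [u, v, p - u, p - v])
    (EE := [(u, [u, v, p - v]), (v, [v, u, p - u]),
     (p - u, [p - u, v, p - v]), (p - v, [p - v, u, p - u])]) (ER := [u, v])
    (all := down (p / 2)) ?_ ?_ ?_ T hsym ?_ 1000 (bit2 p u ||| bit2 p v) 0 [] lim [] h
    ?_ ?_ ?_ ?_ ?_ ?_
  · intro t ht
    exact (mem_down _ _).2 ht
  · intro t ht
    have := (mem_down _ _).1 ht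
    omega
  · intro t ht
    simp only [List.mem_cons, List.not_mem_nil, or_false] at ht
    rcases ht with rfl | rfl <;> assumption
  · -- the rules
    intro i hi hiT hic o ho
    rw [hcls] at hic
    rw [cons_eq, List.mem_append, List.mem_map, List.mem_singleton] at ho
    rcases ho with ⟨a, ha, rfl⟩ | rfl
    · have key : ∀ (e : ℕ) (l : List ℕ), InE (u : ZMod p) v (e : ZMod p) →
          (∀ e' : ZMod p, InE (u : ZMod p) v e' → e' ≠ -(e : ZMod p) →
            ∃ x ∈ l, (x : ZMod p) = e') →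
          ∃ x ∈ ((i + e) * ((p + 1) / 2) % p) :: l.map (fun e' => (i + e + e') % p),
            (x : ZMod p) ∈ T := by
        intro e l he hl
        rcases hC2 _ hiT hic _ he with h1 | ⟨e', h1, h2, h3⟩
        · refine ⟨_, List.mem_cons_self, ?_⟩
          rw [half hp, Nat.cast_add]
          exact h1
        · obtain ⟨x, hx, rfl⟩ := hl e' h1 h2
          refine ⟨(i + e + x) % p, List.mem_cons_of_mem _ (List.mem_map.2 ⟨x, hx, rfl⟩), ?_⟩
          rw [cast_mod', Nat.cast_add, Nat.cast_add]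
          exact h3
      simp only [List.mem_cons, List.not_mem_nil, or_false] at ha
      rcases ha with rfl | rfl | rfl | rfl
      · refine key u [u, v, p - v] (by simp [InE]) ?_
        rintro e' (rfl | rfl | rfl | rfl) hne
        · exact ⟨u, by simp, rfl⟩
        · exact absurd rfl hne
        · exact ⟨v, by simp, rfl⟩
        · exact ⟨p - v, by simp, hcv⟩
      · refine key v [v, u, p - u] (by simp [InE]) ?_
        rintro e' (rfl | rfl | rfl | rfl) hne
        · exact ⟨u, by simp, rfl⟩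
        · exact ⟨p - u, by simp, hcu⟩
        · exact ⟨v, by simp, rfl⟩
        · exact absurd rfl hne
      · refine key (p - u) [p - u, v, p - v] (by rw [hcu]; simp [InE]) ?_
        rw [hcu, neg_neg]
        rintro e' (rfl | rfl | rfl | rfl) hne
        · exact absurd rfl hne
        · exact ⟨p - u, by simp, hcu⟩
        · exact ⟨v, by simp, rfl⟩
        · exact ⟨p - v, by simp, hcv⟩
      · refine key (p - v) [p - v, u, p - u] (by rw [hcv]; simp [InE]) ?_
        rw [hcv, neg_neg]
        rintro e' (rfl | rfl | rfl | rfl) hne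
        · exact ⟨u, by simp, rfl⟩
        · exact ⟨p - u, by simp, hcu⟩
        · exact absurd rfl hne
        · exact ⟨p - v, by simp, hcv⟩
    · obtain ⟨e, he, heT⟩ := hC1 _ hiT hic
      have key : ∃ x ∈ [u, v, p - u, p - v], (x : ZMod p) = e := by
        rcases he with rfl | rfl | rfl | rfl
        · exact ⟨u, by simp, rfl⟩
        · exact ⟨p - u, by simp, hcu⟩
        · exact ⟨v, by simp, rfl⟩
        · exact ⟨p - v, by simp, hcv⟩
      obtain ⟨x, hx, rfl⟩ := key
      refine ⟨(2 * i + x) % p, List.mem_map.2 ⟨x, hx, rfl⟩, ?_⟩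
      rw [cast_mod', Nat.cast_add, Nat.cast_mul, Nat.cast_ofNat]
      exact heT
  · intro t ht
    exact absurd ht List.not_mem_nil
  · intro i hi
    rw [List.append_nil, hcls, Nat.testBit_or, testBit_bit2, testBit_bit2]
    simp only [Bool.or_eq_true, decide_eq_true_iff, InE]
    constructor
    · rintro ((rfl | rfl) | (rfl | rfl))
      · exact Or.inl rfl
      · exact Or.inr (Or.inl hcu)
      · exact Or.inr (Or.inr (Or.inl rfl))
      · exact Or.inr (Or.inr (Or.inr hcv))
    · rintro (h | h | h | h)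
      · exact Or.inl (Or.inl (cast_inj' hi hup h))
      · rw [← hcu] at h
        exact Or.inl (Or.inr (cast_inj' hi (by omega) h))
      · exact Or.inr (Or.inl (cast_inj' hi hvp h))
      · rw [← hcv] at h
        exact Or.inr (Or.inr (cast_inj' hi (by omega) h))
  · intro x hx
    rw [List.append_nil, hcls] at hx
    exact hE x hx
  · intro i _ hb
    exact absurd hb (by simp)
  · rw [List.append_nil, hcard4]
    omega
  · intro o ho
    exact absurd ho List.not_mem_nil

/-- `dfs_sound` for the start values of `run3`. Here `cls p [u, 0] = {±u, 0}` has three elements. -/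
theorem run3_sound {p : ℕ} [Fact p.Prime] (hp : 32 < p) {u lim : ℕ} (hu : 0 < u) (hup : u < p)
    (h : run3 p u lim = true)
    (T : Finset (ZMod p)) (hsym : ∀ t ∈ T, -t ∈ T) (hE : ∀ i, InE (u : ZMod p) 0 i → i ∈ T)
    (hcard : T.card ≤ lim + 3)
    (hC1 : ∀ t ∈ T, ¬ InE (u : ZMod p) 0 t → ∃ e, InE (u : ZMod p) 0 e ∧ 2 * t + e ∈ T)
    (hC2 : ∀ t ∈ T, ¬ InE (u : ZMod p) 0 t → ∀ e, e = (u : ZMod p) ∨ e = -u →
      (t + e) / 2 ∈ T ∨ ∃ e', InE (u : ZMod p) 0 e' ∧ e' ≠ -e ∧ t + e + e' ∈ T) :
    ∃ q : ZMod p, q ≠ 0 ∧ ∀ t ∈ T, 4 * |(q * t).valMinAbs| < p := by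
  have hp0 : 0 < p := by omega
  have hcls : ∀ x : ZMod p, x ∈ cls p [u, 0] ↔ InE (u : ZMod p) 0 x := by
    intro x
    rw [mem_cls']
    simp only [List.mem_cons, List.not_mem_nil, or_false, exists_eq_or_imp, exists_eq_left, InE,
      Nat.cast_zero, neg_zero, or_self]
    constructor
    · rintro ((h | h) | (h | h)) <;> rw [← h] <;> simp
    · rintro (h | h | h) <;> rw [h] <;> simp
  have hcu : ((p - u : ℕ) : ZMod p) = -(u : ZMod p) := cast_sub' hup.le
  have hne1 : (u : ZMod p) ≠ -(u : ZMod p) := ne_neg' hp hu hup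
  have hne2 : (u : ZMod p) ≠ 0 := by
    intro h
    rw [ZMod.natCast_eq_zero_iff] at h
    exact absurd (Nat.le_of_dvd hu h) (by omega)
  have hcard3 : (cls p [u, 0]).card = 3 := by
    have : cls p [u, 0] = {(u : ZMod p), -(u : ZMod p), (0 : ZMod p)} := by
      ext x
      rw [hcls]
      simp [InE]
    rw [this, Finset.card_insert_of_notMem, Finset.card_insert_of_notMem,
      Finset.card_singleton]
    · simpa using hne2
    · simp only [Finset.mem_insert, Finset.mem_singleton, not_or]
      exact ⟨hne1, hne2⟩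
  refine dfs_sound (p := p) (by omega) hp (h := (p + 1) / 2) (E := [u, p - u, 0])
    (EE := [(u, [u, 0]), (p - u, [p - u, 0])]) (ER := [u, 0])
    (all := down (p / 2)) ?_ ?_ ?_ T hsym ?_ 1000 (bit2 p u ||| 1) 0 [] lim [] h
    ?_ ?_ ?_ ?_ ?_ ?_
  · intro t ht
    exact (mem_down _ _).2 ht
  · intro t ht
    have := (mem_down _ _).1 ht
    omega
  · intro t ht
    simp only [List.mem_cons, List.not_mem_nil, or_false] at ht
    rcases ht with rfl | rfl <;> assumption
  · -- the rules
    intro i hi hiT hic o ho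
    rw [hcls] at hic
    rw [cons_eq, List.mem_append, List.mem_map, List.mem_singleton] at ho
    rcases ho with ⟨a, ha, rfl⟩ | rfl
    · have key : ∀ (e : ℕ) (l : List ℕ), ((e : ZMod p) = (u : ZMod p) ∨ (e : ZMod p) = -u) →
          (∀ e' : ZMod p, InE (u : ZMod p) 0 e' → e' ≠ -(e : ZMod p) →
            ∃ x ∈ l, (x : ZMod p) = e') →
          ∃ x ∈ ((i + e) * ((p + 1) / 2) % p) :: l.map (fun e' => (i + e + e') % p),
            (x : ZMod p) ∈ T := by
        intro e l he hl
        rcases hC2 _ hiT hic _ he with h1 | ⟨e', h1, h2, h3⟩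
        · refine ⟨_, List.mem_cons_self, ?_⟩
          rw [half hp, Nat.cast_add]
          exact h1
        · obtain ⟨x, hx, rfl⟩ := hl e' h1 h2
          refine ⟨(i + e + x) % p, List.mem_cons_of_mem _ (List.mem_map.2 ⟨x, hx, rfl⟩), ?_⟩
          rw [cast_mod', Nat.cast_add, Nat.cast_add]
          exact h3
      simp only [List.mem_cons, List.not_mem_nil, or_false] at ha
      rcases ha with rfl | rfl
      · refine key u [u, 0] (Or.inl rfl) ?_
        rintro e' (rfl | rfl | rfl | rfl) hne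
        · exact ⟨u, by simp, rfl⟩
        · exact absurd rfl hne
        · exact ⟨0, by simp, by simp⟩
        · exact ⟨0, by simp, by simp⟩
      · refine key (p - u) [p - u, 0] (Or.inr hcu) ?_
        rw [hcu, neg_neg]
        rintro e' (rfl | rfl | rfl | rfl) hne
        · exact absurd rfl hne
        · exact ⟨p - u, by simp, hcu⟩
        · exact ⟨0, by simp, by simp⟩
        · exact ⟨0, by simp, by simp⟩
    · obtain ⟨e, he, heT⟩ := hC1 _ hiT hic
      have key : ∃ x ∈ [u, p - u, 0], (x : ZMod p) = e := by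
        rcases he with rfl | rfl | rfl | rfl
        · exact ⟨u, by simp, rfl⟩
        · exact ⟨p - u, by simp, hcu⟩
        · exact ⟨0, by simp, by simp⟩
        · exact ⟨0, by simp, by simp⟩
      obtain ⟨x, hx, rfl⟩ := key
      refine ⟨(2 * i + x) % p, List.mem_map.2 ⟨x, hx, rfl⟩, ?_⟩
      rw [cast_mod', Nat.cast_add, Nat.cast_mul, Nat.cast_ofNat]
      exact heT
  · intro t ht
    exact absurd ht List.not_mem_nil
  · intro i hi
    rw [List.append_nil, hcls, Nat.testBit_or, testBit_bit2]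
    simp only [Bool.or_eq_true, decide_eq_true_iff, InE, Nat.testBit_one_eq_true_iff_self_eq_zero,
      neg_zero, or_self]
    constructor
    · rintro ((rfl | rfl) | rfl)
      · exact Or.inl rfl
      · exact Or.inr (Or.inl hcu)
      · exact Or.inr (Or.inr (by simp))
    · rintro (h | h | h)
      · exact Or.inl (Or.inl (cast_inj' hi hup h))
      · rw [← hcu] at h
        exact Or.inl (Or.inr (cast_inj' hi (by omega) h))
      · refine Or.inr (cast_inj' hi hp0 ?_)
        rw [h, Nat.cast_zero]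
  · intro x hx
    rw [List.append_nil, hcls] at hx
    exact hE x hx
  · intro i _ hb
    exact absurd hb (by simp)
  · rw [List.append_nil, hcard3]
    omega
  · intro o ho
    exact absurd ho List.not_mem_nil

end Pool.Agent.Lib.MP_baf44c_co.Q1
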