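import Pool.Agent.Lib.MP_baf44c_co.Q1.Defs
import Pool.Agent.Lib.MP_baf44c_co.FB.Cyc

/-!
Elementary properties of `ev`, the extension by zero of a ring homomorphism defined on the algebraic
integers.
-/

set_option autoImplicit false

namespace Pool.Agent.Lib.MP_baf44c_co.Q1

open Polynomial Pool.Agent.Lib.MP_baf44c_co.FB

section

variable {K : Type} [Field K] (φ : integralClosure ℤ ℂ →+* K)

theorem ev_of {z : ℂ} (h : IsIntegral ℤ z) : ev φ z = φ ⟨z, h⟩ := by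
  unfold ev
  rw [dif_pos h]

theorem ev_zero : ev φ 0 = 0 := by
  rw [ev_of φ isIntegral_zero]
  exact map_zero φ

theorem ev_one : ev φ 1 = 1 := by
  rw [ev_of φ isIntegral_one]
  exact map_one φ

theorem ev_add {a b : ℂ} (ha : IsIntegral ℤ a) (hb : IsIntegral ℤ b) :
    ev φ (a + b) = ev φ a + ev φ b := by
  rw [ev_of φ ha, ev_of φ hb, ev_of φ (ha.add hb), ← map_add]
  rfl

theorem ev_mul {a b : ℂ} (ha : IsIntegral ℤ a) (hb : IsIntegral ℤ b) :
    ev φ (a * b) = ev φ a * ev φ b := by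
  rw [ev_of φ ha, ev_of φ hb, ev_of φ (ha.mul hb), ← map_mul]
  rfl

theorem ev_neg {a : ℂ} (ha : IsIntegral ℤ a) : ev φ (-a) = -ev φ a := by
  rw [ev_of φ ha, ev_of φ ha.neg, ← map_neg]
  rfl

theorem ev_sub {a b : ℂ} (ha : IsIntegral ℤ a) (hb : IsIntegral ℤ b) :
    ev φ (a - b) = ev φ a - ev φ b := by
  rw [ev_of φ ha, ev_of φ hb, ev_of φ (ha.sub hb), ← map_sub]
  rfl

theorem ev_int (m : ℤ) : ev φ (m : ℂ) = (m : K) := by
  have h : IsIntegral ℤ ((m : ℤ) : ℂ) := by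
    have := isIntegral_algebraMap (R := ℤ) (A := ℂ) (x := m)
    simpa using this
  rw [ev_of φ h]
  have : (⟨(m : ℂ), h⟩ : integralClosure ℤ ℂ) = ((m : ℤ) : integralClosure ℤ ℂ) := by
    ext
    simp
  rw [this, map_intCast]

theorem ev_pow {a : ℂ} (ha : IsIntegral ℤ a) (k : ℕ) : ev φ (a ^ k) = ev φ a ^ k := by
  rw [ev_of φ ha, ev_of φ (ha.pow k), ← map_pow]
  rfl

theorem ev_sum {ι : Type*} (s : Finset ι) {f : ι → ℂ} (hf : ∀ i ∈ s, IsIntegral ℤ (f i)) :
    ev φ (∑ i ∈ s, f i) = ∑ i ∈ s, ev φ (f i) := by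
  classical
  induction s using Finset.induction_on with
  | empty => simp [ev_zero]
  | insert a s ha ih =>
    have h1 : ∀ i ∈ s, IsIntegral ℤ (f i) := fun i hi => hf i (Finset.mem_insert_of_mem hi)
    rw [Finset.sum_insert ha, Finset.sum_insert ha,
      ev_add φ (hf a (Finset.mem_insert_self a s)) (IsIntegral.sum f h1), ih h1]

theorem ev_prod {ι : Type*} (s : Finset ι) {f : ι → ℂ} (hf : ∀ i ∈ s, IsIntegral ℤ (f i)) :
    ev φ (∏ i ∈ s, f i) = ∏ i ∈ s, ev φ (f i) := by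
  classical
  induction s using Finset.induction_on with
  | empty => simp [ev_one]
  | insert a s ha ih =>
    have h1 : ∀ i ∈ s, IsIntegral ℤ (f i) := fun i hi => hf i (Finset.mem_insert_of_mem hi)
    rw [Finset.prod_insert ha, Finset.prod_insert ha,
      ev_mul φ (hf a (Finset.mem_insert_self a s)) (IsIntegral.prod f h1), ih h1]

/-- Roots of unity are algebraic integers. -/
theorem isIntegral_of_pow {a : ℂ} {n : ℕ} (hn : 0 < n) (h : a ^ n = 1) : IsIntegral ℤ a :=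
  IsIntegral.of_pow hn (by rw [h]; exact isIntegral_one)

theorem isIntegral_zpow {a : ℂ} {n : ℕ} (hn : 0 < n) (h : a ^ n = 1) (k : ℤ) :
    IsIntegral ℤ (a ^ k) := by
  refine isIntegral_of_pow hn ?_
  rw [← zpow_natCast, ← zpow_mul, mul_comm, zpow_mul, zpow_natCast, h, one_zpow]

theorem ev_ne_zero {a : ℂ} {n : ℕ} (hn : 0 < n) (h : a ^ n = 1) : ev φ a ≠ 0 := by
  intro h0
  have h1 := ev_pow φ (isIntegral_of_pow hn h) n
  rw [h, h0, ev_one, zero_pow hn.ne'] at h1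
  exact one_ne_zero h1

theorem ev_zpow {a : ℂ} {n : ℕ} (hn : 0 < n) (h : a ^ n = 1) (k : ℤ) :
    ev φ (a ^ k) = ev φ a ^ k := by
  have h0 : a ≠ 0 := by
    rintro rfl
    rw [zero_pow hn.ne'] at h
    exact zero_ne_one h
  have hi := isIntegral_zpow hn h
  have hai : IsIntegral ℤ a⁻¹ := by simpa using hi (-1)
  have hinv : ev φ a⁻¹ = (ev φ a)⁻¹ := by
    refine eq_inv_of_mul_eq_one_left ?_
    rw [← ev_mul φ hai (isIntegral_of_pow hn h), inv_mul_cancel₀ h0, ev_one]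
  obtain ⟨m, rfl | rfl⟩ := k.eq_nat_or_neg
  · rw [zpow_natCast, zpow_natCast, ev_pow φ (isIntegral_of_pow hn h)]
  · rw [zpow_neg, zpow_neg, zpow_natCast, zpow_natCast, ← inv_pow, ev_pow φ hai, hinv, inv_pow]

end

/-- Values of cyclotomic functions at primitive roots are algebraic integers. -/
theorem isIntegral_isCyc {N : ℕ} (hN : 0 < N) {F : ℂ → ℂ} (hF : IsCyc N F) {μ : ℂ}
    (hμ : μ ∈ primitiveRoots N ℂ) : IsIntegral ℤ (F μ) := by
  obtain ⟨f, hf⟩ := hF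
  rw [hf μ hμ]
  have hi : IsIntegral ℤ μ := isIntegral_of_pow hN ((mem_primitiveRoots hN).1 hμ).pow_eq_one
  rw [aeval_eq_sum_range]
  refine IsIntegral.sum _ fun i _ => ?_
  rw [zsmul_eq_mul]
  refine IsIntegral.mul ?_ (hi.pow i)
  have := isIntegral_algebraMap (R := ℤ) (A := ℂ) (x := f.coeff i)
  simpa using this

/-- `ev φ (F μ)` is the value of the reduced polynomial at `ev φ μ`. -/
theorem ev_isCyc {K : Type} [Field K] (φ : integralClosure ℤ ℂ →+* K) {N : ℕ} (hN : 0 < N)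
    {F : ℂ → ℂ} (hF : IsCyc N F) : ∃ f : ℤ[X], ∀ μ ∈ primitiveRoots N ℂ,
      ev φ (F μ) = aeval (ev φ μ) f := by
  obtain ⟨f, hf⟩ := hF
  refine ⟨f, fun μ hμ => ?_⟩
  rw [hf μ hμ]
  have hi : IsIntegral ℤ μ := isIntegral_of_pow hN ((mem_primitiveRoots hN).1 hμ).pow_eq_one
  have hc : ∀ c : ℤ, IsIntegral ℤ (c : ℂ) := fun c => by
    have := isIntegral_algebraMap (R := ℤ) (A := ℂ) (x := c)
    simpa using this
  rw [aeval_eq_sum_range, aeval_eq_sum_range, ev_sum]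
  · refine Finset.sum_congr rfl fun i _ => ?_
    rw [zsmul_eq_mul, zsmul_eq_mul, ev_mul φ (hc _) (hi.pow i), ev_int, ev_pow φ hi]
  · intro i _
    rw [zsmul_eq_mul]
    exact (hc _).mul (hi.pow i)

end Pool.Agent.Lib.MP_baf44c_co.Q1
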