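import Pool.Agent.Lib.MP_baf44c_co.Q1.Pell
import Pool.Agent.Lib.MP_baf44c_co.Q1.Ev

/-!
Prime divisors of `N` (and `2`) dividing the norm of `D`.
-/

set_option autoImplicit false

namespace Pool.Agent.Lib.MP_baf44c_co.Q1

open Polynomial Pool.Agent.Lib.MP_baf44c_co.FB

private theorem In_pell_id {K : Type} [Field K] {s : K} (hs : s ^ 2 = 2) (n : ℕ) :
    (1 + s) ^ n - (1 - s) ^ n = 2 * s * (pell n : K) := by
  induction n using Nat.twoStepInduction with
  | zero => simp [pell]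
  | one => simp [pell]; ring
  | more n ih1 ih2 =>
    have e1 : (1 + s) ^ (n + 2) = 2 * (1 + s) ^ (n + 1) + (1 + s) ^ n := by
      have : (1 + s) ^ (n + 2) = (1 + s) ^ n * (1 + 2 * s + s ^ 2) := by ring
      rw [this, hs]; ring
    have e2 : (1 - s) ^ (n + 2) = 2 * (1 - s) ^ (n + 1) + (1 - s) ^ n := by
      have : (1 - s) ^ (n + 2) = (1 - s) ^ n * (1 - 2 * s + s ^ 2) := by ring
      rw [this, hs]; ring
    rw [e1, e2]
    have e3 : ((pell (n + 2) : ℕ) : K) = 2 * (pell (n + 1) : K) + (pell n : K) := by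
      rw [pell]; push_cast; ring
    rw [e3]
    linear_combination 2 * ih2 + ih1

/-- For an odd prime `ℓ` and `θ ^ 2 + 6 θ + 1 = 0` in a field of characteristic `ℓ`:
`ℓ ∣ P_n ↔ θ ^ n = 1`. Indeed adjoin `α = 1 + √2`, `β = 1 - √2`, `α β = -1`; then
`-α ^ 2 = α / β` and `-β ^ 2 = β / α` are the roots, so `θ = (α / β) ^ (±1)`, and `θ ^ n = 1` iff
`α ^ n = β ^ n` iff `P_n = 0` (`α ^ n - β ^ n = 2 √2 P_n`, `ℓ ≠ 2`). -/
theorem dvd_pell_iff {ℓ : ℕ} (hℓ : ℓ.Prime) (hℓ2 : ℓ ≠ 2) {K : Type} [Field K] [CharP K ℓ]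
    {θ : K} (hθ : θ ^ 2 + 6 * θ + 1 = 0) (n : ℕ) : ℓ ∣ pell n ↔ θ ^ n = 1 := by
  have h2 : (2 : K) ≠ 0 := by
    intro h
    have h' : ((2 : ℕ) : K) = 0 := by exact_mod_cast h
    rw [CharP.cast_eq_zero_iff K ℓ] at h'
    exact hℓ2 ((Nat.prime_dvd_prime_iff_eq hℓ Nat.prime_two).1 h')
  obtain ⟨s, hs⟩ : ∃ s : K, 2 * s = -(θ + 3) := ⟨-(θ + 3) / 2, by field_simp⟩
  have h4 : (4 : K) ≠ 0 := by
    have : (4 : K) = 2 * 2 := by norm_num
    rw [this]
    exact mul_ne_zero h2 h2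
  have hs2 : s ^ 2 = 2 := by
    have : (4 : K) * (s ^ 2 - 2) = 0 := by
      have : (4 : K) * (s ^ 2 - 2) = (2 * s) ^ 2 - 8 := by ring
      rw [this, hs]
      linear_combination hθ
    have := (mul_eq_zero.1 this).resolve_left h4
    exact sub_eq_zero.1 this
  have hs0 : s ≠ 0 := by
    rintro rfl
    apply h2
    rw [← hs2]; ring
  have hθs : θ * (1 - s) = 1 + s := by
    have hθ' : θ = -3 - 2 * s := by rw [hs]; ring
    rw [hθ']
    linear_combination 2 * hs2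
  have hab : (1 + s) * (1 - s) = -1 := by
    linear_combination -hs2
  have hb : (1 - s) ≠ 0 := by
    intro h
    rw [h, mul_zero] at hab
    have : (1 : K) = 0 := by linear_combination hab
    exact one_ne_zero this
  have hpow : θ ^ n * (1 - s) ^ n = (1 + s) ^ n := by
    rw [← mul_pow, hθs]
  have hid := In_pell_id hs2 n
  rw [← CharP.cast_eq_zero_iff K ℓ]
  constructor
  · intro h
    rw [h, mul_zero, sub_eq_zero, ← hpow] at hid
    have := pow_ne_zero n hb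
    exact mul_right_cancel₀ this (by rw [hid, one_mul])
  · intro h
    rw [h, one_mul] at hpow
    rw [← hpow, sub_self] at hid
    exact (mul_eq_zero.1 hid.symm).resolve_left (mul_ne_zero h2 hs0)

/-- A field of characteristic `ℓ` receiving the algebraic integers. -/
private theorem In_exists_place {ℓ : ℕ} (hℓ : ℓ.Prime) :
    ∃ (K : Type) (_ : Field K) (_ : CharP K ℓ), Nonempty (integralClosure ℤ ℂ →+* K) := by
  have hne : Ideal.span {((ℓ : ℕ) : integralClosure ℤ ℂ)} ≠ ⊤ := by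
    intro h
    rw [Ideal.span_singleton_eq_top] at h
    obtain ⟨u, hu⟩ := h
    have h1 : ((ℓ : ℕ) : integralClosure ℤ ℂ) * (↑u⁻¹ : integralClosure ℤ ℂ) = 1 := by
      rw [← hu]
      exact u.mul_inv
    set v : integralClosure ℤ ℂ := (↑u⁻¹ : integralClosure ℤ ℂ) with hv
    have h2 : (ℓ : ℂ) * (v : ℂ) = 1 := by
      have := congrArg (fun z : integralClosure ℤ ℂ => (z : ℂ)) h1
      simpa using this
    have h3 : (v : ℂ) = (((1 : ℚ) / ℓ : ℚ) : ℂ) := by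
      have h0 : (ℓ : ℂ) ≠ 0 := by
        exact_mod_cast hℓ.ne_zero
      push_cast
      field_simp
      linear_combination h2
    have h4 : IsIntegral ℤ (v : ℂ) := v.2
    rw [h3] at h4
    have h5 : IsIntegral ℤ ((1 : ℚ) / ℓ) := by
      have h6 : ((((1 : ℚ) / ℓ : ℚ)) : ℂ) = algebraMap ℚ ℂ ((1 : ℚ) / ℓ) := rfl
      rw [h6] at h4
      exact (isIntegral_algebraMap_iff (algebraMap ℚ ℂ).injective).1 h4
    obtain ⟨k, hk⟩ := IsIntegrallyClosed.isIntegral_iff.1 h5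
    have hk' : (k : ℚ) = 1 / ℓ := by simpa using hk
    have h0 : (ℓ : ℚ) ≠ 0 := by exact_mod_cast hℓ.ne_zero
    have h7 : (k : ℚ) * ℓ = 1 := by
      rw [hk']; field_simp
    have h8 : k * (ℓ : ℤ) = 1 := by exact_mod_cast h7
    have h9 : (ℓ : ℤ) ∣ 1 := ⟨k, by linarith⟩
    have h10 : ℓ ∣ 1 := by exact_mod_cast h9
    exact hℓ.one_lt.ne' (Nat.dvd_one.1 h10)
  obtain ⟨M, hM, hle⟩ := Ideal.exists_le_maximal _ hne
  letI : Field (integralClosure ℤ ℂ ⧸ M) := Ideal.Quotient.field M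
  have hz : ((ℓ : ℕ) : integralClosure ℤ ℂ ⧸ M) = 0 := by
    have h1 : Ideal.Quotient.mk M ((ℓ : ℕ) : integralClosure ℤ ℂ) = 0 := by
      rw [Ideal.Quotient.eq_zero_iff_mem]
      exact hle (Ideal.mem_span_singleton_self _)
    rw [← h1, map_natCast]
  exact ⟨integralClosure ℤ ℂ ⧸ M, inferInstance, (CharP.charP_iff_prime_eq_zero hℓ).2 hz,
    ⟨Ideal.Quotient.mk M⟩⟩

/-- A root of unity of order prime to the characteristic and value `1` is `1`. -/
private theorem In_ev_root {K : Type} [Field K] {ℓ : ℕ} [CharP K ℓ]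
    (φ : integralClosure ℤ ℂ →+* K) {n : ℕ} (hn : 0 < n) (hℓn : ¬ ℓ ∣ n) {x : ℂ}
    (hx : x ^ n = 1) (h : ev φ x = 1) : x = 1 := by
  by_contra hne
  have hint : IsIntegral ℤ x := isIntegral_of_pow hn hx
  -- `x` is a root of `∑ i < n, X ^ i`
  have h1 : ∑ i ∈ Finset.range n, x ^ i = 0 := by
    have := geom_sum_mul x n
    rw [hx, sub_self] at this
    exact (mul_eq_zero.1 this).resolve_right (sub_ne_zero.2 hne)
  have h2 : ev φ (∑ i ∈ Finset.range n, x ^ i) = (n : K) := by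
    rw [ev_sum φ _ (fun i _ => hint.pow i)]
    rw [Finset.sum_congr rfl (fun i _ => by rw [ev_pow φ hint, h, one_pow])]
    simp
  rw [h1, ev_zero] at h2
  exact hℓn ((CharP.cast_eq_zero_iff K ℓ n).1 h2.symm)

/-- Let `φ` be the quotient map of the algebraic integers by a maximal ideal containing `ℓ`
(characteristic `ℓ`). As `ℓ ∣ w = ∏ D μ`, some primitive `N`-th root `μ` has `ev φ (D μ) = 0`, that is
`θ = ev φ μ` satisfies `θ ^ 2 + 6 θ + 1 = 0`. Write `N = ℓ ^ e N₁`, `ℓ ∤ N₁`; `θ` has order `N₁`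
(`μ ^ (ℓ ^ e)` is a primitive `N₁`-th root, its value has exact order `N₁` as `ℓ ∤ N₁`, and
`θ ^ N₁ = 1` since `(θ ^ N₁) ^ (ℓ ^ e) = 1` and `ℓ`-power roots are trivial; conversely
`θ ^ m = 1` gives `N₁ ∣ m`). If `ℓ = 2`, `θ = 1`, so `N₁ = 1`. If `ℓ ≠ 2`, then `ℓ ∣ N` and
`ℓ ∣ P_n ↔ θ ^ n = 1 ↔ N₁ ∣ n`. -/
theorem spec_of_dvd {N w ℓ : ℕ} (hN : 2 < N) (hw : ∏ μ ∈ primitiveRoots N ℂ, D μ = (w : ℂ))
    (hℓ : ℓ.Prime) (hd : ℓ ∣ w) (hℓN : ℓ ∣ 2 * N) : Spec pell N ℓ := by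
  have hN0 : 0 < N := by omega
  obtain ⟨K, hK, hchar, ⟨φ⟩⟩ := In_exists_place hℓ
  have hi : ∀ μ ∈ primitiveRoots N ℂ, μ ^ N = 1 := fun μ hμ =>
    ((mem_primitiveRoots hN0).1 hμ).pow_eq_one
  have h6 : IsIntegral ℤ (6 : ℂ) := by
    have := isIntegral_algebraMap (R := ℤ) (A := ℂ) (x := (6 : ℤ))
    simpa using this
  have hinv : ∀ μ ∈ primitiveRoots N ℂ, IsIntegral ℤ μ⁻¹ := by
    intro μ hμ
    simpa using isIntegral_zpow hN0 (hi μ hμ) (-1)
  have hD : ∀ μ ∈ primitiveRoots N ℂ, IsIntegral ℤ (D μ) := by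
    intro μ hμ
    unfold D
    exact ((isIntegral_of_pow hN0 (hi μ hμ)).add (hinv μ hμ)).add h6
  have h0 : ∏ μ ∈ primitiveRoots N ℂ, ev φ (D μ) = 0 := by
    rw [← ev_prod φ _ hD, hw]
    have := ev_int φ (w : ℤ)
    push_cast at this
    rw [this]
    exact (CharP.cast_eq_zero_iff K ℓ w).2 hd
  obtain ⟨μ, hμ, hμ0⟩ := Finset.prod_eq_zero_iff.1 h0
  have hμi := isIntegral_of_pow hN0 (hi μ hμ)
  set θ : K := ev φ μ with hθ
  have hθ0 : θ ≠ 0 := ev_ne_zero φ hN0 (hi μ hμ)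
  have hθq : θ ^ 2 + 6 * θ + 1 = 0 := by
    have h1 : ev φ μ⁻¹ = θ⁻¹ := by
      have := ev_zpow φ hN0 (hi μ hμ) (-1)
      simpa using this
    have h2 : ev φ (6 : ℂ) = 6 := by
      have := ev_int φ 6
      push_cast at this
      exact this
    unfold D at hμ0
    rw [ev_add φ (hμi.add (hinv μ hμ)) h6, ev_add φ hμi (hinv μ hμ), h1, h2, ← hθ] at hμ0
    field_simp at hμ0
    linear_combination hμ0
  -- the order of `θ`
  set e := N.factorization ℓ with he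
  set N₁ := N / ℓ ^ e with hN₁
  have hNe : ℓ ^ e * N₁ = N := Nat.ordProj_mul_ordCompl_eq_self N ℓ
  have hN₁0 : 0 < N₁ := Nat.ordCompl_pos ℓ hN0.ne'
  have hℓN₁ : ¬ ℓ ∣ N₁ := Nat.not_dvd_ordCompl hℓ hN0.ne'
  have hprim := (mem_primitiveRoots hN0).1 hμ
  have horder : ∀ m : ℕ, θ ^ m = 1 ↔ N₁ ∣ m := by
    intro m
    constructor
    · intro h
      have h1 : ev φ ((μ ^ ℓ ^ e) ^ m) = 1 := by
        rw [ev_pow φ (hμi.pow _), ev_pow φ hμi, ← hθ, ← pow_mul, mul_comm, pow_mul, h, one_pow]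
      have h2 : ((μ ^ ℓ ^ e) ^ m) ^ N₁ = 1 := by
        rw [← pow_mul, ← pow_mul]
        have : ℓ ^ e * (m * N₁) = N * m := by rw [← hNe]; ring
        rw [this, pow_mul, hi μ hμ, one_pow]
      have h3 := In_ev_root φ hN₁0 hℓN₁ h2 h1
      have h4 : N ∣ ℓ ^ e * m := hprim.dvd_of_pow_eq_one _ (by rw [pow_mul, h3])
      rw [← hNe] at h4
      exact (Nat.mul_dvd_mul_iff_left (pow_pos hℓ.pos e)).1 h4
    · rintro ⟨k, rfl⟩
      have h1 : (θ ^ N₁) ^ ℓ ^ e = 1 := by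
        rw [← pow_mul, mul_comm, hNe, hθ, ← ev_pow φ hμi, hi μ hμ, ev_one]
      haveI : Fact ℓ.Prime := ⟨hℓ⟩
      haveI : ExpChar K ℓ := ExpChar.prime hℓ
      have h2 : (θ ^ N₁ - 1) ^ ℓ ^ e = 0 := by
        rw [sub_pow_expChar_pow, h1, one_pow, sub_self]
      have h3 : θ ^ N₁ = 1 := sub_eq_zero.1 (pow_eq_zero_iff (pow_pos hℓ.pos e).ne' |>.1 h2)
      rw [pow_mul, h3, one_pow]
  by_cases hℓ2 : ℓ = 2
  · left
    refine ⟨hℓ2, e, ?_⟩
    have h2 : (2 : K) = 0 := by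
      have := (CharP.cast_eq_zero_iff K ℓ 2).2 (by rw [hℓ2])
      exact_mod_cast this
    have h1 : θ = 1 := by
      have : (θ + 1) ^ 2 = 0 := by linear_combination hθq - 2 * θ * h2
      have := pow_eq_zero_iff (two_ne_zero) |>.1 this
      linear_combination this - h2
    have h3 : N₁ ∣ 1 := (horder 1).1 (by rw [h1, one_pow])
    rw [Nat.dvd_one] at h3
    rw [h3, mul_one, hℓ2] at hNe
    exact hNe.symm
  · right
    refine ⟨hℓ2, ?_, ?_⟩
    · rcases (hℓ.dvd_mul).1 hℓN with h | h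
      · exact absurd ((Nat.prime_dvd_prime_iff_eq hℓ Nat.prime_two).1 h) hℓ2
      · exact h
    · intro n
      rw [dvd_pell_iff hℓ hℓ2 hθq n]
      exact horder n

/-- The ranks. -/
def rk (q : ℕ) : ℕ :=
  if q = 3 then 4 else if q = 5 then 3 else if q = 7 then 6 else if q = 11 then 12 else
  if q = 13 then 7 else if q = 17 then 8 else if q = 19 then 20 else if q = 23 then 22 else
  if q = 29 then 5 else if q = 31 then 30 else if q = 37 then 19 else if q = 41 then 10 else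
  if q = 43 then 44 else if q = 47 then 46 else if q = 53 then 27 else if q = 59 then 20 else 1

/-- Residues of the Pell numbers, computed with two accumulators. -/
private def InPm (q : ℕ) : ℕ → ℕ × ℕ
  | 0 => (0, 1 % q)
  | n + 1 => ((InPm q n).2, (2 * (InPm q n).2 + (InPm q n).1) % q)

private theorem InPm_eq (q n : ℕ) : InPm q n = (pell n % q, pell (n + 1) % q) := by
  induction n with
  | zero => simp [InPm, pell]
  | succ n ih =>
    rw [InPm, ih]
    simp only [Prod.mk.injEq, true_and]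
    rw [pell]
    simp [Nat.add_mod, Nat.mul_mod]

private theorem In_check' : ∀ q ∈ ([3, 5, 7, 11, 13, 17, 19, 23, 29, 31, 37, 41, 43, 47, 53, 59] : List ℕ),
    ((InPm q (rk q)).1 = 0 ∧ 0 < rk q ∧ rk q ≤ q + 1 ∧
      ∀ m < rk q, 0 < m → (InPm q m).1 ≠ 0) := by
  decide +kernel

private theorem In_check {q : ℕ} (hq : q.Prime) (hq59 : q ≤ 59) (hq2 : q ≠ 2) :
    (pell (rk q) % q = 0 ∧ 0 < rk q ∧ rk q ≤ q + 1 ∧
      ∀ m < rk q, 0 < m → pell m % q ≠ 0) := by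
  have hmem : q ∈ ([3, 5, 7, 11, 13, 17, 19, 23, 29, 31, 37, 41, 43, 47, 53, 59] : List ℕ) := by
    interval_cases q <;> first
      | (exfalso; revert hq; decide)
      | (exfalso; exact hq2 rfl)
      | decide
  have h : ∀ m, pell m % q = (InPm q m).1 := fun m => by rw [InPm_eq]
  simp only [h]
  exact In_check' q hmem

/-- `q ∣ P (rk q)` and `q ∤ P m` for `0 < m < rk q` (finite check), so
`N / q ^ e = rk q`. -/
theorem spec_rk {N q : ℕ} (hN : 0 < N) (hq : q.Prime) (hq59 : q ≤ 59) (hq2 : q ≠ 2)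
    (h : Spec pell N q) : N = q ^ N.factorization q * rk q ∧ 0 < N.factorization q := by
  obtain ⟨hc1, hc2, -, hc4⟩ := In_check hq hq59 hq2
  rcases h with ⟨h, -⟩ | ⟨-, hqN, hiff⟩
  · exact absurd h hq2
  · have hfac : 0 < N.factorization q := hq.factorization_pos_of_dvd hN.ne' hqN
    refine ⟨?_, hfac⟩
    have h1 : N / q ^ N.factorization q ∣ rk q := (hiff _).1 (Nat.dvd_of_mod_eq_zero hc1)
    have h2 : q ∣ pell (N / q ^ N.factorization q) := (hiff _).2 dvd_rfl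
    have h3 : 0 < N / q ^ N.factorization q := Nat.ordCompl_pos q hN.ne'
    have h4 : N / q ^ N.factorization q = rk q := by
      refine le_antisymm (Nat.le_of_dvd hc2 h1) ?_
      by_contra hlt
      exact hc4 _ (not_le.1 hlt) h3 (Nat.mod_eq_zero_of_dvd h2)
    rw [← h4]
    exact (Nat.ordProj_mul_ordCompl_eq_self N q).symm

/-- At most one special prime: for odd `q₁ < q₂ ≤ 59`, `q₂ ∣ N`, `q₂ ≠ q₁`, so `q₂ ∣ rk q₁`, which never
happens (finite check). -/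
theorem spec_unique {N q₁ q₂ : ℕ} (hN : 0 < N) (h59 : ∀ p : ℕ, p.Prime → p ∣ N → p ≤ 59)
    (hq₁ : q₁.Prime) (hq₂ : q₂.Prime) (h₁ : Spec pell N q₁) (h₂ : Spec pell N q₂) : q₁ = q₂ := by
  -- the case where one of them is `2`
  have htwo : ∀ a b : ℕ, b.Prime → Spec pell N b → a = 2 → (∃ j, N = 2 ^ j) → a = b := by
    intro a b hb hs ha hj
    obtain ⟨j, hj⟩ := hj
    rcases hs with ⟨hb2, -⟩ | ⟨hb2, hbN, -⟩
    · rw [ha, hb2]
    · rw [hj] at hbN
      exact absurd ((Nat.prime_dvd_prime_iff_eq hb Nat.prime_two).1 (hb.dvd_of_dvd_pow hbN)) hb2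
  -- both odd
  have hodd : ∀ a b : ℕ, a.Prime → b.Prime → Spec pell N a → Spec pell N b → a ≠ 2 → b ≠ 2 →
      ¬ a < b := by
    intro a b ha hb hsa hsb ha2 hb2 hab
    have haN : a ∣ N := by
      rcases hsa with ⟨h, -⟩ | ⟨-, h, -⟩
      · exact absurd h ha2
      · exact h
    have hbN : b ∣ N := by
      rcases hsb with ⟨h, -⟩ | ⟨-, h, -⟩
      · exact absurd h hb2
      · exact h
    have ha59 := h59 a ha haN
    obtain ⟨hNa, -⟩ := spec_rk hN ha ha59 ha2 hsa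
    obtain ⟨-, hc2, hc3, -⟩ := In_check ha ha59 ha2
    have h1 : b ∣ rk a := by
      rw [hNa] at hbN
      rcases (hb.dvd_mul).1 hbN with h | h
      · exact absurd ((Nat.prime_dvd_prime_iff_eq hb ha).1 (hb.dvd_of_dvd_pow h)) hab.ne'
      · exact h
    have h2 : b ≤ rk a := Nat.le_of_dvd hc2 h1
    have h3 : b = a + 1 := by omega
    have h4 := ha.eq_two_or_odd
    have h5 := hb.eq_two_or_odd
    omega
  rcases h₁ with ⟨ha, hj⟩ | h₁'
  · exact htwo q₁ q₂ hq₂ h₂ ha hj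
  rcases h₂ with ⟨hb, hj⟩ | h₂'
  · exact (htwo q₂ q₁ hq₁ (Or.inr h₁') hb hj).symm
  rcases lt_trichotomy q₁ q₂ with h | h | h
  · exact absurd h (hodd q₁ q₂ hq₁ hq₂ (Or.inr h₁') (Or.inr h₂') h₁'.1 h₂'.1)
  · exact h
  · exact absurd h (hodd q₂ q₁ hq₂ hq₁ (Or.inr h₂') (Or.inr h₁') h₂'.1 h₁'.1)

/-- A positive number all of whose exponents are even is a square. -/
private theorem In_isSquare {n : ℕ} (hn : 0 < n)
    (h : ∀ p : ℕ, p.Prime → Even (n.factorization p)) : IsSquare n := by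
  refine ⟨n.factorization.prod fun p k => p ^ (k / 2), ?_⟩
  rw [Finsupp.prod, ← Finset.prod_mul_distrib]
  conv_lhs => rw [← Nat.prod_factorization_pow_eq_self hn.ne']
  rw [Finsupp.prod]
  refine Finset.prod_congr rfl fun p hp => ?_
  have hp' : p.Prime := Nat.prime_of_mem_primeFactors (by simpa using hp)
  obtain ⟨k, hk⟩ := h p hp'
  rw [hk, ← pow_add]
  congr 1
  omega

/-- For a prime `ℓ` with odd exponent in `PA N`: `¬ 4 ∣ w.factorization ℓ` (`even_PA`), so `ℓ ∣ w`, so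
`ℓ ∣ 2 N` by the hypothesis `h4`, so `ℓ` is special (`spec_of_dvd`); there is at most one such `ℓ`. -/
theorem sq_or {N : ℕ} (hN : 2 < N) (h59 : ∀ p : ℕ, p.Prime → p ∣ N → p ≤ 59) {w : ℕ}
    (hw : ∏ μ ∈ primitiveRoots N ℂ, D μ = (w : ℂ))
    (h4 : ∀ ℓ : ℕ, ℓ.Prime → ¬ ℓ ∣ 2 * N → 4 ∣ w.factorization ℓ) :
    IsSquare (PA N) ∨ ∃ q : ℕ, q.Prime ∧ Spec pell N q ∧ IsSquare (q * PA N) := by
  have hN0 : 0 < N := by omega
  have hN1 : 1 < N := by omega
  have hspec : ∀ ℓ : ℕ, ℓ.Prime → ¬ Even ((PA N).factorization ℓ) → Spec pell N ℓ := by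
    intro ℓ hℓ hodd
    have h1 : ¬ 4 ∣ w.factorization ℓ := fun h => hodd (even_PA hN1 hw hℓ h)
    have h2 : ℓ ∣ 2 * N := by
      by_contra h
      exact h1 (h4 ℓ hℓ h)
    have h3 : w.factorization ℓ ≠ 0 := by
      intro h
      rw [h] at h1
      exact h1 (dvd_zero 4)
    exact spec_of_dvd hN hw hℓ (Nat.dvd_of_factorization_pos h3) h2
  by_cases hall : ∀ ℓ : ℕ, ℓ.Prime → Even ((PA N).factorization ℓ)
  · exact Or.inl (In_isSquare (PA_pos hN0) hall)
  · push Not at hall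
    obtain ⟨q, hq, hqodd⟩ := hall
    have hqs := hspec q hq hqodd
    refine Or.inr ⟨q, hq, hqs, ?_⟩
    refine In_isSquare (Nat.mul_pos hq.pos (PA_pos hN0)) fun p hp => ?_
    rw [Nat.factorization_mul hq.ne_zero (PA_pos hN0).ne', Finsupp.add_apply]
    by_cases hpq : p = q
    · subst hpq
      rw [hp.factorization_self]
      rw [Nat.not_even_iff_odd] at hqodd
      exact Odd.add_odd odd_one hqodd
    · have h0 : q.factorization p = 0 := by
        rw [hq.factorization, Finsupp.single_apply, if_neg (Ne.symm hpq)]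
      rw [h0, zero_add]
      by_contra hodd
      exact hpq (spec_unique hN0 h59 hp hq (hspec p hp hodd) hqs)

end Pool.Agent.Lib.MP_baf44c_co.Q1
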