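import Pool.Agent.Lib.MP_baf44c_co.Q1.Ev
import Pool.Agent.Lib.MP_baf44c_co.FB.Half

/-!
Roots of unity in characteristic two.
-/

set_option autoImplicit false

namespace Pool.Agent.Lib.MP_baf44c_co.Q1

open Polynomial Pool.Agent.Lib.MP_baf44c_co.FB

private theorem EvRoot_ne {L : ℕ} (hL : 0 < L) {μ : ℂ} (hμ : μ ∈ primitiveRoots L ℂ) : μ ≠ 0 :=
  ((mem_primitiveRoots hL).1 hμ).ne_zero hL.ne'

private theorem EvRoot_pow {L : ℕ} (hL : 0 < L) {μ : ℂ} (hμ : μ ∈ primitiveRoots L ℂ) :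
    μ ^ L = 1 := ((mem_primitiveRoots hL).1 hμ).pow_eq_one

private theorem EvRoot_norm {L : ℕ} (hL : 0 < L) {μ : ℂ} (hμ : μ ∈ primitiveRoots L ℂ) :
    ‖μ‖ = 1 := ((mem_primitiveRoots hL).1 hμ).norm'_eq_one hL.ne'

private theorem EvRoot_eta {μ : ℂ} (h0 : μ ≠ 0) (τ σ : ℤ) :
    eta τ σ μ = (μ ^ τ - μ ^ (-τ)) * (μ ^ σ - μ ^ (-σ)) := by
  unfold FB.eta
  rw [zpow_add₀ h0, neg_add, zpow_add₀ h0, sub_eq_add_neg τ σ, zpow_add₀ h0,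
    sub_eq_add_neg σ τ, zpow_add₀ h0]
  ring

private theorem EvRoot_two {μ : ℂ} (h0 : μ ≠ 0) (τ : ℤ) : μ ^ (2 * τ) = (μ ^ τ) ^ 2 := by
  rw [two_mul, zpow_add₀ h0, sq]

private theorem EvRoot_inv {μ : ℂ} (h0 : μ ≠ 0) (τ : ℤ) : μ ^ τ * μ ^ (-τ) = 1 := by
  rw [← zpow_add₀ h0, add_neg_cancel, zpow_zero]

private theorem EvRoot_D {μ : ℂ} (h0 : μ ≠ 0) (τ : ℤ) :
    D (μ ^ (2 * τ)) = (μ ^ τ) ^ 2 + (μ ^ (-τ)) ^ 2 + 6 := by
  unfold D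
  rw [← zpow_neg, ← mul_neg, EvRoot_two h0, EvRoot_two h0]

/-- A root of unity reducing to `1` in characteristic `2` has order a power of two. Write the order
as `2 ^ k m` with `m` odd; `y = x ^ (2 ^ k)` is a primitive `m`-th root with `ev φ y = 1`. If
`m > 1`, then `∏ j ∈ {1, …, m - 1}, (1 - y ^ j) = m` gives `0 = m = 1` in `K`. -/
theorem ev_root_one {K : Type} [Field K] [CharP K 2] (φ : integralClosure ℤ ℂ →+* K) {x : ℂ}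
    {n : ℕ} (hn : 0 < n) (hx : x ^ n = 1) (h : ev φ x = 1) : ∃ k : ℕ, x ^ (2 ^ k) = 1 := by
  have hd : 0 < orderOf x := orderOf_pos_iff.2 (isOfFinOrder_iff_pow_eq_one.2 ⟨n, hn, hx⟩)
  obtain ⟨k, m, hm, hkm⟩ := Nat.exists_eq_two_pow_mul_odd hd.ne'
  refine ⟨k, ?_⟩
  have hp : IsPrimitiveRoot (x ^ (2 ^ k)) m := (IsPrimitiveRoot.orderOf x).pow hd hkm
  obtain ⟨j, rfl⟩ := hm
  rcases Nat.eq_zero_or_pos j with rfl | hj
  · have := hp.pow_eq_one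
    rwa [mul_zero, zero_add, pow_one] at this
  · exfalso
    have hx' : IsIntegral ℤ x := isIntegral_of_pow hn hx
    have hy : IsIntegral ℤ (x ^ (2 ^ k)) := hx'.pow _
    have hey : ev φ (x ^ (2 ^ k)) = 1 := by rw [ev_pow φ hx', h, one_pow]
    have h1 := IsPrimitiveRoot.prod_one_sub_pow_eq_order (R := ℂ) (n := 2 * j) hp
    have h2 := congrArg (ev φ) h1
    rw [ev_prod φ _ (fun i _ => isIntegral_one.sub (hy.pow _))] at h2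
    have h3 : ∏ i ∈ Finset.range (2 * j), ev φ (1 - (x ^ (2 ^ k)) ^ (i + 1)) = 0 := by
      refine Finset.prod_eq_zero (Finset.mem_range.2 (show 0 < 2 * j by omega)) ?_
      rw [ev_sub φ isIntegral_one (hy.pow _), ev_one, ev_pow φ hy, hey, one_pow, sub_self]
    have h4 : ev φ (((2 * j : ℕ) : ℂ) + 1) = 1 := by
      have h5 : ((2 * j : ℕ) : ℂ) + 1 = ((2 * (j : ℤ) + 1 : ℤ) : ℂ) := by push_cast; ring
      have h6 : (2 : K) = 0 := CharTwo.two_eq_zero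
      rw [h5, ev_int]
      push_cast
      rw [h6]
      ring
    rw [h3, h4] at h2
    exact zero_ne_one h2

/-- `eta τ σ μ = (t - t⁻¹) (w - w⁻¹)` with `t = μ ^ τ`, `w = μ ^ σ`; its value is zero only if
`ev φ (t ^ 2) = 1` or `ev φ (w ^ 2) = 1` (`ev_zpow`). -/
theorem ev_eta_ne {K : Type} [Field K] [CharP K 2] (φ : integralClosure ℤ ℂ →+* K) {L : ℕ}
    (hL : 0 < L) {ζ μ : ℂ} (hζ : ζ ∈ primitiveRoots L ℂ) (hμ : μ ∈ primitiveRoots L ℂ) {τ σ : ℤ}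
    (hτ : ∀ k : ℕ, (ζ ^ (2 * τ)) ^ (2 ^ k) ≠ 1) (hσ : ∀ k : ℕ, (ζ ^ (2 * σ)) ^ (2 ^ k) ≠ 1) :
    ev φ (eta τ σ μ) ≠ 0 := by
  have h0 := EvRoot_ne hL hμ
  have hpw := EvRoot_pow hL hμ
  have hi := fun k : ℤ => isIntegral_zpow hL hpw k
  have he := ev_ne_zero φ hL hpw
  have key : ∀ τ : ℤ, (∀ k : ℕ, (ζ ^ (2 * τ)) ^ (2 ^ k) ≠ 1) →
      ev φ (μ ^ τ - μ ^ (-τ)) ≠ 0 := by
    intro τ hτ h
    rw [ev_sub φ (hi _) (hi _), ev_zpow φ hL hpw, ev_zpow φ hL hpw, sub_eq_zero] at h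
    have h1 : ev φ (μ ^ (2 * τ)) = 1 := by
      rw [ev_zpow φ hL hpw, two_mul, zpow_add₀ he]
      nth_rewrite 1 [h]
      rw [← zpow_add₀ he, neg_add_cancel, zpow_zero]
    have h2 : (μ ^ (2 * τ)) ^ L = 1 := by
      rw [← zpow_natCast, ← zpow_mul, mul_comm, zpow_mul, zpow_natCast, hpw, one_zpow]
    obtain ⟨k, hk⟩ := ev_root_one φ hL h2 h1
    refine hτ k ?_
    rw [← zpow_natCast, ← zpow_mul] at hk ⊢
    rw [((mem_primitiveRoots hL).1 hμ).zpow_eq_one_iff_dvd] at hk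
    rwa [((mem_primitiveRoots hL).1 hζ).zpow_eq_one_iff_dvd]
  rw [EvRoot_eta h0, ev_mul φ ((hi _).sub (hi _)) ((hi _).sub (hi _))]
  exact mul_ne_zero (key τ hτ) (key σ hσ)

/-- `eta` is an algebraic integer at roots of unity. -/
theorem isIntegral_eta {L : ℕ} (hL : 0 < L) {μ : ℂ} (hμ : μ ∈ primitiveRoots L ℂ) (τ σ : ℤ) :
    IsIntegral ℤ (eta τ σ μ) := by
  have hi := fun k : ℤ => isIntegral_zpow hL (EvRoot_pow hL hμ) k
  exact (((hi _).add (hi _)).sub (hi _)).sub (hi _)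

/-- `4 G (G + η) = (η + 2 G) ^ 2 - η ^ 2 = (X + 6) (Y + 6) - (X - 2) (Y - 2) = 8 (X + Y + 4)` with
`X = x + x⁻¹`, `x = μ ^ (2 τ)`, `Y = y + y⁻¹`, `y = μ ^ (2 σ)`. -/
theorem mul_id {L : ℕ} (hL : 0 < L) {μ : ℂ} (hμ : μ ∈ primitiveRoots L ℂ) {τ σ : ℤ} {G : ℂ → ℂ}
    (hsq : (eta τ σ μ + 2 * G μ) ^ 2 = D (μ ^ (2 * τ)) * D (μ ^ (2 * σ))) :
    G μ * (G μ + eta τ σ μ) =
      2 * (μ ^ (2 * τ) + μ ^ (-(2 * τ)) + μ ^ (2 * σ) + μ ^ (-(2 * σ)) + 4) := by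
  have h0 := EvRoot_ne hL hμ
  have h1 := EvRoot_inv h0 τ
  have h2 := EvRoot_inv h0 σ
  rw [EvRoot_D h0, EvRoot_D h0, EvRoot_eta h0] at hsq
  rw [← mul_neg, ← mul_neg, EvRoot_two h0, EvRoot_two h0, EvRoot_two h0, EvRoot_two h0,
    EvRoot_eta h0]
  generalize μ ^ τ = t at *
  generalize μ ^ (-τ) = T at *
  generalize μ ^ σ = w at *
  generalize μ ^ (-σ) = W at *
  have h3 : (t - T) ^ 2 = t ^ 2 + T ^ 2 - 2 := by linear_combination (-2) * h1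
  have h4 : (w - W) ^ 2 = w ^ 2 + W ^ 2 - 2 := by linear_combination (-2) * h2
  have h5 : ((t - T) * (w - W)) ^ 2 = (t ^ 2 + T ^ 2 - 2) * (w ^ 2 + W ^ 2 - 2) := by
    rw [mul_pow, h3, h4]
  linear_combination (1 / 4) * hsq - (1 / 4) * h5

/-- The value of `G` is real, like those of `η` and `η + 2 G` (`real_of_sq`). -/
theorem star_G {L : ℕ} (hL : 0 < L) {μ : ℂ} (hμ : μ ∈ primitiveRoots L ℂ) {τ σ : ℤ} {G : ℂ → ℂ}
    (hsq : (eta τ σ μ + 2 * G μ) ^ 2 = D (μ ^ (2 * τ)) * D (μ ^ (2 * σ))) :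
    star (G μ) = G μ := by
  have hn := EvRoot_norm hL hμ
  have h1 := (real_of_sq hn hsq).1
  have h2 : ∀ a : ℤ, star (μ ^ a) = μ ^ (-a) := by
    intro a
    have h3 : star μ = μ⁻¹ := by
      rw [Complex.inv_def, Complex.normSq_eq_norm_sq, hn]
      simp
    rw [star_zpow₀, h3, inv_zpow, zpow_neg]
  have h4 : star (eta τ σ μ) = eta τ σ μ := by
    unfold FB.eta
    rw [star_sub, star_sub, star_add, h2, h2, h2, h2, neg_neg, neg_sub, neg_sub]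
    ring
  have h5 : star (2 : ℂ) = 2 := by
    simp
  rw [star_add, star_mul', h4, h5] at h1
  have h6 : (2 : ℂ) * star (G μ) = 2 * G μ := by linear_combination h1
  exact mul_left_cancel₀ two_ne_zero h6

/-- `‖G μ‖ ^ 2 + ‖G μ + η μ‖ ^ 2 = (‖η + 2 G‖ ^ 2 + ‖η‖ ^ 2) / 2 = (X + 2) (Y + 2) + 16`. -/
theorem norm_sum {L : ℕ} (hL : 0 < L) {μ : ℂ} (hμ : μ ∈ primitiveRoots L ℂ) {τ σ : ℤ} {G : ℂ → ℂ}
    (hsq : (eta τ σ μ + 2 * G μ) ^ 2 = D (μ ^ (2 * τ)) * D (μ ^ (2 * σ))) :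
    ((‖G μ‖ ^ 2 + ‖G μ + eta τ σ μ‖ ^ 2 : ℝ) : ℂ) =
      (μ ^ (2 * τ) + μ ^ (-(2 * τ)) + 2) * (μ ^ (2 * σ) + μ ^ (-(2 * σ)) + 2) + 16 := by
  have h0 := EvRoot_ne hL hμ
  have hr : ∀ z : ℂ, star z = z → ((‖z‖ : ℝ) : ℂ) ^ 2 = z ^ 2 := by
    intro z hz
    rw [← Complex.conj_mul' z, sq]
    congr 1
  have hG := star_G hL hμ hsq
  have hη : star (G μ + eta τ σ μ) = G μ + eta τ σ μ := by
    have h5 := (real_of_sq (EvRoot_norm hL hμ) hsq).1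
    have h6 : star (2 : ℂ) = 2 := by simp
    rw [star_add, star_mul', h6, hG] at h5
    rw [star_add, hG]
    linear_combination h5
  push_cast
  rw [hr _ hG, hr _ hη]
  have h1 := EvRoot_inv h0 τ
  have h2 := EvRoot_inv h0 σ
  rw [EvRoot_D h0, EvRoot_D h0, EvRoot_eta h0] at hsq
  rw [← mul_neg, ← mul_neg, EvRoot_two h0, EvRoot_two h0, EvRoot_two h0, EvRoot_two h0,
    EvRoot_eta h0]
  clear hG hη
  generalize μ ^ τ = t at *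
  generalize μ ^ (-τ) = T at *
  generalize μ ^ σ = w at *
  generalize μ ^ (-σ) = W at *
  have h3 : (t - T) ^ 2 = t ^ 2 + T ^ 2 - 2 := by linear_combination (-2) * h1
  have h4 : (w - W) ^ 2 = w ^ 2 + W ^ 2 - 2 := by linear_combination (-2) * h2
  have h5 : ((t - T) * (w - W)) ^ 2 = (t ^ 2 + T ^ 2 - 2) * (w ^ 2 + W ^ 2 - 2) := by
    rw [mul_pow, h3, h4]
  linear_combination (1 / 2) * hsq + (1 / 2) * h5

end Pool.Agent.Lib.MP_baf44c_co.Q1
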