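import Pool.Agent.Lib.MP_baf44c_co.Q1.ExId

/-!
Number of components.
-/

set_option autoImplicit false

namespace Pool.Agent.Lib.MP_baf44c_co.Q1

open Polynomial Pool.Agent.Lib.MP_baf44c_co.FB

private theorem ec_two {n : ℕ} [NeZero n] (hodd : Odd n) {i : ZMod n} (h : (2 : ZMod n) * i = 0) :
    i = 0 := by
  have hu : IsUnit ((2 : ℕ) : ZMod n) := by
    rw [ZMod.isUnit_iff_coprime]
    exact (Nat.coprime_two_left.2 hodd)
  have h2 : ((2 : ℕ) : ZMod n) * i = 0 := by exact_mod_cast h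
  exact (hu.mul_right_eq_zero).1 h2

private theorem ec_even {n : ℕ} [NeZero n] (hodd : Odd n) (S : Finset (ZMod n))
    (h0 : (0 : ZMod n) ∉ S) (hs : ∀ i ∈ S, -i ∈ S) : 2 ∣ S.card := by
  have h1 : ∑ _i ∈ S, (1 : ZMod 2) = 0 := by
    refine Finset.sum_involution (fun i _ => -i) (fun i _ => by decide) (fun i hi _ h => ?_)
      (fun i hi => hs i hi) (fun i _ => neg_neg i)
    apply h0
    have h2 : i = 0 := by
      have h3 : (2 : ZMod n) * i = 0 := by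
        have : i + i = 0 := by
          nth_rewrite 1 [← h]
          exact neg_add_cancel i
        rw [two_mul]
        exact this
      exact ec_two hodd h3
    rw [← h2]
    exact hi
  rw [Finset.sum_const, nsmul_eq_mul, mul_one] at h1
  exact (ZMod.natCast_eq_zero_iff _ _).1 h1

private theorem ec_norm_half (a b : ℂ) : ‖a - b‖ ^ 2 / 2 ≤ ‖a‖ ^ 2 + ‖b‖ ^ 2 := by
  have h := norm_sub_le a b
  have h1 : ‖a - b‖ ^ 2 ≤ (‖a‖ + ‖b‖) ^ 2 := pow_le_pow_left₀ (norm_nonneg _) h 2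
  nlinarith [sq_nonneg (‖a‖ - ‖b‖)]

/-- for `‖z‖ = 1`: `z ^ 2 + z ^ (-2)` is a real number in `[-2, 2]` and `‖z + z⁻¹‖ ^ 2` is two more -/
private theorem ec_circle {z : ℂ} (hz : ‖z‖ = 1) : ∃ r : ℝ, r ≤ 2 ∧ ((r : ℝ) : ℂ) = z ^ (2 : ℤ) + z ^ (-2 : ℤ) ∧
    ‖z + z⁻¹‖ ^ 2 = 2 + r := by
  have hinv : z⁻¹ = (starRingEnd ℂ) z := by
    rw [Complex.inv_def, Complex.normSq_eq_norm_sq, hz]
    simp
  have hne : z ≠ 0 := by
    intro h
    rw [h, norm_zero] at hz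
    exact zero_ne_one hz
  have hre : z + z⁻¹ = ((2 * z.re : ℝ) : ℂ) := by
    rw [hinv, Complex.add_conj]
  have hab := Complex.abs_re_le_norm z
  rw [hz, abs_le] at hab
  refine ⟨4 * z.re ^ 2 - 2, by nlinarith [hab.1, hab.2], ?_, ?_⟩
  · have h1 : z ^ (2 : ℤ) + z ^ (-2 : ℤ) = (z + z⁻¹) ^ 2 - 2 := by
      have e1 : z ^ (-2 : ℤ) = (z⁻¹) ^ 2 := by
        rw [zpow_neg, inv_pow]
        rfl
      have e2 : z ^ (2 : ℤ) = z ^ 2 := rfl
      rw [e1, e2]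
      field_simp
      ring
    rw [h1, hre]
    push_cast
    ring
  · rw [hre, Complex.norm_real, Real.norm_eq_abs, sq_abs]
    ring

/-- the component of `eta` at `τ + σ` -/
private theorem ec_etaU {n : ℕ} [NeZero n] {τ σ : ℤ} (hodd : Odd n) (hτ : ((2 * τ : ℤ) : ZMod n) ≠ 0)
    (hσ : ((2 * σ : ℤ) : ZMod n) ≠ 0) (hU : ((τ + σ : ℤ) : ZMod n) ≠ 0) {μ : ℂ} (hμ : μ ≠ 0) :
    pr n ((τ + σ : ℤ) : ZMod n) (eta τ σ) μ ≠ 0 ∧
    pr n (-((τ + σ : ℤ) : ZMod n)) (eta τ σ) μ ≠ 0 := by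
  have a1 : ((-(τ + σ) : ℤ) : ZMod n) ≠ ((τ + σ : ℤ) : ZMod n) := by
    intro h
    apply hU
    apply ec_two hodd
    push_cast at h ⊢
    linear_combination -h
  have a2 : ((τ - σ : ℤ) : ZMod n) ≠ ((τ + σ : ℤ) : ZMod n) := by
    intro h
    apply hσ
    push_cast at h ⊢
    linear_combination -h
  have a3 : ((σ - τ : ℤ) : ZMod n) ≠ ((τ + σ : ℤ) : ZMod n) := by
    intro h
    apply hτ
    push_cast at h ⊢
    linear_combination -h
  have b2 : ((τ - σ : ℤ) : ZMod n) ≠ -((τ + σ : ℤ) : ZMod n) := by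
    intro h
    apply hτ
    push_cast at h ⊢
    linear_combination h
  have b3 : ((σ - τ : ℤ) : ZMod n) ≠ -((τ + σ : ℤ) : ZMod n) := by
    intro h
    apply hσ
    push_cast at h ⊢
    linear_combination h
  have b1 : ((τ + σ : ℤ) : ZMod n) ≠ -((τ + σ : ℤ) : ZMod n) := by
    intro h
    apply a1
    push_cast at h ⊢
    exact h.symm
  have c1 : ((-(τ + σ) : ℤ) : ZMod n) = -((τ + σ : ℤ) : ZMod n) := by
    push_cast
    rfl
  constructor
  · rw [pr_eta, if_pos rfl, if_neg a1, if_neg a2, if_neg a3, add_zero, sub_zero, sub_zero]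
    exact zpow_ne_zero _ hμ
  · rw [pr_eta, if_neg b1, if_pos c1, if_neg b2, if_neg b3, zero_add, sub_zero, sub_zero]
    exact zpow_ne_zero _ hμ

private theorem ec_neg_eta (τ σ : ℤ) : eta τ (-σ) = fun μ => (-1 : ℂ) * eta τ σ μ := by
  funext μ
  unfold FB.eta
  have e1 : τ + -σ = τ - σ := by ring
  have e2 : -(τ - σ) = σ - τ := by ring
  have e3 : τ - -σ = τ + σ := by ring
  have e4 : -σ - τ = -(τ + σ) := by ring
  rw [e1, e2, e3, e4]
  ring

private theorem ec_etaV {n : ℕ} [NeZero n] {τ σ : ℤ} (hodd : Odd n) (hτ : ((2 * τ : ℤ) : ZMod n) ≠ 0)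
    (hσ : ((2 * σ : ℤ) : ZMod n) ≠ 0) (hV : ((τ - σ : ℤ) : ZMod n) ≠ 0) {μ : ℂ} (hμ : μ ≠ 0) :
    pr n ((τ - σ : ℤ) : ZMod n) (eta τ σ) μ ≠ 0 ∧
    pr n (-((τ - σ : ℤ) : ZMod n)) (eta τ σ) μ ≠ 0 := by
  have h := ec_etaU (n := n) (τ := τ) (σ := -σ) hodd hτ (by
    intro h
    apply hσ
    push_cast at h ⊢
    linear_combination -h) (by
    rw [← sub_eq_add_neg]
    exact hV) hμ
  rw [← sub_eq_add_neg, ec_neg_eta] at h
  rw [pr_const_mul, pr_const_mul] at h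
  exact ⟨right_ne_zero_of_mul h.1, right_ne_zero_of_mul h.2⟩

section

variable {N n N' : ℕ} [NeZero n] (hN0 : 0 < N) (hN : N = n * N')
    (hp : ∀ q : ℕ, q.Prime → q ∣ n → q ∣ N') {τ σ : ℤ} {G : ℂ → ℂ} (hG : IsCyc N G)
    (hsq : ∀ μ ∈ primitiveRoots N ℂ,
        (eta τ σ μ + 2 * G μ) ^ 2 = D (μ ^ (2 * τ)) * D (μ ^ (2 * σ)))

include hN0 hN hp hG hsq

private theorem ec_total (hodd : Odd n) (hτ : ((2 * τ : ℤ) : ZMod n) ≠ 0)
    (hσ : ((2 * σ : ℤ) : ZMod n) ≠ 0) :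
    ((∑ μ ∈ primitiveRoots N ℂ, ∑ i : ZMod n, (‖pr n i G μ‖ ^ 2 +
      ‖pr n i (fun ν => G ν + eta τ σ ν) μ‖ ^ 2) : ℝ) : ℂ) = 20 * (N.totient : ℂ) +
      ∑ μ ∈ primitiveRoots N ℂ,
        ((if ((τ + σ : ℤ) : ZMod n) = 0 then μ ^ (2 * (τ + σ)) + μ ^ (-(2 * (τ + σ))) else 0) +
        (if ((τ - σ : ℤ) : ZMod n) = 0 then μ ^ (2 * (τ - σ)) + μ ^ (-(2 * (τ - σ))) else 0)) := by
  have _ := hG
  have hcard : (primitiveRoots N ℂ).card = N.totient :=
    (Complex.isPrimitiveRoot_exp N hN0.ne').card_primitiveRoots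
  have h1 : ∑ μ ∈ primitiveRoots N ℂ, ∑ i : ZMod n, (‖pr n i G μ‖ ^ 2 +
      ‖pr n i (fun ν => G ν + eta τ σ ν) μ‖ ^ 2) =
      ∑ μ ∈ primitiveRoots N ℂ, (‖G μ‖ ^ 2 + ‖G μ + eta τ σ μ‖ ^ 2) := by
    simp only [Finset.sum_add_distrib]
    rw [← sum_prim_sq hN0 hN hp G, ← sum_prim_sq hN0 hN hp (fun ν => G ν + eta τ σ ν)]
  rw [h1, Complex.ofReal_sum]
  have hne : ∀ μ ∈ primitiveRoots N ℂ, μ ≠ 0 := fun μ hμ =>
    ((mem_primitiveRoots hN0).1 hμ).ne_zero hN0.ne'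
  have h2 : ∀ μ ∈ primitiveRoots N ℂ,
      (((‖G μ‖ ^ 2 + ‖G μ + eta τ σ μ‖ ^ 2 : ℝ)) : ℂ) =
      (20 * μ ^ (0 : ℤ) + 2 * μ ^ (2 * τ) + 2 * μ ^ (-(2 * τ)) + 2 * μ ^ (2 * σ) +
        2 * μ ^ (-(2 * σ))) +
      (μ ^ (2 * (τ + σ)) + μ ^ (-(2 * (τ + σ))) + μ ^ (2 * (τ - σ)) + μ ^ (-(2 * (τ - σ)))) := by
    intro μ hμ
    rw [norm_sum hN0 hμ (hsq μ hμ)]
    have h0 := hne μ hμ
    have e1 : μ ^ (2 * (τ + σ)) = μ ^ (2 * τ) * μ ^ (2 * σ) := by
      rw [← zpow_add₀ h0]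
      congr 1
      ring
    have e2 : μ ^ (-(2 * (τ + σ))) = μ ^ (-(2 * τ)) * μ ^ (-(2 * σ)) := by
      rw [← zpow_add₀ h0]
      congr 1
      ring
    have e3 : μ ^ (2 * (τ - σ)) = μ ^ (2 * τ) * μ ^ (-(2 * σ)) := by
      rw [← zpow_add₀ h0]
      congr 1
      ring
    have e4 : μ ^ (-(2 * (τ - σ))) = μ ^ (-(2 * τ)) * μ ^ (2 * σ) := by
      rw [← zpow_add₀ h0]
      congr 1
      ring
    rw [e1, e2, e3, e4, zpow_zero]
    ring
  rw [Finset.sum_congr rfl h2, sum_prim_eq hN0 hN hp]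
  have hz : ∀ e : ℤ, ((2 * e : ℤ) : ZMod n) = 0 ↔ ((e : ℤ) : ZMod n) = 0 := by
    intro e
    constructor
    · intro h
      push_cast at h
      exact ec_two hodd h
    · intro h
      push_cast
      rw [h, mul_zero]
  have hneg : ∀ e : ℤ, ((-e : ℤ) : ZMod n) = 0 ↔ ((e : ℤ) : ZMod n) = 0 := by
    intro e
    push_cast
    exact neg_eq_zero
  have h3 : ∀ μ : ℂ, pr n 0 (fun μ => (20 * μ ^ (0 : ℤ) + 2 * μ ^ (2 * τ) + 2 * μ ^ (-(2 * τ)) +
      2 * μ ^ (2 * σ) + 2 * μ ^ (-(2 * σ))) +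
      (μ ^ (2 * (τ + σ)) + μ ^ (-(2 * (τ + σ))) + μ ^ (2 * (τ - σ)) + μ ^ (-(2 * (τ - σ))))) μ =
      20 + ((if ((τ + σ : ℤ) : ZMod n) = 0 then μ ^ (2 * (τ + σ)) + μ ^ (-(2 * (τ + σ))) else 0) +
        (if ((τ - σ : ℤ) : ZMod n) = 0 then μ ^ (2 * (τ - σ)) + μ ^ (-(2 * (τ - σ))) else 0)) := by
    intro μ
    simp only [pr_add, pr_const_mul, pr_zpow, hneg, hz (τ + σ), hz (τ - σ), if_neg hτ, if_neg hσ]
    rw [Int.cast_zero, if_pos rfl, zpow_zero]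
    by_cases hU : ((τ + σ : ℤ) : ZMod n) = 0
    · by_cases hV : ((τ - σ : ℤ) : ZMod n) = 0
      · simp only [hU, hV, if_true]
        ring
      · simp only [hU, hV, if_true, if_false]
        ring
    · by_cases hV : ((τ - σ : ℤ) : ZMod n) = 0
      · simp only [hU, hV, if_true, if_false]
        ring
      · simp only [hU, hV, if_false]
        ring
  rw [Finset.sum_congr rfl (fun μ _ => h3 μ), Finset.sum_add_distrib, Finset.sum_const, hcard,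
    nsmul_eq_mul]
  ring

/-- the classes off `E` and the classes in a set `T ⊆ E` -/
private theorem ec_lower {ζ : ℂ} (hζ : ζ ∈ primitiveRoots N ℂ) (T : Finset (ZMod n))
    (hT : ∀ i ∈ T, InE ((τ + σ : ℤ) : ZMod n) ((τ - σ : ℤ) : ZMod n) i)
    (hT0 : ∀ i ∈ T, pr n i (eta τ σ) ζ ≠ 0) (R : Finset (ZMod n))
    (hR : ∀ i ∈ R, InE ((τ + σ : ℤ) : ZMod n) ((τ - σ : ℤ) : ZMod n) i) (hTR : Disjoint T R) :
    2 * (N.totient : ℝ) * (Finset.univ.filter (fun i : ZMod n => pr n i G ζ ≠ 0 ∧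
      ¬ InE ((τ + σ : ℤ) : ZMod n) ((τ - σ : ℤ) : ZMod n) i)).card + (N.totient : ℝ) * T.card +
      ∑ i ∈ R, ∑ μ ∈ primitiveRoots N ℂ, (‖pr n i G μ‖ ^ 2 +
      ‖pr n i (fun ν => G ν + eta τ σ ν) μ‖ ^ 2) ≤
      ∑ μ ∈ primitiveRoots N ℂ, ∑ i : ZMod n, (‖pr n i G μ‖ ^ 2 +
      ‖pr n i (fun ν => G ν + eta τ σ ν) μ‖ ^ 2) := by
  have _ := hsq
  rw [Finset.sum_comm (s := primitiveRoots N ℂ)]
  set S := Finset.univ.filter (fun i : ZMod n => pr n i G ζ ≠ 0 ∧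
      ¬ InE ((τ + σ : ℤ) : ZMod n) ((τ - σ : ℤ) : ZMod n) i) with hS
  set W : ZMod n → ℝ := fun i => ∑ μ ∈ primitiveRoots N ℂ, (‖pr n i G μ‖ ^ 2 +
      ‖pr n i (fun ν => G ν + eta τ σ ν) μ‖ ^ 2) with hW
  have hW0 : ∀ i, 0 ≤ W i := fun i => Finset.sum_nonneg fun μ _ => by positivity
  have hfi : ∀ (i : ZMod n) (μ : ℂ), pr n i (fun ν => G ν + eta τ σ ν) μ =
      pr n i G μ + pr n i (eta τ σ) μ := fun i μ => pr_add i G (eta τ σ) μ
  have h1 : ∀ i ∈ S, 2 * (N.totient : ℝ) ≤ W i := by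
    intro i hi
    rw [hS, Finset.mem_filter] at hi
    have h2 := (isCyc_pr hN0 hN hp hG i).sum_sq_ge hN0 hζ hi.2.1
    have h3 : W i = 2 * ∑ μ ∈ primitiveRoots N ℂ, ‖pr n i G μ‖ ^ 2 := by
      rw [hW, Finset.mul_sum]
      refine Finset.sum_congr rfl fun μ _ => ?_
      rw [hfi, pr_eta_zero τ σ i μ hi.2.2, add_zero]
      ring
    rw [h3]
    linarith
  have h2 : ∀ i ∈ T, (N.totient : ℝ) ≤ W i := by
    intro i hi
    have hsum : W i = ∑ μ ∈ primitiveRoots N ℂ, ‖pr n i G μ‖ ^ 2 +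
        ∑ μ ∈ primitiveRoots N ℂ, ‖pr n i (fun ν => G ν + eta τ σ ν) μ‖ ^ 2 := by
      simp only [hW]
      rw [Finset.sum_add_distrib]
    have hp1 : 0 ≤ ∑ μ ∈ primitiveRoots N ℂ, ‖pr n i G μ‖ ^ 2 :=
      Finset.sum_nonneg fun μ _ => by positivity
    have hp2 : 0 ≤ ∑ μ ∈ primitiveRoots N ℂ, ‖pr n i (fun ν => G ν + eta τ σ ν) μ‖ ^ 2 :=
      Finset.sum_nonneg fun μ _ => by positivity
    by_cases hg : pr n i G ζ = 0
    · have hf : pr n i (fun ν => G ν + eta τ σ ν) ζ ≠ 0 := by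
        rw [hfi, hg, zero_add]
        exact hT0 i hi
      have h3 := (isCyc_pr hN0 hN hp (hG.add (isCyc_eta hN0 τ σ)) i).sum_sq_ge hN0 hζ hf
      linarith
    · have h3 := (isCyc_pr hN0 hN hp hG i).sum_sq_ge hN0 hζ hg
      linarith
  have hST : Disjoint S T := by
    rw [Finset.disjoint_left]
    intro i hi hi'
    rw [hS, Finset.mem_filter] at hi
    exact hi.2.2 (hT i hi')
  have hSTR : Disjoint (S ∪ T) R := by
    rw [Finset.disjoint_union_left]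
    refine ⟨?_, hTR⟩
    rw [Finset.disjoint_left]
    intro i hi hi'
    rw [hS, Finset.mem_filter] at hi
    exact hi.2.2 (hR i hi')
  calc 2 * (N.totient : ℝ) * S.card + (N.totient : ℝ) * T.card + ∑ i ∈ R, W i
      = ∑ _i ∈ S, 2 * (N.totient : ℝ) + ∑ _i ∈ T, (N.totient : ℝ) + ∑ i ∈ R, W i := by
        rw [Finset.sum_const, Finset.sum_const, nsmul_eq_mul, nsmul_eq_mul]
        ring
    _ ≤ ∑ i ∈ S, W i + ∑ i ∈ T, W i + ∑ i ∈ R, W i := by
        have a1 := Finset.sum_le_sum h1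
        have a2 := Finset.sum_le_sum h2
        linarith
    _ = ∑ i ∈ (S ∪ T) ∪ R, W i := by
        rw [Finset.sum_union hSTR, Finset.sum_union hST]
    _ ≤ ∑ i, W i := Finset.sum_le_sum_of_subset_of_nonneg (Finset.subset_univ _) fun i _ _ => hW0 i

private theorem ec_symm_S {ζ : ℂ} (hζ : ζ ∈ primitiveRoots N ℂ) :
    ∀ i ∈ Finset.univ.filter (fun i : ZMod n => pr n i G ζ ≠ 0 ∧
      ¬ InE ((τ + σ : ℤ) : ZMod n) ((τ - σ : ℤ) : ZMod n) i),
      -i ∈ Finset.univ.filter (fun i : ZMod n => pr n i G ζ ≠ 0 ∧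
      ¬ InE ((τ + σ : ℤ) : ZMod n) ((τ - σ : ℤ) : ZMod n) i) := by
  intro i hi
  rw [Finset.mem_filter] at hi ⊢
  refine ⟨Finset.mem_univ _, ex_symm hN0 hN hp hG hsq hζ hi.2.1, fun h => hi.2.2 ?_⟩
  unfold InE at h ⊢
  rcases h with h | h | h | h
  · exact Or.inr (Or.inl (by rw [← h, neg_neg]))
  · exact Or.inl (neg_injective h)
  · exact Or.inr (Or.inr (Or.inr (by rw [← h, neg_neg])))
  · exact Or.inr (Or.inr (Or.inl (neg_injective h)))

private theorem ec_degen (hodd : Odd n) (hτ : ((2 * τ : ℤ) : ZMod n) ≠ 0)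
    (hσ : ((2 * σ : ℤ) : ZMod n) ≠ 0) (hV : ((τ - σ : ℤ) : ZMod n) = 0) {ζ : ℂ}
    (hζ : ζ ∈ primitiveRoots N ℂ) :
    (Finset.univ.filter (fun i : ZMod n => pr n i G ζ ≠ 0 ∧
      ¬ InE ((τ + σ : ℤ) : ZMod n) ((τ - σ : ℤ) : ZMod n) i)).card ≤ 8 := by
  have hcard : (primitiveRoots N ℂ).card = N.totient :=
    (Complex.isPrimitiveRoot_exp N hN0.ne').card_primitiveRoots
  have hphi : (0 : ℝ) < N.totient := by exact_mod_cast Nat.totient_pos.2 hN0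
  have hU : ((τ + σ : ℤ) : ZMod n) ≠ 0 := by
    intro h
    apply hτ
    push_cast at h hV ⊢
    linear_combination h + hV
  have hU' : ((τ + σ : ℤ) : ZMod n) ≠ -((τ + σ : ℤ) : ZMod n) := by
    intro h
    apply hU
    apply ec_two hodd
    linear_combination h
  have hζ0 : ζ ≠ 0 := ((mem_primitiveRoots hN0).1 hζ).ne_zero hN0.ne'
  have hUne := ec_etaU hodd hτ hσ hU hζ0
  set U : ZMod n := ((τ + σ : ℤ) : ZMod n) with hUdef
  have hlow := ec_lower hN0 hN hp hG hsq hζ {U, -U} (by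
    intro i hi
    rw [Finset.mem_insert, Finset.mem_singleton] at hi
    rcases hi with rfl | rfl
    · exact Or.inl rfl
    · exact Or.inr (Or.inl rfl)) (by
    intro i hi
    rw [Finset.mem_insert, Finset.mem_singleton] at hi
    rcases hi with rfl | rfl
    · exact hUne.1
    · exact hUne.2) {0} (by
    intro i hi
    rw [Finset.mem_singleton] at hi
    rw [hi]
    exact Or.inr (Or.inr (Or.inl hV.symm))) (by
    rw [Finset.disjoint_left]
    intro i hi hi'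
    rw [Finset.mem_insert, Finset.mem_singleton] at hi
    rw [Finset.mem_singleton] at hi'
    rcases hi with rfl | rfl
    · exact hU hi'
    · exact hU (neg_eq_zero.1 hi'))
  rw [Finset.card_pair hU', Finset.sum_singleton] at hlow
  have htot := ec_total hN0 hN hp hG hsq hodd hτ hσ
  rw [← hUdef] at htot
  simp only [if_neg hU, if_pos hV, zero_add] at htot
  set r : ℂ → ℝ := fun μ => ‖μ ^ (τ - σ) + (μ ^ (τ - σ))⁻¹‖ ^ 2 - 2 with hr
  have hnorm : ∀ μ ∈ primitiveRoots N ℂ, ‖μ ^ (τ - σ)‖ = 1 := by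
    intro μ hμ
    rw [norm_zpow, ((mem_primitiveRoots hN0).1 hμ).norm'_eq_one hN0.ne', one_zpow]
  have hr2 : ∀ μ ∈ primitiveRoots N ℂ, r μ ≤ 2 ∧
      ((r μ : ℝ) : ℂ) = μ ^ (2 * (τ - σ)) + μ ^ (-(2 * (τ - σ))) := by
    intro μ hμ
    obtain ⟨r', h1, h2, h3⟩ := ec_circle (hnorm μ hμ)
    have h4 : r μ = r' := by
      rw [hr]
      simp only
      rw [h3]
      ring
    rw [h4]
    refine ⟨h1, ?_⟩
    rw [h2, ← zpow_mul, ← zpow_mul]
    congr 2 <;> ring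
  have htotR : ∑ μ ∈ primitiveRoots N ℂ, ∑ i : ZMod n, (‖pr n i G μ‖ ^ 2 +
      ‖pr n i (fun ν => G ν + eta τ σ ν) μ‖ ^ 2) =
      20 * (N.totient : ℝ) + ∑ μ ∈ primitiveRoots N ℂ, r μ := by
    have h1 : ((∑ μ ∈ primitiveRoots N ℂ, ∑ i : ZMod n, (‖pr n i G μ‖ ^ 2 +
      ‖pr n i (fun ν => G ν + eta τ σ ν) μ‖ ^ 2) : ℝ) : ℂ) =
      ((20 * (N.totient : ℝ) + ∑ μ ∈ primitiveRoots N ℂ, r μ : ℝ) : ℂ) := by
      rw [htot, Complex.ofReal_add, Complex.ofReal_sum]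
      rw [Finset.sum_congr rfl (fun μ hμ => ((hr2 μ hμ).2).symm)]
      push_cast
      ring
    exact_mod_cast h1
  have hzero : ∀ μ : ℂ, pr n 0 (eta τ σ) μ = -(μ ^ (τ - σ) + (μ ^ (τ - σ))⁻¹) := by
    intro μ
    have c1 : ((-(τ + σ) : ℤ) : ZMod n) ≠ 0 := by
      intro h
      apply hU
      rw [hUdef]
      rw [Int.cast_neg] at h
      exact neg_eq_zero.1 h
    have c2 : ((σ - τ : ℤ) : ZMod n) = 0 := by
      push_cast at hV ⊢
      linear_combination -hV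
    rw [pr_eta, if_neg hU, if_neg c1, if_pos hV, if_pos c2]
    have e : σ - τ = -(τ - σ) := by ring
    rw [e, zpow_neg]
    ring
  have hR : ∑ μ ∈ primitiveRoots N ℂ, (2 + r μ) / 2 ≤
      ∑ μ ∈ primitiveRoots N ℂ, (‖pr n 0 G μ‖ ^ 2 +
      ‖pr n 0 (fun ν => G ν + eta τ σ ν) μ‖ ^ 2) := by
    refine Finset.sum_le_sum fun μ _ => ?_
    have h1 := ec_norm_half (pr n 0 G μ) (pr n 0 (fun ν => G ν + eta τ σ ν) μ)
    have h2 : pr n 0 G μ - pr n 0 (fun ν => G ν + eta τ σ ν) μ =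
        μ ^ (τ - σ) + (μ ^ (τ - σ))⁻¹ := by
      have h3 := pr_add (n := n) 0 G (eta τ σ) μ
      rw [h3, hzero]
      ring
    rw [h2] at h1
    have h4 : (2 + r μ) / 2 = ‖μ ^ (τ - σ) + (μ ^ (τ - σ))⁻¹‖ ^ 2 / 2 := by
      rw [hr]
      ring
    rw [h4]
    exact h1
  have hsplit : ∑ μ ∈ primitiveRoots N ℂ, (2 + r μ) / 2 =
      (N.totient : ℝ) + (∑ μ ∈ primitiveRoots N ℂ, r μ) / 2 := by
    rw [← Finset.sum_div, Finset.sum_add_distrib, Finset.sum_const, hcard, nsmul_eq_mul]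
    ring
  have hrs : ∑ μ ∈ primitiveRoots N ℂ, r μ ≤ 2 * (N.totient : ℝ) := by
    refine (Finset.sum_le_sum fun μ hμ => (hr2 μ hμ).1).trans ?_
    rw [Finset.sum_const, hcard, nsmul_eq_mul]
    linarith
  have hsymm := ec_symm_S hN0 hN hp hG hsq hζ
  rw [← hUdef] at hsymm
  set S := Finset.univ.filter (fun i : ZMod n => pr n i G ζ ≠ 0 ∧
      ¬ InE U ((τ - σ : ℤ) : ZMod n) i) with hS
  have h9 : (S.card : ℝ) ≤ 9 := by
    by_contra hcon
    rw [not_le] at hcon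
    rw [htotR] at hlow
    rw [hsplit] at hR
    push_cast at hlow
    nlinarith
  have h9' : S.card ≤ 9 := by exact_mod_cast h9
  have heven := ec_even hodd S (by
    intro h
    rw [hS, Finset.mem_filter] at h
    exact h.2.2 (Or.inr (Or.inr (Or.inl hV.symm)))) hsymm
  omega

/-- Let `g i μ = pr n i G μ`, `f i μ = pr n i (G + η) μ`, `e i = pr n i η`, so `f i - g i = e i`, and
`u = τ + σ`, `v = τ - σ`. By `sum_prim_sq` and `norm_sum`
`∑_μ ∑_i (‖g i μ‖² + ‖f i μ‖²) = ∑_μ (20 + X Y + 2 X + 2 Y)`, and the sums over `μ` of `X`, `Y` vanish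
(`sum_prim_eq`, `pr_zpow`: degrees `±2τ, ±2σ ≠ 0`), `X Y = ν^(2u) + ν^(-2u) + ν^(2v) + ν^(-2v)`.
For `i` outside `±u, ±v`, `g i = f i`, and if `g i ζ ≠ 0` the sum over `μ` is at least `2 φ N`
(`isCyc_pr`, `IsCyc.sum_sq_ge`). For `i = ±u` (if `u ≠ 0`) or `±v` (if `v ≠ 0`) not both `g i ζ`,
`f i ζ` vanish, so the sum over `μ` is at least `φ N`.
If `u, v ≠ 0` the total is `20 φ N`, there are four such classes, and `2 # + 4 ≤ 20`.
If, say, `v = 0` (then `u ≠ 0`): `∑_μ X Y = ∑_μ X₀`, `X₀ = ν^(2v) + ν^(-2v) ∈ [-2, 2]`; for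
`i = 0`, `‖g 0‖² + ‖f 0‖² ≥ ‖e 0‖² / 2 = (2 + X₀) / 2`. So
`2 # + 2 + 1 + m / 2 ≤ 20 + m` with `m ≤ 2` the mean of `X₀`, so `# ≤ 9`; the set is symmetric
(`ex_symm`) and does not contain `0`, `n` is odd, so `#` is even and `# ≤ 8`. -/
theorem ex_card (hodd : Odd n) (hτ : ((2 * τ : ℤ) : ZMod n) ≠ 0)
    (hσ : ((2 * σ : ℤ) : ZMod n) ≠ 0) {ζ : ℂ} (hζ : ζ ∈ primitiveRoots N ℂ) :
    (Finset.univ.filter (fun i : ZMod n => pr n i G ζ ≠ 0 ∧
      ¬ InE ((τ + σ : ℤ) : ZMod n) ((τ - σ : ℤ) : ZMod n) i)).card ≤ 8 := by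
  by_cases hV : ((τ - σ : ℤ) : ZMod n) = 0
  · exact ec_degen hN0 hN hp hG hsq hodd hτ hσ hV hζ
  by_cases hU : ((τ + σ : ℤ) : ZMod n) = 0
  · have hG' : IsCyc N (fun μ => (-1 : ℂ) * G μ) := by
      have h := (isCyc_int N (-1)).mul hG
      refine h.congr fun μ _ => ?_
      push_cast
      ring
    have hsq' : ∀ μ ∈ primitiveRoots N ℂ,
        (eta τ (-σ) μ + 2 * ((-1 : ℂ) * G μ)) ^ 2 = D (μ ^ (2 * τ)) * D (μ ^ (2 * (-σ))) := by
      intro μ hμ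
      have h1 := hsq μ hμ
      have h2 : D (μ ^ (2 * (-σ))) = D (μ ^ (2 * σ)) := by
        have e : 2 * (-σ) = -(2 * σ) := by ring
        rw [e, zpow_neg]
        unfold D
        rw [inv_inv]
        ring
      rw [h2, ← h1, ec_neg_eta]
      ring
    have h := ec_degen hN0 hN hp hG' hsq' hodd hτ (by
      intro h
      apply hσ
      push_cast at h ⊢
      linear_combination -h) (by
      rw [sub_neg_eq_add]
      exact hU) hζ
    refine le_trans (le_of_eq ?_) h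
    congr 1
    refine Finset.filter_congr fun i _ => ?_
    have h1 : pr n i (fun μ => (-1 : ℂ) * G μ) ζ = (-1) * pr n i G ζ := pr_const_mul i (-1) G ζ
    rw [h1, ← sub_eq_add_neg, sub_neg_eq_add]
    unfold InE
    constructor
    · rintro ⟨a, b⟩
      exact ⟨mul_ne_zero (by norm_num) a, by tauto⟩
    · rintro ⟨a, b⟩
      exact ⟨right_ne_zero_of_mul a, by tauto⟩
  · have hphi : (0 : ℝ) < N.totient := by exact_mod_cast Nat.totient_pos.2 hN0
    have hζ0 : ζ ≠ 0 := ((mem_primitiveRoots hN0).1 hζ).ne_zero hN0.ne'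
    have hUne := ec_etaU hodd hτ hσ hU hζ0
    have hVne := ec_etaV hodd hτ hσ hV hζ0
    have htot := ec_total hN0 hN hp hG hsq hodd hτ hσ
    simp only [if_neg hU, if_neg hV, add_zero, Finset.sum_const_zero] at htot
    have d1 : ((τ + σ : ℤ) : ZMod n) ≠ -((τ + σ : ℤ) : ZMod n) := by
      intro h
      apply hU
      apply ec_two hodd
      linear_combination h
    have d2 : ((τ - σ : ℤ) : ZMod n) ≠ -((τ - σ : ℤ) : ZMod n) := by
      intro h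
      apply hV
      apply ec_two hodd
      linear_combination h
    have d3 : ((τ + σ : ℤ) : ZMod n) ≠ ((τ - σ : ℤ) : ZMod n) := by
      intro h
      apply hσ
      push_cast at h ⊢
      linear_combination h
    have d4 : ((τ + σ : ℤ) : ZMod n) ≠ -((τ - σ : ℤ) : ZMod n) := by
      intro h
      apply hτ
      push_cast at h ⊢
      linear_combination h
    set U : ZMod n := ((τ + σ : ℤ) : ZMod n) with hUdef
    set V : ZMod n := ((τ - σ : ℤ) : ZMod n) with hVdef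
    have d5 : -U ≠ V := by
      intro h
      apply d4
      rw [← h, neg_neg]
    have d6 : -U ≠ -V := fun h => d3 (neg_injective h)
    have hlow := ec_lower hN0 hN hp hG hsq hζ {U, -U, V, -V} (by
      intro i hi
      simp only [Finset.mem_insert, Finset.mem_singleton] at hi
      exact hi) (by
      intro i hi
      simp only [Finset.mem_insert, Finset.mem_singleton] at hi
      rcases hi with rfl | rfl | rfl | rfl
      · exact hUne.1
      · exact hUne.2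
      · exact hVne.1
      · exact hVne.2) ∅ (fun i hi => absurd hi (Finset.notMem_empty i))
      (Finset.disjoint_empty_right _)
    have hc4 : ({U, -U, V, -V} : Finset (ZMod n)).card = 4 := by
      rw [Finset.card_insert_of_notMem, Finset.card_insert_of_notMem, Finset.card_pair d2]
      · simp only [Finset.mem_insert, Finset.mem_singleton, not_or]
        exact ⟨d5, d6⟩
      · simp only [Finset.mem_insert, Finset.mem_singleton, not_or]
        exact ⟨d1, d3, d4⟩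
    rw [hc4, Finset.sum_empty, add_zero] at hlow
    have htotR : ∑ μ ∈ primitiveRoots N ℂ, ∑ i : ZMod n, (‖pr n i G μ‖ ^ 2 +
        ‖pr n i (fun ν => G ν + eta τ σ ν) μ‖ ^ 2) = 20 * (N.totient : ℝ) := by
      exact_mod_cast htot
    rw [htotR, ← hUdef, ← hVdef] at hlow
    have h8 : ((Finset.univ.filter (fun i : ZMod n => pr n i G ζ ≠ 0 ∧
        ¬ InE U V i)).card : ℝ) ≤ 8 := by
      by_contra hcon
      rw [not_le] at hcon
      push_cast at hlow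
      nlinarith
    exact_mod_cast h8

end

end Pool.Agent.Lib.MP_baf44c_co.Q1
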