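import Pool.Agent.Lib.MP_baf44c_co.Q1.ExId
import Pool.Agent.Lib.MP_baf44c_co.FB.Weight

/-!
Components divisible by two.
-/

set_option autoImplicit false

namespace Pool.Agent.Lib.MP_baf44c_co.Q1

open Polynomial Pool.Agent.Lib.MP_baf44c_co.FB


private theorem ehIntTwo : IsIntegral ℤ (2 : ℂ) := by
  have := isIntegral_algebraMap (R := ℤ) (A := ℂ) (x := (2 : ℤ))
  simpa using this

private theorem ehStdInj {n : ℕ} [NeZero n] :
    Function.Injective (fun j : ZMod n => (ZMod.stdAddChar j : ℂ)) := ZMod.injective_stdAddChar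

private theorem ehStdPow {n : ℕ} [NeZero n] (j : ZMod n) : (ZMod.stdAddChar j : ℂ) ^ n = 1 := by
  rw [← AddChar.map_nsmul_eq_pow]
  have : n • j = 0 := by simp
  rw [this, AddChar.map_zero_eq_one]

/-- Both products are products over all `n`-th roots of unity. -/
private theorem ehProd {n : ℕ} [NeZero n] {ξ : ℂ} (hξ : IsPrimitiveRoot ξ n) (A : ℂ → ℂ) (μ : ℂ) :
    ∏ j : ZMod n, A (μ * ZMod.stdAddChar j) = ∏ k ∈ Finset.range n, A (μ * ξ ^ k) := by
  classical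
  have hn : 0 < n := Nat.pos_of_ne_zero (NeZero.ne n)
  have h1 : Finset.univ.image (fun j : ZMod n => (ZMod.stdAddChar j : ℂ)) =
      nthRootsFinset n (1 : ℂ) := by
    refine Finset.eq_of_subset_of_card_le ?_ ?_
    · intro x hx
      obtain ⟨j, -, rfl⟩ := Finset.mem_image.1 hx
      rw [mem_nthRootsFinset hn]
      exact ehStdPow j
    · rw [hξ.card_nthRootsFinset, Finset.card_image_of_injective _ ehStdInj, Finset.card_univ,
        ZMod.card]
  have hinj : Set.InjOn (fun k : ℕ => ξ ^ k) (Finset.range n) := by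
    intro a ha b hb hab
    exact hξ.pow_inj (Finset.mem_range.1 ha) (Finset.mem_range.1 hb) hab
  have h2 : (Finset.range n).image (fun k : ℕ => ξ ^ k) = nthRootsFinset n (1 : ℂ) := by
    refine Finset.eq_of_subset_of_card_le ?_ ?_
    · intro x hx
      obtain ⟨k, -, rfl⟩ := Finset.mem_image.1 hx
      rw [mem_nthRootsFinset hn, ← pow_mul, mul_comm, pow_mul, hξ.pow_eq_one, one_pow]
    · rw [hξ.card_nthRootsFinset, Finset.card_image_of_injOn hinj, Finset.card_range]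
  have h3 := Finset.prod_image (s := (Finset.univ : Finset (ZMod n)))
    (g := fun j : ZMod n => (ZMod.stdAddChar j : ℂ)) (f := fun ω => A (μ * ω))
    (fun a _ b _ h => ehStdInj h)
  have h4 := Finset.prod_image (s := Finset.range n)
    (g := fun k : ℕ => ξ ^ k) (f := fun ω => A (μ * ω)) hinj
  rw [← h3, ← h4, h1, h2]

private theorem ehCycPow {N e : ℕ} (hN : 0 < N) (he : e.Coprime N) {A : ℂ → ℂ} (hA : IsCyc N A) :
    IsCyc N (fun μ => A (μ ^ e)) := by
  obtain ⟨f, hf⟩ := hA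
  refine ⟨expand ℤ e f, fun μ hμ => ?_⟩
  have h1 : μ ^ e ∈ primitiveRoots N ℂ := by
    rw [mem_primitiveRoots hN] at hμ ⊢
    exact hμ.pow_of_coprime e he
  show A (μ ^ e) = _
  rw [hf _ h1, expand_aeval]

private theorem ehCycProd {N : ℕ} {ι : Type*} (s : Finset ι) {F : ι → ℂ → ℂ}
    (hF : ∀ i ∈ s, IsCyc N (F i)) : IsCyc N (fun μ => ∏ i ∈ s, F i μ) := by
  classical
  induction s using Finset.induction_on with
  | empty =>
    refine (isCyc_int N 1).congr fun μ _ => ?_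
    simp
  | insert a s ha ih =>
    refine ((hF a (Finset.mem_insert_self a s)).mul
      (ih fun i hi => hF i (Finset.mem_insert_of_mem hi))).congr fun μ _ => ?_
    rw [Finset.prod_insert ha]

/-- If `A B = 2 w` on the primitive roots then `∏ A (ζ ω) * pr n i B ζ / 2` is an algebraic
integer. -/
private theorem ehKey {N n N' : ℕ} [NeZero n] (hN0 : 0 < N) (hN : N = n * N')
    (hp : ∀ q : ℕ, q.Prime → q ∣ n → q ∣ N') {A B w : ℂ → ℂ} (hA : IsCyc N A) (hw : IsCyc N w)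
    (hAB : ∀ μ ∈ primitiveRoots N ℂ, A μ * B μ = 2 * w μ) {ζ : ℂ} (hζ : ζ ∈ primitiveRoots N ℂ)
    (i : ZMod n) :
    IsIntegral ℤ ((∏ j : ZMod n, A (ζ * ZMod.stdAddChar j)) * pr n i B ζ / 2) := by
  have hn : 0 < n := Nat.pos_of_ne_zero (NeZero.ne n)
  obtain ⟨w', hw'⟩ : ∃ w' : ℂ → ℂ, w' = fun μ => w μ *
    ∏ k ∈ Finset.range (n - 1), A (μ ^ (1 + N' * (k + 1))) := ⟨_, rfl⟩
  have hcop : ∀ k : ℕ, (1 + N' * k).Coprime N := by
    intro k
    refine Nat.coprime_of_dvd fun q hq h3 h4 => ?_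
    have h5 : q ∣ N' := by
      rw [hN] at h4
      rcases hq.dvd_mul.1 h4 with h | h
      · exact hp q hq h
      · exact h
    have h6 : q ∣ 1 := (Nat.dvd_add_left (h5.mul_right k)).1 h3
    exact hq.one_lt.ne' (Nat.dvd_one.1 h6)
  have hw'c : IsCyc N w' := by
    rw [hw']
    exact hw.mul (ehCycProd _ fun k _ => ehCycPow hN0 (hcop (k + 1)) hA)
  set s₀ : ℂ := ∏ j : ZMod n, A (ζ * ZMod.stdAddChar j) with hs₀
  have hrel : ∀ l : ZMod n, s₀ * B (ζ * ZMod.stdAddChar l) = 2 * w' (ζ * ZMod.stdAddChar l) := by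
    intro l
    have hμ := mul_mem_prim hN0 hN hp hζ l
    set μ : ℂ := ζ * ZMod.stdAddChar l with hμd
    have hμp : IsPrimitiveRoot μ N := (mem_primitiveRoots hN0).1 hμ
    have hξ : IsPrimitiveRoot (μ ^ N') n := hμp.pow hN0 (by rw [hN, mul_comm])
    have h1 : s₀ = ∏ j : ZMod n, A (μ * ZMod.stdAddChar j) := by
      rw [hs₀, hμd]
      refine (Fintype.prod_equiv (Equiv.addLeft l) _ _ fun j => ?_).symm
      rw [Equiv.coe_addLeft, AddChar.map_add_eq_mul, mul_assoc]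
    have h2 : ∏ k ∈ Finset.range n, A (μ * (μ ^ N') ^ k) =
        A μ * ∏ k ∈ Finset.range (n - 1), A (μ ^ (1 + N' * (k + 1))) := by
      obtain ⟨m, rfl⟩ : ∃ m, n = m + 1 := ⟨n - 1, by omega⟩
      rw [Finset.prod_range_succ', pow_zero, mul_one, mul_comm, Nat.add_sub_cancel]
      congr 1
      refine Finset.prod_congr rfl fun k _ => ?_
      have e1 : μ ^ (1 + N' * (k + 1)) = μ * (μ ^ N') ^ (k + 1) := by
        rw [pow_add, pow_one, pow_mul]
      rw [e1]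
    rw [h1, ehProd hξ A μ, h2, hw']
    show A μ * _ * B μ = 2 * (w μ * _)
    rw [← mul_assoc, ← hAB μ hμ]
    ring
  have h3 : s₀ * pr n i B ζ / 2 = pr n i w' ζ := by
    have h4 : s₀ * pr n i B ζ = 2 * pr n i w' ζ := by
      unfold pr
      rw [mul_left_comm, mul_left_comm 2]
      congr 1
      rw [Finset.mul_sum, Finset.mul_sum]
      refine Finset.sum_congr rfl fun j _ => ?_
      rw [mul_left_comm, hrel j, mul_left_comm]
    rw [h4]
    ring
  rw [h3]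
  exact isIntegral_isCyc hN0 (isCyc_pr hN0 hN hp hw'c i) hζ

/-- The maximal ideal argument: if `s z / 2` is integral for `s = ∏ A (ζ ω)`, and no `ev φ (A (ζ ω))`
vanishes for the `φ` of characteristic two. -/
private theorem ehIdeal {z : ℂ} (hz : IsIntegral ℤ z)
    (h : ∀ (K : Type) [Field K] [CharP K 2] (φ : integralClosure ℤ ℂ →+* K),
      ∃ s : ℂ, ∃ hs : IsIntegral ℤ s, φ ⟨s, hs⟩ ≠ 0 ∧ IsIntegral ℤ (s * z / 2)) :
    IsIntegral ℤ (z / 2) := by
  let J : Ideal (integralClosure ℤ ℂ) :=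
    { carrier := {s | IsIntegral ℤ ((s : ℂ) * z / 2)}
      add_mem' := by
        intro a b ha hb
        have h1 : (((a + b : integralClosure ℤ ℂ) : ℂ)) * z / 2 = (a : ℂ) * z / 2 + (b : ℂ) * z / 2 := by
          push_cast
          ring
        show IsIntegral ℤ _
        rw [h1]
        exact IsIntegral.add ha hb
      zero_mem' := by
        show IsIntegral ℤ _
        simpa using isIntegral_zero
      smul_mem' := by
        intro c a ha
        have h1 : (((c • a : integralClosure ℤ ℂ) : ℂ)) * z / 2 = (c : ℂ) * ((a : ℂ) * z / 2) := by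
          rw [smul_eq_mul]
          push_cast
          ring
        show IsIntegral ℤ _
        rw [h1]
        exact IsIntegral.mul c.2 ha }
  by_cases htop : J = ⊤
  · have h1 : (1 : integralClosure ℤ ℂ) ∈ J := by
      rw [htop]
      exact Submodule.mem_top
    have h2 : IsIntegral ℤ (((1 : integralClosure ℤ ℂ) : ℂ) * z / 2) := h1
    simpa using h2
  · exfalso
    obtain ⟨m, hm, hJm⟩ := Ideal.exists_le_maximal J htop
    let _ : Field (integralClosure ℤ ℂ ⧸ m) := Ideal.Quotient.field m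
    have h2J : (2 : integralClosure ℤ ℂ) ∈ J := by
      show IsIntegral ℤ (((2 : integralClosure ℤ ℂ) : ℂ) * z / 2)
      have h3 : ((2 : integralClosure ℤ ℂ) : ℂ) * z / 2 = z := by
        have h4 : ((2 : integralClosure ℤ ℂ) : ℂ) = 2 := rfl
        rw [h4]
        ring
      rw [h3]
      exact hz
    have h20 : ((2 : ℕ) : integralClosure ℤ ℂ ⧸ m) = 0 := by
      have h3 := Ideal.Quotient.eq_zero_iff_mem.2 (hJm h2J)
      rw [map_ofNat] at h3
      exact_mod_cast h3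
    have : CharP (integralClosure ℤ ℂ ⧸ m) 2 :=
      (CharP.charP_iff_prime_eq_zero Nat.prime_two).2 h20
    obtain ⟨s, hs, hs1, hs2⟩ := h (integralClosure ℤ ℂ ⧸ m) (Ideal.Quotient.mk m)
    apply hs1
    rw [Ideal.Quotient.eq_zero_iff_mem]
    exact hJm hs2

private theorem ehCycW {N : ℕ} (hN : 0 < N) (τ σ : ℤ) : IsCyc N (fun μ =>
    μ ^ (2 * τ) + μ ^ (-(2 * τ)) + μ ^ (2 * σ) + μ ^ (-(2 * σ)) + 4) := by
  refine (((((isCyc_zpow hN (2 * τ)).add (isCyc_zpow hN (-(2 * τ)))).add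
    (isCyc_zpow hN (2 * σ))).add (isCyc_zpow hN (-(2 * σ)))).add (isCyc_int N 4)).congr
    fun μ _ => ?_
  push_cast
  rfl

/-- The terms of degree zero in `D D'`. -/
private theorem ehWeight {n : ℕ} [NeZero n] {u v : ZMod n} (hu : u ≠ 0) (hv : v ≠ 0)
    (h2 : u + u ≠ 0) :
    ∑ p ∈ (sg ×ˢ sg).filter (fun p => (p.1 : ZMod n) * u + (p.2 : ZMod n) * v = 0),
      ‖dd p.1 * dd p.2‖ ≤ 38 := by
  rw [Finset.sum_filter, Finset.sum_product]
  have hsum : ∀ f : ℤ → ℝ, ∑ a ∈ sg, f a = f (-1) + f 0 + f 1 := by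
    intro f
    simp [sg]
    ring
  have d0 : dd 0 = 6 := by simp [dd]
  have d1 : dd 1 = 1 := by simp [dd]
  have dm : dd (-1) = 1 := by simp [dd]
  simp only [hsum, d0, d1, dm]
  have e1 : ¬ (((-1 : ℤ) : ZMod n) * u + ((0 : ℤ) : ZMod n) * v = 0) := by simpa using hu
  have e2 : ¬ (((1 : ℤ) : ZMod n) * u + ((0 : ℤ) : ZMod n) * v = 0) := by simpa using hu
  have e3 : ¬ (((0 : ℤ) : ZMod n) * u + ((-1 : ℤ) : ZMod n) * v = 0) := by simpa using hv
  have e4 : ¬ (((0 : ℤ) : ZMod n) * u + ((1 : ℤ) : ZMod n) * v = 0) := by simpa using hv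
  have e5 : ((0 : ℤ) : ZMod n) * u + ((0 : ℤ) : ZMod n) * v = 0 := by simp
  rw [if_neg e1, if_neg e2, if_neg e3, if_neg e4, if_pos e5]
  have e6 : ‖(6 : ℂ) * 6‖ = 36 := by norm_num
  have e7 : ‖(1 : ℂ) * 1‖ = 1 := by norm_num
  rw [e6, e7]
  have f1 : (((1 : ℤ) : ZMod n) * u + ((1 : ℤ) : ZMod n) * v = 0) ↔ u + v = 0 := by simp
  have f2 : (((-1 : ℤ) : ZMod n) * u + ((-1 : ℤ) : ZMod n) * v = 0) ↔ u + v = 0 := by
    constructor
    · intro h
      push_cast at h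
      linear_combination -h
    · intro h
      push_cast
      linear_combination -h
  have f3 : (((1 : ℤ) : ZMod n) * u + ((-1 : ℤ) : ZMod n) * v = 0) ↔ u - v = 0 := by
    constructor
    · intro h
      push_cast at h
      linear_combination h
    · intro h
      push_cast
      linear_combination h
  have f4 : (((-1 : ℤ) : ZMod n) * u + ((1 : ℤ) : ZMod n) * v = 0) ↔ u - v = 0 := by
    constructor
    · intro h
      push_cast at h
      linear_combination -h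
    · intro h
      push_cast
      linear_combination -h
  simp only [f1, f2, f3, f4]
  by_cases g1 : u + v = 0
  · have g2 : ¬ (u - v = 0) := by
      intro g2
      apply h2
      linear_combination g1 + g2
    rw [if_pos g1, if_neg g2]
    norm_num
  · rw [if_neg g1]
    split_ifs <;> norm_num

section

variable {N n N' : ℕ} [NeZero n] (hN0 : 0 < N) (hN : N = n * N')
    (hp : ∀ q : ℕ, q.Prime → q ∣ n → q ∣ N') {τ σ : ℤ} {G : ℂ → ℂ} (hG : IsCyc N G)
    (hsq : ∀ μ ∈ primitiveRoots N ℂ,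
        (eta τ σ μ + 2 * G μ) ^ 2 = D (μ ^ (2 * τ)) * D (μ ^ (2 * σ)))

include hN0 hN hp hG hsq

/-- Let `A` be the ring of algebraic integers, `f = G + η`,
`J = {s ∈ A | s * pr n i G ζ / 2 is an algebraic integer}`, an ideal of `A` containing `2`. Suppose it
is proper, let `m` be a maximal ideal containing it, `K = A / m`, of characteristic `2`, and `φ` the
quotient map. Suppose e.g. `ev φ (G (ζ * ω)) = 0` for all `ω ^ n = 1`; then `ev φ (f (ζ * ω)) ≠ 0` for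
these `ω`, since `ev φ (η (ζ * ω)) ≠ 0`. Let `s μ = ∏ j < n, f (μ ^ (1 + N' j))`; the `ζ ^ (1 + N' j)`
are the `ζ * ω`, so `ev φ (s ζ) ≠ 0`. The function `s` is cyclotomic and invariant under
`μ ↦ μ ω`, so `pr n i (s G) ζ = s ζ * pr n i G ζ`. By `mul_id`, `s G = 2 w'` with
`w' μ = (x + x⁻¹ + y + y⁻¹ + 4) ∏ 0 < j < n, f (μ ^ (1 + N' j))` cyclotomic, so
`s ζ * pr n i G ζ = 2 pr n i w' ζ`, and `pr n i w' ζ` is an algebraic integer. So `s ζ ∈ J ⊆ m`, a
contradiction. In the other case exchange `G` and `f` (`pr n i f ζ = pr n i G ζ` as `i` is not one of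
`±(τ + σ), ±(τ - σ)`). -/
theorem ex_half {ζ : ℂ} (hζ : ζ ∈ primitiveRoots N ℂ) (hE : EConst ζ n τ σ G)
    (hne : ∀ (K : Type) [Field K] [CharP K 2] (φ : integralClosure ℤ ℂ →+* K) (ω : ℂ),
      ω ^ n = 1 → ev φ (eta τ σ (ζ * ω)) ≠ 0) {i : ZMod n}
    (hi : ¬ InE ((τ + σ : ℤ) : ZMod n) ((τ - σ : ℤ) : ZMod n) i) :
    IsIntegral ℤ (pr n i G ζ / 2) := by
  have hcF : IsCyc N (fun μ => G μ + eta τ σ μ) := hG.add (isCyc_eta hN0 τ σ)
  have hz : IsIntegral ℤ (pr n i G ζ) := isIntegral_isCyc hN0 (isCyc_pr hN0 hN hp hG i) hζ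
  refine ehIdeal hz ?_
  intro K _ _ φ
  have hGi : ∀ j : ZMod n, IsIntegral ℤ (G (ζ * ZMod.stdAddChar j)) := fun j =>
    isIntegral_isCyc hN0 hG (mul_mem_prim hN0 hN hp hζ j)
  have hEi : ∀ j : ZMod n, IsIntegral ℤ (eta τ σ (ζ * ZMod.stdAddChar j)) := fun j =>
    isIntegral_isCyc hN0 (isCyc_eta hN0 τ σ) (mul_mem_prim hN0 hN hp hζ j)
  rcases hE K φ with h | h
  · have hint : IsIntegral ℤ (∏ j : ZMod n,
        (G (ζ * ZMod.stdAddChar j) + eta τ σ (ζ * ZMod.stdAddChar j))) :=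
      IsIntegral.prod _ fun j _ => (hGi j).add (hEi j)
    refine ⟨_, hint, ?_, ?_⟩
    · rw [← ev_of φ hint, ev_prod φ _ (fun j _ => (hGi j).add (hEi j)), Finset.prod_ne_zero_iff]
      intro j _
      rw [ev_add φ (hGi j) (hEi j), h _ (ehStdPow j), zero_add]
      exact hne K φ _ (ehStdPow j)
    · exact ehKey hN0 hN hp (A := fun μ => G μ + eta τ σ μ) (B := G) hcF (ehCycW hN0 τ σ)
        (fun μ hμ => by rw [mul_comm]; exact mul_id hN0 hμ (hsq μ hμ)) hζ i
  · have hint : IsIntegral ℤ (∏ j : ZMod n, G (ζ * ZMod.stdAddChar j)) :=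
      IsIntegral.prod _ fun j _ => hGi j
    refine ⟨_, hint, ?_, ?_⟩
    · rw [← ev_of φ hint, ev_prod φ _ (fun j _ => hGi j), Finset.prod_ne_zero_iff]
      intro j _ h0
      have h1 := h _ (ehStdPow j)
      rw [ev_add φ (hGi j) (hEi j), h0, zero_add] at h1
      exact hne K φ _ (ehStdPow j) h1
    · have h2 : pr n i G ζ = pr n i (fun μ => G μ + eta τ σ μ) ζ := by
        rw [pr_add, pr_eta_zero τ σ i ζ hi, add_zero]
      rw [h2]
      exact ehKey hN0 hN hp (A := G) (B := fun μ => G μ + eta τ σ μ) hG (ehCycW hN0 τ σ)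
        (fun μ hμ => mul_id hN0 hμ (hsq μ hμ)) hζ i

/-- Let `F = η + 2 G`. `∑_μ ‖F μ‖² = ∑_μ D D' = ∑_μ (36 + 6 X + 6 Y + X Y) ≤ 38 φ N`: the sums of
`X, Y` vanish (degrees `±2τ`, `±2σ` not zero), `X Y = ν^(2u) + ν^(-2u) + ν^(2v) + ν^(-2v)`,
`u = τ + σ`, `v = τ - σ`, and `2 u`, `2 v` are not both zero, as `2 u + 2 v = 4 τ ≠ 0`. For `i` outside
`±u, ±v` with `pr n i G ζ ≠ 0`: `pr n i G ζ / 2` is an algebraic integer in `cyc N`, so it is `W ζ` with
`W` cyclotomic (`exists_isCyc`), `pr n i G = 2 W` on all primitive roots, `pr n i F = 4 W`, and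
`∑_μ ‖pr n i F μ‖² ≥ 16 φ N`. So `16 # ≤ 38`. -/
theorem ex_two {ζ : ℂ} (hζ : ζ ∈ primitiveRoots N ℂ)
    (hhalf : ∀ i : ZMod n, ¬ InE ((τ + σ : ℤ) : ZMod n) ((τ - σ : ℤ) : ZMod n) i →
      IsIntegral ℤ (pr n i G ζ / 2)) (hτ : ((2 * τ : ℤ) : ZMod n) ≠ 0)
    (hσ : ((2 * σ : ℤ) : ZMod n) ≠ 0) (h4 : ((4 * τ : ℤ) : ZMod n) ≠ 0) :
    (Finset.univ.filter (fun i : ZMod n => pr n i G ζ ≠ 0 ∧
      ¬ InE ((τ + σ : ℤ) : ZMod n) ((τ - σ : ℤ) : ZMod n) i)).card ≤ 2 := by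
  have hcard : (primitiveRoots N ℂ).card = N.totient :=
    (Complex.isPrimitiveRoot_exp N hN0.ne').card_primitiveRoots
  have hnorm : ∀ μ ∈ primitiveRoots N ℂ, ‖μ‖ = 1 := by
    intro μ hμ
    exact ((mem_primitiveRoots hN0).1 hμ).norm'_eq_one hN0.ne'
  have hne : ∀ μ ∈ primitiveRoots N ℂ, μ ≠ 0 := by
    intro μ hμ h
    have := hnorm μ hμ
    rw [h, norm_zero] at this
    exact zero_ne_one this
  have hu0 : (2 * (τ : ZMod n)) ≠ 0 := by
    intro h
    apply hτ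
    push_cast
    exact h
  have hv0 : (2 * (σ : ZMod n)) ≠ 0 := by
    intro h
    apply hσ
    push_cast
    exact h
  have huu : (2 * (τ : ZMod n)) + 2 * (τ : ZMod n) ≠ 0 := by
    intro h
    apply h4
    push_cast
    linear_combination h
  have hle : ∑ μ ∈ primitiveRoots N ℂ, ∑ γ : ZMod n,
      ‖pr n γ (fun ν => eta τ σ ν + 2 * G ν) μ‖ ^ 2 ≤ 38 * N.totient := by
    rw [← sum_prim_sq hN0 hN hp]
    have h1 : ((∑ μ ∈ primitiveRoots N ℂ, ‖eta τ σ μ + 2 * G μ‖ ^ 2 : ℝ) : ℂ) =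
        ∑ μ ∈ primitiveRoots N ℂ, pr n 0 (fun ν => D (ν ^ (2 * τ)) * D (ν ^ (2 * σ))) μ := by
      rw [← sum_prim_eq hN0 hN hp, Complex.ofReal_sum]
      refine Finset.sum_congr rfl fun μ hμ => ?_
      exact (real_of_sq (hnorm μ hμ) (hsq μ hμ)).2
    have h2 : ∀ μ ∈ primitiveRoots N ℂ,
        ‖pr n 0 (fun ν => D (ν ^ (2 * τ)) * D (ν ^ (2 * σ))) μ‖ ≤ 38 := by
      intro μ hμ
      have e1 : pr n 0 (fun ν => D (ν ^ (2 * τ)) * D (ν ^ (2 * σ))) μ =
          pr n 0 (fun ν => ∑ p ∈ sg ×ˢ sg,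
            dd p.1 * dd p.2 * ν ^ (p.1 * (2 * τ) + p.2 * (2 * σ))) μ :=
        pr_congr hN0 hN hp (fun ν hν => DD_eq_sum (hne ν hν) τ σ) 0 μ hμ
      rw [e1, pr_sum]
      simp only [pr_const_mul, pr_zpow]
      refine le_trans ?_ (ehWeight (u := 2 * (τ : ZMod n)) (v := 2 * (σ : ZMod n)) hu0 hv0 huu)
      rw [Finset.sum_filter]
      refine (norm_sum_le _ _).trans (Finset.sum_le_sum fun p _ => ?_)
      have hiff : ((p.1 * (2 * τ) + p.2 * (2 * σ) : ℤ) : ZMod n) = 0 ↔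
          (p.1 : ZMod n) * (2 * (τ : ZMod n)) + (p.2 : ZMod n) * (2 * (σ : ZMod n)) = 0 := by
        push_cast
        rfl
      by_cases h : (p.1 : ZMod n) * (2 * (τ : ZMod n)) + (p.2 : ZMod n) * (2 * (σ : ZMod n)) = 0
      · rw [if_pos (hiff.2 h), if_pos h, norm_mul, norm_zpow, hnorm μ hμ, one_zpow, mul_one]
      · rw [if_neg (fun h' => h (hiff.1 h')), if_neg h, mul_zero, norm_zero]
    have h3 : ‖((∑ μ ∈ primitiveRoots N ℂ, ‖eta τ σ μ + 2 * G μ‖ ^ 2 : ℝ) : ℂ)‖ ≤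
        38 * N.totient := by
      rw [h1]
      refine (norm_sum_le _ _).trans ((Finset.sum_le_sum h2).trans ?_)
      rw [Finset.sum_const, hcard, nsmul_eq_mul, mul_comm]
    rwa [Complex.norm_real, Real.norm_of_nonneg (Finset.sum_nonneg fun μ _ => by positivity)] at h3
  rw [Finset.sum_comm] at hle
  set S := Finset.univ.filter (fun i : ZMod n => pr n i G ζ ≠ 0 ∧
      ¬ InE ((τ + σ : ℤ) : ZMod n) ((τ - σ : ℤ) : ZMod n) i) with hS
  have hphi : (0 : ℝ) < N.totient := by exact_mod_cast Nat.totient_pos.2 hN0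
  have hγ : ∀ γ ∈ S, 16 * (N.totient : ℝ) ≤
      ∑ μ ∈ primitiveRoots N ℂ, ‖pr n γ (fun ν => eta τ σ ν + 2 * G ν) μ‖ ^ 2 := by
    intro γ hγ
    rw [hS, Finset.mem_filter] at hγ
    obtain ⟨-, h0, g⟩ := hγ
    have hint := hhalf γ g
    have hmem : pr n γ G ζ / 2 ∈ cyc N := by
      obtain ⟨f, hf⟩ := isCyc_pr hN0 hN hp hG γ
      rw [hf ζ hζ]
      refine div_mem ?_ (by simp)
      have hζm : ζ ∈ cyc N := by
        have : NeZero N := ⟨hN0.ne'⟩
        have h0 := Complex.isPrimitiveRoot_exp N hN0.ne'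
        obtain ⟨i, -, hi⟩ := h0.eq_pow_of_pow_eq_one ((mem_primitiveRoots hN0).1 hζ).pow_eq_one
        rw [← hi]
        exact pow_mem (IntermediateField.subset_adjoin ℚ _ (Set.mem_singleton _)) i
      rw [aeval_eq_sum_range]
      refine sum_mem fun k _ => ?_
      exact zsmul_mem (pow_mem hζm k) _
    obtain ⟨W, hW, hWζ⟩ := exists_isCyc hN0 hζ hmem hint
    have hW2 : ∀ μ ∈ primitiveRoots N ℂ, pr n γ G μ = 2 * W μ := by
      have hc : IsCyc N (fun μ => pr n γ G μ - ((2 : ℤ) : ℂ) * W μ) :=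
        (isCyc_pr hN0 hN hp hG γ).sub ((isCyc_int N 2).mul hW)
      have h5 : (fun μ => pr n γ G μ - ((2 : ℤ) : ℂ) * W μ) ζ = 0 := by
        show pr n γ G ζ - ((2 : ℤ) : ℂ) * W ζ = 0
        rw [hWζ]
        push_cast
        ring
      intro μ hμ
      have h6 : pr n γ G μ - ((2 : ℤ) : ℂ) * W μ = 0 := hc.eq_zero hζ h5 μ hμ
      push_cast at h6
      linear_combination h6
    have hpr : ∀ μ ∈ primitiveRoots N ℂ,
        pr n γ (fun ν => eta τ σ ν + 2 * G ν) μ = 4 * W μ := by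
      intro μ hμ
      rw [pr_add, pr_const_mul, hW2 μ hμ]
      have heta : pr n γ (fun ν => eta τ σ ν) μ = 0 := pr_eta_zero τ σ γ μ g
      rw [heta]
      ring
    have hW0 : W ζ ≠ 0 := by
      rw [hWζ]
      exact div_ne_zero h0 two_ne_zero
    have h1 := hW.sum_sq_ge hN0 hζ hW0
    have h2 : ∑ μ ∈ primitiveRoots N ℂ, ‖pr n γ (fun ν => eta τ σ ν + 2 * G ν) μ‖ ^ 2 =
        16 * ∑ μ ∈ primitiveRoots N ℂ, ‖W μ‖ ^ 2 := by
      rw [Finset.mul_sum]
      refine Finset.sum_congr rfl fun μ hμ => ?_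
      rw [hpr μ hμ, norm_mul, mul_pow, Complex.norm_ofNat]
      norm_num
    rw [h2]
    linarith
  have hsum : (S.card : ℝ) * (16 * N.totient) ≤ 38 * N.totient := by
    calc (S.card : ℝ) * (16 * N.totient) = ∑ _γ ∈ S, 16 * (N.totient : ℝ) := by
          rw [Finset.sum_const, nsmul_eq_mul]
      _ ≤ ∑ γ ∈ S, ∑ μ ∈ primitiveRoots N ℂ,
          ‖pr n γ (fun ν => eta τ σ ν + 2 * G ν) μ‖ ^ 2 := Finset.sum_le_sum hγ
      _ ≤ ∑ γ : ZMod n, ∑ μ ∈ primitiveRoots N ℂ,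
          ‖pr n γ (fun ν => eta τ σ ν + 2 * G ν) μ‖ ^ 2 :=
          Finset.sum_le_sum_of_subset_of_nonneg (Finset.subset_univ _)
            (fun γ _ _ => Finset.sum_nonneg fun μ _ => by positivity)
      _ ≤ _ := hle
  have hfin : (S.card : ℝ) < 3 := by
    by_contra hcon
    rw [not_lt] at hcon
    nlinarith
  have hfin2 : S.card < 3 := by exact_mod_cast hfin
  omega

end

end Pool.Agent.Lib.MP_baf44c_co.Q1
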