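import Pool.Agent.Lib.MP_baf44c_co.Q1.EvRoot
import Pool.Agent.Lib.MP_baf44c_co.FB.ProjPrim
import Pool.Agent.Lib.MP_baf44c_co.FB.Norm
import Pool.Agent.Lib.MP_baf44c_co.FB.Half

/-!
Graded components modulo two.
-/

set_option autoImplicit false

namespace Pool.Agent.Lib.MP_baf44c_co.Q1

open Polynomial Pool.Agent.Lib.MP_baf44c_co.FB

private lemma std_pow' {n : ℕ} [NeZero n] (j : ZMod n) : (ZMod.stdAddChar j : ℂ) ^ n = 1 := by
  rw [← AddChar.map_nsmul_eq_pow]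
  have : n • j = 0 := by simp
  rw [this, AddChar.map_zero_eq_one]

private lemma odd_two {n : ℕ} (hodd : Odd n) {x : ZMod n} (h : x + x = 0) : x = 0 := by
  obtain ⟨k, rfl⟩ := hodd
  have hn : ((2 * k + 1 : ℕ) : ZMod (2 * k + 1)) = 0 := ZMod.natCast_self _
  push_cast at hn
  linear_combination ((k : ZMod (2 * k + 1)) + 1) * h - x * hn

private lemma exists_std {n : ℕ} [NeZero n] {ω : ℂ} (h : ω ^ n = 1) :
    ∃ j : ZMod n, ω = ZMod.stdAddChar j := by
  have h0 := Complex.isPrimitiveRoot_exp n (NeZero.ne n)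
  obtain ⟨i, -, hi⟩ := h0.eq_pow_of_pow_eq_one h
  refine ⟨((i : ℤ) : ZMod n), ?_⟩
  rw [ZMod.stdAddChar_coe, ← hi, ← Complex.exp_nat_mul]
  congr 1
  push_cast
  ring

private lemma pr_shift {n : ℕ} [NeZero n] (i a : ZMod n) (F : ℂ → ℂ) (μ : ℂ) :
    pr n i F (μ * ZMod.stdAddChar a) = ZMod.stdAddChar (a * i) * pr n i F μ := by
  unfold pr
  have h := Equiv.sum_comp (Equiv.addLeft a) (fun j : ZMod n =>
    (ZMod.stdAddChar (-((j - a) * i)) : ℂ) * F (μ * ZMod.stdAddChar j))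
  simp only [Equiv.coe_addLeft, add_sub_cancel_left, AddChar.map_add_eq_mul] at h
  have h2 : ∀ j : ZMod n, (ZMod.stdAddChar (-((j - a) * i)) : ℂ) * F (μ * ZMod.stdAddChar j) =
      ZMod.stdAddChar (a * i) * (ZMod.stdAddChar (-(j * i)) * F (μ * ZMod.stdAddChar j)) := by
    intro j
    rw [← mul_assoc, ← AddChar.map_add_eq_mul]
    congr 2
    ring
  rw [Finset.sum_congr rfl fun j _ => h2 j, ← Finset.mul_sum] at h
  simp only [mul_assoc] at h ⊢
  rw [h]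
  ring

private lemma pow_zpow {N : ℕ} (hN0 : 0 < N) {ζ : ℂ} (hζ : ζ ∈ primitiveRoots N ℂ) (k : ℤ) :
    (ζ ^ k) ^ N = 1 := by
  rw [← zpow_natCast, ← zpow_mul, mul_comm, zpow_mul, zpow_natCast,
    ((mem_primitiveRoots hN0).1 hζ).pow_eq_one, one_zpow]

private lemma ev_zero_of_group {n : ℕ} [NeZero n] {K : Type} [Field K]
    (φ : integralClosure ℤ ℂ →+* K) {ζ : ℂ} (F : ℂ → ℂ)
    (hF : ∀ i : ZMod n, IsIntegral ℤ (pr n i F ζ)) (D' : ℕ)
    (h : ∀ w : ZMod n, ∑ i ∈ Finset.univ.filter (fun i => (D' : ZMod n) * i = w),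
      ev φ (pr n i F ζ) = 0) {ω : ℂ} (hω : ω ^ n = 1) : ev φ (F (ζ * ω ^ D')) = 0 := by
  classical
  obtain ⟨j, rfl⟩ := exists_std hω
  have hn : 0 < n := Nat.pos_of_ne_zero (NeZero.ne n)
  have h1 : (ZMod.stdAddChar j : ℂ) ^ D' = ZMod.stdAddChar ((D' : ZMod n) * j) := by
    rw [← AddChar.map_nsmul_eq_pow, nsmul_eq_mul]
  have hint : ∀ a : ZMod n, IsIntegral ℤ (ZMod.stdAddChar a : ℂ) := fun a =>
    isIntegral_of_pow hn (std_pow' a)
  rw [h1, ← sum_pr (n := n) F, ev_sum φ Finset.univ]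
  · have h2 : ∀ i : ZMod n, ev φ (pr n i F (ζ * ZMod.stdAddChar ((D' : ZMod n) * j))) =
        ev φ (ZMod.stdAddChar (j * ((D' : ZMod n) * i)) : ℂ) * ev φ (pr n i F ζ) := by
      intro i
      rw [pr_shift, ev_mul φ (hint _) (hF i)]
      congr 3
      ring
    rw [Finset.sum_congr rfl fun i _ => h2 i,
      ← Finset.sum_fiberwise Finset.univ (fun i : ZMod n => (D' : ZMod n) * i)]
    refine Finset.sum_eq_zero fun w _ => ?_
    have h3 : ∀ i ∈ Finset.univ.filter (fun i : ZMod n => (D' : ZMod n) * i = w),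
        ev φ (ZMod.stdAddChar (j * ((D' : ZMod n) * i)) : ℂ) * ev φ (pr n i F ζ) =
        ev φ (ZMod.stdAddChar (j * w) : ℂ) * ev φ (pr n i F ζ) := by
      intro i hi
      rw [(Finset.mem_filter.1 hi).2]
    rw [Finset.sum_congr rfl h3, ← Finset.mul_sum, h w, mul_zero]
  · intro i _
    rw [pr_shift]
    exact (hint _).mul (hF i)

/-- `pr_add`, `pr_sub`, `pr_zpow`. -/
theorem pr_eta {n : ℕ} [NeZero n] (τ σ : ℤ) (γ : ZMod n) (μ : ℂ) :
    pr n γ (eta τ σ) μ =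
      (if ((τ + σ : ℤ) : ZMod n) = γ then μ ^ (τ + σ) else 0) +
      (if ((-(τ + σ) : ℤ) : ZMod n) = γ then μ ^ (-(τ + σ)) else 0) -
      (if ((τ - σ : ℤ) : ZMod n) = γ then μ ^ (τ - σ) else 0) -
      (if ((σ - τ : ℤ) : ZMod n) = γ then μ ^ (σ - τ) else 0) := by
  have h : eta τ σ = fun ν => ((ν ^ (τ + σ) + ν ^ (-(τ + σ))) - ν ^ (τ - σ)) - ν ^ (σ - τ) := rfl
  rw [h, pr_sub γ (fun ν => (ν ^ (τ + σ) + ν ^ (-(τ + σ))) - ν ^ (τ - σ)) (fun ν => ν ^ (σ - τ)),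
    pr_sub γ (fun ν => ν ^ (τ + σ) + ν ^ (-(τ + σ))) (fun ν => ν ^ (τ - σ)),
    pr_add γ (fun ν => ν ^ (τ + σ)) (fun ν => ν ^ (-(τ + σ))), pr_zpow, pr_zpow, pr_zpow, pr_zpow]

/-- `eta` has no component outside `±(τ + σ)`, `±(τ - σ)`. -/
theorem pr_eta_zero {n : ℕ} [NeZero n] (τ σ : ℤ) (γ : ZMod n) (μ : ℂ)
    (hγ : ¬ InE ((τ + σ : ℤ) : ZMod n) ((τ - σ : ℤ) : ZMod n) γ) : pr n γ (eta τ σ) μ = 0 := by
  unfold InE at hγ
  push Not at hγ
  obtain ⟨h1, h2, h3, h4⟩ := hγ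
  rw [pr_eta, if_neg, if_neg, if_neg, if_neg]
  · ring
  · intro h
    apply h4
    rw [← h]
    push_cast
    ring
  · exact fun h => h3 h.symm
  · intro h
    apply h2
    rw [← h]
    push_cast
    ring
  · exact fun h => h1 h.symm

section

variable {N n N' : ℕ} [NeZero n] (hN0 : 0 < N) (hN : N = n * N')
    (hp : ∀ q : ℕ, q.Prime → q ∣ n → q ∣ N') {τ σ : ℤ} {G : ℂ → ℂ} (hG : IsCyc N G)
    (hsq : ∀ μ ∈ primitiveRoots N ℂ,
        (eta τ σ μ + 2 * G μ) ^ 2 = D (μ ^ (2 * τ)) * D (μ ^ (2 * σ)))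

include hN0 hN hp hG hsq

/-- The components of `eta` at the classes `±u`, `u = τ + σ ≠ 0`, do not vanish: `n` is odd, so
`u ≠ -u`, and `u ≠ ±(τ - σ)` as `2 τ, 2 σ ≠ 0`; so the component is a root of unity (`ev_ne_zero`).
Similarly for `v = τ - σ ≠ 0` (up to sign). -/
theorem ev_pr_eta (hodd : Odd n) (hτ : ((2 * τ : ℤ) : ZMod n) ≠ 0)
    (hσ : ((2 * σ : ℤ) : ZMod n) ≠ 0) {K : Type} [Field K] (φ : integralClosure ℤ ℂ →+* K) {ζ : ℂ}
    (hζ : ζ ∈ primitiveRoots N ℂ) :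
    (((τ + σ : ℤ) : ZMod n) ≠ 0 → ev φ (pr n ((τ + σ : ℤ) : ZMod n) (eta τ σ) ζ) ≠ 0 ∧
      ev φ (pr n (-((τ + σ : ℤ) : ZMod n)) (eta τ σ) ζ) ≠ 0) ∧
    (((τ - σ : ℤ) : ZMod n) ≠ 0 → ev φ (pr n ((τ - σ : ℤ) : ZMod n) (eta τ σ) ζ) ≠ 0 ∧
      ev φ (pr n (-((τ - σ : ℤ) : ZMod n)) (eta τ σ) ζ) ≠ 0) := by
  clear hG hsq hp hN
  have hev : ∀ k : ℤ, ev φ (ζ ^ k) ≠ 0 := fun k => ev_ne_zero φ hN0 (pow_zpow hN0 hζ k)
  have hint : ∀ k : ℤ, IsIntegral ℤ (ζ ^ k) := fun k => isIntegral_of_pow hN0 (pow_zpow hN0 hζ k)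
  push_cast at hτ hσ
  constructor
  · intro hu
    push_cast at hu
    constructor
    · rw [pr_eta]
      push_cast
      rw [if_pos rfl, if_neg, if_neg, if_neg]
      · simpa using hev (τ + σ)
      · intro h
        exact hτ (by linear_combination -h)
      · intro h
        exact hσ (by linear_combination -h)
      · intro h
        exact hu (odd_two hodd (by linear_combination -h))
    · rw [pr_eta]
      push_cast
      rw [if_neg, if_pos, if_neg, if_neg]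
      · simpa using hev (-(τ + σ))
      · intro h
        exact hσ (by linear_combination h)
      · intro h
        exact hτ (by linear_combination h)
      · ring
      · intro h
        exact hu (odd_two hodd (by linear_combination h))
  · intro hv
    push_cast at hv
    constructor
    · rw [pr_eta]
      push_cast
      rw [if_neg, if_neg, if_pos rfl, if_neg]
      · have := hev (τ - σ)
        rw [add_zero, zero_sub, sub_zero, ev_neg φ (hint _)]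
        exact neg_ne_zero.2 this
      · intro h
        exact hv (odd_two hodd (by linear_combination -h))
      · intro h
        exact hτ (by linear_combination -h)
      · intro h
        exact hσ (by linear_combination h)
    · rw [pr_eta]
      push_cast
      rw [if_neg, if_neg, if_neg, if_pos]
      · have := hev (σ - τ)
        rw [add_zero, sub_zero, zero_sub, ev_neg φ (hint _)]
        exact neg_ne_zero.2 this
      · ring
      · intro h
        exact hv (odd_two hodd (by linear_combination h))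
      · intro h
        exact hσ (by linear_combination -h)
      · intro h
        exact hτ (by linear_combination h)

/-- The components of `G` are algebraic integers (`isCyc_pr`, `isIntegral_isCyc`), and so are those of
`eta` (`pr_eta`) and of `w = x + x⁻¹ + y + y⁻¹ + 4`. From `mul_id`, `pr_mul` and `pr_congr`:
`∑ i, pr i G * (pr (γ - i) G + pr (γ - i) η) = 2 pr γ w`; apply `ev φ`, with `2 = 0 = -2` in `K`. -/
theorem ex_id {K : Type} [Field K] [CharP K 2] (φ : integralClosure ℤ ℂ →+* K) {ζ : ℂ}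
    (hζ : ζ ∈ primitiveRoots N ℂ) (γ : ZMod n) :
    ∑ i, ev φ (pr n i G ζ) * ev φ (pr n (γ - i) G ζ) =
      ∑ i, ev φ (pr n i G ζ) * ev φ (pr n (γ - i) (eta τ σ) ζ) := by
  have hGi : ∀ i : ZMod n, IsIntegral ℤ (pr n i G ζ) := fun i =>
    isIntegral_isCyc hN0 (isCyc_pr hN0 hN hp hG i) hζ
  have hηi : ∀ i : ZMod n, IsIntegral ℤ (pr n i (eta τ σ) ζ) := fun i =>
    isIntegral_isCyc hN0 (isCyc_pr hN0 hN hp (isCyc_eta hN0 τ σ) i) hζ
  set W : ℂ → ℂ := fun μ => μ ^ (2 * τ) + μ ^ (-(2 * τ)) + μ ^ (2 * σ) + μ ^ (-(2 * σ)) +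
    ((4 : ℤ) : ℂ) with hW
  have hWc : IsCyc N W := ((((isCyc_zpow hN0 (2 * τ)).add (isCyc_zpow hN0 (-(2 * τ)))).add
    (isCyc_zpow hN0 (2 * σ))).add (isCyc_zpow hN0 (-(2 * σ)))).add (isCyc_int N 4)
  have hWi : IsIntegral ℤ (pr n γ W ζ) := isIntegral_isCyc hN0 (isCyc_pr hN0 hN hp hWc γ) hζ
  have hkey : pr n γ (fun ν => G ν * (G ν + eta τ σ ν)) ζ = pr n γ (fun ν => 2 * W ν) ζ := by
    refine pr_congr hN0 hN hp (fun μ hμ => ?_) γ ζ hζ
    rw [mul_id hN0 hμ (hsq μ hμ), hW]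
    push_cast
    ring
  rw [pr_mul γ G (fun ν => G ν + eta τ σ ν), pr_const_mul] at hkey
  simp only [pr_add] at hkey
  have h2 : IsIntegral ℤ (2 : ℂ) := by
    have := isIntegral_algebraMap (R := ℤ) (A := ℂ) (x := (2 : ℤ))
    simpa using this
  have hev := congrArg (ev φ) hkey
  rw [ev_sum φ Finset.univ (fun i _ => (hGi i).mul ((hGi _).add (hηi _))), ev_mul φ h2 hWi] at hev
  have h20 : ev φ (2 : ℂ) = 0 := by
    have := ev_int φ 2
    push_cast at this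
    rw [this]
    exact CharTwo.two_eq_zero
  rw [h20, zero_mul] at hev
  have h3 : ∀ i : ZMod n, ev φ (pr n i G ζ * (pr n (γ - i) G ζ + pr n (γ - i) (eta τ σ) ζ)) =
      ev φ (pr n i G ζ) * ev φ (pr n (γ - i) G ζ) +
      ev φ (pr n i G ζ) * ev φ (pr n (γ - i) (eta τ σ) ζ) := by
    intro i
    rw [ev_mul φ (hGi i) ((hGi _).add (hηi _)), ev_add φ (hGi _) (hηi _), mul_add]
  rw [Finset.sum_congr rfl fun i _ => h3 i, Finset.sum_add_distrib] at hev
  exact CharTwo.add_eq_zero.1 hev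

/-- `star_G`, `star_pr`. -/
theorem ex_symm {ζ : ℂ} (hζ : ζ ∈ primitiveRoots N ℂ) {i : ZMod n} (hi : pr n i G ζ ≠ 0) :
    pr n (-i) G ζ ≠ 0 := by
  have h := star_pr hN0 hN hp (F := G) (fun μ hμ => star_G hN0 hμ (hsq μ hμ)) i ζ hζ
  rw [← h]
  exact star_ne_zero.2 hi

/-- Values of `G` and of `G + η` in terms of the components: `sum_pr` at `ζ ω`, with
`pr n i G (ζ * ω) = ω ^ i * pr n i G ζ` for `ω = stdAddChar j`. So if the sums of
`ev φ (pr n i G ζ)` over the classes `D i = w` all vanish, then `ev φ (G (ζ * ω)) = 0` whenever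
`ω = ω' ^ D` with `ω' ^ n = 1`. -/
theorem ev_G_of_group {K : Type} [Field K] (φ : integralClosure ℤ ℂ →+* K) {ζ : ℂ}
    (hζ : ζ ∈ primitiveRoots N ℂ) (D' : ℕ)
    (h : ∀ w : ZMod n, ∑ i ∈ Finset.univ.filter (fun i => (D' : ZMod n) * i = w),
      ev φ (pr n i G ζ) = 0) {ω : ℂ} (hω : ω ^ n = 1) : ev φ (G (ζ * ω ^ D')) = 0 := by
  exact ev_zero_of_group φ G (fun i => isIntegral_isCyc hN0 (isCyc_pr hN0 hN hp hG i) hζ) D' h hω

/-- The same for `G + η`: in characteristic `2`. -/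
theorem ev_G_eta_of_group {K : Type} [Field K] [CharP K 2] (φ : integralClosure ℤ ℂ →+* K) {ζ : ℂ}
    (hζ : ζ ∈ primitiveRoots N ℂ) (D' : ℕ)
    (h : ∀ w : ZMod n, ∑ i ∈ Finset.univ.filter (fun i => (D' : ZMod n) * i = w),
      ev φ (pr n i G ζ) = ∑ i ∈ Finset.univ.filter (fun i => (D' : ZMod n) * i = w),
      ev φ (pr n i (eta τ σ) ζ)) {ω : ℂ} (hω : ω ^ n = 1) :
    ev φ (G (ζ * ω ^ D') + eta τ σ (ζ * ω ^ D')) = 0 := by
  have hGi : ∀ i : ZMod n, IsIntegral ℤ (pr n i G ζ) := fun i =>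
    isIntegral_isCyc hN0 (isCyc_pr hN0 hN hp hG i) hζ
  have hηi : ∀ i : ZMod n, IsIntegral ℤ (pr n i (eta τ σ) ζ) := fun i =>
    isIntegral_isCyc hN0 (isCyc_pr hN0 hN hp (isCyc_eta hN0 τ σ) i) hζ
  have hadd : ∀ i : ZMod n, pr n i (fun ν => G ν + eta τ σ ν) ζ =
      pr n i G ζ + pr n i (eta τ σ) ζ := fun i => pr_add i G (eta τ σ) ζ
  refine ev_zero_of_group φ (fun ν => G ν + eta τ σ ν) (fun i => ?_) D' (fun w => ?_) hω
  · rw [hadd]
    exact (hGi i).add (hηi i)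
  · rw [Finset.sum_congr rfl fun i _ => (by rw [hadd, ev_add φ (hGi i) (hηi i)] :
      ev φ (pr n i (fun ν => G ν + eta τ σ ν) ζ) =
        ev φ (pr n i G ζ) + ev φ (pr n i (eta τ σ) ζ)), Finset.sum_add_distrib, h w]
    exact CharTwo.add_self_eq_zero _

end

end Pool.Agent.Lib.MP_baf44c_co.Q1
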