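import Mathlib

/-!
Hadamard's inequality for integer matrices with rows of norm at most `√10`.
-/

set_option autoImplicit false

namespace Pool.Agent.Lib.MP_baf44c_co.Q1

private lemma Hadamard_real {k : ℕ} (A : Matrix (Fin k) (Fin k) ℝ) :
    |A.det| ≤ ∏ i, Real.sqrt (∑ j, A i j ^ 2) := by
  classical
  have : Fact (Module.finrank ℝ (EuclideanSpace ℝ (Fin k)) = k) :=
    ⟨by simp⟩
  set b := EuclideanSpace.basisFun (Fin k) ℝ with hb
  set v : Fin k → EuclideanSpace ℝ (Fin k) := fun i => WithLp.toLp 2 (A i) with hv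
  have h := b.toBasis.orientation.abs_volumeForm_apply_le v
  rw [Orientation.volumeForm_robust _ b rfl, Module.Basis.det_apply] at h
  have h1 : b.toBasis.toMatrix v = A.transpose := by
    ext i j
    simp [Module.Basis.toMatrix_apply, hb, hv]
  rw [h1, Matrix.det_transpose] at h
  refine h.trans (le_of_eq (Finset.prod_congr rfl fun i _ => ?_))
  rw [EuclideanSpace.norm_eq]
  simp [hv]

/-- Hadamard's inequality (e.g. from `Orientation.abs_volumeForm_apply_le` in
`Mathlib.Analysis.InnerProductSpace.Orientation`, applied in `EuclideanSpace ℝ (Fin k)`; for `k = 0`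
trivial). -/
theorem det_sq_le {k : ℕ} (A : Matrix (Fin k) (Fin k) ℤ) (hA : ∀ i, ∑ j, A i j ^ 2 ≤ 10) :
    A.det ^ 2 ≤ 10 ^ k := by
  have h := Hadamard_real (A.map (Int.castRingHom ℝ))
  have h0 : (A.map (Int.castRingHom ℝ)).det = (A.det : ℝ) := by
    rw [← RingHom.mapMatrix_apply, ← RingHom.map_det]
    simp
  rw [h0] at h
  have h1 : ∏ i, Real.sqrt (∑ j, (A.map (Int.castRingHom ℝ)) i j ^ 2) ≤ ∏ _i : Fin k,
      Real.sqrt 10 := by
    refine Finset.prod_le_prod (fun i _ => Real.sqrt_nonneg _) fun i _ => ?_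
    refine Real.sqrt_le_sqrt ?_
    have h2 := hA i
    have h3 : ((∑ j, A i j ^ 2 : ℤ) : ℝ) ≤ 10 := by exact_mod_cast h2
    simpa using h3
  have h4 : |(A.det : ℝ)| ≤ Real.sqrt 10 ^ k := by
    refine (h.trans h1).trans (le_of_eq ?_)
    simp
  have h5 : (A.det : ℝ) ^ 2 ≤ 10 ^ k := by
    calc (A.det : ℝ) ^ 2 = |(A.det : ℝ)| ^ 2 := (sq_abs _).symm
      _ ≤ (Real.sqrt 10 ^ k) ^ 2 := pow_le_pow_left₀ (abs_nonneg _) h4 2
      _ = 10 ^ k := by
        rw [← pow_mul, mul_comm, pow_mul, Real.sq_sqrt (by norm_num)]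
  exact_mod_cast h5

end Pool.Agent.Lib.MP_baf44c_co.Q1
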