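import Pool.Agent.Lib.MP_baf44c_co.Q1.Num
import Pool.Agent.Lib.MP_baf44c_co.FB.SplitA

/-!
Multiplicative relations between few values of `gam`.
-/

set_option autoImplicit false

namespace Pool.Agent.Lib.MP_baf44c_co.Q1

open Pool.Agent.Lib.MP_baf44c_co.FB

def setA : List ℚ := [1 / 3, 1 / 4, 1 / 6, 1 / 8, 3 / 8, 1 / 12, 5 / 12]

def setB : List ℚ := [1 / 4, 1 / 5, 2 / 5, 1 / 8, 3 / 8, 1 / 10, 3 / 10]

def setO : List ℚ := [1 / 3, 1 / 5, 2 / 5, 1 / 7, 2 / 7, 3 / 7]

/-- The test: all sign vectors with `k` nonzero entries, `k ≠ 0, m`, are excluded. -/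
private def relTst (m : ℕ) : List ℕ → ℕ → ℕ → ℕ → ℕ → ℕ → Bool
  | [], a, b, c, d, k => Nat.beq k 0 || (Nat.beq k m || (Nat.ble (b + 1) c || Nat.ble (d + 1) a))
  | n :: L, a, b, c, d, k => relTst m L a b c d k &&
      (relTst m L (a * n) (b * (n + 1)) (c * 10000000) (d * 10000000) (k + 1) &&
        relTst m L (a * 10000000) (b * 10000000) (c * n) (d * (n + 1)) (k + 1))

private theorem relTst_sound (m : ℕ) (e : ℚ → ℤ) (L : List (ℚ × ℕ)) :
    (∀ p ∈ L, 0 < gam p.1 ∧ (p.2 : ℝ) ≤ 10 ^ 7 * gam p.1 ∧ 10 ^ 7 * gam p.1 ≤ p.2 + 1) →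
    (∀ p ∈ L, e p.1 = 0 ∨ e p.1 = 1 ∨ e p.1 = -1) →
    ∀ (a b c d k : ℕ) (X Y : ℝ), (a : ℝ) ≤ X → X ≤ b → (c : ℝ) ≤ Y → Y ≤ d →
      X * (L.map fun p => gam p.1 ^ e p.1).prod = Y →
      relTst m (L.map Prod.snd) a b c d k = true →
      k + (L.map fun p => if e p.1 = 0 then 0 else 1).sum = 0 ∨
      k + (L.map fun p => if e p.1 = 0 then 0 else 1).sum = m := by
  induction L with
  | nil =>
    intro _ _ a b c d k X Y ha hb hc hd h ht
    simp only [List.map_nil, List.prod_nil, mul_one, List.sum_nil, add_zero] at h ⊢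
    simp only [List.map_nil, relTst, Bool.or_eq_true, Nat.ble_eq] at ht
    rcases ht with ht | ht | ht | ht
    · exact Or.inl (Nat.eq_of_beq_eq_true ht)
    · exact Or.inr (Nat.eq_of_beq_eq_true ht)
    · exfalso
      have : ((b + 1 : ℕ) : ℝ) ≤ c := by exact_mod_cast ht
      push_cast at this
      linarith
    · exfalso
      have : ((d + 1 : ℕ) : ℝ) ≤ a := by exact_mod_cast ht
      push_cast at this
      linarith
  | cons p L ih =>
    intro hL he a b c d k X Y ha hb hc hd h ht
    obtain ⟨hg, hlo, hup⟩ := hL p List.mem_cons_self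
    have hL' := fun q hq => hL q (List.mem_cons_of_mem _ hq)
    have he' := fun q hq => he q (List.mem_cons_of_mem _ hq)
    have ih' := ih hL' he'
    simp only [List.map_cons, List.prod_cons, List.sum_cons, relTst, Bool.and_eq_true] at h ht ⊢
    obtain ⟨ht0, ht1, ht2⟩ := ht
    have hX : 0 ≤ X := le_trans (Nat.cast_nonneg a) ha
    have hY : 0 ≤ Y := le_trans (Nat.cast_nonneg c) hc
    have hb0 : (0 : ℝ) ≤ b := Nat.cast_nonneg b
    have hd0 : (0 : ℝ) ≤ d := Nat.cast_nonneg d
    have hn0 : (0 : ℝ) ≤ p.2 := Nat.cast_nonneg _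
    have hg0 : (0 : ℝ) ≤ 10 ^ 7 * gam p.1 := by positivity
    rcases he p List.mem_cons_self with h0 | h0 | h0
    · rw [h0, zpow_zero, one_mul] at h
      rw [if_pos h0, zero_add]
      exact ih' a b c d k X Y ha hb hc hd h ht0
    · rw [h0, zpow_one] at h
      have h3 : ¬ e p.1 = 0 := by rw [h0]; norm_num
      rw [if_neg h3, ← add_assoc]
      refine ih' (a * p.2) (b * (p.2 + 1)) (c * 10000000) (d * 10000000) (k + 1)
        (X * (10 ^ 7 * gam p.1)) (Y * 10000000) ?_ ?_ ?_ ?_ ?_ ht1
      · push_cast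
        exact mul_le_mul ha hlo hn0 hX
      · push_cast
        exact mul_le_mul hb hup hg0 hb0
      · push_cast
        exact mul_le_mul_of_nonneg_right hc (by norm_num)
      · push_cast
        exact mul_le_mul_of_nonneg_right hd (by norm_num)
      · rw [← h]
        ring
    · rw [h0, zpow_neg_one] at h
      have h3 : ¬ e p.1 = 0 := by rw [h0]; norm_num
      rw [if_neg h3, ← add_assoc]
      refine ih' (a * 10000000) (b * 10000000) (c * p.2) (d * (p.2 + 1)) (k + 1)
        (X * 10000000) (Y * (10 ^ 7 * gam p.1)) ?_ ?_ ?_ ?_ ?_ ht2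
      · push_cast
        exact mul_le_mul_of_nonneg_right ha (by norm_num)
      · push_cast
        exact mul_le_mul_of_nonneg_right hb (by norm_num)
      · push_cast
        exact mul_le_mul hc hlo hn0 hY
      · push_cast
        exact mul_le_mul hd hup hg0 hd0
      · rw [← h]
        have hne : gam p.1 ≠ 0 := hg.ne'
        generalize (L.map fun p => gam p.1 ^ e p.1).prod = P
        calc X * 10000000 * P = X * 10000000 * P * ((gam p.1)⁻¹ * gam p.1) := by
              rw [inv_mul_cancel₀ hne, mul_one]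
          _ = X * ((gam p.1)⁻¹ * P) * (10 ^ 7 * gam p.1) := by
              norm_num
              ring

private theorem rel_gen (m : ℕ) (L : List (ℚ × ℕ)) (hL : ∀ p ∈ L, p ∈ tb)
    (hnd : (L.map Prod.fst).Nodup) (ht : relTst m (L.map Prod.snd) 1 1 1 1 0 = true)
    {J : Finset ℚ} (hJ : ∀ r ∈ J, r ∈ L.map Prod.fst) {e : ℚ → ℤ}
    (he : ∀ r ∈ J, e r = 1 ∨ e r = -1) (h : ∏ r ∈ J, gam r ^ e r = 1) :
    J.card = 0 ∨ J.card = m := by
  classical
  obtain ⟨e', he'⟩ : ∃ e' : ℚ → ℤ, e' = fun r => if r ∈ J then e r else 0 := ⟨_, rfl⟩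
  have hsub : J ⊆ (L.map Prod.fst).toFinset := fun r hr => List.mem_toFinset.2 (hJ r hr)
  have h1 : ∏ r ∈ (L.map Prod.fst).toFinset, gam r ^ e' r = 1 := by
    rw [← h]
    symm
    rw [← Finset.prod_subset hsub]
    · refine Finset.prod_congr rfl fun r hr => ?_
      rw [he']
      simp only [if_pos hr]
    · intro r _ hr
      rw [he']
      simp only [if_neg hr, zpow_zero]
  have h2 : J.card = ∑ r ∈ (L.map Prod.fst).toFinset, if e' r = 0 then 0 else 1 := by
    rw [Finset.card_eq_sum_ones, ← Finset.sum_subset hsub]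
    · refine Finset.sum_congr rfl fun r hr => ?_
      have : ¬ e' r = 0 := by
        rw [he']
        simp only [if_pos hr]
        rcases he r hr with h3 | h3 <;> rw [h3] <;> norm_num
      rw [if_neg this]
    · intro r _ hr
      have : e' r = 0 := by
        rw [he']
        simp only [if_neg hr]
      rw [if_pos this]
  rw [List.prod_toFinset _ hnd, List.map_map] at h1
  rw [List.sum_toFinset _ hnd, List.map_map] at h2
  have h4 := relTst_sound m e' L
    (fun p hp => ⟨gam_pos p.1, gam_bd p (hL p hp)⟩)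
    (fun p _ => by
      rw [he']
      by_cases hp : p.1 ∈ J
      · simp only [if_pos hp]
        exact Or.inr (he _ hp)
      · simp only [if_neg hp, true_or])
    1 1 1 1 0 1 1 (by simp) (by simp) (by simp) (by simp) (by rw [one_mul]; exact h1) ht
  rw [zero_add] at h4
  rw [h2]
  exact h4

private def listA : List (ℚ × ℕ) := [(1 / 3, 16180339), (1 / 4, 19318516), (1 / 6, 21889010),
  (1 / 8, 22853322), (3 / 8, 14534059), (1 / 12, 23562540), (5 / 12, 12917698)]

private def listB : List (ℚ × ℕ) := [(1 / 4, 19318516), (1 / 5, 20952939), (2 / 5, 13556742),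
  (1 / 8, 22853322), (3 / 8, 14534059), (1 / 10, 23310958), (3 / 10, 17477384)]

private def listO : List (ℚ × ℕ) := [(1 / 3, 16180339), (1 / 5, 20952939), (2 / 5, 13556742),
  (1 / 7, 22469796), (2 / 7, 18019377), (3 / 7, 12469796)]

/-- A relation means that the product of the `gam r` with `e r = 1` equals that of the `gam r` with
`e r = -1`. With the bounds `gam_bd` (`10 ^ 7 gam r` between `n` and `n + 1`) compare the two products: write a boolean
test running over the `3 ^ 7` sign vectors (recursion on a list of numbers `n`, carrying the products of the lower and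
the upper bounds on both sides, multiplied by `10 ^ 7` on the other side to keep integers), prove that it is
sound and evaluate by `decide +kernel`. Numerically the smallest nonzero value of
`|∑ e r log (gam r)|` is `0.0019` for `setA`, `0.000097` for `setB`, and `0.006` for `setO` apart from the
exact relation `gam (1/7) = gam (2/7) gam (3/7)`. -/
theorem relA {J : Finset ℚ} (hJ : ∀ r ∈ J, r ∈ setA) {e : ℚ → ℤ} (he : ∀ r ∈ J, e r = 1 ∨ e r = -1)
    (h : ∏ r ∈ J, gam r ^ e r = 1) : J = ∅ := by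
  have h1 := rel_gen 0 listA (by simp [listA, tb]) (by simp [listA]; norm_num)
    (by decide +kernel) (J := J) (by simpa [listA, setA] using hJ) he h
  rw [or_self] at h1
  exact Finset.card_eq_zero.1 h1

theorem relB {J : Finset ℚ} (hJ : ∀ r ∈ J, r ∈ setB) {e : ℚ → ℤ} (he : ∀ r ∈ J, e r = 1 ∨ e r = -1)
    (h : ∏ r ∈ J, gam r ^ e r = 1) : J = ∅ := by
  have h1 := rel_gen 0 listB (by simp [listB, tb]) (by simp [listB]; norm_num)
    (by decide +kernel) (J := J) (by simpa [listB, setB] using hJ) he h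
  rw [or_self] at h1
  exact Finset.card_eq_zero.1 h1

/-- All sign vectors except `0` and `±(0, 0, 0, 1, -1, -1)` are excluded numerically. -/
theorem relO {J : Finset ℚ} (hJ : ∀ r ∈ J, r ∈ setO) {e : ℚ → ℤ} (he : ∀ r ∈ J, e r = 1 ∨ e r = -1)
    (h : ∏ r ∈ J, gam r ^ e r = 1) : J = ∅ ∨ J.card = 3 := by
  have h1 := rel_gen 3 listO (by simp [listO, tb]) (by simp [listO]; norm_num)
    (by decide +kernel) (J := J) (by simpa [listO, setO] using hJ) he h
  rcases h1 with h1 | h1
  · exact Or.inl (Finset.card_eq_zero.1 h1)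
  · exact Or.inr h1

end Pool.Agent.Lib.MP_baf44c_co.Q1
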