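import Pool.Agent.Lib.MP_baf44c_co.FB.Final
import Pool.Agent.Lib.MP_baf44c_co.Q1.ClassDen
import Pool.Agent.Lib.MP_baf44c_co.Q1.Rel

/-!
Repeated roots of Stanley's polynomials.
-/

set_option autoImplicit false

namespace Pool.Agent.Lib.MP_baf44c_co.Q1

open Polynomial Pool.Agent.Lib.MP_baf44c_co.FB

theorem rat_mem {r : ℚ} (h0 : 0 < r) (h1 : r < 1 / 2) (hd : r.den ∈ [3, 4, 5, 6, 7, 8, 10, 12]) :
    r ∈ [1 / 3, 1 / 4, 1 / 5, 2 / 5, 1 / 6, 1 / 7, 2 / 7, 3 / 7, 1 / 8, 3 / 8, 1 / 10, 3 / 10, 1 / 12,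
      (5 : ℚ) / 12] := by
  have hnd := Rat.num_div_den r
  obtain ⟨a, ha⟩ : ∃ a : ℕ, (a : ℤ) = r.num :=
    ⟨r.num.toNat, Int.toNat_of_nonneg (Rat.num_pos.2 h0).le⟩
  have hcop := r.reduced
  rw [← ha] at hnd hcop
  rw [Int.natAbs_natCast] at hcop
  obtain ⟨d, hdd⟩ : ∃ d, d = r.den := ⟨_, rfl⟩
  rw [← hdd] at hnd hcop hd
  have hd0 : (0 : ℚ) < d := by
    rw [hdd]
    exact_mod_cast r.den_pos
  have ha0 : 0 < a := by
    rcases Nat.eq_zero_or_pos a with h | h
    · rw [h] at hnd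
      simp at hnd
      rw [← hnd] at h0
      exact absurd h0 (lt_irrefl _)
    · exact h
  have ha1 : 2 * a < d := by
    have h2 : ((a : ℤ) : ℚ) / d < 1 / 2 := by rw [hnd]; exact h1
    rw [div_lt_div_iff₀ hd0 (by norm_num)] at h2
    have h3 : (2 : ℚ) * a < d := by
      push_cast at h2
      linarith
    exact_mod_cast h3
  rw [← hnd]
  simp only [List.mem_cons, List.not_mem_nil, or_false] at hd
  rcases hd with rfl | rfl | rfl | rfl | rfl | rfl | rfl | rfl
  all_goals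
    have ha5 : a ≤ 5 := by omega
    interval_cases a <;> first | omega | (exfalso; revert hcop; decide) | norm_num

private theorem Mn_cj_pos (k j : ℕ) : 0 < cj k j := by
  rw [cj_eq_gam]
  exact gam_pos _

/-- If `14 ∤ k + 1` and `30 ∤ k + 1`, take `S ≠ T` as in `criterion`, `J` the set of the `j / (k+1)`,
`j ∈ (S \ T) ∪ (T \ S)`, `e = 1` on `S \ T` and `-1` on `T \ S` (see the proof of `FB.main_imp`). `J` is not empty and
`#J ≡ #S + #T` mod `2`. Every `r₀ ∈ J` lies in a set `C` as in `split_class`, whose members are pairwise related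
(`SqPair.symm`, `SqPair.trans`), `three_le_card` and `class_den` (`K = k + 1`) show that `den r₀ ∈ {3, 4, 5, 6, 7, 8, 10, 12}`,
and `den r₀ ∣ k + 1`. If `k + 1` is odd then `J ⊆ setO`, `k` is even and `#J` is even, contradicting `relO`. If `k + 1` is
even then `7 ∤ k + 1` and `15 ∤ k + 1`, so `J ⊆ setA` or `J ⊆ setB`. -/
theorem main {k : ℕ} (hk : 1 ≤ k) (h : HasRepeatedRoot (Q k)) : 14 ∣ k + 1 ∨ 30 ∣ k + 1 := by
  classical
  by_contra hcon
  push Not at hcon
  obtain ⟨h14, h30⟩ := hcon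
  have hk1 : (0 : ℚ) < (k : ℚ) + 1 := by positivity
  obtain ⟨S, hS, T, hT, hne, hprod, hpar⟩ := (criterion k).1 h
  have hcap : ∏ j ∈ S ∩ T, cj k j ≠ 0 :=
    Finset.prod_ne_zero_iff.2 fun j _ => (Mn_cj_pos k j).ne'
  have hST : ∏ j ∈ S \ T, cj k j = ∏ j ∈ T \ S, cj k j := by
    have h1 : (∏ j ∈ S \ T, cj k j) * ∏ j ∈ S ∩ T, cj k j = ∏ j ∈ S, cj k j := by
      rw [← Finset.sdiff_inter_self_left S T]
      exact Finset.prod_sdiff Finset.inter_subset_left
    have h2 : (∏ j ∈ T \ S, cj k j) * ∏ j ∈ S ∩ T, cj k j = ∏ j ∈ T, cj k j := by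
      rw [Finset.inter_comm, ← Finset.sdiff_inter_self_left T S]
      exact Finset.prod_sdiff Finset.inter_subset_left
    apply mul_right_cancel₀ hcap
    rw [h1, h2, hprod]
  have hdisj : Disjoint (S \ T) (T \ S) := disjoint_sdiff_sdiff
  -- the relation
  set fr : ℕ → ℚ := fun j => (j : ℚ) / (k + 1) with hfr
  have hfrinj : Function.Injective fr := by
    intro a b hab
    have h1 : (a : ℚ) / (k + 1) = (b : ℚ) / (k + 1) := hab
    rw [div_left_inj' hk1.ne'] at h1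
    exact_mod_cast h1
  have hUsub : ∀ j ∈ (S \ T) ∪ (T \ S), 1 ≤ j ∧ j * 2 ≤ k := by
    intro j hj
    have h1 : j ∈ Finset.Icc 1 (k / 2) := by
      rcases Finset.mem_union.1 hj with h | h
      · exact hS (Finset.mem_sdiff.1 h).1
      · exact hT (Finset.mem_sdiff.1 h).1
    obtain ⟨h2, h3⟩ := Finset.mem_Icc.1 h1
    exact ⟨h2, by omega⟩
  set J : Finset ℚ := ((S \ T) ∪ (T \ S)).image fr with hJ
  have hJ1 : ∀ r ∈ J, 0 < r ∧ r < 1 / 2 := by
    intro r hr
    obtain ⟨j, hj, rfl⟩ := Finset.mem_image.1 hr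
    obtain ⟨h1, h2⟩ := hUsub j hj
    have h1' : (0 : ℚ) < (j : ℚ) := by exact_mod_cast h1
    refine ⟨div_pos h1' hk1, ?_⟩
    show (j : ℚ) / (k + 1) < 1 / 2
    rw [div_lt_div_iff₀ hk1 (by norm_num)]
    have h3 : (j : ℚ) * 2 ≤ (k : ℚ) := by exact_mod_cast h2
    linarith
  set e : ℚ → ℤ := fun r => if r ∈ (S \ T).image fr then 1 else -1 with he
  have he1 : ∀ j ∈ S \ T, e (fr j) = 1 := by
    intro j hj
    simp only [he]
    rw [if_pos (Finset.mem_image_of_mem fr hj)]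
  have he2 : ∀ j ∈ T \ S, e (fr j) = -1 := by
    intro j hj
    simp only [he]
    rw [if_neg]
    intro hmem
    obtain ⟨i, hi, hij⟩ := Finset.mem_image.1 hmem
    have := hfrinj hij
    subst this
    exact (Finset.disjoint_left.1 hdisj) hi hj
  have hrel1 : ∏ r ∈ J, gam r ^ e r = 1 := by
    rw [hJ, Finset.prod_image fun a _ b _ hab => hfrinj hab, Finset.prod_union hdisj]
    have h1 : ∏ j ∈ S \ T, gam (fr j) ^ e (fr j) = ∏ j ∈ S \ T, cj k j :=
      Finset.prod_congr rfl fun j hj => by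
        rw [he1 j hj, zpow_one, cj_eq_gam]
    have h2 : ∏ j ∈ T \ S, gam (fr j) ^ e (fr j) = (∏ j ∈ T \ S, cj k j)⁻¹ := by
      rw [← Finset.prod_inv_distrib]
      refine Finset.prod_congr rfl fun j hj => ?_
      rw [he2 j hj, zpow_neg, zpow_one, cj_eq_gam]
    rw [h1, h2, hST]
    exact mul_inv_cancel₀ (Finset.prod_ne_zero_iff.2 fun j _ => (Mn_cj_pos k j).ne')
  have hee : ∀ r, e r = 1 ∨ e r = -1 := by
    intro r
    simp only [he]
    split_ifs <;> simp
  have hden : ∀ r ∈ J, r.den ∣ k + 1 := by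
    intro r hr
    obtain ⟨j, hj, rfl⟩ := Finset.mem_image.1 hr
    have h3 : ((fr j).den : ℤ) ∣ ((k + 1 : ℕ) : ℤ) := by
      have h4 := Rat.den_dvd (j : ℤ) ((k + 1 : ℕ) : ℤ)
      have h5 : ((j : ℤ) : ℚ) / (((k + 1 : ℕ) : ℤ) : ℚ) = fr j := by
        simp only [hfr]
        push_cast
        rfl
      rwa [Rat.divInt_eq_div, h5] at h4
    exact_mod_cast h3
  have hJne : J ≠ ∅ := by
    intro h0
    apply hne
    have h1 : (S \ T) ∪ (T \ S) = ∅ := by
      rw [hJ] at h0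
      exact Finset.image_eq_empty.1 h0
    have h2 := (Finset.union_eq_empty.1 h1)
    exact Finset.Subset.antisymm (Finset.sdiff_eq_empty_iff_subset.1 h2.1)
      (Finset.sdiff_eq_empty_iff_subset.1 h2.2)
  have hJcard : J.card + 2 * (S ∩ T).card = S.card + T.card := by
    have h1 : J.card = (S \ T).card + (T \ S).card := by
      rw [hJ, Finset.card_image_of_injective _ hfrinj, Finset.card_union_of_disjoint hdisj]
    have h2 : (S \ T).card + (S ∩ T).card = S.card := Finset.card_sdiff_add_card_inter S T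
    have h3 : (T \ S).card + (T ∩ S).card = T.card := Finset.card_sdiff_add_card_inter T S
    rw [Finset.inter_comm] at h3
    omega
  -- the denominators
  have hmem : ∀ r ∈ J, r ∈ [1 / 3, 1 / 4, 1 / 5, 2 / 5, 1 / 6, 1 / 7, 2 / 7, 3 / 7, 1 / 8, 3 / 8, 1 / 10,
      3 / 10, 1 / 12, (5 : ℚ) / 12] := by
    intro r₀ hr₀
    obtain ⟨C, hCJ, hrC, hsq, hrel⟩ := split_class J hJ1 e hrel1 hr₀
    have hC1 : ∀ r ∈ C, 0 < r ∧ r < 1 / 2 := fun r hr => hJ1 r (hCJ hr)
    have h3 := three_le_card hC1 (fun r _ => hee r) ⟨r₀, hrC⟩ hrel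
    have hk10 : 0 < k + 1 := by omega
    have hall : ∀ r ∈ C, ∀ s ∈ C, SqPair (xr r) (xr s) := fun r hr s hs =>
      (hsq r hr).symm.trans hk10 (xr_pow (hden r₀ hr₀)) (hsq s hs)
    have h4 := class_den hC1 hall h3 (fun r hr => hden r (hCJ hr)) h14 h30 r₀ hrC
    exact rat_mem (hJ1 r₀ hr₀).1 (hJ1 r₀ hr₀).2 h4
  have hd7 : ∀ r ∈ J, r = 1 / 7 ∨ r = 2 / 7 ∨ r = 3 / 7 → 7 ∣ k + 1 := by
    intro r hr h
    have h1 := hden r hr
    rcases h with rfl | rfl | rfl
    · rwa [show ((1 : ℚ) / 7).den = 7 by norm_num] at h1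
    · rwa [show ((2 : ℚ) / 7).den = 7 by norm_num] at h1
    · rwa [show ((3 : ℚ) / 7).den = 7 by norm_num] at h1
  have hd3 : ∀ r ∈ J, r = 1 / 3 ∨ r = 1 / 6 ∨ r = 1 / 12 ∨ r = 5 / 12 → 3 ∣ k + 1 := by
    intro r hr h
    have h1 := hden r hr
    rcases h with rfl | rfl | rfl | rfl
    · rwa [show ((1 : ℚ) / 3).den = 3 by norm_num] at h1
    · rw [show ((1 : ℚ) / 6).den = 6 by norm_num] at h1
      omega
    · rw [show ((1 : ℚ) / 12).den = 12 by norm_num] at h1
      omega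
    · rw [show ((5 : ℚ) / 12).den = 12 by norm_num] at h1
      omega
  have hd5 : ∀ r ∈ J, r = 1 / 5 ∨ r = 2 / 5 ∨ r = 1 / 10 ∨ r = 3 / 10 → 5 ∣ k + 1 := by
    intro r hr h
    have h1 := hden r hr
    rcases h with rfl | rfl | rfl | rfl
    · rwa [show ((1 : ℚ) / 5).den = 5 by norm_num] at h1
    · rwa [show ((2 : ℚ) / 5).den = 5 by norm_num] at h1
    · rw [show ((1 : ℚ) / 10).den = 10 by norm_num] at h1
      omega
    · rw [show ((3 : ℚ) / 10).den = 10 by norm_num] at h1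
      omega
  have hd2 : ∀ r ∈ J, r = 1 / 4 ∨ r = 1 / 6 ∨ r = 1 / 8 ∨ r = 3 / 8 ∨ r = 1 / 10 ∨ r = 3 / 10 ∨
      r = 1 / 12 ∨ r = 5 / 12 → 2 ∣ k + 1 := by
    intro r hr h
    have h1 := hden r hr
    rcases h with rfl | rfl | rfl | rfl | rfl | rfl | rfl | rfl
    · rw [show ((1 : ℚ) / 4).den = 4 by norm_num] at h1; omega
    · rw [show ((1 : ℚ) / 6).den = 6 by norm_num] at h1; omega
    · rw [show ((1 : ℚ) / 8).den = 8 by norm_num] at h1; omega
    · rw [show ((3 : ℚ) / 8).den = 8 by norm_num] at h1; omega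
    · rw [show ((1 : ℚ) / 10).den = 10 by norm_num] at h1; omega
    · rw [show ((3 : ℚ) / 10).den = 10 by norm_num] at h1; omega
    · rw [show ((1 : ℚ) / 12).den = 12 by norm_num] at h1; omega
    · rw [show ((5 : ℚ) / 12).den = 12 by norm_num] at h1; omega
  by_cases h2 : 2 ∣ k + 1
  · have h7 : ¬ 7 ∣ k + 1 := by omega
    by_cases h5 : 5 ∣ k + 1
    · have h3 : ¬ 3 ∣ k + 1 := by omega
      apply hJne
      apply relB (J := J) (e := e) _ (fun r _ => hee r) hrel1
      intro r hr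
      have a1 := hmem r hr
      have a7 := hd7 r hr
      have a3 := hd3 r hr
      simp only [List.mem_cons, List.not_mem_nil, or_false, setB] at a1 ⊢
      tauto
    · apply hJne
      apply relA (J := J) (e := e) _ (fun r _ => hee r) hrel1
      intro r hr
      have a1 := hmem r hr
      have a7 := hd7 r hr
      have a5 := hd5 r hr
      simp only [List.mem_cons, List.not_mem_nil, or_false, setA] at a1 ⊢
      tauto
  · have hO : ∀ r ∈ J, r ∈ setO := by
      intro r hr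
      have a1 := hmem r hr
      have a2 := hd2 r hr
      simp only [List.mem_cons, List.not_mem_nil, or_false, setO] at a1 ⊢
      tauto
    have hev : Even k := by
      rw [Nat.even_iff]
      omega
    have hp := hpar hev
    rcases relO hO (fun r _ => hee r) hrel1 with h0 | h0
    · exact hJne h0
    · omega

end Pool.Agent.Lib.MP_baf44c_co.Q1
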