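import Pool.Agent.Lib.MP_baf44c_co.Q1.Hadamard

/-!
A common denominator for a set of short integer vectors.
-/

set_option autoImplicit false

namespace Pool.Agent.Lib.MP_baf44c_co.Q1

/-- Coordinatewise embedding of `ℤ ^ k` in `ℚ ^ k`. -/
def toQ {k : ℕ} (v : Fin k → ℤ) : Fin k → ℚ := fun j => (v j : ℚ)

/-- Choose `r_1, …, r_ρ ∈ R` linearly independent over `ℚ` and spanning the `ℚ`-span of `R`, and `ρ`
columns such that the minor `Δ` of `r_1, …, r_ρ` on these columns is not zero; `D = |Δ|`. By
`det_sq_le` (drop coordinates: the rows of the minor have norm² `≤ 10`) `D ^ 2 ≤ 10 ^ ρ`. If `v` is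
an integer vector in the span, `v = ∑ x_i r_i`, Cramer's rule on the chosen columns shows that
`Δ x_i` is an integer. If `ρ = k` the span is everything and `D ^ 2 ≤ 10 ^ 6`, otherwise `ρ ≤ 5` and
`D ^ 2 ≤ 10 ^ 5`, so `D ≤ 316`. -/
theorem exists_D {k : ℕ} (hk : k ≤ 6) (R : Set (Fin k → ℤ)) (hR : ∀ r ∈ R, ∑ j, r j ^ 2 ≤ 10) :
    ∃ D : ℕ, 0 < D ∧
      (∀ v : Fin k → ℤ, toQ v ∈ Submodule.span ℚ (toQ '' R) → (D : ℤ) • v ∈ AddSubgroup.closure R) ∧
      (D ≤ 316 ∨ (D ≤ 1000 ∧ Submodule.span ℚ (toQ '' R) = ⊤)) := by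
  classical
  have hex := Submodule.exists_fun_fin_finrank_span_eq ℚ (toQ '' R)
  obtain ⟨ρ, hρ⟩ : ∃ ρ : ℕ, ρ = Module.finrank ℚ (Submodule.span ℚ (toQ '' R)) := ⟨_, rfl⟩
  rw [← hρ] at hex
  obtain ⟨f, hf, hfspan, hfli⟩ := hex
  choose r hrR hrf using hf
  have hρk : ρ ≤ k := by
    have := Submodule.finrank_le (Submodule.span ℚ (toQ '' R))
    rwa [Module.finrank_fin_fun, ← hρ] at this
  -- the rows as a matrix, its rank, the choice of columns
  set B : Matrix (Fin ρ) (Fin k) ℚ := Matrix.of f with hB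
  have hBrank : B.rank = ρ := by
    have : LinearIndependent ℚ B.row := hfli
    rw [LinearIndependent.rank_matrix this, Fintype.card_fin]
  have hcolrank : Module.finrank ℚ (Submodule.span ℚ (Set.range B.col)) = ρ := by
    rw [← Matrix.rank_eq_finrank_span_cols, hBrank]
  obtain ⟨g, hg, -, hgli⟩ := Submodule.exists_fun_fin_finrank_span_eq ℚ (Set.range B.col)
  choose c₀ hc₀ using hg
  set c : Fin ρ → Fin k := fun i => c₀ (Fin.cast hcolrank.symm i) with hc
  have hcol : LinearIndependent ℚ (fun i : Fin ρ => B.col (c i)) := by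
    have h1 : (fun i : Fin ρ => B.col (c i)) = g ∘ (Fin.cast hcolrank.symm) := by
      funext i
      exact hc₀ _
    rw [h1]
    exact hgli.comp _ (Fin.cast_injective _)
  have hcinj : Function.Injective c := by
    intro i j hij
    refine hcol.injective ?_
    show B.col (c i) = B.col (c j)
    rw [hij]
  -- the minor
  set A : Matrix (Fin ρ) (Fin ρ) ℤ := Matrix.of fun i j => r i (c j) with hA
  have hAQ : A.map (Int.cast : ℤ → ℚ) = B.submatrix id c := by
    ext i j
    simp only [Matrix.map_apply, hA, Matrix.of_apply, Matrix.submatrix_apply, id_eq, hB]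
    rw [← hrf i]
    rfl
  have hdetQ : (A.map (Int.cast : ℤ → ℚ)).det ≠ 0 := by
    rw [hAQ]
    have : LinearIndependent ℚ (B.submatrix id c).col := hcol
    rw [Matrix.linearIndependent_cols_iff_isUnit] at this
    exact ((Matrix.isUnit_iff_isUnit_det _).1 this).ne_zero
  have hdetcast : (A.map (Int.cast : ℤ → ℚ)).det = (A.det : ℚ) := by
    have := (Int.castRingHom ℚ).map_det A
    simpa using this.symm
  have hdet : A.det ≠ 0 := by
    intro h0
    apply hdetQ
    rw [hdetcast, h0, Int.cast_zero]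
  have hrow : ∀ i, ∑ j, A i j ^ 2 ≤ 10 := by
    intro i
    refine le_trans ?_ (hR (r i) (hrR i))
    have h1 : ∑ j, A i j ^ 2 = ∑ j ∈ Finset.univ.image c, r i j ^ 2 := by
      rw [Finset.sum_image (fun a _ b _ hab => hcinj hab)]
      rfl
    rw [h1]
    exact Finset.sum_le_sum_of_subset_of_nonneg (Finset.subset_univ _)
      (fun _ _ _ => sq_nonneg _)
  have hsq := det_sq_le A hrow
  have hsq' : A.det.natAbs ^ 2 ≤ 10 ^ ρ := by
    have : ((A.det.natAbs : ℤ)) ^ 2 ≤ 10 ^ ρ := by
      rw [Int.natAbs_sq]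
      exact hsq
    exact_mod_cast this
  refine ⟨A.det.natAbs, Int.natAbs_pos.2 hdet, ?_, ?_⟩
  · intro v hv
    rw [← hfspan, Submodule.mem_span_range_iff_exists_fun] at hv
    obtain ⟨x, hx⟩ := hv
    -- the integer coordinates
    set y : Fin ρ → ℤ := Matrix.vecMul (fun j => v (c j)) A.adjugate with hy
    have hvc : (fun j => (v (c j) : ℚ)) = Matrix.vecMul x (A.map (Int.cast : ℤ → ℚ)) := by
      funext j
      have h1 := congrFun hx (c j)
      have h2 : toQ v (c j) = (v (c j) : ℚ) := rfl
      rw [← h2, ← h1, hAQ]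
      simp only [Finset.sum_apply, Pi.smul_apply, smul_eq_mul, Matrix.vecMul, dotProduct,
        Matrix.submatrix_apply, id_eq, hB, Matrix.of_apply]
    have hyx : ∀ i, (y i : ℚ) = (A.det : ℚ) * x i := by
      intro i
      have h1 : (y i : ℚ) = Matrix.vecMul (fun j => (v (c j) : ℚ))
          ((A.map (Int.cast : ℤ → ℚ)).adjugate) i := by
        have hadj : (A.map (Int.cast : ℤ → ℚ)).adjugate = A.adjugate.map (Int.cast : ℤ → ℚ) := by
          have := (Int.castRingHom ℚ).map_adjugate A
          simpa using this.symm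
        rw [hadj, hy]
        simp only [Matrix.vecMul, dotProduct, Matrix.map_apply]
        push_cast
        rfl
      rw [h1, hvc, Matrix.vecMul_vecMul, Matrix.mul_adjugate, hdetcast, Matrix.vecMul_smul,
        Matrix.vecMul_one]
      rfl
    have hkey : A.det • v = ∑ i, y i • r i := by
      funext j
      have h1 : ((A.det • v) j : ℚ) = ((∑ i, y i • r i) j : ℤ) := by
        rw [Pi.smul_apply, smul_eq_mul, Finset.sum_apply, Int.cast_mul, Int.cast_sum]
        have h2 := congrFun hx j
        have h3 : toQ v j = (v j : ℚ) := rfl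
        rw [← h3, ← h2, Finset.sum_apply, Finset.mul_sum]
        refine Finset.sum_congr rfl fun i _ => ?_
        rw [Pi.smul_apply, Pi.smul_apply, smul_eq_mul, smul_eq_mul, Int.cast_mul, hyx i, ← hrf i,
          mul_assoc]
        rfl
      exact_mod_cast h1
    have hmem : A.det • v ∈ AddSubgroup.closure R := by
      rw [hkey]
      exact AddSubgroup.sum_mem _ fun i _ =>
        AddSubgroup.zsmul_mem _ (AddSubgroup.subset_closure (hrR i)) _
    rcases Int.natAbs_eq A.det with h | h
    · rw [← h]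
      exact hmem
    · have : ((A.det.natAbs : ℤ)) • v = -(A.det • v) := by
        conv_rhs => rw [h]
        rw [neg_smul, neg_neg]
      rw [this]
      exact AddSubgroup.neg_mem _ hmem
  · rcases hρk.lt_or_eq with hlt | heq
    · left
      have h5 : ρ ≤ 5 := by omega
      have h1 : A.det.natAbs ^ 2 ≤ 10 ^ 5 :=
        hsq'.trans (Nat.pow_le_pow_right (by norm_num) h5)
      by_contra hcon
      have h317 : 317 ≤ A.det.natAbs := by omega
      have : 317 ^ 2 ≤ A.det.natAbs ^ 2 := Nat.pow_le_pow_left h317 2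
      norm_num at this h1
      omega
    · right
      constructor
      · have h6 : ρ ≤ 6 := by omega
        have h1 : A.det.natAbs ^ 2 ≤ 10 ^ 6 :=
          hsq'.trans (Nat.pow_le_pow_right (by norm_num) h6)
        by_contra hcon
        have h1001 : 1001 ≤ A.det.natAbs := by omega
        have : 1001 ^ 2 ≤ A.det.natAbs ^ 2 := Nat.pow_le_pow_left h1001 2
        norm_num at this h1
        omega
      · apply Submodule.eq_top_of_finrank_eq
        rw [← hρ, heq, Module.finrank_fin_fun]

end Pool.Agent.Lib.MP_baf44c_co.Q1
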