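import Pool.Agent.Lib.MP_baf44c_co.FB.Gam

/-!
Numerical bounds.
-/

set_option autoImplicit false

namespace Pool.Agent.Lib.MP_baf44c_co.Q1

open Pool.Agent.Lib.MP_baf44c_co.FB

/-- Rationals `r` with the integer part of `10 ^ 7 gam r`. -/
def tb : List (ℚ × ℕ) := [(1 / 3, 16180339), (1 / 4, 19318516), (1 / 5, 20952939), (2 / 5, 13556742),
  (1 / 6, 21889010), (1 / 7, 22469796), (2 / 7, 18019377), (3 / 7, 12469796), (1 / 8, 22853322),
  (3 / 8, 14534059), (1 / 10, 23310958), (3 / 10, 17477384), (1 / 12, 23562540), (5 / 12, 12917698)]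

private theorem num_aux (r : ℚ) (c : ℝ) (k : ℕ) (hc : Real.cos (Real.pi * r) = c) (hk : 0 < k)
    (h1 : (k : ℝ) ^ 2 - 10 ^ 14 ≤ 2 * 10 ^ 7 * k * c)
    (h2 : 2 * 10 ^ 7 * ((k : ℝ) + 1) * c ≤ ((k : ℝ) + 1) ^ 2 - 10 ^ 14) :
    (k : ℝ) ≤ 10 ^ 7 * gam r ∧ 10 ^ 7 * gam r ≤ k + 1 := by
  have hk' : (0 : ℝ) < k := by exact_mod_cast hk
  have hs : (10 : ℝ) ^ 7 * gam r = 10 ^ 7 * c + Real.sqrt (10 ^ 14 * (1 + c ^ 2)) := by
    unfold gam
    rw [hc, Real.sqrt_mul (by positivity),
      show (10 : ℝ) ^ 14 = (10 ^ 7) ^ 2 by norm_num, Real.sqrt_sq (by positivity)]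
    ring
  rw [hs]
  constructor
  · have : (k : ℝ) - 10 ^ 7 * c ≤ Real.sqrt (10 ^ 14 * (1 + c ^ 2)) := by
      apply Real.le_sqrt_of_sq_le
      nlinarith
    linarith
  · have h3 : (10 : ℝ) ^ 7 * c ≤ k + 1 := by
      by_contra h
      push Not at h
      nlinarith
    have : Real.sqrt (10 ^ 14 * (1 + c ^ 2)) ≤ (k : ℝ) + 1 - 10 ^ 7 * c := by
      apply Real.sqrt_le_iff.2
      constructor
      · linarith
      · nlinarith
    linarith

private theorem num_aux' (r : ℚ) (c a b : ℝ) (k : ℕ) (hc : Real.cos (Real.pi * r) = c) (hk : 0 < k)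
    (ha : a ≤ c) (hb : c ≤ b)
    (h1 : (k : ℝ) ^ 2 - 10 ^ 14 ≤ 2 * 10 ^ 7 * k * a)
    (h2 : 2 * 10 ^ 7 * ((k : ℝ) + 1) * b ≤ ((k : ℝ) + 1) ^ 2 - 10 ^ 14) :
    (k : ℝ) ≤ 10 ^ 7 * gam r ∧ 10 ^ 7 * gam r ≤ k + 1 := by
  refine num_aux r c k hc hk (h1.trans ?_) (le_trans ?_ h2)
  · exact mul_le_mul_of_nonneg_left ha (by positivity)
  · exact mul_le_mul_of_nonneg_left hb (by positivity)

private theorem num_s2 : (1.41421356237 : ℝ) < Real.sqrt 2 ∧ Real.sqrt 2 < 1.41421356238 := by
  constructor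
  · apply (Real.lt_sqrt (by norm_num)).2
    norm_num
  · apply (Real.sqrt_lt' (by norm_num)).2
    norm_num

private theorem num_s3 : (1.73205080756 : ℝ) < Real.sqrt 3 ∧ Real.sqrt 3 < 1.73205080757 := by
  constructor
  · apply (Real.lt_sqrt (by norm_num)).2
    norm_num
  · apply (Real.sqrt_lt' (by norm_num)).2
    norm_num

private theorem num_s5 : (2.23606797749 : ℝ) < Real.sqrt 5 ∧ Real.sqrt 5 < 2.23606797750 := by
  constructor
  · apply (Real.lt_sqrt (by norm_num)).2
    norm_num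
  · apply (Real.sqrt_lt' (by norm_num)).2
    norm_num

private theorem num_c5 : Real.cos (Real.pi * ((2 / 5 : ℚ) : ℝ)) = (Real.sqrt 5 - 1) / 4 := by
  have h : Real.pi * ((2 / 5 : ℚ) : ℝ) = 2 * (Real.pi / 5) := by
    push_cast
    ring
  rw [h, Real.cos_two_mul, Real.cos_pi_div_five]
  have := Real.sq_sqrt (show (0 : ℝ) ≤ 5 by norm_num)
  nlinarith

/-- half angle: `0 < c`, `2 c ^ 2 - 1 = d` -/
private theorem num_half {c d a b : ℝ} (hc : 0 < c) (h : 2 * c ^ 2 - 1 = d) (ha : 0 < a)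
    (hb : 0 < b) (h1 : 2 * a ^ 2 - 1 < d) (h2 : d < 2 * b ^ 2 - 1) : a < c ∧ c < b := by
  constructor
  · nlinarith
  · nlinarith

private theorem num_cpos {x : ℝ} (h0 : 0 ≤ x) (h1 : x < Real.pi / 2) : 0 < Real.cos x :=
  Real.cos_pos_of_mem_Ioo ⟨by linarith [Real.pi_pos], h1⟩

private theorem num_cos4 (x : ℝ) :
    Real.cos (4 * x) = 8 * Real.cos x ^ 4 - 8 * Real.cos x ^ 2 + 1 := by
  rw [show 4 * x = 2 * (2 * x) by ring, Real.cos_two_mul, Real.cos_two_mul]
  ring

/-- the cubic equation for `cos (π/7)`, `cos (3π/7)` -/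
private theorem num_cub {x : ℝ} (h : Real.cos (4 * x) = - Real.cos (3 * x))
    (h1 : 0 < Real.cos x) :
    8 * Real.cos x ^ 3 - 4 * Real.cos x ^ 2 - 4 * Real.cos x + 1 = 0 := by
  rw [num_cos4, Real.cos_three_mul] at h
  have h2 : (Real.cos x + 1) *
      (8 * Real.cos x ^ 3 - 4 * Real.cos x ^ 2 - 4 * Real.cos x + 1) = 0 := by
    nlinarith
  rcases mul_eq_zero.1 h2 with h3 | h3
  · linarith
  · exact h3

/-- the cubic equation for `cos (2π/7)` -/
private theorem num_cub' {x : ℝ} (h : Real.cos (4 * x) = Real.cos (3 * x))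
    (h1 : Real.cos x < 1) :
    8 * Real.cos x ^ 3 + 4 * Real.cos x ^ 2 - 4 * Real.cos x - 1 = 0 := by
  rw [num_cos4, Real.cos_three_mul] at h
  have h2 : (Real.cos x - 1) *
      (8 * Real.cos x ^ 3 + 4 * Real.cos x ^ 2 - 4 * Real.cos x - 1) = 0 := by
    nlinarith
  rcases mul_eq_zero.1 h2 with h3 | h3
  · linarith
  · exact h3

private theorem num_c17 : (0.9009688679 : ℝ) < Real.cos (Real.pi / 7) ∧
    Real.cos (Real.pi / 7) < 0.9009688680 := by
  have h0 : (0.86 : ℝ) < Real.cos (Real.pi / 7) := by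
    have h1 : Real.cos (Real.pi / 6) < Real.cos (Real.pi / 7) :=
      Real.cos_lt_cos_of_nonneg_of_le_pi (by positivity) (by linarith [Real.pi_pos])
        (by linarith [Real.pi_pos])
    rw [Real.cos_pi_div_six] at h1
    linarith [num_s3.1]
  have h1 : Real.cos (Real.pi / 7) ≤ 1 := Real.cos_le_one _
  have h2 : Real.cos (4 * (Real.pi / 7)) = - Real.cos (3 * (Real.pi / 7)) := by
    rw [← Real.cos_pi_sub]
    congr 1
    ring
  have h3 := num_cub h2 (by linarith)
  set c := Real.cos (Real.pi / 7)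
  constructor
  · by_contra h
    push Not at h
    have h4 : (c - 0.9009688679) * (8 * (c ^ 2 + c * 0.9009688679 + 0.9009688679 ^ 2) -
      4 * (c + 0.9009688679) - 4) ≤ 0 :=
      mul_nonpos_of_nonpos_of_nonneg (by linarith) (by nlinarith)
    nlinarith
  · by_contra h
    push Not at h
    have h4 : 0 ≤ (c - 0.9009688680) * (8 * (c ^ 2 + c * 0.9009688680 + 0.9009688680 ^ 2) -
      4 * (c + 0.9009688680) - 4) :=
      mul_nonneg (by linarith) (by nlinarith)
    nlinarith

private theorem num_c37 : (0.2225209339 : ℝ) < Real.cos (3 * Real.pi / 7) ∧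
    Real.cos (3 * Real.pi / 7) < 0.2225209340 := by
  have h0 : (0 : ℝ) < Real.cos (3 * Real.pi / 7) :=
    num_cpos (by positivity) (by linarith [Real.pi_pos])
  have h1 : Real.cos (3 * Real.pi / 7) < 1 / 2 := by
    rw [← Real.cos_pi_div_three]
    exact Real.cos_lt_cos_of_nonneg_of_le_pi (by positivity) (by linarith [Real.pi_pos])
        (by linarith [Real.pi_pos])
  have h2 : Real.cos (4 * (3 * Real.pi / 7)) = - Real.cos (3 * (3 * Real.pi / 7)) := by
    rw [← Real.cos_pi_sub, ← Real.cos_add_two_pi (Real.pi - 3 * (3 * Real.pi / 7))]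
    congr 1
    ring
  have h3 := num_cub h2 (by linarith)
  set c := Real.cos (3 * Real.pi / 7)
  constructor
  · by_contra h
    push Not at h
    have h4 : 0 ≤ (c - 0.2225209339) * (8 * (c ^ 2 + c * 0.2225209339 + 0.2225209339 ^ 2) -
      4 * (c + 0.2225209339) - 4) :=
      mul_nonneg_of_nonpos_of_nonpos (by linarith) (by nlinarith)
    nlinarith
  · by_contra h
    push Not at h
    have h4 : (c - 0.2225209340) * (8 * (c ^ 2 + c * 0.2225209340 + 0.2225209340 ^ 2) -
      4 * (c + 0.2225209340) - 4) ≤ 0 :=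
      mul_nonpos_of_nonneg_of_nonpos (by linarith) (by nlinarith)
    nlinarith

private theorem num_c27 : (0.6234898018 : ℝ) < Real.cos (2 * Real.pi / 7) ∧
    Real.cos (2 * Real.pi / 7) < 0.6234898019 := by
  have h0 : (1 / 2 : ℝ) < Real.cos (2 * Real.pi / 7) := by
    rw [← Real.cos_pi_div_three]
    exact Real.cos_lt_cos_of_nonneg_of_le_pi (by positivity) (by linarith [Real.pi_pos])
        (by linarith [Real.pi_pos])
  have h1 : Real.cos (2 * Real.pi / 7) < 1 := by
    rw [← Real.cos_zero]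
    exact Real.cos_lt_cos_of_nonneg_of_le_pi (by positivity) (by linarith [Real.pi_pos])
        (by linarith [Real.pi_pos])
  have h2 : Real.cos (4 * (2 * Real.pi / 7)) = Real.cos (3 * (2 * Real.pi / 7)) := by
    rw [← Real.cos_neg (3 * (2 * Real.pi / 7)),
      ← Real.cos_add_two_pi (-(3 * (2 * Real.pi / 7)))]
    congr 1
    ring
  have h3 := num_cub' h2 h1
  set c := Real.cos (2 * Real.pi / 7)
  constructor
  · by_contra h
    push Not at h
    have h4 : (c - 0.6234898018) * (8 * (c ^ 2 + c * 0.6234898018 + 0.6234898018 ^ 2) +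
      4 * (c + 0.6234898018) - 4) ≤ 0 :=
      mul_nonpos_of_nonpos_of_nonneg (by linarith) (by nlinarith)
    nlinarith
  · by_contra h
    push Not at h
    have h4 : 0 ≤ (c - 0.6234898019) * (8 * (c ^ 2 + c * 0.6234898019 + 0.6234898019 ^ 2) +
      4 * (c + 0.6234898019) - 4) :=
      mul_nonneg (by linarith) (by nlinarith)
    nlinarith

/-- If `a ≤ cos (π r) ≤ b` with rational `0 ≤ a, b`, bound the square root by squaring. The cosines: `1/2`, `√2/2`,
`(1+√5)/4`, `(√5-1)/4`, `√3/2`; `cos (j π/7)` for `j = 1, 3` (and `-cos (2 π/7)`) are the roots of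
`8 c ^ 3 - 4 c ^ 2 - 4 c + 1`, located by signs (`cos 4θ = - cos 3θ` for `θ = π/7, 3π/7, 5π/7`, and coarse bounds by
monotonicity of `cos` on `[0, π]`, comparing with `π/6, π/4, π/3, π/2`); `cos (π/8)`, `cos (3π/8)`,
`cos (π/12)`, `cos (5π/12)`, `cos (π/10)`, `cos (3π/10)` by `cos 2θ = 2 cos θ ^ 2 - 1`. Values of the cosines
(in the order of the table): 0.5, 0.7071067812, 0.8090169944, 0.3090169944, 0.8660254038, 0.9009688679, 0.6234898019,
0.2225209340, 0.9238795325, 0.3826834324, 0.9510565163, 0.5877852523, 0.9659258263, 0.2588190451. -/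
theorem gam_bd : ∀ p ∈ tb, (p.2 : ℝ) ≤ 10 ^ 7 * gam p.1 ∧ 10 ^ 7 * gam p.1 ≤ p.2 + 1 := by
  have s2 := num_s2
  have s3 := num_s3
  have s5 := num_s5
  have pp := Real.pi_pos
  intro p hp
  unfold tb at hp
  simp only [List.mem_cons, List.not_mem_nil, or_false] at hp
  rcases hp with rfl | rfl | rfl | rfl | rfl | rfl | rfl | rfl | rfl | rfl | rfl | rfl | rfl | rfl
  · -- 1/3
    refine num_aux _ (1 / 2) _ ?_ (by norm_num) (by norm_num) (by norm_num)
    rw [show Real.pi * ((1 / 3 : ℚ) : ℝ) = Real.pi / 3 by push_cast; ring, Real.cos_pi_div_three]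
  · -- 1/4
    refine num_aux _ (Real.sqrt 2 / 2) _ ?_ (by norm_num) (by norm_num; linarith)
      (by norm_num; linarith)
    rw [show Real.pi * ((1 / 4 : ℚ) : ℝ) = Real.pi / 4 by push_cast; ring, Real.cos_pi_div_four]
  · -- 1/5
    refine num_aux _ ((1 + Real.sqrt 5) / 4) _ ?_ (by norm_num) (by norm_num; linarith)
      (by norm_num; linarith)
    rw [show Real.pi * ((1 / 5 : ℚ) : ℝ) = Real.pi / 5 by push_cast; ring, Real.cos_pi_div_five]
  · -- 2/5
    exact num_aux _ ((Real.sqrt 5 - 1) / 4) _ num_c5 (by norm_num) (by norm_num; linarith)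
      (by norm_num; linarith)
  · -- 1/6
    refine num_aux _ (Real.sqrt 3 / 2) _ ?_ (by norm_num) (by norm_num; linarith)
      (by norm_num; linarith)
    rw [show Real.pi * ((1 / 6 : ℚ) : ℝ) = Real.pi / 6 by push_cast; ring, Real.cos_pi_div_six]
  · -- 1/7
    have h := num_c17
    refine num_aux _ (Real.cos (Real.pi / 7)) _ ?_ (by norm_num) (by norm_num; linarith)
      (by norm_num; linarith)
    rw [show Real.pi * ((1 / 7 : ℚ) : ℝ) = Real.pi / 7 by push_cast; ring]
  · -- 2/7
    have h := num_c27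
    refine num_aux _ (Real.cos (2 * Real.pi / 7)) _ ?_ (by norm_num) (by norm_num; linarith)
      (by norm_num; linarith)
    rw [show Real.pi * ((2 / 7 : ℚ) : ℝ) = 2 * Real.pi / 7 by push_cast; ring]
  · -- 3/7
    have h := num_c37
    refine num_aux _ (Real.cos (3 * Real.pi / 7)) _ ?_ (by norm_num) (by norm_num; linarith)
      (by norm_num; linarith)
    rw [show Real.pi * ((3 / 7 : ℚ) : ℝ) = 3 * Real.pi / 7 by push_cast; ring]
  · -- 1/8
    have h0 : 0 < Real.cos (Real.pi / 8) := num_cpos (by positivity) (by linarith)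
    have h1 : 2 * Real.cos (Real.pi / 8) ^ 2 - 1 = Real.sqrt 2 / 2 := by
      rw [← Real.cos_two_mul, ← Real.cos_pi_div_four]
      congr 1
      ring
    have h := num_half h0 h1 (a := 0.9238795325) (b := 0.9238795326) (by norm_num) (by norm_num)
      (by norm_num; linarith) (by norm_num; linarith)
    refine num_aux' _ (Real.cos (Real.pi / 8)) 0.9238795325 0.9238795326 _ ?_ (by norm_num) h.1.le
      h.2.le (by norm_num) (by norm_num)
    rw [show Real.pi * ((1 / 8 : ℚ) : ℝ) = Real.pi / 8 by push_cast; ring]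
  · -- 3/8
    have h0 : 0 < Real.cos (3 * Real.pi / 8) := num_cpos (by positivity) (by linarith)
    have h1 : 2 * Real.cos (3 * Real.pi / 8) ^ 2 - 1 = - (Real.sqrt 2 / 2) := by
      rw [← Real.cos_two_mul, ← Real.cos_pi_div_four, ← Real.cos_pi_sub]
      congr 1
      ring
    have h := num_half h0 h1 (a := 0.3826834323) (b := 0.3826834324) (by norm_num) (by norm_num)
      (by norm_num; linarith) (by norm_num; linarith)
    refine num_aux _ (Real.cos (3 * Real.pi / 8)) _ ?_ (by norm_num) (by norm_num; linarith)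
      (by norm_num; linarith)
    rw [show Real.pi * ((3 / 8 : ℚ) : ℝ) = 3 * Real.pi / 8 by push_cast; ring]
  · -- 1/10
    have h0 : 0 < Real.cos (Real.pi / 10) := num_cpos (by positivity) (by linarith)
    have h1 : 2 * Real.cos (Real.pi / 10) ^ 2 - 1 = (1 + Real.sqrt 5) / 4 := by
      rw [← Real.cos_two_mul, ← Real.cos_pi_div_five]
      congr 1
      ring
    have h := num_half h0 h1 (a := 0.9510565162) (b := 0.9510565163) (by norm_num) (by norm_num)
      (by norm_num; linarith) (by norm_num; linarith)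
    refine num_aux _ (Real.cos (Real.pi / 10)) _ ?_ (by norm_num) (by norm_num; linarith)
      (by norm_num; linarith)
    rw [show Real.pi * ((1 / 10 : ℚ) : ℝ) = Real.pi / 10 by push_cast; ring]
  · -- 3/10
    have h0 : 0 < Real.cos (3 * Real.pi / 10) := num_cpos (by positivity) (by linarith)
    have h1 : 2 * Real.cos (3 * Real.pi / 10) ^ 2 - 1 = - ((Real.sqrt 5 - 1) / 4) := by
      rw [← Real.cos_two_mul, ← num_c5, ← Real.cos_pi_sub]
      congr 1
      push_cast
      ring
    have h := num_half h0 h1 (a := 0.5877852522) (b := 0.5877852523) (by norm_num) (by norm_num)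
      (by norm_num; linarith) (by norm_num; linarith)
    refine num_aux _ (Real.cos (3 * Real.pi / 10)) _ ?_ (by norm_num) (by norm_num; linarith)
      (by norm_num; linarith)
    rw [show Real.pi * ((3 / 10 : ℚ) : ℝ) = 3 * Real.pi / 10 by push_cast; ring]
  · -- 1/12
    have h0 : 0 < Real.cos (Real.pi / 12) := num_cpos (by positivity) (by linarith)
    have h1 : 2 * Real.cos (Real.pi / 12) ^ 2 - 1 = Real.sqrt 3 / 2 := by
      rw [← Real.cos_two_mul, ← Real.cos_pi_div_six]
      congr 1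
      ring
    have h := num_half h0 h1 (a := 0.9659258262) (b := 0.9659258263) (by norm_num) (by norm_num)
      (by norm_num; linarith) (by norm_num; linarith)
    refine num_aux _ (Real.cos (Real.pi / 12)) _ ?_ (by norm_num) (by norm_num; linarith)
      (by norm_num; linarith)
    rw [show Real.pi * ((1 / 12 : ℚ) : ℝ) = Real.pi / 12 by push_cast; ring]
  · -- 5/12
    have h0 : 0 < Real.cos (5 * Real.pi / 12) := num_cpos (by positivity) (by linarith)
    have h1 : 2 * Real.cos (5 * Real.pi / 12) ^ 2 - 1 = - (Real.sqrt 3 / 2) := by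
      rw [← Real.cos_two_mul, ← Real.cos_pi_div_six, ← Real.cos_pi_sub]
      congr 1
      ring
    have h := num_half h0 h1 (a := 0.2588190451) (b := 0.2588190452) (by norm_num) (by norm_num)
      (by norm_num; linarith) (by norm_num; linarith)
    refine num_aux _ (Real.cos (5 * Real.pi / 12)) _ ?_ (by norm_num) (by norm_num; linarith)
      (by norm_num; linarith)
    rw [show Real.pi * ((5 / 12 : ℚ) : ℝ) = 5 * Real.pi / 12 by push_cast; ring]

end Pool.Agent.Lib.MP_baf44c_co.Q1
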