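import Pool.Agent.Lib.MP_baf44c_co.Q1.Bounds
import Pool.Agent.Lib.MP_baf44c_co.Q1.BoundPrime

/-!
The prime divisors of the order.
-/

set_option autoImplicit false

namespace Pool.Agent.Lib.MP_baf44c_co.Q1

open Polynomial Pool.Agent.Lib.MP_baf44c_co.FB

private theorem cast_one_of_pow {N k p : ℕ} {x : ℂ} (hx : IsPrimitiveRoot x N) (hx0 : x ≠ 0)
    (hpN : p ∣ N) (h : x ^ k = x) : (k : ZMod p) = 1 := by
  have h1 : x ^ ((k : ℤ) - 1) = 1 := by
    rw [zpow_sub₀ hx0, zpow_natCast, h, zpow_one, div_self hx0]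
  have h2 : (p : ℤ) ∣ (k : ℤ) - 1 :=
    (Int.natCast_dvd_natCast.2 hpN).trans ((hx.zpow_eq_one_iff_dvd _).1 h1)
  have h3 := (ZMod.intCast_zmod_eq_zero_iff_dvd ((k : ℤ) - 1) p).2 h2
  push_cast at h3
  exact sub_eq_zero.1 h3

private theorem cast_neg_one_of_pow {N k p : ℕ} {x : ℂ} (hx : IsPrimitiveRoot x N)
    (hx0 : x ≠ 0) (hpN : p ∣ N) (h : x ^ k = x⁻¹) : (k : ZMod p) = -1 := by
  have h1 : x ^ (k + 1) = 1 := by rw [pow_succ, h, inv_mul_cancel₀ hx0]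
  have h2 : p ∣ k + 1 := hpN.trans ((hx.pow_eq_one_iff_dvd _).1 h1)
  have h3 := (ZMod.natCast_eq_zero_iff _ _).2 h2
  rw [Nat.cast_add, Nat.cast_one] at h3
  exact eq_neg_of_add_eq_zero_left h3

/-- Suppose `p ∣ N`, `p ≥ 61`. `p` is not a power of two, so neither is `N`. Let `b = (h : ZMod p)`;
`hty` gives `b ^ 2 = 1`, `b ^ 2 = -1` or `b ^ ℓ = 1`. `hrig` gives `j`; `h' = h ^ j` satisfies `Pr N h' x`
(if `b ≠ ±1` then `b ^ j ≠ ±1`, so `x ^ h' ≠ x, x⁻¹`; if `b = ±1` then `j = 1`) and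
`Rigid p (1 + h') (1 - h') (lm p)`. So `bound_prime_sq` or `bound_prime` gives a contradiction. -/
theorem prime_le {N h : ℕ} {x : ℂ} (H : Pr N h x) (hj : ∀ j : ℕ, SqPair x (x ^ (h ^ j)))
    (hty : x ^ (h ^ 2) = x ∨ x ^ (h ^ 2) = x⁻¹ ∨ ∃ ℓ : ℕ, ℓ.Prime ∧ ℓ ≠ 2 ∧ x ^ (h ^ ℓ) = x)
    {p : ℕ} [Fact p.Prime] (hpN : p ∣ N) (hrig : 61 ≤ p → RigAll p) : p ≤ 59 := by
  by_contra hbig
  push Not at hbig
  have hp : p.Prime := Fact.out
  have h61 : 61 ≤ p := by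
    rcases Nat.lt_or_ge p 61 with h1 | h1
    · have : p = 60 := by omega
      subst this
      exact absurd hp (by norm_num)
    · exact h1
  have hN0 : N ≠ 0 := by
    intro h0
    have := H.htot
    rw [h0] at this
    simp at this
  have hx0 : x ≠ 0 := H.hx.ne_zero hN0
  have hb : ((h : ZMod p)) ^ 2 = 1 ∨ ((h : ZMod p)) ^ 2 = -1 ∨
      ∃ ℓ : ℕ, ℓ.Prime ∧ ℓ ≠ 2 ∧ ((h : ZMod p)) ^ ℓ = 1 := by
    rcases hty with h1 | h1 | ⟨ℓ, hl, hl2, h1⟩
    · left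
      have := cast_one_of_pow H.hx hx0 hpN h1
      rwa [Nat.cast_pow] at this
    · right; left
      have := cast_neg_one_of_pow H.hx hx0 hpN h1
      rwa [Nat.cast_pow] at this
    · right; right
      refine ⟨ℓ, hl, hl2, ?_⟩
      have := cast_one_of_pow H.hx hx0 hpN h1
      rwa [Nat.cast_pow] at this
  obtain ⟨j, hj1, hj2, hR⟩ := hrig h61 (h : ZMod p) hb
  have H' : Pr N (h ^ j) x := by
    refine ⟨H.htot, H.hx, Nat.Coprime.pow_left j H.hh, ?_, ?_, hj j⟩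
    · intro h1
      by_cases hc : (h : ZMod p) = 1 ∨ (h : ZMod p) = -1
      · have := hj2 hc
        subst this
        rw [pow_one] at h1
        exact H.h1 h1
      · push Not at hc
        have h3 := cast_one_of_pow H.hx hx0 hpN h1
        rw [Nat.cast_pow] at h3
        exact (hj1 hc.1 hc.2).1 h3
    · intro h1
      by_cases hc : (h : ZMod p) = 1 ∨ (h : ZMod p) = -1
      · have := hj2 hc
        subst this
        rw [pow_one] at h1
        exact H.h2 h1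
      · push Not at hc
        have h3 := cast_neg_one_of_pow H.hx hx0 hpN h1
        rw [Nat.cast_pow] at h3
        exact (hj1 hc.1 hc.2).2 h3
  have hR' : Rigid p (1 + ((h ^ j : ℕ) : ZMod p)) (1 - ((h ^ j : ℕ) : ZMod p)) (lm p) := by
    rw [Nat.cast_pow]
    exact hR
  by_cases hsq : p ^ 2 ∣ N
  · exact bound_prime_sq H' h61 hsq hR'
  · exact bound_prime H' h61 hpN hsq hR'

end Pool.Agent.Lib.MP_baf44c_co.Q1
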