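import Pool.Agent.Lib.MP_baf44c_co.Q1.RigidArith
import Pool.Agent.Lib.MP_baf44c_co.Q1.Run.R61
import Pool.Agent.Lib.MP_baf44c_co.Q1.Run.R67
import Pool.Agent.Lib.MP_baf44c_co.Q1.Run.R71
import Pool.Agent.Lib.MP_baf44c_co.Q1.Run.R73
import Pool.Agent.Lib.MP_baf44c_co.Q1.Run.R79
import Pool.Agent.Lib.MP_baf44c_co.Q1.Run.R83
import Pool.Agent.Lib.MP_baf44c_co.Q1.Run.R89
import Pool.Agent.Lib.MP_baf44c_co.Q1.Run.R97
import Pool.Agent.Lib.MP_baf44c_co.Q1.Run.R109
import Pool.Agent.Lib.MP_baf44c_co.Q1.Run.R113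
import Pool.Agent.Lib.MP_baf44c_co.Q1.Run.R127
import Pool.Agent.Lib.MP_baf44c_co.Q1.Run.R137
import Pool.Agent.Lib.MP_baf44c_co.Q1.Run.R151
import Pool.Agent.Lib.MP_baf44c_co.Q1.Run.R157
import Pool.Agent.Lib.MP_baf44c_co.Q1.Run.R223
import Pool.Agent.Lib.MP_baf44c_co.Q1.Run.R229
import Pool.Agent.Lib.MP_baf44c_co.Q1.Run.R233
import Pool.Agent.Lib.MP_baf44c_co.Q1.Run.R241
import Pool.Agent.Lib.MP_baf44c_co.Q1.Run.R251
import Pool.Agent.Lib.MP_baf44c_co.Q1.Run.R257
import Pool.Agent.Lib.MP_baf44c_co.Q1.Run.R281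
import Pool.Agent.Lib.MP_baf44c_co.Q1.Run.R331
import Pool.Agent.Lib.MP_baf44c_co.Q1.Run.R337
import Pool.Agent.Lib.MP_baf44c_co.Q1.Run.R397
import Pool.Agent.Lib.MP_baf44c_co.Q1.Run.R433
import Pool.Agent.Lib.MP_baf44c_co.Q1.Run.R457
import Pool.Agent.Lib.MP_baf44c_co.Q1.Run.R601
import Pool.Agent.Lib.MP_baf44c_co.Q1.Run.R641
import Pool.Agent.Lib.MP_baf44c_co.Q1.Run.R673
import Pool.Agent.Lib.MP_baf44c_co.Q1.Run.R683
import Pool.Agent.Lib.MP_baf44c_co.Q1.Run.R953

/-!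
Rigidity for all primes from `61` on.
-/

set_option autoImplicit false

namespace Pool.Agent.Lib.MP_baf44c_co.Q1

theorem rigAll {p : ℕ} [hp : Fact p.Prime] (h61 : 61 ≤ p) : RigAll p := by
  by_cases h1000 : 1000 < p
  · exact rigAll_big h1000
  by_cases he : p ∈ exc
  · simp only [exc, List.mem_cons, List.not_mem_nil, or_false] at he
    rcases he with rfl | rfl | rfl | rfl | rfl | rfl | rfl | rfl | rfl | rfl | rfl | rfl | rfl | rfl | rfl | rfl | rfl | rfl | rfl | rfl | rfl | rfl | rfl | rfl | rfl | rfl | rfl | rfl | rfl | rfl | rfl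
    · exact Run.rigAll_61
    · exact Run.rigAll_67
    · exact Run.rigAll_71
    · exact Run.rigAll_73
    · exact Run.rigAll_79
    · exact Run.rigAll_83
    · exact Run.rigAll_89
    · exact Run.rigAll_97
    · exact Run.rigAll_109
    · exact Run.rigAll_113
    · exact Run.rigAll_127
    · exact Run.rigAll_137
    · exact Run.rigAll_151
    · exact Run.rigAll_157
    · exact Run.rigAll_223
    · exact Run.rigAll_229
    · exact Run.rigAll_233
    · exact Run.rigAll_241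
    · exact Run.rigAll_251
    · exact Run.rigAll_257
    · exact Run.rigAll_281
    · exact Run.rigAll_331
    · exact Run.rigAll_337
    · exact Run.rigAll_397
    · exact Run.rigAll_433
    · exact Run.rigAll_457
    · exact Run.rigAll_601
    · exact Run.rigAll_641
    · exact Run.rigAll_673
    · exact Run.rigAll_683
    · exact Run.rigAll_953
  obtain ⟨J, h1, h2⟩ := nonexc hp.out h61 (by omega) he
  exact rigAll_count (by omega) h2 h1

end Pool.Agent.Lib.MP_baf44c_co.Q1
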