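import Pool.Agent.Lib.MP_baf44c_co.Q1.Defs
import Pool.Agent.Lib.MP_baf44c_co.FB.Half
import Pool.Agent.Lib.MP_baf44c_co.FB.Descent
import Pool.Agent.Lib.MP_baf44c_co.FB.Ring

/-!
The relation `SqPair` on roots of unity, and the reduction to three types.
-/

set_option autoImplicit false

namespace Pool.Agent.Lib.MP_baf44c_co.Q1

open Polynomial Pool.Agent.Lib.MP_baf44c_co.FB

private theorem SPO_mem {N : ℕ} (hN : 0 < N) {x : ℂ} (hx : x ^ N = 1) : x ∈ cyc N := by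
  have : NeZero N := ⟨hN.ne'⟩
  obtain ⟨i, -, hi⟩ := (Complex.isPrimitiveRoot_exp N hN.ne').eq_pow_of_pow_eq_one hx
  rw [← hi]
  exact pow_mem (IntermediateField.subset_adjoin ℚ _ (Set.mem_singleton _)) i

private theorem SPO_D_mem {N : ℕ} {x : ℂ} (hx : x ∈ cyc N) : D x ∈ cyc N := by
  unfold D
  have h6 : (6 : ℂ) ∈ cyc N := by simp
  exact add_mem (add_mem hx (inv_mem hx)) h6

private theorem SPO_D_ne {N : ℕ} (hN : 0 < N) {y : ℂ} (hy : y ^ N = 1) : D y ≠ 0 := by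
  obtain ⟨r, hr, -, h⟩ := D_real (Complex.norm_eq_one_of_pow_eq_one hy hN.ne')
  rw [h]
  intro h0
  have h1 : r = 0 := by exact_mod_cast h0
  linarith

private theorem SPO_int {N : ℕ} (hN : 0 < N) {x : ℂ} (hx : x ^ N = 1) : IsIntegral ℤ x := by
  refine IsIntegral.of_pow hN ?_
  rw [hx]
  exact isIntegral_one

private theorem SPO_D_int {N : ℕ} (hN : 0 < N) {x : ℂ} (hx : x ^ N = 1) : IsIntegral ℤ (D x) := by
  unfold D
  have h6 : IsIntegral ℤ (6 : ℂ) := by
    have := isIntegral_algebraMap (R := ℤ) (A := ℂ) (x := (6 : ℤ))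
    simpa using this
  have hi : (x⁻¹) ^ N = 1 := by rw [inv_pow, hx, inv_one]
  exact ((SPO_int hN hx).add (SPO_int hN hi)).add h6

private theorem SPO_aeval {N : ℕ} {μ : ℂ} (hμ : μ ∈ cyc N) (f : ℤ[X]) : aeval μ f ∈ cyc N := by
  rw [aeval_eq_sum_range]
  refine sum_mem fun i _ => ?_
  rw [zsmul_eq_mul]
  refine mul_mem ?_ (pow_mem hμ i)
  exact intCast_mem (cyc N) _

/-- a residue prime to `N` has a representative prime to `K`, `N ∣ K` -/
private theorem SPO_lift {N K : ℕ} (hK : 0 < K) (hNK : N ∣ K) {g : ℕ} (hg : g.Coprime N) :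
    ∃ g' : ℕ, g'.Coprime K ∧ g' ≡ g [MOD N] := by
  have : NeZero K := ⟨hK.ne'⟩
  obtain ⟨v, hv⟩ := ZMod.unitsMap_surjective hNK (ZMod.unitOfCoprime g hg)
  refine ⟨(v : ZMod K).val, ZMod.val_coe_unit_coprime v, ?_⟩
  rw [← ZMod.natCast_eq_natCast_iff]
  have h1 := congrArg (fun u : (ZMod N)ˣ => (u : ZMod N)) hv
  simp only [ZMod.unitsMap_val, ZMod.coe_unitOfCoprime] at h1
  rw [← h1, ZMod.natCast_val]

private theorem SPO_pow {N : ℕ} {x : ℂ} (hx : x ^ N = 1) {g g' : ℕ} (h : g' ≡ g [MOD N]) :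
    x ^ g' = x ^ g := by
  rw [pow_eq_pow_mod g' hx, pow_eq_pow_mod g hx, h]

theorem SqPair.symm {x y : ℂ} (h : SqPair x y) : SqPair y x := by
  obtain ⟨K, hK, z, hz, h⟩ := h
  exact ⟨K, hK, z, hz, by rw [h, mul_comm]⟩

/-- `D x = (x ^ 2 + 6 x + 1) / x` lies in a cyclotomic field, so `SqPair x x`. -/
theorem SqPair.refl {x : ℂ} {N : ℕ} (hN : 0 < N) (hx : x ^ N = 1) : SqPair x x := by
  exact ⟨N, hN, D x, SPO_D_mem (SPO_mem hN hx), sq _⟩

/-- `(z z' / D y) ^ 2 = D x * D w`, `D y ≠ 0` (`D_real`), all in a common cyclotomic field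
(`cyc_mono`). -/
theorem SqPair.trans {x y w : ℂ} {N : ℕ} (hN : 0 < N) (hy : y ^ N = 1) (h : SqPair x y)
    (h' : SqPair y w) : SqPair x w := by
  obtain ⟨K, hK, z, hz, h⟩ := h
  obtain ⟨K', hK', z', hz', h'⟩ := h'
  have hD := SPO_D_ne hN hy
  have hpos : 0 < K * K' * N := Nat.mul_pos (Nat.mul_pos hK hK') hN
  refine ⟨K * K' * N, hpos, z * z' / D y, ?_, ?_⟩
  · have h1 : z ∈ cyc (K * K' * N) := cyc_mono hpos ⟨K' * N, by ring⟩ hz
    have h2 : z' ∈ cyc (K * K' * N) := cyc_mono hpos ⟨K * N, by ring⟩ hz'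
    have h3 : D y ∈ cyc (K * K' * N) :=
      SPO_D_mem (cyc_mono hpos ⟨K * K', by ring⟩ (SPO_mem hN hy))
    exact div_mem (mul_mem h1 h2) h3
  · rw [div_pow, mul_pow, h, h']
    field_simp

/-- `D x⁻¹ = D x`. -/
theorem SqPair.inv_right {x y : ℂ} (h : SqPair x y) : SqPair x y⁻¹ := by
  obtain ⟨K, hK, z, hz, h⟩ := h
  refine ⟨K, hK, z, hz, ?_⟩
  rw [h]
  unfold D
  rw [inv_inv]
  ring

/-- Galois conjugation. Let `z ∈ cyc K`, `z ^ 2 = D x * D y`; replace `K` by a multiple of `N`, and `g` by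
`g' ≡ g` mod `N` prime to `K` (`x ^ g' = x ^ g`). `z` is an algebraic integer, so `z = F ζ`, `ζ` a primitive
`K`-th root, `x = ζ ^ a`, `y = ζ ^ b`, `F` cyclotomic of level `K` (`exists_isCyc`), and
`F μ ^ 2 = D (μ ^ a) * D (μ ^ b)` for all primitive `μ` (`IsCyc.eq_zero`); take `μ = ζ ^ g'`, and
`F μ ∈ cyc K`. -/
theorem SqPair.shift {x y : ℂ} {N : ℕ} (hN : 0 < N) (hx : x ^ N = 1) (hy : y ^ N = 1)
    (h : SqPair x y) {g : ℕ} (hg : g.Coprime N) : SqPair (x ^ g) (y ^ g) := by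
  obtain ⟨K₀, hK₀, z, hz, h⟩ := h
  have hK : 0 < K₀ * N := Nat.mul_pos hK₀ hN
  have hNK : N ∣ K₀ * N := Dvd.intro_left _ rfl
  set K := K₀ * N with hKdef
  have hzK : z ∈ cyc K := cyc_mono hK (Dvd.intro _ rfl) hz
  have hxK : x ^ K = 1 := by rw [hKdef, mul_comm, pow_mul, hx, one_pow]
  have hyK : y ^ K = 1 := by rw [hKdef, mul_comm, pow_mul, hy, one_pow]
  have hne : NeZero K := ⟨hK.ne'⟩
  set ζ := Complex.exp (2 * Real.pi * Complex.I / K) with hζdef
  have hζ : IsPrimitiveRoot ζ K := Complex.isPrimitiveRoot_exp K hK.ne'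
  obtain ⟨a, -, ha⟩ := hζ.eq_pow_of_pow_eq_one hxK
  obtain ⟨b, -, hb⟩ := hζ.eq_pow_of_pow_eq_one hyK
  have hζm : ζ ∈ primitiveRoots K ℂ := (mem_primitiveRoots hK).2 hζ
  have hzint : IsIntegral ℤ z := by
    refine IsIntegral.of_pow two_pos ?_
    rw [h]
    exact (SPO_D_int hN hx).mul (SPO_D_int hN hy)
  obtain ⟨F, hF, hFζ⟩ := exists_isCyc hK hζm hzK hzint
  have hG : IsCyc K (fun μ => F μ * F μ - D (μ ^ (a : ℤ)) * D (μ ^ (b : ℤ))) :=
    (hF.mul hF).sub ((isCyc_D hK _).mul (isCyc_D hK _))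
  have hG0 : (fun μ => F μ * F μ - D (μ ^ (a : ℤ)) * D (μ ^ (b : ℤ))) ζ = 0 := by
    simp only [zpow_natCast]
    rw [hFζ, ha, hb, ← h]
    ring
  obtain ⟨g', hg', hgg⟩ := SPO_lift hK hNK hg
  have hμ : IsPrimitiveRoot (ζ ^ g') K := hζ.pow_of_coprime g' hg'
  have hμm : ζ ^ g' ∈ primitiveRoots K ℂ := (mem_primitiveRoots hK).2 hμ
  have h1 := hG.eq_zero hζm hG0 _ hμm
  simp only [zpow_natCast] at h1
  refine ⟨K, hK, F (ζ ^ g'), ?_, ?_⟩
  · obtain ⟨f, hf⟩ := hF
    rw [hf _ hμm]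
    exact SPO_aeval (SPO_mem hK hμ.pow_eq_one) f
  · rw [← SPO_pow hx hgg, ← SPO_pow hy hgg, ← ha, ← hb, ← pow_mul, ← pow_mul, mul_comm a g',
      mul_comm b g', pow_mul, pow_mul, sq]
    exact sub_eq_zero.1 h1

/-- `y = x ^ h₀`. By `shift` and `trans`, `SqPair x (x ^ (h₀ ^ j))` for all `j`. Let `m ≥ 1` be minimal with
`x ^ (h₀ ^ m) = x` or `x⁻¹` (`h₀ ^ φ(N) ≡ 1`); `m ≥ 2`. Let `ℓ` be a prime divisor of `m`,
`h = h₀ ^ (m / ℓ)`: `h ≢ ±1` and `h ^ ℓ ≡ ±1` mod `N`. If `ℓ = 2` done. If `ℓ` is odd and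
`h ^ ℓ ≡ -1`, replace `h` by `h' ≡ -h` mod `N` (`x ^ (h' ^ j) = (x ^ (h ^ j)) ^ (±1)`,
`inv_right`). -/
theorem type_red {N : ℕ} (hN : 0 < N) {x y : ℂ} (hx : IsPrimitiveRoot x N)
    (hy : IsPrimitiveRoot y N) (hs : SqPair x y) (h1 : y ≠ x) (h2 : y ≠ x⁻¹) :
    ∃ h : ℕ, h.Coprime N ∧ x ^ h ≠ x ∧ x ^ h ≠ x⁻¹ ∧ (∀ j : ℕ, SqPair x (x ^ (h ^ j))) ∧
      (x ^ (h ^ 2) = x ∨ x ^ (h ^ 2) = x⁻¹ ∨ ∃ ℓ : ℕ, ℓ.Prime ∧ ℓ ≠ 2 ∧ x ^ (h ^ ℓ) = x) := by
  have hne : NeZero N := ⟨hN.ne'⟩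
  have hx1 := hx.pow_eq_one
  obtain ⟨h₀, -, hcop, rfl⟩ := hx.isPrimitiveRoot_iff.1 hy
  -- all powers
  have hall : ∀ j : ℕ, SqPair x (x ^ (h₀ ^ j)) := by
    intro j
    induction j with
    | zero => simpa using SqPair.refl hN hx1
    | succ j ih =>
      have h3 := SqPair.shift hN hx1 hy.pow_eq_one hs (hcop.pow_left j)
      have h4 : (x ^ h₀) ^ h₀ ^ j = x ^ (h₀ ^ (j + 1)) := by
        rw [← pow_mul, pow_succ, mul_comm]
      rw [h4] at h3
      refine SqPair.trans hN ?_ ih h3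
      rw [← pow_mul, mul_comm, pow_mul, hx1, one_pow]
  have hex : ∃ m : ℕ, 1 ≤ m ∧ (x ^ (h₀ ^ m) = x ∨ x ^ (h₀ ^ m) = x⁻¹) := by
    refine ⟨N.totient, Nat.totient_pos.2 hN, Or.inl ?_⟩
    have h3 := SPO_pow hx1 (Nat.ModEq.pow_totient hcop)
    rwa [pow_one] at h3
  classical
  set m := Nat.find hex with hmdef
  obtain ⟨hm1, hm⟩ := Nat.find_spec hex
  rw [← hmdef] at hm1 hm
  have hmin : ∀ k : ℕ, 1 ≤ k → k < m → x ^ (h₀ ^ k) ≠ x ∧ x ^ (h₀ ^ k) ≠ x⁻¹ := by
    intro k hk1 hkm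
    have h3 := Nat.find_min hex hkm
    exact ⟨fun h4 => h3 ⟨hk1, Or.inl h4⟩, fun h4 => h3 ⟨hk1, Or.inr h4⟩⟩
  have hm2 : m ≠ 1 := by
    intro h3
    rw [h3, pow_one] at hm
    exact hm.elim h1 h2
  set l := m.minFac with hldef
  have hl : l.Prime := Nat.minFac_prime hm2
  have hlm : l ∣ m := Nat.minFac_dvd m
  obtain ⟨k, hk⟩ := hlm
  have hk1 : 1 ≤ k := by
    rcases Nat.eq_zero_or_pos k with h3 | h3
    · rw [h3, mul_zero] at hk
      omega
    · exact h3
  have hkm : k < m := by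
    have := hl.two_le
    calc k < 2 * k := by omega
      _ ≤ l * k := Nat.mul_le_mul_right k this
      _ = m := hk.symm
  obtain ⟨n1, n2⟩ := hmin k hk1 hkm
  have hpl : (h₀ ^ k) ^ l = h₀ ^ m := by rw [← pow_mul, hk, mul_comm]
  have hallk : ∀ j : ℕ, SqPair x (x ^ ((h₀ ^ k) ^ j)) := by
    intro j
    rw [← pow_mul]
    exact hall _
  by_cases hl2 : l = 2
  · refine ⟨h₀ ^ k, hcop.pow_left k, n1, n2, hallk, ?_⟩
    rw [hl2] at hpl
    rw [hpl]
    exact hm.elim Or.inl fun h => Or.inr (Or.inl h)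
  rcases hm with hm | hm
  · refine ⟨h₀ ^ k, hcop.pow_left k, n1, n2, hallk, Or.inr (Or.inr ⟨l, hl, hl2, ?_⟩)⟩
    rw [hpl]
    exact hm
  · -- replace `h` by `-h`
    have hinv : ∀ w : ℂ, w ^ N = 1 → w ^ (N - 1) = w⁻¹ := by
      intro w hw
      refine eq_inv_of_mul_eq_one_left ?_
      rw [← pow_succ, Nat.sub_add_cancel hN, hw]
    have hroot : ∀ i : ℕ, (x ^ i) ^ N = 1 := by
      intro i
      rw [← pow_mul, mul_comm, pow_mul, hx1, one_pow]
    have hpar : ∀ j : ℕ, ∀ w : ℂ, w ^ N = 1 →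
        (Even j → w ^ ((N - 1) ^ j) = w) ∧ (Odd j → w ^ ((N - 1) ^ j) = w⁻¹) := by
      intro j
      induction j with
      | zero =>
        intro w _
        exact ⟨fun _ => by simp, fun h => by simp at h⟩
      | succ j ih =>
        intro w hw
        have hw' : (w⁻¹) ^ N = 1 := by rw [inv_pow, hw, inv_one]
        have h3 : w ^ ((N - 1) ^ (j + 1)) = (w⁻¹) ^ ((N - 1) ^ j) := by
          rw [pow_succ, mul_comm, pow_mul, hinv w hw]
        rw [h3]
        obtain ⟨a1, a2⟩ := ih w⁻¹ hw'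
        refine ⟨fun h => ?_, fun h => ?_⟩
        · have : Odd j := by
            rcases Nat.even_or_odd j with h4 | h4
            · exact absurd h (Nat.not_even_iff_odd.2 h4.add_one)
            · exact h4
          rw [a2 this, inv_inv]
        · have : Even j := by
            rcases Nat.even_or_odd j with h4 | h4
            · exact h4
            · exact absurd h (Nat.not_odd_iff_even.2 h4.add_one)
          exact a1 this
    have hc1 : (N - 1).Coprime N := by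
      rcases Nat.lt_or_ge 1 N with h3 | h3
      · have : Nat.Coprime (N - 1) ((N - 1) + 1) := by simp
        rwa [Nat.sub_add_cancel hN] at this
      · have : N = 1 := by omega
        rw [this]
        simp
    have hbig : ∀ j : ℕ, x ^ (((N - 1) * h₀ ^ k) ^ j) = (x ^ ((h₀ ^ k) ^ j)) ^ ((N - 1) ^ j) := by
      intro j
      rw [mul_pow, mul_comm, pow_mul]
    have hone : x ^ ((N - 1) * h₀ ^ k) = (x ^ (h₀ ^ k))⁻¹ := by
      rw [mul_comm, pow_mul, hinv _ (hroot _)]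
    refine ⟨(N - 1) * h₀ ^ k, Nat.Coprime.mul_left hc1 (hcop.pow_left k), ?_, ?_, ?_,
      Or.inr (Or.inr ⟨l, hl, hl2, ?_⟩)⟩
    · rw [hone]
      intro h3
      apply n2
      have h5 := congrArg (fun w : ℂ => w⁻¹) h3
      simpa using h5
    · rw [hone]
      intro h3
      exact n1 (inv_injective h3)
    · intro j
      rw [hbig j]
      rcases Nat.even_or_odd j with h4 | h4
      · rw [(hpar j _ (hroot _)).1 h4]
        exact hallk j
      · rw [(hpar j _ (hroot _)).2 h4]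
        exact (hallk j).inv_right
    · rw [hbig l, (hpar l _ (hroot _)).2 (hl.odd_of_ne_two hl2), hpl, hm, inv_inv]

/-- If `x` has order `N`, and `SqPair x y` with `y` of order `N₁`, and not `N ∣ N₁`, nor `N = 2 d` with `d`
odd, `d ∣ N₁`, and `φ N > 2`, then `SqPair x (x ^ h)` for some `h` prime to `N` with
`x ^ h ≠ x, x⁻¹`. Let `d = gcd N N₁`; the number of residues `h` mod `N` prime to `N` with `h ≡ 1` mod `d`
is `φ N / φ d`. If it is at least `3`, one of them is `≠ ±1`. If it is `2` and both are `±1` then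
`-1 ≡ 1` mod `d`, `d ≤ 2`, `φ N = 2`, excluded. If it is `1`, `φ N = φ d`, so `N = d ∣ N₁` or `N = 2 d`,
`d` odd. So there is `h ≢ ±1` mod `N`, `h ≡ 1` mod `d`; choose `g` prime to `N N₁`, `g ≡ h` mod `N`,
`g ≡ 1` mod `N₁`; `shift` by `g` and `trans` give `SqPair x (x ^ h)`. -/
theorem exists_same {N N₁ : ℕ} (hN : 2 < N.totient) (hN₁ : 0 < N₁) {x y : ℂ}
    (hx : IsPrimitiveRoot x N) (hy : IsPrimitiveRoot y N₁) (hs : SqPair x y) (hd : ¬ N ∣ N₁)
    (hd' : ¬ ∃ d, Odd d ∧ N = 2 * d ∧ d ∣ N₁) :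
    ∃ h : ℕ, h.Coprime N ∧ x ^ h ≠ x ∧ x ^ h ≠ x⁻¹ ∧ SqPair x (x ^ h) := by
  have hN0 : 0 < N := by
    rcases Nat.eq_zero_or_pos N with h | h
    · rw [h] at hN
      simp at hN
    · exact h
  have hne : NeZero N := ⟨hN0.ne'⟩
  set d := Nat.gcd N N₁ with hddef
  have hdN : d ∣ N := Nat.gcd_dvd_left N N₁
  have hdN₁ : d ∣ N₁ := Nat.gcd_dvd_right N N₁
  have hd0 : 0 < d := Nat.gcd_pos_of_pos_left _ hN0
  have hned : NeZero d := ⟨hd0.ne'⟩
  -- an element of the kernel different from `1`, `-1`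
  have hker : ∃ u : (ZMod N)ˣ, ZMod.unitsMap hdN u = 1 ∧ u ≠ 1 ∧ u ≠ -1 := by
    by_contra hcon
    push Not at hcon
    by_cases hm1 : ZMod.unitsMap hdN (-1) = 1
    · -- `d ≤ 2`
      have h3 := congrArg (fun u : (ZMod d)ˣ => (u : ZMod d)) hm1
      simp only [ZMod.unitsMap_def, Units.coe_map, Units.val_neg, Units.val_one, map_neg,
        MonoidHom.coe_coe, map_one] at h3
      have h4 : ((2 : ℕ) : ZMod d) = 0 := by
        push_cast
        linear_combination (-1 : ZMod d) * h3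
      rw [ZMod.natCast_eq_zero_iff] at h4
      have h5 : d ≤ 2 := Nat.le_of_dvd two_pos h4
      have hsub : Subsingleton (ZMod d)ˣ := by
        have h6 : Fintype.card (ZMod d)ˣ = 1 := by
          rw [ZMod.card_units_eq_totient]
          interval_cases hd' : d
          · simp
          · simp
        exact Fintype.card_le_one_iff_subsingleton.1 h6.le
      have h7 : ∀ u : (ZMod N)ˣ, u = 1 ∨ u = -1 := by
        intro u
        by_cases hu : u = 1
        · exact Or.inl hu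
        · exact Or.inr (hcon u (Subsingleton.elim _ _) hu)
      have h8 : Fintype.card (ZMod N)ˣ ≤ 2 := by
        have h9 : (Finset.univ : Finset (ZMod N)ˣ) ⊆ {1, -1} := by
          intro u _
          rcases h7 u with h | h <;> simp [h]
        calc Fintype.card (ZMod N)ˣ = (Finset.univ : Finset (ZMod N)ˣ).card := rfl
          _ ≤ ({1, -1} : Finset (ZMod N)ˣ).card := Finset.card_le_card h9
          _ ≤ 2 := Finset.card_le_two
      rw [ZMod.card_units_eq_totient] at h8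
      omega
    · have hinj : Function.Injective (ZMod.unitsMap hdN) := by
        rw [injective_iff_map_eq_one]
        intro u hu
        by_contra h1
        exact hm1 (by rw [← hcon u hu h1]; exact hu)
      have h3 : N.totient ≤ d.totient := by
        have := Fintype.card_le_of_injective _ hinj
        rwa [ZMod.card_units_eq_totient, ZMod.card_units_eq_totient] at this
      obtain ⟨c, hc⟩ := hdN
      have hdt : 0 < d.totient := Nat.totient_pos.2 hd0
      have hc0 : 0 < c := by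
        rcases Nat.eq_zero_or_pos c with h | h
        · rw [h, mul_zero] at hc
          omega
        · exact h
      have h4 : c.totient ≤ 1 := by
        have h5 := Nat.totient_super_multiplicative d c
        rw [← hc] at h5
        by_contra h6
        push Not at h6
        have h7 : d.totient * 2 ≤ d.totient * c.totient := Nat.mul_le_mul_left _ h6
        omega
      have h5 : c.totient = 1 := le_antisymm h4 (Nat.totient_pos.2 hc0)
      rcases Nat.totient_eq_one_iff.1 h5 with h6 | h6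
      · rw [h6, mul_one] at hc
        exact hd (hc ▸ hdN₁)
      · rw [h6, mul_comm] at hc
        refine hd' ⟨d, ?_, hc, hdN₁⟩
        by_contra h7
        rw [Nat.not_odd_iff_even] at h7
        have h8 := Nat.totient_mul_of_prime_of_dvd Nat.prime_two h7.two_dvd
        rw [hc, h8] at h3
        omega
  obtain ⟨u, hu1, hu2, hu3⟩ := hker
  -- the Chinese remainder theorem
  have hmod : (u : ZMod N).val ≡ 1 [MOD Nat.gcd N N₁] := by
    rw [← hddef, ← ZMod.natCast_eq_natCast_iff]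
    have h3 := congrArg (fun u : (ZMod d)ˣ => (u : ZMod d)) hu1
    simp only [ZMod.unitsMap_val, Units.val_one] at h3
    rw [ZMod.natCast_val, h3, Nat.cast_one]
  obtain ⟨g, hg1, hg2⟩ := Nat.chineseRemainder' hmod
  have hgu : (g : ZMod N) = (u : ZMod N) := by
    rw [(ZMod.natCast_eq_natCast_iff _ _ _).2 hg1, ZMod.natCast_val, ZMod.cast_id', id]
  have hgN : g.Coprime N := by
    have h3 := ZMod.val_coe_unit_coprime u
    rw [Nat.Coprime, hg1.gcd_eq]
    exact h3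
  have hgN₁ : g.Coprime N₁ := by
    rw [Nat.Coprime, hg2.gcd_eq]
    simp
  have hx1 := hx.pow_eq_one
  have hy1 := hy.pow_eq_one
  have hxx : x ^ (N * N₁) = 1 := by rw [pow_mul, hx1, one_pow]
  have hyy : y ^ (N * N₁) = 1 := by rw [mul_comm, pow_mul, hy1, one_pow]
  have h3 := SqPair.shift (Nat.mul_pos hN0 hN₁) hxx hyy hs (hgN.mul_right hgN₁)
  rw [SPO_pow hy1 hg2, pow_one] at h3
  refine ⟨g, hgN, ?_, ?_, SqPair.trans hN₁ hy1 hs h3.symm⟩
  · intro h4
    apply hu2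
    have h5 : x ^ (g + (N - 1)) = 1 := by
      rw [pow_add, h4, ← pow_succ', Nat.sub_add_cancel hN0, hx1]
    rw [hx.pow_eq_one_iff_dvd, ← ZMod.natCast_eq_zero_iff] at h5
    have h6 : ((N - 1 : ℕ) : ZMod N) = -1 := by
      rw [Nat.cast_sub hN0, ZMod.natCast_self, Nat.cast_one, zero_sub]
    rw [Nat.cast_add, h6, hgu] at h5
    refine Units.ext ?_
    rw [Units.val_one]
    linear_combination h5
  · intro h4
    apply hu3
    have h5 : x ^ (g + 1) = 1 := by
      rw [pow_succ, h4, inv_mul_cancel₀ (hx.ne_zero hN0.ne')]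
    rw [hx.pow_eq_one_iff_dvd, ← ZMod.natCast_eq_zero_iff] at h5
    push_cast at h5
    rw [hgu] at h5
    refine Units.ext ?_
    rw [Units.val_neg, Units.val_one]
    linear_combination h5

end Pool.Agent.Lib.MP_baf44c_co.Q1
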