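import Pool.Agent.Lib.MP_baf44c_co.Q1.Setup
import Pool.Agent.Lib.MP_baf44c_co.Q1.Ev
import Pool.Agent.Lib.MP_baf44c_co.FB.Descent
import Pool.Agent.Lib.MP_baf44c_co.FB.Ring

/-!
The field generated by `z`, `z ^ 2 = D x * D (x ^ h)`.
-/

set_option autoImplicit false

namespace Pool.Agent.Lib.MP_baf44c_co.Q1

open Polynomial Pool.Agent.Lib.MP_baf44c_co.FB

private theorem tp_finrank {N : ℕ} (hN : 0 < N) :
    Module.finrank ℚ (cyc N) = Nat.totient N := by
  have hp := Complex.isPrimitiveRoot_exp N hN.ne'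
  unfold cyc
  rw [IntermediateField.adjoin.finrank ((hp.isIntegral hN).tower_top),
    ← Polynomial.cyclotomic_eq_minpoly_rat hp hN, Polynomial.natDegree_cyclotomic]

private theorem tp_mem {N : ℕ} (hN : 0 < N) {x : ℂ} (hx : x ^ N = 1) : x ∈ cyc N := by
  have : NeZero N := ⟨hN.ne'⟩
  obtain ⟨i, -, hi⟩ := (Complex.isPrimitiveRoot_exp N hN.ne').eq_pow_of_pow_eq_one hx
  rw [← hi]
  exact pow_mem (IntermediateField.subset_adjoin ℚ _ (Set.mem_singleton _)) i

private theorem tp_D_mem {N : ℕ} (hN : 0 < N) {x : ℂ} (hx : x ^ N = 1) : D x ∈ cyc N := by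
  unfold D
  have h6 : (6 : ℂ) ∈ cyc N := by simp
  exact add_mem (add_mem (tp_mem hN hx) (inv_mem (tp_mem hN hx))) h6

private theorem tp_z2_mem {N L : ℕ} (hL : 0 < L) (hNL : N ∣ L) {x z : ℂ} {h : ℕ}
    (hx : x ^ N = 1) (hz2 : z ^ 2 = D x * D (x ^ h)) : z ^ 2 ∈ cyc L := by
  have h1 : x ^ L = 1 := by
    obtain ⟨c, rfl⟩ := hNL
    rw [pow_mul, hx, one_pow]
  have h2 : (x ^ h) ^ L = 1 := by rw [← pow_mul, mul_comm, pow_mul, h1, one_pow]
  rw [hz2]
  exact mul_mem (tp_D_mem hL h1) (tp_D_mem hL h2)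

/-- Compare `FB.descend` (the case `a = 1`): the degree of `cyc (q ^ b * M)` over `cyc (q ^ a * M)` is
`q ^ (b - a)`, odd. -/
theorem descend_pow {q M a b : ℕ} (hq : q.Prime) (hq2 : q ≠ 2) (hM : 0 < M) (hqM : ¬ q ∣ M)
    (ha : 1 ≤ a) (hab : a ≤ b) {z : ℂ} (hz : z ∈ cyc (q ^ b * M)) (hz2 : z ^ 2 ∈ cyc (q ^ a * M)) :
    z ∈ cyc (q ^ a * M) := by
  have hpM0 : 0 < q ^ a * M := Nat.mul_pos (pow_pos hq.pos a) hM
  have hpkM0 : 0 < q ^ b * M := Nat.mul_pos (pow_pos hq.pos b) hM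
  have hle : cyc (q ^ a * M) ≤ cyc (q ^ b * M) :=
    cyc_mono hpkM0 (Nat.mul_dvd_mul_right (pow_dvd_pow q hab) M)
  have hcop : Nat.Coprime q M := (Nat.Prime.coprime_iff_not_dvd hq).2 hqM
  have hrel : IntermediateField.relfinrank (cyc (q ^ a * M)) (cyc (q ^ b * M)) = q ^ (b - a) := by
    have h1 := IntermediateField.finrank_bot_mul_relfinrank hle
    rw [tp_finrank hpM0, tp_finrank hpkM0,
      Nat.totient_mul (hcop.pow_left b), Nat.totient_mul (hcop.pow_left a),
      Nat.totient_prime_pow hq (by omega), Nat.totient_prime_pow hq (by omega)] at h1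
    have h2 : 0 < q ^ (a - 1) * (q - 1) * M.totient :=
      Nat.mul_pos (Nat.mul_pos (pow_pos hq.pos _) (by have := hq.two_le; omega))
        (Nat.totient_pos.2 hM)
    refine Nat.eq_of_mul_eq_mul_left h2 (h1.trans ?_)
    have h3 : b - 1 = (a - 1) + (b - a) := by omega
    rw [h3, pow_add]
    ring
  have hodd : Odd (IntermediateField.relfinrank (cyc (q ^ a * M)) (cyc (q ^ b * M))) := by
    rw [hrel]
    exact (hq.odd_of_ne_two hq2).pow
  rw [IntermediateField.relfinrank_eq_finrank_of_le hle] at hodd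
  set K₁ := cyc (q ^ a * M) with hK₁
  let f : Polynomial K₁ := Polynomial.X ^ 2 - Polynomial.C (⟨z ^ 2, hz2⟩ : K₁)
  have hqm : f.Monic := Polynomial.monic_X_pow_sub_C _ two_ne_zero
  have hqd : f.natDegree = 2 := Polynomial.natDegree_X_pow_sub_C
  have hq0 : Polynomial.aeval z f = 0 := by
    simp only [f, map_sub, map_pow, Polynomial.aeval_X, Polynomial.aeval_C]
    exact sub_self _
  have hint : IsIntegral K₁ z := ⟨f, hqm, by rw [← Polynomial.aeval_def]; exact hq0⟩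
  have hdeg : (minpoly K₁ z).natDegree ≤ 2 := by
    rw [← hqd]
    exact Polynomial.natDegree_le_of_dvd (minpoly.dvd K₁ z hq0) hqm.ne_zero
  have hfin : Module.finrank K₁ (IntermediateField.adjoin K₁ {z}) = (minpoly K₁ z).natDegree :=
    IntermediateField.adjoin.finrank hint
  have hdvd : Module.finrank K₁ (IntermediateField.adjoin K₁ {z}) ∣
      Module.finrank K₁ (IntermediateField.extendScalars hle) := by
    apply IntermediateField.finrank_dvd_of_le_right
    rw [IntermediateField.adjoin_simple_le_iff]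
    exact hz
  have hodd2 : Odd (Module.finrank K₁ (IntermediateField.adjoin K₁ {z})) := hodd.of_dvd_nat hdvd
  have hone : Module.finrank K₁ (IntermediateField.adjoin K₁ {z}) = 1 := by
    rw [hfin] at hodd2 ⊢
    obtain ⟨t, ht⟩ := hodd2
    omega
  rw [IntermediateField.finrank_adjoin_simple_eq_one_iff, IntermediateField.mem_bot] at hone
  obtain ⟨w, hw⟩ := hone
  rw [← hw]
  exact w.2

/-- An embedding of `K₂` over `K₁` which moves `z`. -/
private theorem exists_move {K₁ K₂ : IntermediateField ℚ ℂ} (hle : K₁ ≤ K₂)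
    (halg : ∀ w ∈ K₂, IsAlgebraic ℚ w) {z : ℂ} (hz : z ∈ K₂) (hz1 : z ∉ K₁)
    (hz2 : z ^ 2 ∈ K₁) :
    ∃ φ : K₂ →+* ℂ, (∀ w : ℂ, ∀ hw : w ∈ K₁, φ ⟨w, hle hw⟩ = w) ∧ φ ⟨z, hz⟩ = -z := by
  let f : Polynomial K₁ := Polynomial.X ^ 2 - Polynomial.C (⟨z ^ 2, hz2⟩ : K₁)
  have hqm : f.Monic := Polynomial.monic_X_pow_sub_C _ two_ne_zero
  have hqd : f.natDegree = 2 := Polynomial.natDegree_X_pow_sub_C
  have hq0 : ∀ w : ℂ, w ^ 2 = z ^ 2 → Polynomial.aeval w f = 0 := by
    intro w hw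
    simp only [f, map_sub, map_pow, Polynomial.aeval_X, Polynomial.aeval_C]
    rw [hw]
    exact sub_self _
  have hint : IsIntegral K₁ z := ⟨f, hqm, by rw [← Polynomial.aeval_def]; exact hq0 z rfl⟩
  have hdeg : 2 ≤ (minpoly K₁ z).natDegree := by
    rw [minpoly.two_le_natDegree_iff hint]
    rintro ⟨w, hw⟩
    exact hz1 (hw ▸ w.2)
  have hmin : minpoly K₁ z = f := by
    refine (Polynomial.eq_of_monic_of_dvd_of_natDegree_le (minpoly.monic hint) hqm
      (minpoly.dvd K₁ z (hq0 z rfl)) ?_).symm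
    rw [hqd]
    exact hdeg
  let E : IntermediateField K₁ ℂ := IntermediateField.extendScalars hle
  have hmp : minpoly K₁ (⟨z, hz⟩ : E) = f := by
    rw [← hmin]
    exact (minpoly.algebraMap_eq (B := E) (B' := ℂ) (FaithfulSMul.algebraMap_injective E ℂ)
      (⟨z, hz⟩ : E)).symm
  have hEint : ∀ s : E, IsIntegral K₁ s := by
    intro s
    have h1 : IsAlgebraic ℚ (s : ℂ) := halg _ s.2
    have h2 : IsIntegral K₁ (s : ℂ) := h1.isIntegral.tower_top
    exact (isIntegral_algHom_iff E.val E.val.injective).1 h2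
  obtain ⟨φ, hφ⟩ := IntermediateField.exists_algHom_of_splits_of_aeval (F := K₁) (E := E) (K := ℂ)
    (x := (⟨z, hz⟩ : E)) (y := -z)
    (fun s => ⟨hEint s, IsAlgClosed.splits _⟩) (by
      rw [hmp]
      exact hq0 (-z) (by ring))
  refine ⟨φ.toRingHom, fun w hw => ?_, hφ⟩
  exact φ.commutes (⟨w, hw⟩ : K₁)


/-- A homomorphism from the algebraic integers to a field of characteristic `q`. -/
private theorem exists_place {q : ℕ} (hq : q.Prime) :
    ∃ (K : Type) (_ : Field K) (_ : CharP K q), Nonempty (integralClosure ℤ ℂ →+* K) := by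
  have hne : Ideal.span {((q : ℕ) : integralClosure ℤ ℂ)} ≠ ⊤ := by
    intro htop
    rw [Ideal.span_singleton_eq_top] at htop
    obtain ⟨w, hw⟩ := htop.exists_right_inv
    have hw' : (q : ℂ) * (w : ℂ) = 1 := by
      have := congrArg (fun t : integralClosure ℤ ℂ => (t : ℂ)) hw
      simpa using this
    have hq0 : (q : ℂ) ≠ 0 := by exact_mod_cast hq.ne_zero
    have hwi : IsIntegral ℤ (w : ℂ) := w.2
    have hw2 : (w : ℂ) = algebraMap ℚ ℂ (1 / q) := by
      rw [map_div₀, map_one, map_natCast]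
      exact eq_div_of_mul_eq hq0 (by rw [mul_comm]; exact hw')
    rw [hw2] at hwi
    have h3 : IsIntegral ℤ (1 / (q : ℚ)) :=
      (isIntegral_algebraMap_iff (algebraMap ℚ ℂ).injective).1 hwi
    obtain ⟨y, hy⟩ := IsIntegrallyClosed.isIntegral_iff.1 h3
    have hq0' : (q : ℚ) ≠ 0 := by exact_mod_cast hq.ne_zero
    have h4 : (y : ℚ) * q = 1 := by
      have h5 : (y : ℚ) = 1 / q := by simpa using hy
      rw [h5, one_div, inv_mul_cancel₀ hq0']
    have h5 : y * (q : ℤ) = 1 := by exact_mod_cast h4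
    have h6 : (q : ℤ) ∣ 1 := ⟨y, by rw [mul_comm]; exact h5.symm⟩
    have h7 : q ∣ 1 := by exact_mod_cast h6
    exact hq.one_lt.ne' (Nat.dvd_one.1 h7)
  obtain ⟨m, hm, hle⟩ := Ideal.exists_le_maximal _ hne
  let _ : Field (integralClosure ℤ ℂ ⧸ m) := Ideal.Quotient.field m
  have hq0 : ((q : ℕ) : integralClosure ℤ ℂ ⧸ m) = 0 := by
    have h1 : ((q : ℕ) : integralClosure ℤ ℂ) ∈ m := hle (Ideal.mem_span_singleton_self _)
    have h2 := Ideal.Quotient.eq_zero_iff_mem.2 h1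
    simpa using h2
  obtain ⟨p, hp⟩ := CharP.exists (integralClosure ℤ ℂ ⧸ m)
  have hpq : p ∣ q := (CharP.cast_eq_zero_iff _ p q).1 hq0
  have hp1 : p ≠ 1 := CharP.char_ne_one (integralClosure ℤ ℂ ⧸ m) p
  have : p = q := ((Nat.dvd_prime hq).1 hpq).resolve_left hp1
  subst this
  exact ⟨_, inferInstance, hp, ⟨Ideal.Quotient.mk m⟩⟩

private theorem ev_aeval {K : Type} [Field K] (φ : integralClosure ℤ ℂ →+* K) (f : ℤ[X]) {a : ℂ}
    (hi : IsIntegral ℤ a) : ev φ (aeval a f) = aeval (ev φ a) f := by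
  have hc : ∀ c : ℤ, IsIntegral ℤ (c : ℂ) := fun c => by
    have := isIntegral_algebraMap (R := ℤ) (A := ℂ) (x := c)
    simpa using this
  rw [aeval_eq_sum_range, aeval_eq_sum_range, ev_sum]
  · refine Finset.sum_congr rfl fun i _ => ?_
    rw [zsmul_eq_mul, zsmul_eq_mul, ev_mul φ (hc _) (hi.pow i), ev_int, ev_pow φ hi]
  · intro i _
    rw [zsmul_eq_mul]
    exact (hc _).mul (hi.pow i)

private theorem isIntegral_D {a : ℂ} {n : ℕ} (hn : 0 < n) (h : a ^ n = 1) :
    IsIntegral ℤ (D a) := by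
  have h6 : IsIntegral ℤ (6 : ℂ) := by
    have := isIntegral_algebraMap (R := ℤ) (A := ℂ) (x := 6)
    simpa using this
  have h1 : IsIntegral ℤ a⁻¹ := by simpa using isIntegral_zpow hn h (-1)
  unfold D
  exact ((isIntegral_of_pow hn h).add h1).add h6

private theorem ev_D {K : Type} [Field K] (φ : integralClosure ℤ ℂ →+* K) {a : ℂ} {n : ℕ}
    (hn : 0 < n) (h : a ^ n = 1) : ev φ (D a) = ev φ a + (ev φ a)⁻¹ + 6 := by
  have h6 : IsIntegral ℤ (6 : ℂ) := by
    have := isIntegral_algebraMap (R := ℤ) (A := ℂ) (x := 6)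
    simpa using this
  have h6' : ev φ (6 : ℂ) = 6 := by
    have := ev_int φ 6
    simpa using this
  have h1 : IsIntegral ℤ a⁻¹ := by simpa using isIntegral_zpow hn h (-1)
  have h2 : ev φ a⁻¹ = (ev φ a)⁻¹ := by simpa using ev_zpow φ hn h (-1)
  unfold D
  rw [ev_add φ ((isIntegral_of_pow hn h).add h1) h6, ev_add φ (isIntegral_of_pow hn h) h1, h2, h6']

private theorem ev_prim {K : Type} [Field K] {q : ℕ} [CharP K q]
    (φ : integralClosure ℤ ℂ →+* K) {N : ℕ} (hN : 0 < N) (hqN : ¬ q ∣ N) {x : ℂ}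
    (hx : IsPrimitiveRoot x N) : IsPrimitiveRoot (ev φ x) N := by
  have hne : NeZero ((N : ℕ) : K) := ⟨fun h => hqN ((CharP.cast_eq_zero_iff K q N).1 h)⟩
  rw [← isRoot_cyclotomic_iff]
  have h1 : aeval x (cyclotomic N ℤ) = 0 := by
    rw [cyclotomic_eq_minpoly hx hN, minpoly.aeval]
  have h2 := ev_aeval φ (cyclotomic N ℤ) (isIntegral_of_pow hN hx.pow_eq_one)
  rw [h1, ev_zero, aeval_def, eval₂_eq_eval_map] at h2
  rw [IsRoot.def, h2]
  congr 1
  exact (map_cyclotomic N _).symm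

/-- `ev φ` is `1` on roots of unity of order a power of the characteristic. -/
private theorem ev_qpow {K : Type} [Field K] {q : ℕ} [Fact q.Prime] [CharP K q]
    (φ : integralClosure ℤ ℂ →+* K) {b : ℕ} {w : ℂ} (hw : w ^ (q ^ b) = 1) : ev φ w = 1 := by
  have hq : 0 < q ^ b := pow_pos (Fact.out : q.Prime).pos b
  have h1 : ev φ w ^ (q ^ b) = 1 := by
    rw [← ev_pow φ (isIntegral_of_pow hq hw), hw, ev_one]
  have h2 : (ev φ w - 1) ^ (q ^ b) = 0 := by
    rw [sub_pow_char_pow, h1, one_pow, sub_self]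
  exact sub_eq_zero.1 ((pow_eq_zero_iff hq.ne').1 h2)

/-- Counting: if for every `r` prime to `N` one of `θ ^ r`, `θ ^ (r h)` is a zero of
`T + 1/T + 6`, then `φ N ≤ 4`. -/
private theorem totient_le {K : Type} [Field K] {N h : ℕ} {θ : K} (hθ : IsPrimitiveRoot θ N)
    (hh : h.Coprime N) (H : ∀ r : ℕ, r.Coprime N → θ ^ r + (θ ^ r)⁻¹ + 6 = 0 ∨
      (θ ^ h) ^ r + ((θ ^ h) ^ r)⁻¹ + 6 = 0) (hN : 0 < N) : N.totient ≤ 4 := by
  classical
  have hθ0 : θ ≠ 0 := hθ.ne_zero hN.ne'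
  let P : K[X] := X ^ 2 + C 6 * X + C 1
  have hPd : P.natDegree = 2 := by
    have : P = C 1 * X ^ 2 + C 6 * X + C 1 := by simp [P]
    rw [this]
    exact natDegree_quadratic one_ne_zero
  have hP0 : P ≠ 0 := by
    intro h0
    rw [h0, natDegree_zero] at hPd
    exact absurd hPd (by norm_num)
  have hcard : P.roots.toFinset.card ≤ 2 := by
    refine le_trans (Multiset.toFinset_card_le _) ?_
    rw [← hPd]
    exact card_roots' P
  have hroot : ∀ t : K, t ≠ 0 → t + t⁻¹ + 6 = 0 → t ∈ P.roots.toFinset := by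
    intro t ht0 ht
    rw [Multiset.mem_toFinset, mem_roots hP0, IsRoot.def]
    simp only [P, eval_add, eval_mul, eval_pow, eval_X, eval_C]
    have h1 : t * t⁻¹ = 1 := mul_inv_cancel₀ ht0
    linear_combination t * ht - h1
  have hθh : IsPrimitiveRoot (θ ^ h) N := hθ.pow_of_coprime h hh
  have hcount : ∀ ω : K, IsPrimitiveRoot ω N →
      ((Finset.range N).filter (fun r => ω ^ r ∈ P.roots.toFinset)).card ≤ 2 := by
    intro ω hω
    refine le_trans ?_ hcard
    refine Finset.card_le_card_of_injOn (fun r => ω ^ r) ?_ ?_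
    · intro r hr
      exact (Finset.mem_filter.1 hr).2
    · intro r hr r' hr' heq
      exact hω.pow_inj (Finset.mem_range.1 (Finset.mem_filter.1 hr).1)
        (Finset.mem_range.1 (Finset.mem_filter.1 hr').1) heq
  have hsub : (Finset.range N).filter (fun r => N.Coprime r) ⊆
      (Finset.range N).filter (fun r => θ ^ r ∈ P.roots.toFinset) ∪
      (Finset.range N).filter (fun r => (θ ^ h) ^ r ∈ P.roots.toFinset) := by
    intro r hr
    obtain ⟨hr1, hr2⟩ := Finset.mem_filter.1 hr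
    rw [Finset.mem_union, Finset.mem_filter, Finset.mem_filter]
    rcases H r hr2.symm with h1 | h1
    · exact Or.inl ⟨hr1, hroot _ (pow_ne_zero _ hθ0) h1⟩
    · exact Or.inr ⟨hr1, hroot _ (pow_ne_zero _ (pow_ne_zero _ hθ0)) h1⟩
  have h3 : N.totient = ((Finset.range N).filter (fun r => N.Coprime r)).card := rfl
  rw [h3]
  refine le_trans (Finset.card_le_card hsub) (le_trans (Finset.card_union_le _ _) ?_)
  have h4 := hcount θ hθ
  have h5 := hcount (θ ^ h) hθh
  omega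

/-- Lift of a class prime to `N` to a class prime to a multiple of `N`. -/
private theorem exists_lift {N n r : ℕ} (hn : 0 < n) (hNn : N ∣ n) (hr : r.Coprime N) :
    ∃ r' : ℕ, r'.Coprime n ∧ r' ≡ r [MOD N] := by
  have : NeZero n := ⟨hn.ne'⟩
  obtain ⟨v, hv⟩ := ZMod.unitsMap_surjective hNn (ZMod.unitOfCoprime r hr)
  refine ⟨(v : ZMod n).val, ZMod.val_coe_unit_coprime v, ?_⟩
  rw [← ZMod.natCast_eq_natCast_iff, ZMod.natCast_val, ← ZMod.unitsMap_val hNn, hv,
    ZMod.coe_unitOfCoprime]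

private theorem pow_congr {N r r' : ℕ} {x : ℂ} (hx : x ^ N = 1) (h : r' ≡ r [MOD N]) :
    x ^ r' = x ^ r := by
  have key : ∀ k : ℕ, x ^ k = x ^ (k % N) := by
    intro k
    conv_lhs => rw [← Nat.mod_add_div k N]
    rw [pow_add, pow_mul, hx, one_pow, mul_one]
  rw [key r', key r, h]

/-- Let `q` be an odd prime not dividing `M`, `N ∣ M`, `φ N > 4`. Suppose `z ∉ cyc M`. There is an
automorphism of `cyc (q ^ b * M)` over `cyc M` which moves `z`, so `z ↦ -z` as `z ^ 2 ∈ cyc M`; it is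
`ζ ↦ ζ ^ s` for a primitive `q ^ b M`-th root `ζ`, with `s ≡ 1` mod `M`. `z` is an algebraic integer,
so `z = F ζ`, `F` cyclotomic of level `q ^ b M` (`exists_isCyc`), and `F (μ ^ s) = -F μ`,
`F μ ^ 2 = D (μ ^ c) * D (μ ^ (c h))` for all primitive `μ` (`IsCyc.eq_zero`), where `x = ζ ^ c`. Let
`φ` be a homomorphism from the algebraic integers to a field of characteristic `q` (quotient by a
maximal ideal containing `q`). `ev φ` is `1` on roots of unity of order a power of `q`, so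
`ev φ (μ ^ s) = ev φ μ` and `ev φ (F μ) = -ev φ (F μ)` (`ev_isCyc`), `ev φ (F μ) = 0`. So for every `r`
prime to `q M`: `ev φ (D (x ^ r)) = 0` or `ev φ (D (x ^ (r h))) = 0`, and hence for every `r` prime to
`N`. With `θ = ev φ x`, of exact order `N` (as `q ∤ N`): `θ ^ r` or `θ ^ (r h)` is one of the at most
two roots of `T ^ 2 + 6 T + 1`. For each root `ρ` at most one `r` mod `N` has `θ ^ r = ρ`, and at most
one has `θ ^ (r h) = ρ`. So `φ N ≤ 4`. -/
theorem descend_unram {N M q b h : ℕ} (hN : 4 < N.totient) (hM : 0 < M) (hNM : N ∣ M)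
    (hq : q.Prime) (hq2 : q ≠ 2) (hqM : ¬ q ∣ M) {x z : ℂ} (hx : IsPrimitiveRoot x N)
    (hh : h.Coprime N) (hz : z ∈ cyc (q ^ b * M)) (hz2 : z ^ 2 = D x * D (x ^ h)) :
    z ∈ cyc M := by
  by_contra hz1
  have hN0 : 0 < N := by
    rcases Nat.eq_zero_or_pos N with rfl | h0
    · simp at hN
    · exact h0
  have hn : 0 < q ^ b * M := Nat.mul_pos (pow_pos hq.pos b) hM
  have hNn : N ∣ q ^ b * M := hNM.mul_left _
  have hle : cyc M ≤ cyc (q ^ b * M) := cyc_mono hn (Dvd.intro_left _ rfl)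
  set n := q ^ b * M with hndef
  have hxN : x ^ N = 1 := hx.pow_eq_one
  have hζp : IsPrimitiveRoot (Complex.exp (2 * Real.pi * Complex.I / n)) n :=
    Complex.isPrimitiveRoot_exp n hn.ne'
  set ζ := Complex.exp (2 * Real.pi * Complex.I / n) with hζdef
  have hζm : ζ ∈ cyc n := tp_mem hn hζp.pow_eq_one
  have halg : ∀ w ∈ cyc n, IsAlgebraic ℚ w := by
    intro w hw
    have h1 : IsIntegral ℚ ζ := (hζp.isIntegral hn).tower_top
    have : Algebra.IsAlgebraic ℚ (cyc n) := by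
      unfold cyc
      exact IntermediateField.isAlgebraic_adjoin_simple h1
    have h2 := Algebra.IsAlgebraic.isAlgebraic (R := ℚ) (⟨w, hw⟩ : cyc n)
    exact isAlgebraic_algebraMap_iff (algebraMap (cyc n) ℂ).injective |>.2 h2
  have hz2M : z ^ 2 ∈ cyc M := tp_z2_mem hM hNM hxN hz2
  obtain ⟨σ, hσ1, hσz⟩ := exists_move hle halg hz hz1 hz2M
  -- the image of `ζ`
  have : NeZero n := ⟨hn.ne'⟩
  have hσζ : σ ⟨ζ, hζm⟩ ^ n = 1 := by
    rw [← map_pow]
    have : (⟨ζ, hζm⟩ : cyc n) ^ n = 1 := Subtype.ext hζp.pow_eq_one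
    rw [this, map_one]
  obtain ⟨s, -, hs⟩ := hζp.eq_pow_of_pow_eq_one hσζ
  have hsq : (ζ ^ s) ^ (q ^ b) = ζ ^ (q ^ b) := by
    have h1 : ζ ^ (q ^ b) ∈ cyc M := by
      refine tp_mem hM ?_
      rw [← pow_mul]
      exact hζp.pow_eq_one
    have h2 := hσ1 _ h1
    have h3 : (⟨ζ ^ (q ^ b), hle h1⟩ : cyc n) = (⟨ζ, hζm⟩ : cyc n) ^ (q ^ b) := rfl
    rw [h3, map_pow, ← hs] at h2
    exact h2
  -- the polynomial
  have hzint : IsIntegral ℤ z := by
    have h1 : IsIntegral ℤ (z ^ 2) := by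
      rw [hz2]
      refine (isIntegral_D hN0 hxN).mul (isIntegral_D hN0 ?_)
      rw [← pow_mul, mul_comm, pow_mul, hxN, one_pow]
    exact IsIntegral.of_pow two_pos h1
  have hζmem : ζ ∈ primitiveRoots n ℂ := (mem_primitiveRoots hn).2 hζp
  obtain ⟨F, ⟨f, hf⟩, hFζ⟩ := exists_isCyc hn hζmem hz hzint
  have hfζ : aeval ζ f = z := by rw [← hf ζ hζmem, hFζ]
  have hfs : aeval (ζ ^ s) f = -z := by
    have h1 : aeval (⟨ζ, hζm⟩ : cyc n) f = (⟨z, hz⟩ : cyc n) := by
      refine Subtype.ext ?_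
      have h2 := Polynomial.aeval_algHom_apply ((cyc n).val.restrictScalars ℤ)
        (⟨ζ, hζm⟩ : cyc n) f
      exact h2.symm.trans hfζ
    have h3 := Polynomial.aeval_algHom_apply (σ.toIntAlgHom) (⟨ζ, hζm⟩ : cyc n) f
    rw [h1] at h3
    have h4 : σ.toIntAlgHom (⟨ζ, hζm⟩ : cyc n) = ζ ^ s := hs.symm
    have h5 : σ.toIntAlgHom (⟨z, hz⟩ : cyc n) = -z := hσz
    rw [h4, h5] at h3
    exact h3
  obtain ⟨c, -, hc⟩ := hζp.eq_pow_of_pow_eq_one (by
    obtain ⟨d, hd⟩ := hNn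
    rw [hd, pow_mul, hxN, one_pow] : x ^ n = 1)
  have hH1 : ∀ μ ∈ primitiveRoots n ℂ, aeval (μ ^ s) f = -aeval μ f := by
    intro μ hμ
    have hcyc : IsCyc n (fun μ => aeval (μ ^ s) f + aeval μ f) :=
      ⟨f.comp (X ^ s) + f, fun μ _ => by
        rw [map_add, aeval_comp, map_pow, aeval_X]⟩
    have := hcyc.eq_zero hζmem (by
      show aeval (ζ ^ s) f + aeval ζ f = 0
      rw [hfs, hfζ, neg_add_cancel]) μ hμ
    exact eq_neg_of_add_eq_zero_left this
  have hH2 : ∀ μ ∈ primitiveRoots n ℂ,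
      aeval μ f * aeval μ f = D (μ ^ c) * D ((μ ^ c) ^ h) := by
    intro μ hμ
    have hcyc : IsCyc n (fun μ => aeval μ f * aeval μ f - D (μ ^ c) * D ((μ ^ c) ^ h)) := by
      refine (((isCyc_poly n f).mul (isCyc_poly n f)).sub
        ((isCyc_D hn (c : ℤ)).mul (isCyc_D hn ((c * h : ℕ) : ℤ)))).congr fun μ _ => ?_
      rw [zpow_natCast, zpow_natCast, pow_mul]
    have := hcyc.eq_zero hζmem (by
      show aeval ζ f * aeval ζ f - D (ζ ^ c) * D ((ζ ^ c) ^ h) = 0
      rw [hfζ, hc, ← hz2]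
      ring) μ hμ
    exact sub_eq_zero.1 this
  -- reduction modulo `q`
  obtain ⟨K, _, _, ⟨φ⟩⟩ := exists_place hq
  have _ : Fact q.Prime := ⟨hq⟩
  have hqN : ¬ q ∣ N := fun h' => hqM (h'.trans hNM)
  have hθ := ev_prim φ hN0 hqN hx
  have h2K : (2 : K) ≠ 0 := by
    intro h0
    have h1 : ((2 : ℕ) : K) = 0 := by exact_mod_cast h0
    rw [CharP.cast_eq_zero_iff K q 2] at h1
    exact hq2 ((Nat.prime_dvd_prime_iff_eq hq Nat.prime_two).1 h1)
  have key : ∀ r : ℕ, r.Coprime N → ev φ (D (x ^ r)) * ev φ (D ((x ^ r) ^ h)) = 0 := by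
    intro r hr
    obtain ⟨r', hr'1, hr'2⟩ := exists_lift hn hNn hr
    have hμp : IsPrimitiveRoot (ζ ^ r') n := hζp.pow_of_coprime r' hr'1
    set μ := ζ ^ r' with hμdef
    have hμ : μ ∈ primitiveRoots n ℂ := (mem_primitiveRoots hn).2 hμp
    have hμi : IsIntegral ℤ μ := isIntegral_of_pow hn hμp.pow_eq_one
    have hμ0 : μ ≠ 0 := hμp.ne_zero hn.ne'
    have hμc : μ ^ c = x ^ r := by
      rw [hμdef, ← pow_mul, mul_comm, pow_mul, hc]
      exact pow_congr hxN hr'2
    have hμs : ev φ (μ ^ s) = ev φ μ := by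
      have h1 : (μ ^ s * μ⁻¹) ^ (q ^ b) = 1 := by
        have h2 : (μ ^ s) ^ (q ^ b) = μ ^ (q ^ b) := by
          have e1 : (μ ^ s) ^ (q ^ b) = ((ζ ^ s) ^ (q ^ b)) ^ r' := by
            rw [hμdef]
            ring
          rw [e1, hsq, hμdef]
          ring
        rw [mul_pow, h2, inv_pow, mul_inv_cancel₀ (pow_ne_zero _ hμ0)]
      have h3 := ev_qpow φ h1
      have h4 : μ ^ s = (μ ^ s * μ⁻¹) * μ := by
        rw [mul_assoc, inv_mul_cancel₀ hμ0, mul_one]
      have h5 : IsIntegral ℤ (μ ^ s * μ⁻¹) :=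
        isIntegral_of_pow (pow_pos hq.pos b) h1
      rw [h4, ev_mul φ h5 hμi, h3, one_mul]
    have hfi : IsIntegral ℤ (aeval μ f) := by
      rw [← hf μ hμ]
      exact isIntegral_isCyc hn ⟨f, hf⟩ hμ
    have h1 : ev φ (aeval μ f) = 0 := by
      have e1 := congrArg (ev φ) (hH1 μ hμ)
      rw [ev_neg φ hfi, ev_aeval φ f (hμi.pow s), hμs, ← ev_aeval φ f hμi] at e1
      have e2 : (2 : K) * ev φ (aeval μ f) = 0 := by linear_combination e1
      exact (mul_eq_zero.1 e2).resolve_left h2K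
    have h2 := congrArg (ev φ) (hH2 μ hμ)
    have hxr : (x ^ r) ^ N = 1 := by rw [← pow_mul, mul_comm, pow_mul, hxN, one_pow]
    have hxrh : ((x ^ r) ^ h) ^ N = 1 := by rw [← pow_mul, mul_comm, pow_mul, hxr, one_pow]
    rw [ev_mul φ hfi hfi, h1, zero_mul, hμc,
      ev_mul φ (isIntegral_D hN0 hxr) (isIntegral_D hN0 hxrh)] at h2
    exact h2.symm
  have hxi : IsIntegral ℤ x := isIntegral_of_pow hN0 hxN
  refine absurd (totient_le hθ hh ?_ hN0) (not_le.2 hN)
  intro r hr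
  have hxr : (x ^ r) ^ N = 1 := by rw [← pow_mul, mul_comm, pow_mul, hxN, one_pow]
  have hxrh : ((x ^ r) ^ h) ^ N = 1 := by rw [← pow_mul, mul_comm, pow_mul, hxr, one_pow]
  rcases mul_eq_zero.1 (key r hr) with h1 | h1
  · left
    rw [ev_D φ hN0 hxr, ev_pow φ hxi] at h1
    exact h1
  · right
    rw [ev_D φ hN0 hxrh, ev_pow φ (hxi.pow r), ev_pow φ hxi] at h1
    rw [← pow_mul, mul_comm h r, pow_mul]
    exact h1

/-- We may assume `N ∣ K` (`cyc_mono`). Induction on the odd part of `K / N`: if an odd prime `q` divides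
`K / N`, write `K = q ^ b M`, `q ∤ M`, and `N = q ^ a N₁`, `q ∤ N₁`, `a < b`. If `a = 0` use
`descend_unram` (`N ∣ M`), and if `a ≥ 1` use `descend_pow` (`z ^ 2 ∈ cyc N ≤ cyc (q ^ a M)`). When
`K / N` is a power of two we are done. -/
theorem two_part {N h : ℕ} {x : ℂ} (H : Pr N h x) :
    ∃ a : ℕ, 1 ≤ a ∧ ∃ z ∈ cyc (2 ^ a * N), z ^ 2 = D x * D (x ^ h) := by
  have hN0 : 0 < N := by
    rcases Nat.eq_zero_or_pos N with rfl | h0
    · exact absurd H.htot (by simp)
    · exact h0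
  obtain ⟨K, hK, z, hz, hz2⟩ := H.hs
  have hxN : x ^ N = 1 := H.hx.pow_eq_one
  have claim : ∀ m : ℕ, 0 < m → Odd m → ∀ a : ℕ, z ∈ cyc (2 ^ a * m * N) →
      z ∈ cyc (2 ^ a * N) := by
    intro m
    induction m using Nat.strong_induction_on with
    | _ m ih =>
      intro hm hodd a hz'
      rcases Nat.eq_or_lt_of_le hm with h1 | h1
      · have h1' : m = 1 := h1.symm
        rw [h1', mul_one] at hz'
        exact hz'
      · obtain ⟨q, hq, hqm⟩ := Nat.exists_prime_and_dvd (n := m) (by omega)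
        have hq2 : q ≠ 2 := by
          rintro rfl
          exact (Nat.not_even_iff_odd.2 hodd) (even_iff_two_dvd.2 hqm)
        obtain ⟨c, m', hqm', hmc⟩ := Nat.exists_eq_pow_mul_and_not_dvd hm.ne' q hq.ne_one
        obtain ⟨a', N₁, hqN₁, hNa⟩ := Nat.exists_eq_pow_mul_and_not_dvd hN0.ne' q hq.ne_one
        have hc : 1 ≤ c := by
          rcases Nat.eq_zero_or_pos c with rfl | h0
          · rw [pow_zero, one_mul] at hmc
            exact absurd (hmc ▸ hqm) hqm'
          · exact h0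
        have hm'0 : 0 < m' := by
          rcases Nat.eq_zero_or_pos m' with rfl | h0
          · exact absurd (dvd_zero q) hqm'
          · exact h0
        have hN10 : 0 < N₁ := by
          rcases Nat.eq_zero_or_pos N₁ with rfl | h0
          · exact absurd (dvd_zero q) hqN₁
          · exact h0
        have hm'lt : m' < m := by
          rw [hmc]
          have h2 : 1 < q ^ c := Nat.one_lt_pow (by omega) hq.one_lt
          nlinarith
        have hm'odd : Odd m' := hodd.of_dvd_nat ⟨q ^ c, by rw [hmc, mul_comm]⟩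
        have hM0 : 0 < 2 ^ a * m' * N₁ := by positivity
        have hqM : ¬ q ∣ 2 ^ a * m' * N₁ := by
          intro h2
          rcases (Nat.Prime.dvd_mul hq).1 h2 with h3 | h3
          · rcases (Nat.Prime.dvd_mul hq).1 h3 with h4 | h4
            · exact hq2 ((Nat.prime_dvd_prime_iff_eq hq Nat.prime_two).1 (hq.dvd_of_dvd_pow h4))
            · exact hqm' h4
          · exact hqN₁ h3
        have e1 : 2 ^ a * m * N = q ^ (c + a') * (2 ^ a * m' * N₁) := by
          rw [hmc, hNa, pow_add]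
          ring
        have e2 : q ^ a' * (2 ^ a * m' * N₁) = 2 ^ a * m' * N := by
          rw [hNa]
          ring
        rw [e1] at hz'
        refine ih m' hm'lt hm'0 hm'odd a ?_
        rw [← e2]
        rcases Nat.eq_zero_or_pos a' with h0 | h0
        · rw [h0, pow_zero, one_mul]
          rw [h0, pow_zero, one_mul] at hNa
          exact descend_unram H.htot hM0 (by rw [hNa]; exact Dvd.intro_left _ rfl) hq hq2 hqM H.hx
            H.hh hz' hz2
        · refine descend_pow hq hq2 hM0 hqM h0 (by omega) hz' ?_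
          refine tp_z2_mem (Nat.mul_pos (pow_pos hq.pos _) hM0) ?_ hxN hz2
          rw [e2]
          exact Dvd.intro_left _ rfl
  obtain ⟨a, m, hm2, hKm⟩ := Nat.exists_eq_pow_mul_and_not_dvd hK.ne' 2 (by norm_num)
  have hm0 : 0 < m := by
    rcases Nat.eq_zero_or_pos m with rfl | h0
    · exact absurd (dvd_zero 2) hm2
    · exact h0
  have hmodd : Odd m := Nat.not_even_iff_odd.1 fun h => hm2 (even_iff_two_dvd.1 h)
  refine ⟨a + 1, by omega, z, ?_, hz2⟩
  refine claim m hm0 hmodd (a + 1) ?_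
  refine cyc_mono (by positivity) ?_ hz
  rw [hKm]
  exact ⟨2 * N, by ring⟩

end Pool.Agent.Lib.MP_baf44c_co.Q1
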