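import Pool.Agent.Lib.MP_baf44c_co.Q1.Defs
import Pool.Agent.Lib.MP_baf44c_co.FB.Ring
import Pool.Agent.Lib.MP_baf44c_co.FB.Half

/-!
Unramified places, realized in rings of Witt vectors.
-/

set_option autoImplicit false

namespace Pool.Agent.Lib.MP_baf44c_co.Q1

open Polynomial Pool.Agent.Lib.MP_baf44c_co.FB

/-- `W = WittVector ℓ k` with `k = AlgebraicClosure (ZMod ℓ)` (a domain, discrete valuation ring with
prime element `ℓ`), `π = WittVector.constantCoeff`, `Ξ = WittVector.teichmuller ℓ ξ` with `ξ` a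
primitive `L`-th root of unity of `k`. -/
theorem exists_unram {L ℓ : ℕ} (hL : 0 < L) (hℓ : ℓ.Prime) (hℓL : ¬ ℓ ∣ L) :
    ∃ (W : Type) (_ : CommRing W) (_ : IsDomain W) (k : Type) (_ : Field k) (π : W →+* k) (Ξ : W),
      CharP k ℓ ∧ Prime (ℓ : W) ∧ (∀ w, π w = 0 ↔ (ℓ : W) ∣ w) ∧
      (∀ w : W, w ≠ 0 → ∃ n : ℕ, ¬ (ℓ : W) ^ n ∣ w) ∧
      IsPrimitiveRoot Ξ L ∧ IsPrimitiveRoot (π Ξ) L ∧ (∀ m : ℕ, (m : W) = 0 → m = 0) := by
  classical
  have : Fact ℓ.Prime := ⟨hℓ⟩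
  let k := AlgebraicClosure (ZMod ℓ)
  have : CharP k ℓ := charP_of_injective_algebraMap (algebraMap (ZMod ℓ) k).injective ℓ
  have hLk : ((L : ℕ) : k) ≠ 0 := by
    intro h
    exact hℓL ((CharP.cast_eq_zero_iff k ℓ L).1 h)
  have : NeZero (L : k) := ⟨hLk⟩
  have : NeZero L := ⟨hL.ne'⟩
  obtain ⟨ξ, hξ⟩ : ∃ ξ : k, IsPrimitiveRoot ξ L := by
    obtain ⟨ξ, hξ⟩ := IsAlgClosed.exists_root (cyclotomic L k) (by
      rw [degree_cyclotomic]
      have := Nat.totient_pos.2 hL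
      exact_mod_cast this.ne')
    exact ⟨ξ, isRoot_cyclotomic_iff.1 hξ⟩
  have hcz : ∀ w : WittVector ℓ k, WittVector.constantCoeff w = 0 ↔ ((ℓ : ℕ) : WittVector ℓ k) ∣ w := by
    intro w
    rw [← Ideal.mem_span_singleton, WittVector.mem_span_p_iff_coeff_zero_eq_zero]
    rfl
  have hprime : Prime ((ℓ : ℕ) : WittVector ℓ k) := (WittVector.irreducible ℓ).prime
  have hT : ∀ r : k, WittVector.constantCoeff (WittVector.teichmuller ℓ r) = r := fun r =>
    WittVector.teichmuller_coeff_zero ℓ r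
  have hinj : Function.Injective (WittVector.teichmuller ℓ (R := k)) := by
    intro r s h
    rw [← hT r, ← hT s, h]
  refine ⟨WittVector ℓ k, inferInstance, inferInstance, k, inferInstance,
    WittVector.constantCoeff, WittVector.teichmuller ℓ ξ, inferInstance, hprime, hcz, ?_, ?_, ?_, ?_⟩
  · intro w hw
    obtain ⟨m, b, hb⟩ := WittVector.exists_eq_pow_p_mul' w hw
    refine ⟨m + 1, fun h => ?_⟩
    rw [hb, pow_succ] at h
    have h1 : ((ℓ : ℕ) : WittVector ℓ k) ∣ (b : WittVector ℓ k) :=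
      (mul_dvd_mul_iff_left (pow_ne_zero m hprime.ne_zero)).1 h
    exact hprime.not_isUnit (isUnit_of_dvd_unit h1 b.isUnit)
  · exact hξ.map_of_injective hinj
  · rw [hT]
    exact hξ
  · intro m hm
    by_contra h0
    obtain ⟨e, m', hm', rfl⟩ := Nat.exists_eq_pow_mul_and_not_dvd h0 ℓ hℓ.ne_one
    push_cast at hm
    rcases mul_eq_zero.1 hm with h | h
    · exact pow_ne_zero e hprime.ne_zero h
    · have h1 : ((m' : ℕ) : k) = 0 := by
        have h2 := congrArg (WittVector.constantCoeff (p := ℓ) (R := k)) h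
        rw [map_natCast, map_zero] at h2
        exact h2
      exact hm' ((CharP.cast_eq_zero_iff k ℓ m').1 h1)

/-- An integer polynomial vanishing at one primitive root of unity of `ℂ` vanishes at all the
primitive roots of unity of the same order in every domain. -/
private theorem Un_transfer {L : ℕ} (hL : 0 < L) {ζ : ℂ} (hζ : IsPrimitiveRoot ζ L) {W : Type}
    [CommRing W] [IsDomain W] {Y : W} (hY : IsPrimitiveRoot Y L) {f : ℤ[X]} (h : aeval ζ f = 0) :
    aeval Y f = 0 := by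
  have h1 : minpoly ℤ ζ ∣ f := minpoly.isIntegrallyClosed_dvd (hζ.isIntegral hL) h
  rw [← cyclotomic_eq_minpoly hζ hL] at h1
  obtain ⟨g, rfl⟩ := h1
  have h2 : aeval Y (cyclotomic L ℤ) = 0 := by
    have h3 := hY.isRoot_cyclotomic hL
    rw [IsRoot.def, ← map_cyclotomic_int L W, eval_map] at h3
    rw [aeval_def]
    exact h3
  rw [map_mul, h2, zero_mul]

/-- `D` for elements with `u ^ L = 1`, written with nonnegative exponents. -/
private def DW (L : ℕ) {W : Type} [CommRing W] (u : W) : W := u + u ^ (L - 1) + 6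

private theorem Un_inv {L : ℕ} (hL : 0 < L) {W : Type} [CommRing W] {u u' : W} (hu : u ^ L = 1)
    (h : u * u' = 1) : DW L u' = DW L u := by
  have hu' : u' ^ L = 1 := by
    have h1 : (u * u') ^ L = 1 := by rw [h, one_pow]
    rwa [mul_pow, hu, one_mul] at h1
  obtain ⟨l, rfl⟩ : ∃ l, L = l + 1 := ⟨L - 1, by omega⟩
  have e1 : u ^ l = u' := by
    have h2 : u ^ l = u ^ l * (u * u') := by rw [h, mul_one]
    rw [h2, ← mul_assoc, ← pow_succ, hu, one_mul]
  have e2 : u' ^ l = u := by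
    have h2 : u' ^ l = u' ^ l * (u' * u) := by rw [mul_comm u' u, h, mul_one]
    rw [h2, ← mul_assoc, ← pow_succ, hu', one_mul]
  simp only [DW, Nat.add_sub_cancel, e1, e2]
  ring

private theorem Un_D {L : ℕ} (hL : 0 < L) {t : ℂ} (ht : t ^ L = 1) : D t = DW L t := by
  have h0 : t ≠ 0 := by
    intro h
    rw [h, zero_pow hL.ne'] at ht
    exact zero_ne_one ht
  have h1 : t⁻¹ = t ^ (L - 1) := by
    refine inv_eq_of_mul_eq_one_right ?_
    rw [← pow_succ', Nat.sub_add_cancel hL, ht]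
  unfold D DW
  rw [h1]

/-- The polynomial with value `D (u ^ c)`. -/
private noncomputable def dP (L c : ℕ) : ℤ[X] := X ^ c + X ^ (c * (L - 1)) + 6

private theorem Un_aeval (L c : ℕ) {W : Type} [CommRing W] (u : W) :
    aeval u (dP L c) = DW L (u ^ c) := by
  unfold dP DW
  rw [map_add, map_add, map_pow, map_pow, aeval_X, map_ofNat, pow_mul]

private theorem Un_fin {W : Type} [CommRing W] {ℓ : ℕ}
    (hfin : ∀ w : W, w ≠ 0 → ∃ n : ℕ, ¬ (ℓ : W) ^ n ∣ w) {w : W} (hw : w ≠ 0) :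
    FiniteMultiplicity (ℓ : W) w := by
  obtain ⟨n, hn⟩ := hfin w hw
  exact ⟨n, fun h => hn ((pow_dvd_pow _ (Nat.le_succ n)).trans h)⟩

private theorem Un_mul {W : Type} [CommRing W] [IsDomain W] {ℓ : ℕ} (hp : Prime (ℓ : W))
    (hfin : ∀ w : W, w ≠ 0 → ∃ n : ℕ, ¬ (ℓ : W) ^ n ∣ w) {a b : W} (ha : a ≠ 0) (hb : b ≠ 0) :
    multiplicity (ℓ : W) (a * b) = multiplicity (ℓ : W) a + multiplicity (ℓ : W) b :=
  multiplicity_mul hp (Un_fin hfin (mul_ne_zero ha hb))

private theorem Un_prod {W : Type} [CommRing W] [IsDomain W] {ℓ : ℕ} (hp : Prime (ℓ : W))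
    (hfin : ∀ w : W, w ≠ 0 → ∃ n : ℕ, ¬ (ℓ : W) ^ n ∣ w) {ι : Type} (s : Finset ι) (f : ι → W)
    (hf : ∀ i ∈ s, f i ≠ 0) :
    multiplicity (ℓ : W) (∏ i ∈ s, f i) = ∑ i ∈ s, multiplicity (ℓ : W) (f i) := by
  classical
  induction s using Finset.induction_on with
  | empty =>
    rw [Finset.prod_empty, Finset.sum_empty]
    exact multiplicity_eq_zero.2 fun h => hp.not_isUnit (isUnit_of_dvd_one h)
  | insert a s ha ih =>
    have h1 := hf a (Finset.mem_insert_self a s)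
    have h2 : ∀ i ∈ s, f i ≠ 0 := fun i hi => hf i (Finset.mem_insert_of_mem hi)
    rw [Finset.prod_insert ha, Finset.sum_insert ha,
      Un_mul hp hfin h1 (Finset.prod_ne_zero_iff.2 h2), ih h2]

private theorem Un_nat {W k : Type} [CommRing W] [IsDomain W] [Field k] {ℓ : ℕ} (hℓ : ℓ.Prime)
    (π : W →+* k) (hk : CharP k ℓ) (hp : Prime (ℓ : W)) (hker : ∀ w, π w = 0 ↔ (ℓ : W) ∣ w)
    (hfin : ∀ w : W, w ≠ 0 → ∃ n : ℕ, ¬ (ℓ : W) ^ n ∣ w) (hc : ∀ m : ℕ, (m : W) = 0 → m = 0)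
    {w : ℕ} (hw : w ≠ 0) : multiplicity (ℓ : W) (w : W) = w.factorization ℓ := by
  obtain ⟨e, m, hm, rfl⟩ := Nat.exists_eq_pow_mul_and_not_dvd hw ℓ hℓ.ne_one
  have hm0 : m ≠ 0 := by
    rintro rfl
    exact hm (dvd_zero ℓ)
  have h1 : (ℓ ^ e * m).factorization ℓ = e := by
    rw [Nat.factorization_mul (pow_ne_zero e hℓ.ne_zero) hm0, Finsupp.add_apply,
      hℓ.factorization_pow, Finsupp.single_eq_same, Nat.factorization_eq_zero_of_not_dvd hm,
      add_zero]
  have h2 : ¬ (ℓ : W) ∣ (m : W) := by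
    intro h
    rw [← hker, map_natCast] at h
    exact hm ((CharP.cast_eq_zero_iff k ℓ m).1 h)
  rw [h1]
  push_cast
  rw [Un_mul hp hfin (pow_ne_zero e hp.ne_zero) (fun h => hm0 (hc m h)),
    multiplicity_eq_zero.2 h2, add_zero, multiplicity_pow_self_of_prime hp]

/-- If `D u D (u ^ h)` is a square and `π u` has order `N`, then the exponent of `ℓ` in `D u` is
even. -/
private theorem Un_even {W k : Type} [CommRing W] [IsDomain W] [Field k] {ℓ : ℕ}
    (π : W →+* k) (hp : Prime (ℓ : W)) (hker : ∀ w, π w = 0 ↔ (ℓ : W) ∣ w)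
    (hfin : ∀ w : W, w ≠ 0 → ∃ n : ℕ, ¬ (ℓ : W) ^ n ∣ w) {L h : ℕ} (hL : 0 < L) {u z : W}
    (hu : u ^ L = 1) (h1 : (π u) ^ h ≠ π u) (h2 : (π u) ^ h * π u ≠ 1) (h3 : DW L u ≠ 0)
    (h4 : DW L (u ^ h) ≠ 0) (hz : z ^ 2 = DW L u * DW L (u ^ h)) :
    Even (multiplicity (ℓ : W) (DW L u)) := by
  by_cases d1 : (ℓ : W) ∣ DW L u
  · have d2 : ¬ (ℓ : W) ∣ DW L (u ^ h) := by
      intro d2
      rw [← hker] at d1 d2
      unfold DW at d1 d2
      simp only [map_add, map_pow, map_ofNat] at d1 d2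
      set θ := π u with hθ
      have hθL : θ ^ L = 1 := by rw [hθ, ← map_pow, hu, map_one]
      have hθ0 : θ ≠ 0 := by
        intro h0
        rw [h0, zero_pow hL.ne'] at hθL
        exact zero_ne_one hθL
      have e1 : θ * θ ^ (L - 1) = 1 := by
        rw [← pow_succ', Nat.sub_add_cancel hL, hθL]
      have e2 : θ ^ h * (θ ^ h) ^ (L - 1) = 1 := by
        rw [← pow_succ', Nat.sub_add_cancel hL, ← pow_mul, mul_comm, pow_mul, hθL, one_pow]
      generalize θ ^ (L - 1) = A at d1 e1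
      generalize (θ ^ h) ^ (L - 1) = B at d2 e2
      generalize θ ^ h = y at d2 e2 h1 h2
      have e3 : (y - θ) * (y * θ - 1) = 0 := by
        linear_combination (y * θ) * (d2 - d1) - θ * e2 + y * e1
      rcases mul_eq_zero.1 e3 with e | e
      · exact h1 (sub_eq_zero.1 e)
      · exact h2 (sub_eq_zero.1 e)
    have hz0 : z ≠ 0 := by
      rintro rfl
      rw [zero_pow two_ne_zero] at hz
      exact mul_ne_zero h3 h4 hz.symm
    have e1 := congrArg (multiplicity (ℓ : W)) hz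
    rw [Un_mul hp hfin h3 h4, sq, Un_mul hp hfin hz0 hz0, multiplicity_eq_zero.2 d2, add_zero] at e1
    exact ⟨_, e1.symm⟩
  · rw [multiplicity_eq_zero.2 d1]
    exact ⟨0, rfl⟩

/-- Let `W, k, π, Ξ` be as in `exists_unram` for `L = 2 ^ a N`, `ζ` a primitive `L`-th root in `ℂ` with
`x = ζ ^ c`, `X = Ξ ^ c` (and `π X` has order `N`), `D t = t + t⁻¹ + 6` for units `t` of `W`. An integer
polynomial vanishing at `ζ` is a multiple of `cyclotomic L`, so it vanishes at all primitive `L`-th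
roots of `W`. `z = F ζ` (`exists_isCyc`), so `D (X ^ r) * D (X ^ (r h))` is a square in `W` for all `r`
prime to `L`, hence for all `r` prime to `N`. Let `v` be the multiplicity of `ℓ` (`emultiplicity`,
additive as `ℓ` is prime in `W`, finite on nonzero elements). If `ℓ` divides both `D (X ^ r)` and
`D (X ^ (r h))`, then `θ = π X ^ r` and `θ ^ h` are both roots of `T ^ 2 + 6 T + 1`, so `θ ^ h = θ ^ (±1)`,
and `h ≡ ±1` mod `N`, excluded. So `v (D (X ^ r))` is even for all `r`. Finally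
`∏ μ ∈ primitiveRoots N ℂ, D μ = w` gives `∏ r, D (X ^ r) = w` in `W` (the product times a suitable
power of `ζ` is an integer polynomial in `ζ`), the factors for `r` and `-r` are equal and
`r ≢ -r` (`N ≥ 3`), so `4 ∣ v w`; and `v w = w.factorization ℓ` since integers prime to `ℓ` are not
divisible by `ℓ` in `W` (`CharP k ℓ`). (`w ≠ 0` as `D μ ≥ 4`.) -/
theorem four_dvd {N h a : ℕ} {x z : ℂ} (hN : 3 ≤ N) (hx : IsPrimitiveRoot x N)
    (hh : h.Coprime N) (h1 : x ^ h ≠ x) (h2 : x ^ h ≠ x⁻¹) (hz : z ∈ cyc (2 ^ a * N))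
    (hz2 : z ^ 2 = D x * D (x ^ h)) {w : ℕ} (hw : ∏ μ ∈ primitiveRoots N ℂ, D μ = (w : ℂ))
    {ℓ : ℕ} (hℓ : ℓ.Prime) (hℓN : ¬ ℓ ∣ 2 * N) : 4 ∣ w.factorization ℓ := by
  classical
  have hN0 : 0 < N := by omega
  set L := 2 ^ a * N with hLdef
  have hL : 0 < L := by positivity
  have hL0 : L ≠ 0 := hL.ne'
  have : NeZero L := ⟨hL0⟩
  have : NeZero N := ⟨hN0.ne'⟩
  have hNL : N ∣ L := Dvd.intro_left _ rfl
  have hℓL : ¬ ℓ ∣ L := by
    intro hd
    rw [hLdef] at hd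
    rcases (Nat.Prime.dvd_mul hℓ).1 hd with h | h
    · exact hℓN (Dvd.dvd.mul_right (hℓ.dvd_of_dvd_pow h) N)
    · exact hℓN (Dvd.dvd.mul_left h 2)
  obtain ⟨W, i1, i2, k, i3, π, Ξ, hk, hp, hker, hfin, hΞ, hπΞ, hc⟩ := exists_unram hL hℓ hℓL
  have hζ : IsPrimitiveRoot (Complex.exp (2 * Real.pi * Complex.I / L)) L :=
    Complex.isPrimitiveRoot_exp L hL0
  set ζ : ℂ := Complex.exp (2 * Real.pi * Complex.I / L) with hζdef
  have hxL : x ^ L = 1 := by
    obtain ⟨m, hm⟩ := hNL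
    rw [hm, pow_mul, hx.pow_eq_one, one_pow]
  obtain ⟨c, -, hcx⟩ := hζ.eq_pow_of_pow_eq_one hxL
  -- the order of the `c`-th powers
  have hord : ∀ {M : Type} [CommMonoid M] {y : M}, IsPrimitiveRoot y L → IsPrimitiveRoot (y ^ c) N := by
    intro M _ y hy
    have h5 : ∀ j : ℕ, (y ^ c) ^ j = 1 ↔ (ζ ^ c) ^ j = 1 := by
      intro j
      rw [← pow_mul, ← pow_mul, hy.pow_eq_one_iff_dvd, hζ.pow_eq_one_iff_dvd]
    rw [hcx] at h5
    refine ⟨(h5 N).2 hx.pow_eq_one, fun j hj => hx.dvd_of_pow_eq_one j ((h5 j).1 hj)⟩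
  have hX : IsPrimitiveRoot (Ξ ^ c) N := hord hΞ
  have hθ : IsPrimitiveRoot (π Ξ ^ c) N := hord hπΞ
  have hXL : (Ξ ^ c) ^ L = 1 := by
    rw [← pow_mul, mul_comm, pow_mul, hΞ.pow_eq_one, one_pow]
  -- the square root
  have hDx : D x = DW L x := Un_D hL hxL
  have hDxh : D (x ^ h) = DW L (x ^ h) := by
    refine Un_D hL ?_
    rw [← pow_mul, mul_comm, pow_mul, hxL, one_pow]
  have hzint : IsIntegral ℤ z := by
    have hxint : IsIntegral ℤ x := hx.isIntegral hN0
    have h6 : IsIntegral ℤ (6 : ℂ) := by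
      have := isIntegral_algebraMap (R := ℤ) (A := ℂ) (x := 6)
      simpa using this
    refine IsIntegral.of_pow (n := 2) two_pos ?_
    rw [hz2, hDx, hDxh]
    unfold DW
    exact ((hxint.add (hxint.pow _)).add h6).mul (((hxint.pow _).add ((hxint.pow _).pow _)).add h6)
  have hζm : ζ ∈ primitiveRoots L ℂ := (mem_primitiveRoots hL).2 hζ
  obtain ⟨F, ⟨f, hf⟩, hFz⟩ := exists_isCyc hL hζm hz hzint
  have hfz : aeval ζ f = z := by rw [← hf ζ hζm, hFz]
  have hsq : ∀ r : ℕ, r.Coprime L →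
      (aeval (Ξ ^ r) f) ^ 2 = DW L ((Ξ ^ c) ^ r) * DW L (((Ξ ^ c) ^ r) ^ h) := by
    intro r hr
    have h5 : aeval ζ (f ^ 2 - dP L c * dP L (c * h)) = 0 := by
      rw [map_sub, map_pow, map_mul, hfz, Un_aeval, Un_aeval, pow_mul ζ c h, hcx, hz2, hDx, hDxh,
        sub_self]
    have h6 := Un_transfer hL hζ (hΞ.pow_of_coprime r hr) h5
    rw [map_sub, map_pow, map_mul, Un_aeval, Un_aeval] at h6
    rw [sub_eq_zero.1 h6]
    congr 2 <;> ring
  -- the product
  set R := (Finset.range N).filter (fun r => r.Coprime N) with hR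
  have hprodC : ∏ r ∈ R, DW L (x ^ r) = (w : ℂ) := by
    rw [← hw]
    refine Finset.prod_bij (fun r _ => x ^ r) ?_ ?_ ?_ ?_
    · intro r hr
      exact (mem_primitiveRoots hN0).2 (hx.pow_of_coprime r (Finset.mem_filter.1 hr).2)
    · intro r hr r' hr' hrr
      exact hx.pow_inj (Finset.mem_range.1 (Finset.mem_filter.1 hr).1)
        (Finset.mem_range.1 (Finset.mem_filter.1 hr').1) hrr
    · intro μ hμ
      obtain ⟨i, hi, hi2, hi3⟩ := (hx.isPrimitiveRoot_iff).1 ((mem_primitiveRoots hN0).1 hμ)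
      exact ⟨i, Finset.mem_filter.2 ⟨Finset.mem_range.2 hi, hi2⟩, hi3⟩
    · intro r hr
      refine (Un_D hL ?_).symm
      rw [← pow_mul, mul_comm, pow_mul, hxL, one_pow]
  have hprodW : ∏ r ∈ R, DW L ((Ξ ^ c) ^ r) = (w : W) := by
    have h5 : aeval ζ (∏ r ∈ R, dP L (c * r) - (w : ℤ[X])) = 0 := by
      rw [map_sub, map_prod, map_natCast, ← hprodC, sub_eq_zero]
      refine Finset.prod_congr rfl fun r _ => ?_
      rw [Un_aeval, pow_mul ζ c r, hcx]
    have h6 := Un_transfer hL hζ hΞ h5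
    rw [map_sub, map_prod, map_natCast, sub_eq_zero] at h6
    rw [← h6]
    refine Finset.prod_congr rfl fun r _ => ?_
    rw [Un_aeval, pow_mul]
  have hw0 : w ≠ 0 := by
    intro h0
    rw [h0, Nat.cast_zero, Finset.prod_eq_zero_iff] at hw
    obtain ⟨μ, hμ, h5⟩ := hw
    obtain ⟨r, hr, -, h6⟩ := D_real (((mem_primitiveRoots hN0).1 hμ).norm'_eq_one hN0.ne')
    rw [h5] at h6
    have h7 : (0 : ℝ) = r := by exact_mod_cast h6
    linarith
  have hwW : (w : W) ≠ 0 := fun h0 => hw0 (hc w h0)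
  have hne : ∀ r ∈ R, DW L ((Ξ ^ c) ^ r) ≠ 0 := by
    rw [← Finset.prod_ne_zero_iff, hprodW]
    exact hwW
  -- periodicity
  have hmodN : ∀ r s : ℕ, r ≡ s [MOD N] → (Ξ ^ c) ^ r = (Ξ ^ c) ^ s := by
    intro r s hrs
    rw [← Nat.mod_add_div r N, ← Nat.mod_add_div s N, pow_add, pow_add, pow_mul _ N, pow_mul _ N,
      hX.pow_eq_one, one_pow, one_pow, hrs]
  have hneall : ∀ r : ℕ, r.Coprime N → DW L ((Ξ ^ c) ^ r) ≠ 0 := by
    intro r hr
    rw [hmodN r (r % N) (Nat.mod_modEq r N).symm]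
    refine hne _ (Finset.mem_filter.2 ⟨Finset.mem_range.2 (Nat.mod_lt r hN0), ?_⟩)
    rw [Nat.Coprime, ← Nat.gcd_rec, Nat.gcd_comm]
    exact hr
  have hlift : ∀ r : ℕ, r.Coprime N → ∃ r' : ℕ, r'.Coprime L ∧ r' ≡ r [MOD N] := by
    intro r hr
    have key : ∀ r' : ℕ, r'.Coprime N → Odd r' → r'.Coprime L := by
      intro r' h5 h6
      refine Nat.Coprime.mul_right ?_ h5
      exact Nat.Coprime.pow_right a (Nat.coprime_two_right.2 h6)
    rcases Nat.even_or_odd r with he | ho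
    · have hNo : Odd N := by
        rcases Nat.even_or_odd N with h5 | h5
        · exfalso
          have h6 := Nat.dvd_gcd he.two_dvd h5.two_dvd
          rw [hr] at h6
          norm_num at h6
        · exact h5
      refine ⟨r + N, key _ ?_ (he.add_odd hNo), ?_⟩
      · rw [Nat.coprime_add_self_left]
        exact hr
      · exact (Nat.add_modEq_right)
    · exact ⟨r, key r hr ho, rfl⟩
  have hev : ∀ r : ℕ, r.Coprime N → Even (multiplicity (ℓ : W) (DW L ((Ξ ^ c) ^ r))) := by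
    intro r hr
    obtain ⟨r', hr', hrr⟩ := hlift r hr
    rw [← hmodN r' r hrr]
    have hr'N : r'.Coprime N := hr'.coprime_dvd_right hNL
    have hprim : IsPrimitiveRoot ((π Ξ ^ c) ^ r') N := hθ.pow_of_coprime r' hr'N
    have hπ : π ((Ξ ^ c) ^ r') = (π Ξ ^ c) ^ r' := by rw [map_pow, map_pow]
    refine Un_even π hp hker hfin hL (h := h) (z := aeval (Ξ ^ r') f) ?_ ?_ ?_ (hneall r' hr'N) ?_
      (hsq r' hr')
    · rw [← pow_mul, mul_comm, pow_mul, hXL, one_pow]
    · rw [hπ]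
      intro h5
      apply h1
      have h6 : ((π Ξ ^ c) ^ r') ^ (h + (N - 1)) = 1 := by
        rw [pow_add, h5, ← pow_succ', Nat.sub_add_cancel hN0, hprim.pow_eq_one]
      have h7 : x ^ (h + (N - 1)) = 1 :=
        (hx.pow_eq_one_iff_dvd _).2 (hprim.dvd_of_pow_eq_one _ h6)
      have h8 : x ^ (N - 1) * x = 1 := by
        rw [← pow_succ, Nat.sub_add_cancel hN0, hx.pow_eq_one]
      have h9 : x ^ h = x ^ (h + (N - 1)) * x := by
        rw [pow_add, mul_assoc, h8, mul_one]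
      rw [h9, h7, one_mul]
    · rw [hπ]
      intro h5
      apply h2
      rw [← pow_succ] at h5
      have h6 := hprim.dvd_of_pow_eq_one _ h5
      have h7 : x ^ (h + 1) = 1 := (hx.pow_eq_one_iff_dvd _).2 h6
      rw [pow_succ] at h7
      exact eq_inv_of_mul_eq_one_left h7
    · rw [← pow_mul]
      exact hneall (r' * h) (Nat.Coprime.mul_left hr'N hh)
  -- the sum
  have hsum : w.factorization ℓ = ∑ r ∈ R, multiplicity (ℓ : W) (DW L ((Ξ ^ c) ^ r)) := by
    rw [← Un_nat hℓ π hk hp hker hfin hc hw0, ← hprodW, Un_prod hp hfin _ _ hne]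
  rw [hsum, ← Finset.sum_filter_add_sum_filter_not R (fun r => 2 * r < N)]
  have hhalf : ∀ r ∈ R, 2 * r ≠ N ∧ 0 < r ∧ r < N := by
    intro r hr
    have h5 := (Finset.mem_filter.1 hr).2
    have h6 := Finset.mem_range.1 (Finset.mem_filter.1 hr).1
    refine ⟨?_, ?_, h6⟩
    · intro h7
      have h8 : r ∣ N := ⟨2, by omega⟩
      have h9 : r = 1 := by
        have h10 := Nat.gcd_eq_left h8
        rw [← h10]
        exact h5
      omega
    · rcases Nat.eq_zero_or_pos r with h7 | h7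
      · rw [h7, Nat.coprime_zero_left] at h5
        omega
      · exact h7
  have hsame : ∑ r ∈ R.filter (fun r => ¬ 2 * r < N), multiplicity (ℓ : W) (DW L ((Ξ ^ c) ^ r)) =
      ∑ r ∈ R.filter (fun r => 2 * r < N), multiplicity (ℓ : W) (DW L ((Ξ ^ c) ^ r)) := by
    refine Finset.sum_bij' (fun r _ => N - r) (fun r _ => N - r) ?_ ?_ ?_ ?_ ?_
    · intro r hr
      obtain ⟨hr1, hr2⟩ := Finset.mem_filter.1 hr
      obtain ⟨h5, h6, h7⟩ := hhalf r hr1
      refine Finset.mem_filter.2 ⟨Finset.mem_filter.2 ⟨Finset.mem_range.2 (by omega), ?_⟩, by omega⟩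
      exact (Nat.coprime_self_sub_left h7.le).2 (Finset.mem_filter.1 hr1).2
    · intro r hr
      obtain ⟨hr1, hr2⟩ := Finset.mem_filter.1 hr
      obtain ⟨h5, h6, h7⟩ := hhalf r hr1
      refine Finset.mem_filter.2 ⟨Finset.mem_filter.2 ⟨Finset.mem_range.2 (by omega), ?_⟩, by omega⟩
      exact (Nat.coprime_self_sub_left h7.le).2 (Finset.mem_filter.1 hr1).2
    · intro r hr
      have := (hhalf r (Finset.mem_filter.1 hr).1).2.2
      omega
    · intro r hr
      have := (hhalf r (Finset.mem_filter.1 hr).1).2.2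
      omega
    · intro r hr
      have h7 := (hhalf r (Finset.mem_filter.1 hr).1).2.2
      congr 1
      refine Un_inv hL ?_ ?_
      · rw [← pow_mul, mul_comm, pow_mul, hXL, one_pow]
      · rw [← pow_add, Nat.sub_add_cancel h7.le, hX.pow_eq_one]
  rw [hsame, ← two_mul]
  have h5 : Even (∑ r ∈ R.filter (fun r => 2 * r < N), multiplicity (ℓ : W) (DW L ((Ξ ^ c) ^ r))) := by
    refine Finset.even_sum _ fun r hr => ?_
    exact hev r (Finset.mem_filter.1 (Finset.mem_filter.1 hr).1).2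
  obtain ⟨m, hm⟩ := h5
  rw [hm]
  exact ⟨m, by ring⟩

end Pool.Agent.Lib.MP_baf44c_co.Q1
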