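import Pool.Agent.Lib.MP_baf44c_co.Q1.Setup
import Pool.Agent.Lib.MP_baf44c_co.Q1.TwoPart
import Pool.Agent.Lib.MP_baf44c_co.Q1.Bounds
import Pool.Agent.Lib.MP_baf44c_co.Q1.PrimeLe
import Pool.Agent.Lib.MP_baf44c_co.Q1.RigidAll
import Pool.Agent.Lib.MP_baf44c_co.Q1.SqPairOps
import Pool.Agent.Lib.MP_baf44c_co.Q1.Unram
import Pool.Agent.Lib.MP_baf44c_co.Q1.Intrinsic
import Pool.Agent.Lib.MP_baf44c_co.Q1.En.Gen
import Pool.Agent.Lib.MP_baf44c_co.Q1.En.Special
import Pool.Agent.Lib.MP_baf44c_co.Q1.En.TwoPow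

/-!
The orders of pairs of roots of unity of the same order.
-/

set_option autoImplicit false

namespace Pool.Agent.Lib.MP_baf44c_co.Q1

open Polynomial Pool.Agent.Lib.MP_baf44c_co.FB

/-- A prime `p ∣ N` has `p - 1 ≤ 4`, and `2 ^ 4`, `3 ^ 2`, `5 ^ 2` do not divide `N`, so `N ∣ 8 * 3 * 5`; then check the
divisors (`φ` is monotone for divisibility: `Nat.totient_dvd_of_dvd`). -/
theorem small_totient {N : ℕ} (hN : 0 < N) (h : N.totient ≤ 4) : N ∈ [1, 2, 3, 4, 5, 6, 8, 10, 12] := by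
  have htot : 0 < N.totient := Nat.totient_pos.2 hN
  have hdv : ∀ m : ℕ, 4 < m.totient → ¬ m ∣ N := by
    intro m hm hmN
    have := Nat.le_of_dvd htot (Nat.totient_dvd_of_dvd hmN)
    omega
  have h120 : N ∣ 120 := by
    rw [← Nat.factorization_prime_le_iff_dvd hN.ne' (by norm_num)]
    intro p hp
    have key : ∀ v : ℕ, ¬ p ^ (v + 1) ∣ N → p ^ v ∣ 120 → N.factorization p ≤ (120 : ℕ).factorization p := by
      intro v h1 h2
      have h3 : ¬ v + 1 ≤ N.factorization p := fun h3 =>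
        h1 ((hp.pow_dvd_iff_le_factorization hN.ne').2 h3)
      have h4 : v ≤ (120 : ℕ).factorization p :=
        (hp.pow_dvd_iff_le_factorization (by norm_num)).1 h2
      omega
    by_cases h5 : p ≤ 5
    · have h2 := hp.two_le
      interval_cases p
      · exact key 3 (hdv _ (by decide)) (by norm_num)
      · exact key 1 (hdv _ (by decide)) (by norm_num)
      · exact absurd hp (by norm_num)
      · exact key 1 (hdv _ (by decide)) (by norm_num)
    · refine key 0 (hdv _ ?_) (by norm_num)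
      rw [zero_add, pow_one, Nat.totient_prime hp]
      omega
  have hmem : N ∈ (120 : ℕ).divisors := Nat.mem_divisors.2 ⟨h120, by norm_num⟩
  have hall : ∀ m ∈ (120 : ℕ).divisors, m.totient ≤ 4 → m ∈ [1, 2, 3, 4, 5, 6, 8, 10, 12] := by
    decide +kernel
  exact hall N hmem h

/-- All primes dividing `N` are `≤ 59` by `prime_le`, `rigAll`. `two_part` gives `z ∈ cyc (2 ^ a N)` and so `four_dvd` applies
to the number `w` of `exists_w`, and by `sq_or` either `PA N` is a square or `q * PA N` is one for a special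
prime `q`. If `N = 2 ^ j` (then `j ≥ 4` as `φ N > 4`) this contradicts `En.enum_two` (a special prime
is `2`). Otherwise `bound_two`, `bound_odd` give the hypotheses of `En.enum_gen` and `En.enum_spec` (a special
prime is odd as `N` is not a power of `2`). -/
theorem pr_mem {N h : ℕ} {x : ℂ} (H : Pr N h x) (hj : ∀ j : ℕ, SqPair x (x ^ (h ^ j)))
    (hty : x ^ (h ^ 2) = x ∨ x ^ (h ^ 2) = x⁻¹ ∨ ∃ ℓ : ℕ, ℓ.Prime ∧ ℓ ≠ 2 ∧ x ^ (h ^ ℓ) = x) :
    N = 7 ∨ N = 30 := by
  by_contra hcon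
  push Not at hcon
  obtain ⟨h7, h30⟩ := hcon
  have hN4 : 4 < N := lt_of_lt_of_le H.htot (Nat.totient_le N)
  have hN : 0 < N := by omega
  have h59 : ∀ p : ℕ, p.Prime → p ∣ N → p ≤ 59 := by
    intro p hp hpN
    have : Fact p.Prime := ⟨hp⟩
    exact prime_le H hj hty hpN (fun h61 => rigAll h61)
  obtain ⟨a, ha, z, hz, hz2⟩ := two_part H
  obtain ⟨w, hw0, hw⟩ := exists_w hN
  have h4 : ∀ ℓ : ℕ, ℓ.Prime → ¬ ℓ ∣ 2 * N → 4 ∣ w.factorization ℓ := fun ℓ hℓ hℓN =>
    four_dvd (by omega) H.hx H.hh H.h1 H.h2 hz hz2 hw hℓ hℓN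
  have hor := sq_or (by omega) h59 hw h4
  by_cases hpow : ∃ j, N = 2 ^ j
  · obtain ⟨j, rfl⟩ := hpow
    have hj2 : 2 ≤ j := by
      by_contra hlt
      have : j = 0 ∨ j = 1 := by omega
      rcases this with rfl | rfl <;> norm_num at hN4
    obtain ⟨e1, e2⟩ := En.enum_two hj2
    rcases hor with hsq | ⟨q, hq, hsp, hsq⟩
    · exact e1 hsq
    · rcases hsp with ⟨rfl, -⟩ | ⟨hq2, hqN, -⟩
      · exact e2 hsq
      · exact hq2 ((Nat.prime_dvd_prime_iff_eq hq Nat.prime_two).1 (hq.dvd_of_dvd_pow hqN))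
  · have htwo : ∀ j : ℕ, N ≠ 2 ^ j := fun j hj => hpow ⟨j, hj⟩
    have hk := bound_two H htwo
    have hodd : ∀ n : ℕ, n ∣ N → Odd n → (∀ q : ℕ, q.Prime → q ∣ n → q ∣ N / n) → n ≤ 20224 :=
      fun n hn hn1 hn2 => bound_odd H htwo hn hn1 hn2
    rcases hor with hsq | ⟨q, hq, hsp, hsq⟩
    · exact En.enum_gen hN htwo h7 h30 h59 hk hodd hsq
    · by_cases hq2 : q = 2
      · rcases hsp with ⟨-, j, hj⟩ | ⟨hq2', -, -⟩
        · exact htwo j hj
        · exact hq2' hq2
      · exact En.enum_spec hN hq hq2 hsp h59 hk hodd hsq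

/-- `type_red`. If `φ N > 4` use `pr_mem`. Otherwise `small_totient`; for `N ∈ {1, 2, 3, 4, 6}` the numbers prime to
`N` are `≡ ±1` mod `N`, so `y = x` or `y = x⁻¹`. -/
theorem order_mem {N : ℕ} (hN : 0 < N) {x y : ℂ} (hx : IsPrimitiveRoot x N) (hy : IsPrimitiveRoot y N)
    (hs : SqPair x y) (h1 : y ≠ x) (h2 : y ≠ x⁻¹) : N ∈ [5, 7, 8, 10, 12, 30] := by
  obtain ⟨h, hcop, hh1, hh2, hj, hty⟩ := type_red hN hx hy hs h1 h2
  by_cases htot : 4 < N.totient
  · have H : Pr N h x := ⟨htot, hx, hcop, hh1, hh2, by simpa using hj 1⟩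
    rcases pr_mem H hj hty with rfl | rfl <;> simp
  · have hmem := small_totient hN (by omega)
    have hx1 : x ^ N = 1 := hx.pow_eq_one
    have hxh : x ^ h = x ^ (h % N) := by
      conv_lhs => rw [← Nat.div_add_mod h N, pow_add, pow_mul, hx1, one_pow, one_mul]
    have hlt : h % N < N := Nat.mod_lt _ hN
    have hc : Nat.Coprime (h % N) N := by
      rw [Nat.Coprime, ← Nat.gcd_rec, Nat.gcd_comm]
      exact hcop
    have hx0 : x ≠ 0 := hx.ne_zero hN.ne'
    have hinv : x ^ (N - 1) = x⁻¹ := by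
      apply eq_inv_of_mul_eq_one_left
      rw [← pow_succ]
      have : N - 1 + 1 = N := by omega
      rw [this, hx1]
    have key : h % N ≠ 1 ∧ h % N ≠ N - 1 := by
      constructor
      · intro he
        apply hh1
        rw [hxh, he, pow_one]
      · intro he
        apply hh2
        rw [hxh, he, hinv]
    obtain ⟨m, hm⟩ : ∃ m, m = h % N := ⟨_, rfl⟩
    rw [← hm] at key hc hlt
    simp only [List.mem_cons, List.not_mem_nil, or_false] at hmem ⊢
    rcases hmem with rfl | rfl | rfl | rfl | rfl | rfl | rfl | rfl | rfl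
    · omega
    · exfalso
      interval_cases m <;> first | omega | (revert hc; decide)
    · exfalso
      interval_cases m <;> first | omega | (revert hc; decide)
    · exfalso
      interval_cases m <;> first | omega | (revert hc; decide)
    · omega
    · exfalso
      interval_cases m <;> first | omega | (revert hc; decide)
    · omega
    · omega
    · omega

end Pool.Agent.Lib.MP_baf44c_co.Q1
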