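import Pool.Agent.Lib.MP_baf44c_co.Q1.Defs
import Pool.Agent.Lib.MP_baf44c_co.FB.Half
import Pool.Agent.Lib.MP_baf44c_co.FB.Norm

/-!
Products of the values `D μ` and the Pell numbers.
-/

set_option autoImplicit false

namespace Pool.Agent.Lib.MP_baf44c_co.Q1

open Polynomial Pool.Agent.Lib.MP_baf44c_co.FB

/-- With `α = 1 + √2`, `β = 1 - √2`: `D μ = μ⁻¹ (μ + α ^ 2) (μ + β ^ 2)`,
`∏ (μ + α ^ 2) = α ^ (2 n) - (-1) ^ n` up to the sign `(-1) ^ n` .. (from `∏ (t - μ) = t ^ n - 1`),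
`∏ μ⁻¹ = (-1) ^ (n + 1)`, and `α β = -1`, `α ^ n - β ^ n = 2 √2 P_n`; so the product is
`(α ^ n - β ^ n) ^ 2 = 8 P_n ^ 2`. -/
theorem prod_D {n : ℕ} (hn : 0 < n) :
    ∏ μ ∈ nthRootsFinset n (1 : ℂ), D μ = 8 * (pell n : ℂ) ^ 2 := by
  classical
  obtain ⟨s, hs⟩ : ∃ s : ℂ, s ^ 2 = 2 := IsAlgClosed.exists_pow_nat_eq 2 (by norm_num)
  set a : ℂ := 1 + s with ha
  set b : ℂ := 1 - s with hb
  have hab : a * b = -1 := by
    rw [ha, hb]
    linear_combination -hs
  have ha2 : a ^ 2 = 2 * a + 1 := by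
    rw [ha]
    linear_combination hs
  have hb2 : b ^ 2 = 2 * b + 1 := by
    rw [hb]
    linear_combination hs
  have hsum : a ^ 2 + b ^ 2 = 6 := by
    rw [ha2, hb2, ha, hb]
    ring
  have hpell : ∀ m : ℕ, a ^ m - b ^ m = 2 * s * (pell m : ℂ) ∧
      a ^ (m + 1) - b ^ (m + 1) = 2 * s * (pell (m + 1) : ℂ) := by
    intro m
    induction m with
    | zero =>
      constructor
      · simp [pell]
      · simp [pell, ha, hb]
        ring
    | succ m ih =>
      refine ⟨ih.2, ?_⟩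
      have e1 : a ^ (m + 1 + 1) = 2 * a ^ (m + 1) + a ^ m := by
        rw [pow_succ, pow_succ]
        linear_combination a ^ m * ha2
      have e2 : b ^ (m + 1 + 1) = 2 * b ^ (m + 1) + b ^ m := by
        rw [pow_succ, pow_succ]
        linear_combination b ^ m * hb2
      have e3 : ((pell (m + 1 + 1) : ℕ) : ℂ) = 2 * (pell (m + 1) : ℂ) + (pell m : ℂ) := by
        simp only [pell]
        push_cast
        ring
      rw [e1, e2, e3]
      linear_combination 2 * ih.2 + ih.1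
  have hX : ∀ t : ℂ, ∏ μ ∈ nthRootsFinset n (1 : ℂ), (t - μ) = t ^ n - 1 := by
    intro t
    have h1 := X_pow_sub_one_eq_prod hn (Complex.isPrimitiveRoot_exp n hn.ne')
    have h2 := congrArg (eval t) h1
    rw [eval_prod] at h2
    simp only [eval_sub, eval_pow, eval_X, eval_one, eval_C] at h2
    exact h2.symm
  have hcard : (nthRootsFinset n (1 : ℂ)).card = n :=
    (Complex.isPrimitiveRoot_exp n hn.ne').card_nthRootsFinset
  have hplus : ∀ t : ℂ, ∏ μ ∈ nthRootsFinset n (1 : ℂ), (μ + t) = t ^ n - (-1) ^ n := by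
    intro t
    have h1 : ∏ μ ∈ nthRootsFinset n (1 : ℂ), (μ + t) =
        ∏ μ ∈ nthRootsFinset n (1 : ℂ), ((-1) * (-t - μ)) :=
      Finset.prod_congr rfl fun μ _ => by ring
    rw [h1, Finset.prod_mul_distrib, Finset.prod_const, hcard, hX, neg_pow t n, mul_sub, ← mul_assoc,
      ← mul_pow]
    norm_num
  have hmu : (∏ μ ∈ nthRootsFinset n (1 : ℂ), μ) = -(-1) ^ n := by
    have h1 := hplus 0
    rw [zero_pow hn.ne', zero_sub] at h1
    simpa using h1
  have hne : ∀ μ ∈ nthRootsFinset n (1 : ℂ), μ ≠ 0 := by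
    intro μ hμ h0
    rw [mem_nthRootsFinset hn, h0, zero_pow hn.ne'] at hμ
    exact zero_ne_one hμ
  have hD : ∏ μ ∈ nthRootsFinset n (1 : ℂ), D μ =
      (∏ μ ∈ nthRootsFinset n (1 : ℂ), μ)⁻¹ * (∏ μ ∈ nthRootsFinset n (1 : ℂ), (μ + a ^ 2)) *
        ∏ μ ∈ nthRootsFinset n (1 : ℂ), (μ + b ^ 2) := by
    rw [← Finset.prod_inv_distrib, ← Finset.prod_mul_distrib, ← Finset.prod_mul_distrib]
    refine Finset.prod_congr rfl fun μ hμ => ?_
    have h0 := hne μ hμ
    unfold D
    have h1 : (μ + a ^ 2) * (μ + b ^ 2) = μ ^ 2 + 6 * μ + 1 := by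
      have h2 : a ^ 2 * b ^ 2 = 1 := by
        rw [← mul_pow, hab]
        norm_num
      linear_combination μ * hsum + h2
    rw [mul_assoc, h1]
    field_simp
    ring
  rw [hD, hplus, hplus, hmu]
  have h2 : (a ^ n - b ^ n) ^ 2 = 8 * (pell n : ℂ) ^ 2 := by
    rw [(hpell n).1]
    linear_combination 4 * (pell n : ℂ) ^ 2 * hs
  rw [← h2]
  have h3 : a ^ n * b ^ n = (-1) ^ n := by
    rw [← mul_pow, hab]
  have h4 : ((-1 : ℂ) ^ n) * ((-1) ^ n) = 1 := by
    rw [← mul_pow]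
    norm_num
  have h5 : (-(-1 : ℂ) ^ n)⁻¹ = -(-1) ^ n := by
    refine inv_eq_of_mul_eq_one_right ?_
    linear_combination h4
  rw [h5, ← pow_mul, ← pow_mul, mul_comm 2 n, pow_mul, pow_mul]
  generalize (-1 : ℂ) ^ n = e at h3 h4 ⊢
  generalize a ^ n = A at h3 ⊢
  generalize b ^ n = B at h3 ⊢
  linear_combination (-e * (A * B + e) + 2) * h3 + (A ^ 2 + B ^ 2 - 2 * e) * h4

/-- The product is an integer (compare `prod_int`; `D μ = aeval μ f` on primitive roots with an
integer polynomial `f`, or by induction from `prod_D`), and positive since `D μ ≥ 4` (`D_real`). -/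
theorem exists_w {N : ℕ} (hN : 0 < N) :
    ∃ w : ℕ, 0 < w ∧ ∏ μ ∈ primitiveRoots N ℂ, D μ = (w : ℂ) := by
  classical
  have hN0 : N ≠ 0 := hN.ne'
  obtain ⟨f, hf⟩ := isCyc_D hN 1
  obtain ⟨c, hc⟩ := prod_int hN f
  have h1 : ∏ μ ∈ primitiveRoots N ℂ, D μ = (c : ℂ) := by
    rw [← hc]
    refine Finset.prod_congr rfl fun μ hμ => ?_
    rw [← hf μ hμ]
    simp
  have h2 : ∀ μ ∈ primitiveRoots N ℂ, ∃ r : ℝ, 0 < r ∧ D μ = (r : ℂ) := by
    intro μ hμ
    obtain ⟨r, hr, -, h⟩ := D_real (((mem_primitiveRoots hN).1 hμ).norm'_eq_one hN0)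
    exact ⟨r, by linarith, h⟩
  have h3 : ∀ S ⊆ primitiveRoots N ℂ, ∃ r : ℝ, 0 < r ∧ ∏ μ ∈ S, D μ = (r : ℂ) := by
    intro S
    induction S using Finset.induction_on with
    | empty => intro _; exact ⟨1, one_pos, by simp⟩
    | insert x S hx ih =>
      intro hS
      obtain ⟨r, hr, h⟩ := ih fun y hy => hS (Finset.mem_insert_of_mem hy)
      obtain ⟨r', hr', h'⟩ := h2 x (hS (Finset.mem_insert_self x S))
      refine ⟨r' * r, mul_pos hr' hr, ?_⟩
      rw [Finset.prod_insert hx, h, h', Complex.ofReal_mul]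
  obtain ⟨r, hr, h⟩ := h3 _ (Finset.Subset.refl _)
  have h4 : (c : ℝ) = r := by
    have h5 : ((c : ℝ) : ℂ) = (r : ℂ) := by
      rw [← h, h1]
      push_cast
      rfl
    exact Complex.ofReal_injective h5
  have h6 : 0 < c := by
    have h7 : (0 : ℝ) < c := by rw [h4]; exact hr
    exact_mod_cast h7
  refine ⟨c.toNat, by omega, ?_⟩
  rw [h1]
  have h8 : ((c.toNat : ℕ) : ℤ) = c := Int.toNat_of_nonneg h6.le
  have h9 : ((c.toNat : ℕ) : ℂ) = (c : ℂ) := by
    rw [← Int.cast_natCast, h8]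
  exact h9.symm

private theorem Pl_pos {n : ℕ} (hn : 0 < n) : 0 < pell n := by
  have h : ∀ m : ℕ, 0 < pell (m + 1) ∧ 0 < pell (m + 2) := by
    intro m
    induction m with
    | zero => simp [pell]
    | succ m ih =>
      refine ⟨ih.2, ?_⟩
      have h1 : pell (m + 1 + 2) = 2 * pell (m + 1 + 1) + pell (m + 1) := rfl
      rw [h1]
      have := ih.1
      omega
  obtain ⟨m, rfl⟩ : ∃ m, n = m + 1 := ⟨n - 1, by omega⟩
  exact (h m).1

/-- `nthRootsFinset n` is the disjoint union of the `primitiveRoots d` for `d ∣ n`, so the `w d` of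
`exists_w` satisfy `∏ d ∈ n.divisors, w d = 8 P_n ^ 2` for all `n > 0`. Möbius inversion; the
factors `8` cancel for `N > 1`. -/
theorem moebius {N : ℕ} (hN : 1 < N) {w : ℕ} (hw : ∏ μ ∈ primitiveRoots N ℂ, D μ = (w : ℂ)) :
    w * (∏ d ∈ N.divisors.filter (fun d => ArithmeticFunction.moebius d = -1), pell (N / d)) ^ 2 =
      (∏ d ∈ N.divisors.filter (fun d => ArithmeticFunction.moebius d = 1), pell (N / d)) ^ 2 := by
  classical
  have hN0 : N ≠ 0 := by omega
  have hpell := @Pl_pos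
  set f : ℕ → ℂ := fun n => ∏ μ ∈ primitiveRoots n ℂ, D μ with hf
  set g : ℕ → ℂ := fun n => 8 * (pell n : ℂ) ^ 2 with hg
  have hf0 : ∀ n : ℕ, 0 < n → f n ≠ 0 := by
    intro n hn
    obtain ⟨w, hw0, hw⟩ := exists_w hn
    rw [hf]
    simp only
    rw [hw]
    exact_mod_cast hw0.ne'
  have hg0 : ∀ n : ℕ, 0 < n → g n ≠ 0 := by
    intro n hn
    have : (pell n : ℂ) ≠ 0 := by exact_mod_cast (hpell hn).ne'
    exact mul_ne_zero (by norm_num) (pow_ne_zero 2 this)
  have hfg : ∀ n : ℕ, 0 < n → ∏ i ∈ n.divisors, f i = g n := by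
    intro n hn
    rw [hg]
    simp only
    rw [← prod_D hn, IsPrimitiveRoot.nthRoots_one_eq_biUnion_primitiveRoots,
      Finset.prod_biUnion]
    intro i _ j _ hij
    exact IsPrimitiveRoot.disjoint hij
  have h1 := (ArithmeticFunction.prod_eq_iff_prod_pow_moebius_eq_of_nonzero hf0 hg0).1 hfg N
    (by omega)
  rw [Nat.prod_divisorsAntidiagonal (f := fun d e => g e ^ ArithmeticFunction.moebius d)] at h1
  set S1 := N.divisors.filter (fun d => ArithmeticFunction.moebius d = 1) with hS1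
  set S2 := N.divisors.filter (fun d => ArithmeticFunction.moebius d = -1) with hS2
  have hcard : S1.card = S2.card := by
    have h2 : ∑ d ∈ N.divisors, ArithmeticFunction.moebius d = 0 := by
      rw [← ArithmeticFunction.coe_mul_zeta_apply, ArithmeticFunction.moebius_mul_coe_zeta,
        ArithmeticFunction.one_apply_ne (by omega)]
    have h3 : ∀ d ∈ N.divisors, ArithmeticFunction.moebius d =
        (if ArithmeticFunction.moebius d = 1 then (1 : ℤ) else 0) -
          (if ArithmeticFunction.moebius d = -1 then (1 : ℤ) else 0) := by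
      intro d _
      rcases ArithmeticFunction.moebius_eq_or d with h | h | h <;> rw [h] <;> simp
    rw [Finset.sum_congr rfl h3, Finset.sum_sub_distrib, ← Finset.sum_filter, ← Finset.sum_filter,
      Finset.sum_const, Finset.sum_const] at h2
    simp only [nsmul_eq_mul, mul_one] at h2
    have h4 : (S1.card : ℤ) = S2.card := by
      rw [hS1, hS2]
      linarith
    exact_mod_cast h4
  have hpt : ∀ d ∈ N.divisors, g (N / d) ^ ArithmeticFunction.moebius d =
      (if ArithmeticFunction.moebius d = 1 then g (N / d) else 1) *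
        (if ArithmeticFunction.moebius d = -1 then (g (N / d))⁻¹ else 1) := by
    intro d _
    rcases ArithmeticFunction.moebius_eq_or d with h | h | h <;> rw [h] <;> simp
  rw [Finset.prod_congr rfl hpt, Finset.prod_mul_distrib, ← Finset.prod_filter,
    ← Finset.prod_filter, Finset.prod_inv_distrib] at h1
  have hdpos : ∀ d ∈ N.divisors, 0 < N / d := fun d hd =>
    Nat.div_pos (Nat.divisor_le hd) (Nat.pos_of_mem_divisors hd)
  have hne2 : (∏ d ∈ S2, g (N / d)) ≠ 0 :=
    Finset.prod_ne_zero_iff.2 fun d hd => hg0 _ (hdpos d (Finset.mem_filter.1 hd).1)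
  have hprod : ∀ S : Finset ℕ, ∏ d ∈ S, g (N / d) =
      8 ^ S.card * ((∏ d ∈ S, pell (N / d) : ℕ) : ℂ) ^ 2 := by
    intro S
    rw [hg]
    simp only
    rw [Finset.prod_mul_distrib, Finset.prod_const, Finset.prod_pow, Nat.cast_prod]
  have h5 : f N = (w : ℂ) := hw
  have h6 : (w : ℂ) * ∏ d ∈ S2, g (N / d) = ∏ d ∈ S1, g (N / d) := by
    rw [← h5, ← h1, mul_assoc, inv_mul_cancel₀ hne2, mul_one]
  rw [hprod, hprod, hcard] at h6
  have h7 : (8 : ℂ) ^ S2.card ≠ 0 := pow_ne_zero _ (by norm_num)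
  have h8 : (w : ℂ) * ((∏ d ∈ S2, pell (N / d) : ℕ) : ℂ) ^ 2 =
      ((∏ d ∈ S1, pell (N / d) : ℕ) : ℂ) ^ 2 := by
    refine mul_left_cancel₀ h7 ?_
    rw [← h6]
    ring
  exact_mod_cast h8

theorem pell_pos {n : ℕ} (hn : 0 < n) : 0 < pell n := by
  exact Pl_pos hn

/-- `w.factorization ℓ = 2 (b - a)` with `a`, `b` the exponents of `ℓ` in the two products of
`moebius`, so `b - a` is even, and the exponent of `ℓ` in `PA N` is `a + b` (the squarefree `d` are those with
`moebius d = ±1`). -/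
theorem even_PA {N : ℕ} (hN : 1 < N) {w : ℕ} (hw : ∏ μ ∈ primitiveRoots N ℂ, D μ = (w : ℂ))
    {ℓ : ℕ} (hℓ : ℓ.Prime) (h4 : 4 ∣ w.factorization ℓ) : Even ((PA N).factorization ℓ) := by
  classical
  obtain ⟨w0, hw0, hw1⟩ := exists_w (show 0 < N by omega)
  have hww : w0 = w := by
    have h1 : (w0 : ℂ) = (w : ℂ) := by rw [← hw1, hw]
    exact_mod_cast h1
  subst hww
  have hm := moebius hN hw
  have hdpos : ∀ d ∈ N.divisors, 0 < N / d := fun d hd =>
    Nat.div_pos (Nat.divisor_le hd) (Nat.pos_of_mem_divisors hd)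
  set S1 := N.divisors.filter (fun d => ArithmeticFunction.moebius d = 1) with hS1
  set S2 := N.divisors.filter (fun d => ArithmeticFunction.moebius d = -1) with hS2
  have hne : ∀ S : Finset ℕ, S ⊆ N.divisors → (∏ d ∈ S, pell (N / d)) ≠ 0 := fun S hS =>
    Finset.prod_ne_zero_iff.2 fun d hd => (Pl_pos (hdpos d (hS hd))).ne'
  have h1 := hne S1 (Finset.filter_subset _ _)
  have h2 := hne S2 (Finset.filter_subset _ _)
  have hPA : PA N = (∏ d ∈ S1, pell (N / d)) * ∏ d ∈ S2, pell (N / d) := by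
    have hdisj : Disjoint S1 S2 := by
      rw [Finset.disjoint_left]
      intro d hd hd'
      have e1 := (Finset.mem_filter.1 hd).2
      have e2 := (Finset.mem_filter.1 hd').2
      rw [e1] at e2
      norm_num at e2
    rw [← Finset.prod_union hdisj, PA]
    congr 1
    ext d
    simp only [hS1, hS2, Finset.mem_filter, Finset.mem_union]
    constructor
    · rintro ⟨hd, hs⟩
      have e1 := ArithmeticFunction.moebius_ne_zero_iff_squarefree.2 hs
      rcases ArithmeticFunction.moebius_eq_or d with h | h | h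
      · exact absurd h e1
      · exact Or.inl ⟨hd, h⟩
      · exact Or.inr ⟨hd, h⟩
    · rintro (⟨hd, h⟩ | ⟨hd, h⟩)
      · exact ⟨hd, ArithmeticFunction.moebius_ne_zero_iff_squarefree.1 (by rw [h]; norm_num)⟩
      · exact ⟨hd, ArithmeticFunction.moebius_ne_zero_iff_squarefree.1 (by rw [h]; norm_num)⟩
  have h3 := congrArg (fun n : ℕ => n.factorization ℓ) hm
  beta_reduce at h3
  rw [Nat.factorization_mul hw0.ne' (pow_ne_zero 2 h2), Nat.factorization_pow,
    Nat.factorization_pow] at h3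
  simp only [Finsupp.add_apply, Finsupp.smul_apply, smul_eq_mul] at h3
  rw [hPA, Nat.factorization_mul h1 h2, Finsupp.add_apply]
  obtain ⟨k, hk⟩ := h4
  rw [hk] at h3
  exact ⟨k + (∏ d ∈ S2, pell (N / d)).factorization ℓ, by omega⟩

theorem PA_pos {N : ℕ} (hN : 0 < N) : 0 < PA N := by
  unfold PA
  refine Finset.prod_pos fun d hd => Pl_pos ?_
  have hd' := (Finset.mem_filter.1 hd).1
  exact Nat.div_pos (Nat.divisor_le hd') (Nat.pos_of_mem_divisors hd')

end Pool.Agent.Lib.MP_baf44c_co.Q1
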