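import Mathlib

/-!
Representatives modulo sign.
-/

set_option autoImplicit false

namespace Pool.Agent.Lib.MP_baf44c_co.Q1

private theorem isUnit_four {n : ℕ} (hodd : Odd n) : IsUnit (4 : ZMod n) := by
  have h : Nat.Coprime 4 n := by
    have h2 : Nat.Coprime 2 n := Nat.coprime_two_left.2 hodd
    exact (Nat.Coprime.mul_left h2 h2 : Nat.Coprime (2 * 2) n)
  have := (ZMod.isUnit_iff_coprime 4 n).2 h
  exact_mod_cast this

private theorem ne_neg {n : ℕ} (hodd : Odd n) {t : ZMod n} (ht : t ≠ 0) : t ≠ -t := by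
  intro h
  apply ht
  have h2 : (4 : ZMod n) * t = 0 := by
    have h3 : t + t = 0 := by
      nth_rewrite 1 [h]
      exact neg_add_cancel t
    calc (4 : ZMod n) * t = (t + t) + (t + t) := by ring
      _ = 0 := by rw [h3, add_zero]
  exact (isUnit_four hodd).mul_right_eq_zero.1 h2

/-- `n` is odd, so `t ≠ -t` for `t ≠ 0` and `T \ {0}` is a disjoint union of at most `6` pairs
`{s j, -s j}`. `e (s j)` is the `j`-th unit vector, `e (-s j) = -e (s j)`, `e t = 0` for all other
`t`. -/
theorem exists_reps {n : ℕ} [NeZero n] (hodd : Odd n) (T : Finset (ZMod n))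
    (hT : (T.erase 0).card ≤ 12) (hsym : ∀ t ∈ T, -t ∈ T) :
    ∃ (k : ℕ) (s : Fin k → ZMod n) (e : ZMod n → Fin k → ℤ), k ≤ 6 ∧ (∀ j, s j ≠ 0) ∧
      (∀ t ∈ T, ∑ j, (e t j : ZMod n) * s j = t) ∧ (∀ t, e (-t) = -e t) ∧
      (∀ t, ∑ j, |e t j| ≤ 1) := by
  classical
  obtain ⟨P, hP⟩ : ∃ P : Finset (ZMod n), P = (T.erase 0).filter (fun t => t.val < (-t).val) :=
    ⟨_, rfl⟩
  have hPmem : ∀ t, t ∈ P ↔ t ≠ 0 ∧ t ∈ T ∧ t.val < (-t).val := by
    intro t
    rw [hP, Finset.mem_filter, Finset.mem_erase, and_assoc]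
  have hPnot : ∀ t, t ∈ P → -t ∉ P := by
    intro t h1 h2
    rw [hPmem] at h1 h2
    rw [neg_neg] at h2
    omega
  have hPor : ∀ t ∈ T, t ≠ 0 → t ∈ P ∨ -t ∈ P := by
    intro t ht h0
    rw [hPmem, hPmem, neg_neg]
    have h1 : t.val ≠ (-t).val := fun h => ne_neg hodd h0 (ZMod.val_injective n h)
    rcases lt_or_gt_of_ne h1 with h | h
    · exact Or.inl ⟨h0, ht, h⟩
    · exact Or.inr ⟨neg_ne_zero.2 h0, hsym t ht, h⟩
  have hPcard : P.card ≤ 6 := by
    have h1 : Disjoint P (P.image (fun t => -t)) := by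
      rw [Finset.disjoint_left]
      intro t h1 h2
      rw [Finset.mem_image] at h2
      obtain ⟨u, hu, rfl⟩ := h2
      exact hPnot u hu h1
    have h2 : P ∪ P.image (fun t => -t) ⊆ T.erase 0 := by
      intro t ht
      rw [Finset.mem_union, Finset.mem_image] at ht
      rw [Finset.mem_erase]
      rcases ht with ht | ⟨u, hu, rfl⟩
      · rw [hPmem] at ht
        exact ⟨ht.1, ht.2.1⟩
      · rw [hPmem] at hu
        exact ⟨neg_ne_zero.2 hu.1, hsym u hu.2.1⟩
    have h3 := Finset.card_le_card h2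
    rw [Finset.card_union_of_disjoint h1, Finset.card_image_of_injective _ neg_injective] at h3
    omega
  have hs : ∃ s : Fin P.card → ZMod n, Function.Injective s ∧ ∀ x, x ∈ P ↔ ∃ j, s j = x := by
    refine ⟨fun j => (P.equivFin.symm j : ZMod n), fun a b h => ?_, fun x => ?_⟩
    · exact P.equivFin.symm.injective (Subtype.ext h)
    · constructor
      · intro hx
        exact ⟨P.equivFin ⟨x, hx⟩, by simp⟩
      · rintro ⟨j, rfl⟩
        exact (P.equivFin.symm j).2
  obtain ⟨s, hinj, hsP⟩ := hs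
  have hs0 : ∀ j, s j ≠ 0 := fun j => ((hPmem _).1 ((hsP _).2 ⟨j, rfl⟩)).1
  have hsum : ∀ x : ZMod n, ∑ j, (if s j = x then (1 : ℤ) else 0) = if x ∈ P then 1 else 0 := by
    intro x
    by_cases hx : x ∈ P
    · obtain ⟨j0, rfl⟩ := (hsP x).1 hx
      rw [if_pos hx, Finset.sum_eq_single j0]
      · simp
      · intro j _ hj
        rw [if_neg (fun h => hj (hinj h))]
      · simp
    · rw [if_neg hx]
      apply Finset.sum_eq_zero
      intro j _
      rw [if_neg (fun h => hx ((hsP x).2 ⟨j, h⟩))]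
  have hsum2 : ∀ x : ZMod n, ∑ j, (if s j = x then s j else 0) = if x ∈ P then x else 0 := by
    intro x
    by_cases hx : x ∈ P
    · obtain ⟨j0, rfl⟩ := (hsP x).1 hx
      rw [if_pos hx, Finset.sum_eq_single j0]
      · simp
      · intro j _ hj
        rw [if_neg (fun h => hj (hinj h))]
      · simp
    · rw [if_neg hx]
      apply Finset.sum_eq_zero
      intro j _
      rw [if_neg (fun h => hx ((hsP x).2 ⟨j, h⟩))]
  refine ⟨P.card, s, fun t j => (if s j = t then 1 else 0) - (if s j = -t then 1 else 0), hPcard,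
    hs0, ?_, ?_, ?_⟩
  · intro t ht
    have h1 : ∀ j, (((if s j = t then (1 : ℤ) else 0) - (if s j = -t then 1 else 0) : ℤ) : ZMod n) *
        s j = (if s j = t then s j else 0) - (if s j = -t then s j else 0) := by
      intro j
      split_ifs <;> simp
    rw [Finset.sum_congr rfl (fun j _ => h1 j), Finset.sum_sub_distrib, hsum2, hsum2]
    by_cases h0 : t = 0
    · subst h0
      simp
    · rcases hPor t ht h0 with h | h
      · rw [if_pos h, if_neg (hPnot t h), sub_zero]
      · have h' : t ∉ P := by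
          have := hPnot _ h
          rwa [neg_neg] at this
        rw [if_neg h', if_pos h]
        simp
  · intro t
    funext j
    simp only [neg_neg, Pi.neg_apply]
    ring
  · intro t
    have h1 : ∀ j, |(if s j = t then (1 : ℤ) else 0) - (if s j = -t then 1 else 0)| ≤
        (if s j = t then (1 : ℤ) else 0) + (if s j = -t then 1 else 0) := by
      intro j
      split_ifs <;> simp
    refine (Finset.sum_le_sum (fun j _ => h1 j)).trans ?_
    rw [Finset.sum_add_distrib, hsum, hsum]
    by_cases h : t ∈ P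
    · rw [if_pos h, if_neg (hPnot t h)]
      simp
    · rw [if_neg h]
      split_ifs <;> simp

/-- A sum of four vectors `e a + e b - e c - e d` as in `exists_reps` which maps to `0` has norm² at
most `10`. Indeed let `r` be the sum; `∑ |r j| ≤ 4`. If all `|r j| ≤ 3` then
`∑ r j ^ 2 ≤ 10` (the largest is `≤ 3`, and `∑ r j ^ 2 ≤ m ^ 2 + (4 - m) ^ 2` with `m` the
largest for `m ≥ 2`). Otherwise `r = ± 4` times a unit vector and `4 s j = 0`, so `s j = 0`. -/
theorem norm_rel {n : ℕ} [NeZero n] (hodd : Odd n) {k : ℕ} (s : Fin k → ZMod n)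
    (hs : ∀ j, s j ≠ 0) (r : Fin k → ℤ) (hr : ∑ j, |r j| ≤ 4)
    (h0 : ∑ j, (r j : ZMod n) * s j = 0) : ∑ j, r j ^ 2 ≤ 10 := by
  classical
  by_cases hbig : ∃ j, 3 ≤ |r j|
  · obtain ⟨j, hj⟩ := hbig
    have h1 := Finset.add_sum_erase Finset.univ (fun i => |r i|) (Finset.mem_univ j)
    have h2 := Finset.add_sum_erase Finset.univ (fun i => r i ^ 2) (Finset.mem_univ j)
    have h3 := Finset.add_sum_erase Finset.univ (fun i => (r i : ZMod n) * s i)
      (Finset.mem_univ j)
    rw [← h1] at hr
    have hle : ∀ i ∈ Finset.univ.erase j, |r i| ≤ ∑ i ∈ Finset.univ.erase j, |r i| := by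
      intro i hi
      exact Finset.single_le_sum (f := fun i => |r i|) (fun i _ => abs_nonneg _) hi
    rcases eq_or_lt_of_le hj with h | h
    · have h4 : ∑ i ∈ Finset.univ.erase j, r i ^ 2 ≤ ∑ i ∈ Finset.univ.erase j, |r i| := by
        apply Finset.sum_le_sum
        intro i hi
        have h5 : |r i| ≤ 1 := by
          have := hle i hi
          omega
        have h6 : 0 ≤ |r i| := abs_nonneg _
        rw [← sq_abs]
        nlinarith
      have h7 : r j ^ 2 = 9 := by
        rw [← sq_abs, ← h]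
        norm_num
      rw [← h2, h7]
      omega
    · exfalso
      have h5 : ∀ i ∈ Finset.univ.erase j, r i = 0 := by
        intro i hi
        have h6 := hle i hi
        have h7 : 0 ≤ |r i| := abs_nonneg _
        exact abs_eq_zero.1 (by omega)
      have h6 : ∑ i ∈ Finset.univ.erase j, (r i : ZMod n) * s i = 0 := by
        apply Finset.sum_eq_zero
        intro i hi
        rw [h5 i hi]
        simp
      rw [← h3, h6, add_zero] at h0
      have h7 : 0 ≤ ∑ i ∈ Finset.univ.erase j, |r i| :=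
        Finset.sum_nonneg (fun i _ => abs_nonneg _)
      have h8 : |r j| = 4 := by omega
      have h9 : (4 : ZMod n) * s j = 0 := by
        rcases (abs_eq (by norm_num : (0 : ℤ) ≤ 4)).1 h8 with h | h
        · rw [h] at h0
          exact_mod_cast h0
        · rw [h] at h0
          push_cast at h0
          linear_combination -h0
      exact hs j ((isUnit_four hodd).mul_right_eq_zero.1 h9)
  · push Not at hbig
    have h4 : ∑ j, r j ^ 2 ≤ ∑ j, 2 * |r j| := by
      apply Finset.sum_le_sum
      intro i _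
      have h5 : |r i| ≤ 2 := by
        have := hbig i
        omega
      have h6 : 0 ≤ |r i| := abs_nonneg _
      rw [← sq_abs]
      nlinarith
    rw [← Finset.mul_sum] at h4
    omega

end Pool.Agent.Lib.MP_baf44c_co.Q1
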