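import Pool.Agent.Lib.MP_baf44c_co.Q1.Wlemma

/-!
Rigidity for primes `p > 1000`.
-/

set_option autoImplicit false

namespace Pool.Agent.Lib.MP_baf44c_co.Q1

/-- `wlemma` with `T = S ∪ {±u, ±v}`, of at most `12` elements, `a = u`, `b = v`, `u + v ≠ 0` of
order `p`. `0 < D ≤ 316 < p`, so `D` is invertible and the filters are singletons. -/
theorem rigid_big {p : ℕ} [Fact p.Prime] (hp : 1000 < p) {u v : ZMod p} (huv : u + v ≠ 0) :
    Rigid p u v 8 := by
  have hprime : p.Prime := Fact.out
  intro K _ _ g η S hS hSs _ hg hη _ _ hid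
  classical
  set T : Finset (ZMod p) := S ∪ {u, -u, v, -v} with hT
  have hmem : ∀ i, i ∈ T ↔ i ∈ S ∨ InE u v i := by
    intro i
    simp only [hT, Finset.mem_union, Finset.mem_insert, Finset.mem_singleton, InE]
  have hcard : (T.erase 0).card ≤ 12 := by
    have h1 : T.card ≤ S.card + ({u, -u, v, -v} : Finset (ZMod p)).card :=
      Finset.card_union_le _ _
    have h2 : ({u, -u, v, -v} : Finset (ZMod p)).card ≤ 4 := Finset.card_le_four
    exact (Finset.card_erase_le).trans (by omega)
  have hsym : ∀ t ∈ T, -t ∈ T := by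
    intro t ht
    rw [hmem] at ht ⊢
    rcases ht with h | h | h | h | h
    · exact Or.inl (hSs t h)
    · exact Or.inr (Or.inr (Or.inl (by rw [h])))
    · exact Or.inr (Or.inl (by rw [h, neg_neg]))
    · exact Or.inr (Or.inr (Or.inr (Or.inr (by rw [h]))))
    · exact Or.inr (Or.inr (Or.inr (Or.inl (by rw [h, neg_neg]))))
  have hu : u ∈ T := (hmem u).2 (Or.inr (Or.inl rfl))
  have hv : v ∈ T := (hmem v).2 (Or.inr (Or.inr (Or.inr (Or.inl rfl))))
  have hord : addOrderOf (u + v) = p := by
    apply addOrderOf_eq_prime _ huv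
    rw [nsmul_eq_mul, CharP.cast_eq_zero, zero_mul]
  have hodd : Odd p := hprime.odd_of_ne_two (by omega)
  obtain ⟨D, hD0, hD1, hW⟩ := wlemma hodd hp T hcard hsym hu hv hord
  have hDne : (D : ZMod p) ≠ 0 := by
    intro h0
    rw [ZMod.natCast_eq_zero_iff] at h0
    have := Nat.le_of_dvd hD0 h0
    omega
  have hfil : ∀ i : ZMod p,
      Finset.univ.filter (fun j : ZMod p => (D : ZMod p) * j = (D : ZMod p) * i) = {i} := by
    intro i
    ext j
    simp only [Finset.mem_filter, Finset.mem_univ, true_and, Finset.mem_singleton]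
    exact ⟨fun h => mul_left_cancel₀ hDne h, fun h => by rw [h]⟩
  rcases hW K g η (fun i hi => (hmem i).2 (hg i hi)) (fun i hi => (hmem i).2 (Or.inr (hη i hi)))
    hid with h | h
  · left
    intro i
    have h1 := h ((D : ZMod p) * i)
    rw [hfil, Finset.sum_singleton] at h1
    exact h1
  · right
    intro i
    have h1 := h ((D : ZMod p) * i)
    rw [hfil, Finset.sum_singleton, Finset.sum_singleton] at h1
    exact h1

end Pool.Agent.Lib.MP_baf44c_co.Q1
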