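import Pool.Agent.Lib.MP_baf44c_co.Q1.RigidCount
import Pool.Agent.Lib.MP_baf44c_co.Q1.RigidBig

/-!
Rigidity for `p > 1000` and for `61 ≤ p < 1000` with exceptions.
-/

set_option autoImplicit false

namespace Pool.Agent.Lib.MP_baf44c_co.Q1

private theorem sum_ne {p : ℕ} [Fact p.Prime] (hp : 32 < p) (b : ZMod p) :
    (1 + b ^ 1) + (1 - b ^ 1) ≠ 0 := by
  have h1 : (1 + b ^ 1) + (1 - b ^ 1) = ((2 : ℕ) : ZMod p) := by
    push_cast
    ring
  rw [h1, Ne, ZMod.natCast_eq_zero_iff]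
  intro h
  have := Nat.le_of_dvd (by norm_num) h
  omega

/-- `j = 1` and `rigid_count`; `(1 + b) + (1 - b) = 2 ≠ 0`. -/
theorem rigAll_count {p : ℕ} [Fact p.Prime] (hp : 32 < p) {J : ℕ}
    (hJ : ∀ j, 0 < j → j < J → (2 : ZMod p) ^ j ≠ 1 ∧ (2 : ZMod p) ^ j ≠ -1)
    (h : 7 * (lm p + 3) < 2 * J) : RigAll p := by
  intro b _
  refine ⟨1, fun h1 h2 => by rw [pow_one]; exact ⟨h1, h2⟩, fun _ => rfl, ?_⟩
  exact rigid_count (by omega) (sum_ne hp b) hJ h

/-- `j = 1` and `rigid_big`. -/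
theorem rigAll_big {p : ℕ} [Fact p.Prime] (hp : 1000 < p) : RigAll p := by
  intro b _
  refine ⟨1, fun h1 h2 => by rw [pow_one]; exact ⟨h1, h2⟩, fun _ => rfl, ?_⟩
  have hl : lm p = 8 := by
    unfold lm
    rw [if_neg (by omega)]
  rw [hl]
  exact rigid_big hp (sum_ne (by omega) b)

/-- The primes `61 ≤ p < 1000` for which `±2^j` does not give enough multipliers. -/
def exc : List ℕ := [61, 67, 71, 73, 79, 83, 89, 97, 109, 113, 127, 137, 151, 157, 223, 229, 233,
  241, 251, 257, 281, 331, 337, 397, 433, 457, 601, 641, 673, 683, 953]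

/-- `2 x, 4 x, …, 2 ^ n x` are not `1` or `p - 1` modulo `p`. -/
private def pw (p : ℕ) : ℕ → ℕ → Bool
  | 0, _ => true
  | n + 1, x => !((2 * x) % p == 1) && !((2 * x) % p == p - 1) && pw p n ((2 * x) % p)

private theorem pw_spec (p : ℕ) : ∀ n x : ℕ, pw p n x = true → ∀ j, 0 < j → j ≤ n →
    (2 ^ j * x) % p ≠ 1 ∧ (2 ^ j * x) % p ≠ p - 1
  | 0, _, _, j, h0, h1 => by omega
  | n + 1, x, h, j, h0, h1 => by
      simp only [pw, Bool.and_eq_true, Bool.not_eq_true', beq_eq_false_iff_ne] at h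
      obtain ⟨⟨ha, hb⟩, hc⟩ := h
      rcases Nat.lt_or_ge 1 j with hj | hj
      · obtain ⟨i, rfl⟩ : ∃ i, j = i + 1 := ⟨j - 1, by omega⟩
        have := pw_spec p n _ hc i (by omega) (by omega)
        rw [Nat.mul_mod_mod, ← mul_assoc, ← pow_succ] at this
        exact this
      · have : j = 1 := by omega
        subst this
        rw [pow_one]
        exact ⟨ha, hb⟩

/-- the test -/
private def tst (p : ℕ) : Bool :=
  (List.range 30).any (fun d => p % (d + 2) == 0) || exc.contains p ||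
    pw p (if p < 130 then 45 else 38) 1

private theorem tst_all : ∀ i < 940, tst (61 + i) = true := by
  decide +kernel

/-- Kernel computation: for each `61 ≤ p < 1000` one of: `p` has a divisor `1 < d ≤ 31`, or
`p ∈ exc`, or `2 ^ j % p` is not `1` or `p - 1` for `0 < j < J`, where `J = 46` for `p < 130`
(`7 * 13 = 91 < 92`) and `J = 39` for `p ≥ 130` (`7 * 11 = 77 < 78`). -/
theorem nonexc {p : ℕ} (hp : p.Prime) (h61 : 61 ≤ p) (h1000 : p ≤ 1000) (hne : p ∉ exc) :
    ∃ J : ℕ, 7 * (lm p + 3) < 2 * J ∧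
      ∀ j, 0 < j → j < J → (2 : ZMod p) ^ j ≠ 1 ∧ (2 : ZMod p) ^ j ≠ -1 := by
  have ht : tst p = true := by
    have := tst_all (p - 61) (by omega)
    rwa [show 61 + (p - 61) = p by omega] at this
  have hpw : pw p (if p < 130 then 45 else 38) 1 = true := by
    unfold tst at ht
    rw [Bool.or_eq_true, Bool.or_eq_true] at ht
    rcases ht with (h | h) | h
    · exfalso
      rw [List.any_eq_true] at h
      obtain ⟨d, hd, h⟩ := h
      rw [List.mem_range] at hd
      have h' : p % (d + 2) = 0 := by simpa using h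
      have hdvd : d + 2 ∣ p := Nat.dvd_of_mod_eq_zero h'
      rcases (Nat.dvd_prime hp).1 hdvd with h1 | h1 <;> omega
    · exfalso
      exact hne (by simpa using h)
    · exact h
  refine ⟨(if p < 130 then 45 else 38) + 1, ?_, ?_⟩
  · unfold lm
    split_ifs <;> norm_num
  · intro j h0 h1
    have hs := pw_spec p _ 1 hpw j h0 (by omega)
    rw [mul_one] at hs
    have hp1 : 1 < p := hp.one_lt
    constructor
    · intro h
      apply hs.1
      have h2 : ((2 ^ j : ℕ) : ZMod p) = ((1 : ℕ) : ZMod p) := by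
        push_cast
        exact h
      rw [ZMod.natCast_eq_natCast_iff'] at h2
      rw [h2, Nat.mod_eq_of_lt hp1]
    · intro h
      apply hs.2
      have h2 : ((2 ^ j : ℕ) : ZMod p) = ((p - 1 : ℕ) : ZMod p) := by
        rw [Nat.cast_sub hp1.le, ZMod.natCast_self]
        push_cast
        rw [h]
        ring
      rw [ZMod.natCast_eq_natCast_iff'] at h2
      rw [h2, Nat.mod_eq_of_lt (by omega)]

end Pool.Agent.Lib.MP_baf44c_co.Q1
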