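import Pool.Agent.Lib.MP_baf44c_co.FB.Dirichlet
import Pool.Agent.Lib.MP_baf44c_co.Q1.CountC
import Pool.Agent.Lib.MP_baf44c_co.Q1.Rect

/-!
Rigidity for primes `p` for which `2` and `-1` generate a large group.
-/

set_option autoImplicit false

namespace Pool.Agent.Lib.MP_baf44c_co.Q1

/-- If `η` is supported on `±u, ±v` and `g` too, then `g = 0` or `g = η`: two classes are brought into
`(-p/4, p/4)` by some `q ≠ 0` (pigeonhole: `p > 16` multiples, `4 ^ 2` boxes; compare
`FB.exists_mul`), then `rect_prime`. -/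
theorem rigid_zero {p : ℕ} [Fact p.Prime] (hp : 16 < p) (u v : ZMod p) {K : Type} [Field K]
    (g η : ZMod p → K) (hg : ∀ i, g i ≠ 0 → InE u v i) (hη : ∀ i, η i ≠ 0 → InE u v i)
    (hid : ∀ γ, ∑ i, g i * g (γ - i) = ∑ i, g i * η (γ - i)) :
    (∀ i, g i = 0) ∨ ∀ i, g i = η i := by
  classical
  obtain ⟨q, hq0, hq⟩ := FB.exists_mul ({u, v} : Finset (ZMod p)) 1 (by
    rw [ZMod.addOrderOf_one]
    have h : 4 ^ ({u, v} : Finset (ZMod p)).card ≤ 4 ^ 2 :=
      Nat.pow_le_pow_right (by norm_num) Finset.card_le_two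
    omega)
  rw [mul_one] at hq0
  have hneg : ∀ t, 4 * |(q * t).valMinAbs| < p → 4 * |(q * -t).valMinAbs| < p := by
    intro t ht
    have h1 : (q * -t).valMinAbs = -(q * t).valMinAbs := by
      apply FB.valMinAbs_eq
      · rw [Int.cast_neg, ZMod.coe_valMinAbs]
        ring
      · rw [abs_neg]
        have := abs_nonneg (q * t).valMinAbs
        linarith
    rw [h1, abs_neg]
    exact ht
  have hu := hq u (by simp)
  have hv := hq v (by simp)
  refine rect_prime g η (Finset.univ.filter (InE u v)) q hq0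
    (fun i hi => Finset.mem_filter.2 ⟨Finset.mem_univ _, hg i hi⟩)
    (fun i hi => Finset.mem_filter.2 ⟨Finset.mem_univ _, hη i hi⟩) ?_ hid
  intro t ht
  rcases (Finset.mem_filter.1 ht).2 with h | h | h | h <;> rw [h]
  · exact hu
  · exact hneg u hu
  · exact hv
  · exact hneg v hv

/-- With `E` the set of classes `±u, ±v` (at most `4`) and `T = S ∪ E` (at most `lim + 4`): if
`g t ≠ 0` for some `t ∉ E`, then `count_le` (with `u`, or `v` in the place of `u` if `u = 0`) gives
`2 J ≤ 7 (lim + 3)`. Otherwise `rigid_zero`. -/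
theorem rigid_count {p : ℕ} [Fact p.Prime] (hp : 16 < p) {u v : ZMod p} (huv : u + v ≠ 0)
    {lim J : ℕ} (hJ : ∀ j, 0 < j → j < J → (2 : ZMod p) ^ j ≠ 1 ∧ (2 : ZMod p) ^ j ≠ -1)
    (h : 7 * (lim + 3) < 2 * J) : Rigid p u v lim := by
  classical
  intro K _ _ g η S hS hSneg hSE hg hη hu hv hid
  by_cases hex : ∃ t, g t ≠ 0 ∧ ¬ InE u v t
  · exfalso
    obtain ⟨t, ht, htE⟩ := hex
    have hp2 : p ≠ 2 := by omega
    set E : Finset (ZMod p) := Finset.univ.filter (InE u v) with hE
    have hmE : ∀ i, i ∈ E ↔ InE u v i := fun i => by rw [hE]; simp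
    have hEc : E.card ≤ 4 := by
      refine (Finset.card_le_card (t := {u, -u, v, -v}) ?_).trans Finset.card_le_four
      intro i hi
      rcases (hmE i).1 hi with h' | h' | h' | h' <;> simp [h']
    have hEs : ∀ e ∈ E, -e ∈ E := by
      intro e he
      rw [hmE] at he ⊢
      rcases he with h' | h' | h' | h' <;> rw [h'] <;> unfold InE <;> simp
    have hTc : (S ∪ E).card ≤ lim + 4 := (Finset.card_union_le _ _).trans (by omega)
    have hTs : ∀ s ∈ S ∪ E, -s ∈ S ∪ E := by
      intro s hs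
      rcases Finset.mem_union.1 hs with h' | h'
      · exact Finset.mem_union_left _ (hSneg s h')
      · exact Finset.mem_union_right _ (hEs s h')
    have hgT : ∀ i, g i ≠ 0 → i ∈ S ∪ E := by
      intro i hi
      rcases hg i hi with h' | h'
      · exact Finset.mem_union_left _ h'
      · exact Finset.mem_union_right _ ((hmE i).2 h')
    have hηE : ∀ i, η i ≠ 0 → i ∈ E := fun i hi => (hmE i).2 (hη i hi)
    have htE' : t ∉ E := fun h' => htE ((hmE t).1 h')
    have hfin : ∀ w : ZMod p, η w ≠ 0 → η (-w) ≠ 0 → False := by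
      intro w h1 h2
      have h3 := count_le hp2 g η E (S ∪ E) h1 h2 hηE hgT hEs hTs Finset.subset_union_right ht htE'
        hid J hJ
      have h4 : (2 * E.card - 1) * ((S ∪ E).card - 1) ≤ 7 * (lim + 3) :=
        Nat.mul_le_mul (by omega) (by omega)
      omega
    by_cases hu0 : u = 0
    · have hv0 : v ≠ 0 := by
        intro hv0
        exact huv (by rw [hu0, hv0, add_zero])
      exact hfin v (hv hv0).1 (hv hv0).2
    · exact hfin u (hu hu0).1 (hu hu0).2
  · push Not at hex
    exact rigid_zero hp u v g η hex hη hid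

end Pool.Agent.Lib.MP_baf44c_co.Q1
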