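import Pool.Agent.Lib.MP_baf44c_co.Q1.RigidOps
import Pool.Agent.Lib.MP_baf44c_co.Q1.DfsRigid

/-!
Rigidity for the three types of multipliers.
-/

set_option autoImplicit false

namespace Pool.Agent.Lib.MP_baf44c_co.Q1

open Pool.Agent.Lib.MP_baf44c_co.Q1.Dfs

/-- A pair `(u, v)` of type `ℓ` (`ℓ = 4` or an odd prime), with a successful search. -/
def Entry (p ℓ u v : ℕ) : Prop :=
  0 < u ∧ u < p ∧ 0 < v ∧ v < p ∧ u ≠ v ∧ u + v ≠ p ∧ run4 p u v (lm p) = true ∧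
    ((ℓ = 4 ∧ ((u : ZMod p) - v) ^ 2 = -((u : ZMod p) + v) ^ 2) ∨
      (ℓ ≠ 4 ∧ (((u : ZMod p) - v) ^ ℓ = ((u : ZMod p) + v) ^ ℓ ∨
        ((v : ZMod p) - u) ^ ℓ = ((u : ZMod p) + v) ^ ℓ)))

private theorem two_ne {p : ℕ} [Fact p.Prime] (hp : 32 < p) : (2 : ZMod p) ≠ 0 := by
  have h : ((2 : ℕ) : ZMod p) ≠ 0 := by
    rw [Ne, ZMod.natCast_eq_zero_iff]
    intro h
    have := Nat.le_of_dvd (by norm_num) h
    omega
  simpa using h

private theorem cast_ne {p u : ℕ} [Fact p.Prime] (hu : 0 < u) (hup : u < p) :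
    (u : ZMod p) ≠ 0 := by
  rw [Ne, ZMod.natCast_eq_zero_iff]
  intro h
  have := Nat.le_of_dvd hu h
  omega

private theorem entry_rigid {p ℓ u v : ℕ} [Fact p.Prime] (hp : 32 < p) (h : Entry p ℓ u v) :
    ∃ b : ZMod p, b ≠ 1 ∧ b ≠ -1 ∧ Rigid p (1 + b) (1 - b) (lm p) ∧
      ((ℓ = 4 ∧ b ^ 2 = -1) ∨ (ℓ ≠ 4 ∧ b ^ ℓ = 1)) := by
  obtain ⟨hu, hup, hv, hvp, huv, huv', hrun, htype⟩ := h
  have h2 := two_ne hp
  have hu0 := cast_ne hu hup
  have hv0 := cast_ne hv hvp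
  have hs0 : (u : ZMod p) + v ≠ 0 := by
    rw [← Nat.cast_add, Ne, ZMod.natCast_eq_zero_iff]
    rintro ⟨c, hc⟩
    rcases Nat.lt_or_ge c 1 with h | h
    · interval_cases c
      omega
    · rcases Nat.lt_or_ge c 2 with h' | h'
      · interval_cases c
        omega
      · have : p * 2 ≤ p * c := Nat.mul_le_mul_left p h'
        omega
  have hR := rigid_of_run4 hp hu hup hv hvp huv huv' hrun
  have hc : (2 : ZMod p) / (u + v) ≠ 0 := div_ne_zero h2 hs0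
  have hR1 := rigid_smul hc hR
  set b₀ : ZMod p := (u - v) / (u + v) with hb₀
  have e1 : (2 : ZMod p) / (u + v) * u = 1 + b₀ := by
    rw [hb₀]
    field_simp
    ring
  have e2 : (2 : ZMod p) / (u + v) * v = 1 - b₀ := by
    rw [hb₀]
    field_simp
    ring
  rw [e1, e2] at hR1
  have hn1 : b₀ ≠ 1 := by
    intro h
    rw [h, sub_self] at e2
    exact mul_ne_zero hc hv0 e2
  have hn2 : b₀ ≠ -1 := by
    intro h
    rw [h, add_neg_cancel] at e1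
    exact mul_ne_zero hc hu0 e1
  rcases htype with ⟨h4, ht⟩ | ⟨h4, ht | ht⟩
  · refine ⟨b₀, hn1, hn2, hR1, Or.inl ⟨h4, ?_⟩⟩
    rw [hb₀, div_pow, ht, neg_div, div_self (pow_ne_zero 2 hs0)]
  · refine ⟨b₀, hn1, hn2, hR1, Or.inr ⟨h4, ?_⟩⟩
    rw [hb₀, div_pow, ht, div_self (pow_ne_zero ℓ hs0)]
  · refine ⟨-b₀, fun h => hn2 (by rw [← h, neg_neg]), fun h => hn1 (neg_injective h), ?_,
      Or.inr ⟨h4, ?_⟩⟩
    · have := rigid_symm hR1
      rwa [show 1 + -b₀ = 1 - b₀ by ring, show 1 - -b₀ = 1 + b₀ by ring]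
    · rw [hb₀, ← neg_div, neg_sub, div_pow, ht, div_self (pow_ne_zero ℓ hs0)]

/-- Let `b₀ = (u - v) / (u + v)`; then `(1 + b₀, 1 - b₀) = (2 / (u + v)) (u, v)`, so
`rigid_of_run4` and `rigid_smul` give `Rigid p (1 + b₀) (1 - b₀)`; `b₀ ≠ ±1`.
Case `b = ±1`: `j = 1` and `rigid_of_run3` with `u = 1` (`rigid_smul` by `2`, `rigid_symm` for
`b = -1`). Case `b ^ 2 = -1`: `p % 4 = 1` (`ZMod.exists_sq_eq_neg_one_iff`), entry with `ℓ = 4`,
`b₀ ^ 2 = -1`, so `b = ±b₀`, `j = 1` (`rigid_symm` for `b = -b₀`). Case `b ^ ℓ = 1`, `b ≠ 1`: the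
order of `b` is `ℓ`, so `ℓ ∣ p - 1`; take the entry `(u, v)`; in the second alternative exchange `u`
and `v` (`rigid_symm`), so `b₀ ^ ℓ = 1`; `b` is a primitive `ℓ`-th root, so `b₀ = b ^ j`
(`IsPrimitiveRoot.eq_pow_of_pow_eq_one`). (`b ≠ -1` as `ℓ` is odd.) -/
theorem rigAll_of {p : ℕ} [Fact p.Prime] (hp : 32 < p) (h3 : run3 p 1 (lm p) = true)
    (hent : ∀ ℓ : ℕ, (ℓ = 4 ∧ p % 4 = 1 ∨ ℓ.Prime ∧ ℓ ≠ 2 ∧ ℓ ∣ p - 1) →
      ∃ u v : ℕ, Entry p ℓ u v) : RigAll p := by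
  have h2 := two_ne hp
  have h11 : (1 : ZMod p) ≠ -1 := by
    intro h
    apply h2
    have : (1 : ZMod p) + 1 = 0 := by
      nth_rewrite 1 [h]
      ring
    rw [← this]
    norm_num
  have hR1 : Rigid p 2 0 (lm p) := by
    have h := rigid_smul h2 (rigid_of_run3 hp (u := 1) (by norm_num) (by omega) h3)
    simpa using h
  have hpm : ∀ b : ZMod p, b = 1 ∨ b = -1 → ∃ j : ℕ,
      (b ≠ 1 → b ≠ -1 → b ^ j ≠ 1 ∧ b ^ j ≠ -1) ∧ (b = 1 ∨ b = -1 → j = 1) ∧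
      Rigid p (1 + b ^ j) (1 - b ^ j) (lm p) := by
    rintro b (rfl | rfl)
    · refine ⟨1, fun h => absurd rfl h, fun _ => rfl, ?_⟩
      rw [pow_one, sub_self, one_add_one_eq_two]
      exact hR1
    · refine ⟨1, fun _ h => absurd rfl h, fun _ => rfl, ?_⟩
      rw [pow_one, add_neg_cancel, sub_neg_eq_add, one_add_one_eq_two]
      exact rigid_symm hR1
  intro b hb
  rcases hb with hb | hb | ⟨ℓ, hℓ, hℓ2, hb⟩
  · exact hpm b (sq_eq_one_iff.1 hb)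
  · have hb1 : b ≠ 1 := by
      rintro rfl
      rw [one_pow] at hb
      exact h11 hb
    have hb2 : b ≠ -1 := by
      rintro rfl
      rw [neg_one_sq] at hb
      exact h11 hb
    have hp4 : p % 4 = 1 := by
      have h1 : p % 4 ≠ 3 := ZMod.exists_sq_eq_neg_one_iff.1 ⟨b, by rw [← hb]; ring⟩
      have h2' : p % 2 = 1 := (Fact.out : p.Prime).eq_two_or_odd.resolve_left (by omega)
      omega
    obtain ⟨u, v, huv⟩ := hent 4 (Or.inl ⟨rfl, hp4⟩)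
    obtain ⟨b₀, hn1, hn2, hR, ht⟩ := entry_rigid hp huv
    have hb₀ : b₀ ^ 2 = -1 := by
      rcases ht with ⟨-, h⟩ | ⟨h, -⟩
      · exact h
      · exact absurd rfl h
    refine ⟨1, fun _ _ => by rw [pow_one]; exact ⟨hb1, hb2⟩, fun _ => rfl, ?_⟩
    rw [pow_one]
    rcases sq_eq_sq_iff_eq_or_eq_neg.1 (hb.trans hb₀.symm) with h | h
    · rw [h]
      exact hR
    · rw [h]
      have := rigid_symm hR
      rwa [show 1 + -b₀ = 1 - b₀ by ring, show 1 - -b₀ = 1 + b₀ by ring]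
  · by_cases hb1 : b = 1
    · exact hpm b (Or.inl hb1)
    have hodd : Odd ℓ := hℓ.odd_of_ne_two hℓ2
    have hb2 : b ≠ -1 := by
      rintro rfl
      rw [hodd.neg_one_pow] at hb
      exact h11 hb.symm
    have hb0 : b ≠ 0 := by
      rintro rfl
      rw [zero_pow hℓ.ne_zero] at hb
      exact zero_ne_one hb
    have hord : orderOf b = ℓ := by
      have : Fact ℓ.Prime := ⟨hℓ⟩
      exact orderOf_eq_prime hb hb1
    have hdvd : ℓ ∣ p - 1 := by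
      rw [← hord]
      exact orderOf_dvd_of_pow_eq_one (ZMod.pow_card_sub_one_eq_one hb0)
    obtain ⟨u, v, huv⟩ := hent ℓ (Or.inr ⟨hℓ, hℓ2, hdvd⟩)
    obtain ⟨b₀, hn1, hn2, hR, ht⟩ := entry_rigid hp huv
    have hb₀ : b₀ ^ ℓ = 1 := by
      rcases ht with ⟨h, -⟩ | ⟨-, h⟩
      · exact absurd h (by
          rintro rfl
          exact absurd hℓ (by norm_num))
      · exact h
    have hprim : IsPrimitiveRoot b ℓ := hord ▸ IsPrimitiveRoot.orderOf b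
    have : NeZero ℓ := ⟨hℓ.ne_zero⟩
    obtain ⟨j, -, hj⟩ := hprim.eq_pow_of_pow_eq_one hb₀
    refine ⟨j, fun _ _ => by rw [hj]; exact ⟨hn1, hn2⟩, ?_, by rw [hj]; exact hR⟩
    rintro (h | h)
    · exact absurd h hb1
    · exact absurd h hb2

end Pool.Agent.Lib.MP_baf44c_co.Q1
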