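import Pool.Agent.Lib.MP_baf44c_co.Q1.Defs
import Pool.Agent.Lib.MP_baf44c_co.FB.Half

/-!
The standing data for a pair of roots of unity of the same order.
-/

set_option autoImplicit false

namespace Pool.Agent.Lib.MP_baf44c_co.Q1

open Polynomial Pool.Agent.Lib.MP_baf44c_co.FB

/-- `x` has order `N`, `φ N > 4`, and `D x * D (x ^ h)` is a square for some `h ≢ ±1` prime to
`N`. -/
structure Pr (N h : ℕ) (x : ℂ) : Prop where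
  htot : 4 < N.totient
  hx : IsPrimitiveRoot x N
  hh : h.Coprime N
  h1 : x ^ h ≠ x
  h2 : x ^ h ≠ x⁻¹
  hs : SqPair x (x ^ h)

/-- `x = ζ₀ ^ (2 ^ a c)` for a primitive `2 ^ a N`-th root `ζ₀` and `c` prime to `N`; replace `c` by
`c' ≡ c` mod `N` prime to `2 N`, `ζ = ζ₀ ^ c'`. -/
theorem exists_zeta {N : ℕ} (a : ℕ) (hN : 0 < N) {x : ℂ} (hx : IsPrimitiveRoot x N) :
    ∃ ζ ∈ primitiveRoots (2 ^ a * N) ℂ, ζ ^ (2 ^ a) = x := by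
  have hM : 0 < 2 ^ a * N := by positivity
  have : NeZero N := ⟨hN.ne'⟩
  have h0 := Complex.isPrimitiveRoot_exp (2 ^ a * N) hM.ne'
  obtain ⟨ζ₀, hζ₀⟩ : ∃ ζ₀ : ℂ, IsPrimitiveRoot ζ₀ (2 ^ a * N) := ⟨_, h0⟩
  have h1 : IsPrimitiveRoot (ζ₀ ^ (2 ^ a)) N := hζ₀.pow hM rfl
  obtain ⟨c, -, hc, hxc⟩ := (h1.isPrimitiveRoot_iff).1 hx
  obtain ⟨c', hc', hodd, hxc'⟩ : ∃ c' : ℕ, c'.Coprime N ∧ c'.Coprime 2 ∧
      (ζ₀ ^ (2 ^ a)) ^ c' = x := by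
    by_cases h2 : c.Coprime 2
    · exact ⟨c, hc, h2, hxc⟩
    · refine ⟨c + N, ?_, ?_, ?_⟩
      · rwa [Nat.coprime_add_self_left]
      · rw [Nat.coprime_two_right] at h2 ⊢
        rw [Nat.not_odd_iff_even] at h2
        have hNodd : Odd N := by
          rw [← Nat.not_even_iff_odd]
          intro hNe
          have h3 : 2 ∣ Nat.gcd c N := Nat.dvd_gcd h2.two_dvd hNe.two_dvd
          rw [hc] at h3
          omega
        exact h2.add_odd hNodd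
      · rw [pow_add, h1.pow_eq_one, mul_one, hxc]
  refine ⟨ζ₀ ^ c', (mem_primitiveRoots hM).2 (hζ₀.pow_of_coprime c' ?_), ?_⟩
  · exact Nat.Coprime.mul_right (Nat.Coprime.pow_right a hodd) hc'
  · rw [← hxc', ← pow_mul, ← pow_mul, mul_comm]

/-- `exists_zeta` and `exists_half`. -/
theorem setup {N a h : ℕ} (hN : 0 < N) (ha : 1 ≤ a) {x z : ℂ} (hx : IsPrimitiveRoot x N)
    (hz : z ∈ cyc (2 ^ a * N)) (hz2 : z ^ 2 = D x * D (x ^ h)) :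
    ∃ ζ ∈ primitiveRoots (2 ^ a * N) ℂ, ζ ^ (2 * (2 ^ (a - 1) : ℤ)) = x ∧
      ζ ^ (2 * (2 ^ (a - 1) * h : ℤ)) = x ^ h ∧ ∃ G : ℂ → ℂ, IsCyc (2 ^ a * N) G ∧
      ∀ μ ∈ primitiveRoots (2 ^ a * N) ℂ,
        (eta (2 ^ (a - 1)) (2 ^ (a - 1) * h) μ + 2 * G μ) ^ 2 =
          D (μ ^ (2 * (2 ^ (a - 1) : ℤ))) * D (μ ^ (2 * (2 ^ (a - 1) * h : ℤ))) := by
  obtain ⟨ζ, hζ, hζx⟩ := exists_zeta a hN hx
  have hM : 0 < 2 ^ a * N := by positivity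
  have e1 : (2 * (2 ^ (a - 1) : ℤ)) = ((2 ^ a : ℕ) : ℤ) := by
    push_cast
    rw [← pow_succ']
    congr 1
    omega
  have hx1 : ζ ^ (2 * (2 ^ (a - 1) : ℤ)) = x := by
    rw [e1, zpow_natCast, hζx]
  have hx2 : ζ ^ (2 * (2 ^ (a - 1) * h : ℤ)) = x ^ h := by
    rw [← mul_assoc, zpow_mul, hx1, zpow_natCast]
  rw [← hx2, ← hx1] at hz2
  obtain ⟨G, hG, -, hG2⟩ := exists_half hM hζ (2 ^ (a - 1)) (2 ^ (a - 1) * h) hz hz2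
  exact ⟨ζ, hζ, hx1, hx2, G, hG, hG2⟩

end Pool.Agent.Lib.MP_baf44c_co.Q1
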