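import Pool.Agent.Lib.MP_baf44c_co.Q1.Minor
import Pool.Agent.Lib.MP_baf44c_co.Q1.Reps
import Pool.Agent.Lib.MP_baf44c_co.Q1.Defs

/-!
The equation `g * g = g * η` in the group algebra of `ZMod n` for `n > 1000` odd and supports of at
most `6` pairs of opposite classes.
-/

set_option autoImplicit false

namespace Pool.Agent.Lib.MP_baf44c_co.Q1

open Polynomial Pool.Agent.Lib.MP_baf44c_co.FB

/-- The product of two lifted elements. -/
private theorem lift_mul {n : ℕ} [NeZero n] (T : Finset (ZMod n)) {W : Type} [AddCommGroup W]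
    (ℓ L : ZMod n → W) (hL : ∀ a ∈ T, ∀ b ∈ T, ℓ a + ℓ b = L (a + b)) {K : Type} [Field K]
    (f h : ZMod n → K) (hf : ∀ i, f i ≠ 0 → i ∈ T) (hh : ∀ i, h i ≠ 0 → i ∈ T) :
    (∑ t, AddMonoidAlgebra.single (ℓ t) (f t)) * (∑ t, AddMonoidAlgebra.single (ℓ t) (h t)) =
      ∑ γ, AddMonoidAlgebra.single (L γ) (∑ i, f i * h (γ - i)) := by
  rw [Finset.sum_mul_sum]
  have h1 : ∀ a b : ZMod n, AddMonoidAlgebra.single (ℓ a) (f a) * AddMonoidAlgebra.single (ℓ b) (h b) =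
      AddMonoidAlgebra.single (L (a + b)) (f a * h b) := by
    intro a b
    rw [AddMonoidAlgebra.single_mul_single]
    by_cases ha : f a = 0
    · rw [ha, zero_mul, AddMonoidAlgebra.single_zero, AddMonoidAlgebra.single_zero]
    · by_cases hb : h b = 0
      · rw [hb, mul_zero, AddMonoidAlgebra.single_zero, AddMonoidAlgebra.single_zero]
      · rw [hL a (hf a ha) b (hh b hb)]
  simp_rw [h1]
  have h2 : ∀ a : ZMod n, ∑ b, AddMonoidAlgebra.single (L (a + b)) (f a * h b) =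
      ∑ γ, AddMonoidAlgebra.single (L γ) (f a * h (γ - a)) := by
    intro a
    refine Fintype.sum_equiv (Equiv.addLeft a) _ _ fun b => ?_
    simp
  simp_rw [h2]
  rw [Finset.sum_comm]
  refine Finset.sum_congr rfl fun γ _ => ?_
  exact (map_sum (AddMonoidAlgebra.singleAddHom (R := K) (L γ)) _ _).symm

/-- Sums of coefficients of a lifted element. -/
private theorem coeff_fibre {n : ℕ} [NeZero n] (T : Finset (ZMod n)) {W : Type} [AddCommGroup W]
    (ℓ : ZMod n → W) (D : ℕ)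
    (hℓ : ∀ a ∈ T, ∀ b ∈ T, ℓ a = ℓ b → (D : ZMod n) * a = (D : ZMod n) * b) (w : ZMod n)
    {K : Type} [Field K] (A : Finset W)
    (hA : ∀ x, x ∈ A ↔ ∃ t ∈ T, (D : ZMod n) * t = w ∧ ℓ t = x)
    (f : ZMod n → K) (hf : ∀ i, f i ≠ 0 → i ∈ T) :
    ∑ x ∈ A, (∑ t, AddMonoidAlgebra.single (ℓ t) (f t)).coeff x =
      ∑ i ∈ Finset.univ.filter (fun i => (D : ZMod n) * i = w), f i := by
  classical
  have h1 : ∀ x, (∑ t, AddMonoidAlgebra.single (ℓ t) (f t)).coeff x =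
      ∑ t, if ℓ t = x then f t else 0 := by
    intro x
    rw [AddMonoidAlgebra.coeff_sum, Finsupp.finsetSum_apply]
    refine Finset.sum_congr rfl fun t _ => ?_
    rw [AddMonoidAlgebra.coeff_single, Finsupp.single_apply]
  simp_rw [h1]
  rw [Finset.sum_comm, Finset.sum_filter]
  refine Finset.sum_congr rfl fun t _ => ?_
  rw [Finset.sum_ite_eq]
  by_cases hft : f t = 0
  · simp [hft]
  · have htT := hf t hft
    by_cases hw : (D : ZMod n) * t = w
    · rw [if_pos ((hA _).mpr ⟨t, htT, hw, rfl⟩), if_pos hw]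
    · rw [if_neg hw, if_neg]
      intro hmem
      obtain ⟨t', ht', hw', he⟩ := (hA _).mp hmem
      exact hw ((hℓ t htT t' ht' he.symm).trans hw')

/-- Lifting to a torsion-free group. Let `W = (Fin k → ℚ) ⧸ span ℚ (toQ '' R)` with
`R = {e a + e b - e c - e d | a b c d ∈ T, a + b = c + d}`, `ℓ t = [e t]`. For `a, b ∈ T` the element
`ℓ a + ℓ b` depends on `a + b` only, so in `AddMonoidAlgebra K W` (no zero divisors: `W` is a
`ℚ`-vector space, `TwoUniqueSums`) the elements `Γ = ∑ t ∈ T, single (ℓ t) (g t)` and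
`H = ∑ t ∈ T, single (ℓ t) (η t)` satisfy `Γ * Γ = Γ * H`. So `Γ = 0` or `Γ = H`. If
`ℓ t = ℓ t'` then `toQ (e t - e t')` is in the span, so `D • (e t - e t') ∈ closure R`, and applying
`v ↦ ∑ j, v j * s j`, which kills `R`, gives `D * t = D * t'`. So `t ↦ D * t` factors through `ℓ` on
`T`, and `∑ (D i = w) g i` is a sum of coefficients of `Γ`. -/
theorem w_core {n : ℕ} [NeZero n] (T : Finset (ZMod n)) {k : ℕ} (s : Fin k → ZMod n)
    (e : ZMod n → Fin k → ℤ) (he : ∀ t ∈ T, ∑ j, (e t j : ZMod n) * s j = t) (D : ℕ)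
    (hD : ∀ v : Fin k → ℤ, toQ v ∈ Submodule.span ℚ (toQ ''
        {r | ∃ a ∈ T, ∃ b ∈ T, ∃ c ∈ T, ∃ d ∈ T, a + b = c + d ∧ r = e a + e b - e c - e d}) →
      (D : ℤ) • v ∈ AddSubgroup.closure
        {r | ∃ a ∈ T, ∃ b ∈ T, ∃ c ∈ T, ∃ d ∈ T, a + b = c + d ∧ r = e a + e b - e c - e d})
    {K : Type} [Field K] (g η : ZMod n → K) (hg : ∀ i, g i ≠ 0 → i ∈ T)
    (hη : ∀ i, η i ≠ 0 → i ∈ T) (hid : ∀ γ, ∑ i, g i * g (γ - i) = ∑ i, g i * η (γ - i)) :
    (∀ w : ZMod n, ∑ i ∈ Finset.univ.filter (fun i => (D : ZMod n) * i = w), g i = 0) ∨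
    (∀ w : ZMod n, ∑ i ∈ Finset.univ.filter (fun i => (D : ZMod n) * i = w), g i =
      ∑ i ∈ Finset.univ.filter (fun i => (D : ZMod n) * i = w), η i) := by
  classical
  obtain ⟨R, hR⟩ : ∃ R : Set (Fin k → ℤ), R =
      {r | ∃ a ∈ T, ∃ b ∈ T, ∃ c ∈ T, ∃ d ∈ T, a + b = c + d ∧ r = e a + e b - e c - e d} :=
    ⟨_, rfl⟩
  rw [← hR] at hD
  set ℓ : ZMod n → ((Fin k → ℚ) ⧸ Submodule.span ℚ (toQ '' R)) :=
    fun t => Submodule.Quotient.mk (toQ (e t)) with hℓ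
  -- `ℓ a + ℓ b` depends on `a + b` only
  have hdep : ∀ a ∈ T, ∀ b ∈ T, ∀ c ∈ T, ∀ d ∈ T, a + b = c + d → ℓ a + ℓ b = ℓ c + ℓ d := by
    intro a ha b hb c hc d hd hs
    rw [hℓ]
    simp only
    rw [← Submodule.Quotient.mk_add, ← Submodule.Quotient.mk_add, Submodule.Quotient.eq]
    have h1 : toQ (e a) + toQ (e b) - (toQ (e c) + toQ (e d)) = toQ (e a + e b - e c - e d) := by
      funext j
      simp only [toQ, Pi.add_apply, Pi.sub_apply]
      push_cast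
      ring
    rw [h1]
    refine Submodule.subset_span ⟨_, ?_, rfl⟩
    rw [hR]
    exact ⟨a, ha, b, hb, c, hc, d, hd, hs, rfl⟩
  obtain ⟨L, hL⟩ : ∃ L : ZMod n → ((Fin k → ℚ) ⧸ Submodule.span ℚ (toQ '' R)),
      ∀ a ∈ T, ∀ b ∈ T, ℓ a + ℓ b = L (a + b) := by
    have : ∀ γ : ZMod n, ∃ x : ((Fin k → ℚ) ⧸ Submodule.span ℚ (toQ '' R)),
        ∀ a ∈ T, ∀ b ∈ T, a + b = γ → ℓ a + ℓ b = x := by
      intro γ
      by_cases h : ∃ a ∈ T, ∃ b ∈ T, a + b = γ
      · obtain ⟨a, ha, b, hb, hab⟩ := h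
        exact ⟨ℓ a + ℓ b, fun c hc d hd hcd => hdep c hc d hd a ha b hb (hcd.trans hab.symm)⟩
      · exact ⟨0, fun a ha b hb hab => absurd ⟨a, ha, b, hb, hab⟩ h⟩
    choose L hL using this
    exact ⟨L, fun a ha b hb => hL _ a ha b hb rfl⟩
  -- `ℓ` determines `D * t`
  have hℓD : ∀ a ∈ T, ∀ b ∈ T, ℓ a = ℓ b → (D : ZMod n) * a = (D : ZMod n) * b := by
    intro a ha b hb hab
    rw [hℓ] at hab
    simp only at hab
    rw [Submodule.Quotient.eq] at hab
    have h1 : toQ (e a) - toQ (e b) = toQ (e a - e b) := by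
      funext j
      simp only [toQ, Pi.sub_apply]
      push_cast
      ring
    rw [h1] at hab
    have h2 := hD _ hab
    let φ : (Fin k → ℤ) →+ ZMod n :=
      { toFun := fun v => ∑ j, (v j : ZMod n) * s j
        map_zero' := by simp
        map_add' := by
          intro v v'
          simp [add_mul, Finset.sum_add_distrib] }
    have hφ : ∀ v, φ v = ∑ j, (v j : ZMod n) * s j := fun _ => rfl
    have h3 : AddSubgroup.closure R ≤ φ.ker := by
      rw [AddSubgroup.closure_le]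
      intro r hr
      rw [hR] at hr
      obtain ⟨a, ha, b, hb, c, hc, d, hd, hs, rfl⟩ := hr
      show φ _ = 0
      rw [map_sub, map_sub, map_add, hφ, hφ, hφ, hφ, he a ha, he b hb, he c hc, he d hd, hs]
      ring
    have h4 : φ ((D : ℤ) • (e a - e b)) = 0 := h3 h2
    rw [map_zsmul, map_sub, hφ, hφ, he a ha, he b hb] at h4
    have h5 : (D : ZMod n) * (a - b) = 0 := by
      rw [← h4]
      simp
    rw [mul_sub] at h5
    exact sub_eq_zero.mp h5
  have hmul : (∑ t, AddMonoidAlgebra.single (ℓ t) (g t)) * (∑ t, AddMonoidAlgebra.single (ℓ t) (g t)) =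
      (∑ t, AddMonoidAlgebra.single (ℓ t) (g t)) * (∑ t, AddMonoidAlgebra.single (ℓ t) (η t)) := by
    rw [lift_mul T ℓ L hL g g hg hg, lift_mul T ℓ L hL g η hg hη]
    refine Finset.sum_congr rfl fun γ _ => ?_
    rw [hid γ]
  have hfib : ∀ w : ZMod n, ∃ A : Finset ((Fin k → ℚ) ⧸ Submodule.span ℚ (toQ '' R)),
      ∀ x, x ∈ A ↔ ∃ t ∈ T, (D : ZMod n) * t = w ∧ ℓ t = x := by
    intro w
    refine ⟨(T.filter (fun t => (D : ZMod n) * t = w)).image ℓ, fun x => ?_⟩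
    simp only [Finset.mem_image, Finset.mem_filter]
    constructor
    · rintro ⟨t, ⟨ht, hw⟩, hx⟩
      exact ⟨t, ht, hw, hx⟩
    · rintro ⟨t, ht, hw, hx⟩
      exact ⟨t, ⟨ht, hw⟩, hx⟩
  have hdis : (∑ t, AddMonoidAlgebra.single (ℓ t) (g t)) = 0 ∨
      (∑ t, AddMonoidAlgebra.single (ℓ t) (g t)) = ∑ t, AddMonoidAlgebra.single (ℓ t) (η t) := by
    rw [← sub_eq_zero, ← mul_sub] at hmul
    rcases mul_eq_zero.mp hmul with h | h
    · exact Or.inl h
    · exact Or.inr (sub_eq_zero.mp h)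
  rcases hdis with h | h
  · left
    intro w
    obtain ⟨A, hA⟩ := hfib w
    rw [← coeff_fibre T ℓ D hℓD w A hA g hg, h]
    simp
  · right
    intro w
    obtain ⟨A, hA⟩ := hfib w
    rw [← coeff_fibre T ℓ D hℓD w A hA g hg, ← coeff_fibre T ℓ D hℓD w A hA η hη, h]

end Pool.Agent.Lib.MP_baf44c_co.Q1
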